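import Mathlib

/-!
# CSG/LDa: toolkit on local diffeomorphisms (Mathlib's `IsLocalDiffeomorphAt`)

All statements are routine; `IsLocalDiffeomorphAt I J n f x` unfolds to
`∃ Φ : PartialDiffeomorph I J M N n, x ∈ Φ.source ∧ EqOn f Φ Φ.source`.
-/

open scoped Manifold ContDiff Topology
open Set Filter

namespace Pool.Agent.CSG

variable {𝕜 : Type*} [NontriviallyNormedField 𝕜]
  {E : Type*} [NormedAddCommGroup E] [NormedSpace 𝕜 E]
  {F : Type*} [NormedAddCommGroup F] [NormedSpace 𝕜 F]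
  {F' : Type*} [NormedAddCommGroup F'] [NormedSpace 𝕜 F']
  {H₁ : Type*} [TopologicalSpace H₁] {H₂ : Type*} [TopologicalSpace H₂]
  {H₃ : Type*} [TopologicalSpace H₃]
  {I : ModelWithCorners 𝕜 E H₁} {J : ModelWithCorners 𝕜 F H₂} {K : ModelWithCorners 𝕜 F' H₃}
  {M : Type*} [TopologicalSpace M] [ChartedSpace H₁ M]
  {N : Type*} [TopologicalSpace N] [ChartedSpace H₂ N]
  {P : Type*} [TopologicalSpace P] [ChartedSpace H₃ P] {n : WithTop ℕ∞}

/-- restriction of a partial diffeomorphism to an open set -/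
def LDa_restr (Φ : PartialDiffeomorph I J M N n) (U : Set M) (hU : IsOpen U) :
    PartialDiffeomorph I J M N n where
  toPartialEquiv := (Φ.toOpenPartialHomeomorph.restrOpen U hU).toPartialEquiv
  open_source := (Φ.toOpenPartialHomeomorph.restrOpen U hU).open_source
  open_target := (Φ.toOpenPartialHomeomorph.restrOpen U hU).open_target
  contMDiffOn_toFun := Φ.contMDiffOn_toFun.mono inter_subset_left
  contMDiffOn_invFun := Φ.contMDiffOn_invFun.mono inter_subset_left

theorem ld_congr {f g : M → N} {x : M} (hf : IsLocalDiffeomorphAt I J n f x)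
    (h : g =ᶠ[𝓝 x] f) : IsLocalDiffeomorphAt I J n g x := by
  obtain ⟨Φ, hx, heq⟩ := hf
  obtain ⟨U, hUsub, hU, hxU⟩ := mem_nhds_iff.1 h
  refine ⟨LDa_restr Φ U hU, ⟨hx, hxU⟩, ?_⟩
  rintro y ⟨hy1, hy2⟩
  have h1 : g y = f y := hUsub hy2
  rw [h1]
  exact heq hy1

theorem ld_id (x : M) : IsLocalDiffeomorphAt I I n (id : M → M) x :=
  (Diffeomorph.refl I M n).isLocalDiffeomorph x

theorem ld_continuousAt {f : M → N} {x : M} (hf : IsLocalDiffeomorphAt I J n f x) :
    ContinuousAt f x :=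
  hf.contMDiffAt.continuousAt

theorem ld_eventually {f : M → N} {x : M} (hf : IsLocalDiffeomorphAt I J n f x) :
    ∀ᶠ y in 𝓝 x, IsLocalDiffeomorphAt I J n f y := by
  obtain ⟨Φ, hx, heq⟩ := hf
  filter_upwards [Φ.open_source.mem_nhds hx] with y hy
  exact ⟨Φ, hy, heq⟩

theorem ld_injOn {f : M → N} {x : M} (hf : IsLocalDiffeomorphAt I J n f x) :
    ∃ U ∈ 𝓝 x, InjOn f U := by
  obtain ⟨Φ, hx, heq⟩ := hf
  exact ⟨Φ.source, Φ.open_source.mem_nhds hx, Φ.toPartialEquiv.injOn.congr heq.symm⟩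

theorem ld_image_nhds {f : M → N} {x : M} (hf : IsLocalDiffeomorphAt I J n f x)
    {U : Set M} (hU : U ∈ 𝓝 x) : f '' U ∈ 𝓝 (f x) := by
  obtain ⟨Φ, hx, heq⟩ := hf
  have h1 : Filter.map Φ (𝓝 x) = 𝓝 (Φ x) := Φ.toOpenPartialHomeomorph.map_nhds_eq hx
  have h2 : f =ᶠ[𝓝 x] Φ := Filter.eventuallyEq_of_mem (Φ.open_source.mem_nhds hx) heq
  have h3 : Filter.map f (𝓝 x) = 𝓝 (f x) := by
    rw [Filter.map_congr h2, h1, heq hx]
  rw [← h3]
  exact Filter.image_mem_map hU

/-- `g ∘ f` and `f` local diffeomorphisms at `x` imply `g` local diffeomorphism at `f x`. -/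
theorem ld_of_comp_left {f : M → N} {g : N → P} {x : M}
    (hgf : IsLocalDiffeomorphAt I K n (g ∘ f) x) (hf : IsLocalDiffeomorphAt I J n f x) :
    IsLocalDiffeomorphAt J K n g (f x) := by
  have h1 := hf.localInverse_isLocalDiffeomorphAt
  have h2 : hf.localInverse (f x) = x := hf.localInverse_left_inv hf.localInverse_mem_target
  have h3 : IsLocalDiffeomorphAt J K n ((g ∘ f) ∘ hf.localInverse) (f x) := by
    refine IsLocalDiffeomorphAt.comp (hf := h1) (hg := ?_) ..
    rw [h2]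
    exact hgf
  refine ld_congr h3 ?_
  filter_upwards [hf.localInverse_eventuallyEq_right] with y hy
  have hy' : f (hf.localInverse y) = y := hy
  show g y = g (f (hf.localInverse y))
  rw [hy']

/-- `g ∘ f` local diffeomorphism at `x`, `g` local diffeomorphism at `f x` and `f` continuous
at `x` imply `f` local diffeomorphism at `x`. -/
theorem ld_of_comp_right {f : M → N} {g : N → P} {x : M}
    (hgf : IsLocalDiffeomorphAt I K n (g ∘ f) x) (hg : IsLocalDiffeomorphAt J K n g (f x))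
    (hf : ContinuousAt f x) :
    IsLocalDiffeomorphAt I J n f x := by
  have h1 := hg.localInverse_isLocalDiffeomorphAt
  have h3 : IsLocalDiffeomorphAt I J n (hg.localInverse ∘ (g ∘ f)) x :=
    IsLocalDiffeomorphAt.comp (hf := hgf) (hg := h1) ..
  refine ld_congr h3 ?_
  have h4 := hf.eventually hg.localInverse_eventuallyEq_left
  filter_upwards [h4] with y hy
  exact hy.symm

end Pool.Agent.CSG
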