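import Pool.Agent.CSG.LDa

/-!
# CSG/LDb: local diffeomorphisms between finite-dimensional vector spaces

`ld_of_fderiv`: inverse function theorem: `ContDiffAt.toOpenPartialHomeomorph`, and
`OpenPartialHomeomorph.contDiffAt_symm` at all points near `x` (the set where the derivative is
invertible and `f` is smooth is open); restrict the source accordingly.
`smooth_symm_of_family`: apply `ld_of_fderiv` to `(x, t) ↦ (g t x, t)`.
-/

open scoped Manifold ContDiff Topology
open Set Filter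

namespace Pool.Agent.CSG

section Real
variable {V : Type*} [NormedAddCommGroup V] [NormedSpace ℝ V] [FiniteDimensional ℝ V]
  {W : Type*} [NormedAddCommGroup W] [NormedSpace ℝ W] [FiniteDimensional ℝ W]

/-- Inverse function theorem. -/
theorem ld_of_fderiv {f : V → W} {x : V} (hf : ∀ᶠ y in 𝓝 x, ContDiffAt ℝ ∞ f y)
    (hdim : Module.finrank ℝ V = Module.finrank ℝ W)
    (h : ∀ v, fderiv ℝ f x v = 0 → v = 0) :
    IsLocalDiffeomorphAt 𝓘(ℝ, V) 𝓘(ℝ, W) ∞ f x := by
  have : CompleteSpace V := FiniteDimensional.complete ℝ V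
  have : CompleteSpace W := FiniteDimensional.complete ℝ W
  have hx : ContDiffAt ℝ ∞ f x := hf.self_of_nhds
  have hn : (∞ : WithTop ℕ∞) ≠ 0 := by simp
  have hinj : Function.Injective (fderiv ℝ f x : V →ₗ[ℝ] W) := by
    rw [← LinearMap.ker_eq_bot, LinearMap.ker_eq_bot']
    exact fun v hv => h v hv
  set e : V ≃L[ℝ] W :=
    (LinearMap.linearEquivOfInjective (fderiv ℝ f x : V →ₗ[ℝ] W) hinj hdim).toContinuousLinearEquiv
    with he
  have he' : (e : V →L[ℝ] W) = fderiv ℝ f x := by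
    ext v
    rfl
  have hd : HasFDerivAt f (e : V →L[ℝ] W) x := by
    rw [he']
    exact (hx.differentiableAt hn).hasFDerivAt
  have hcont : ContinuousAt (fderiv ℝ f) x :=
    (hx.fderiv_right (m := 0) (by simp)).continuousAt
  have hev : ∀ᶠ y in 𝓝 x, fderiv ℝ f y ∈ range ((↑) : (V ≃L[ℝ] W) → V →L[ℝ] W) := by
    apply hcont.eventually
    rw [← he']
    exact ContinuousLinearEquiv.nhds e
  obtain ⟨U, hUsub, hU, hxU⟩ := mem_nhds_iff.1 (hf.and hev)
  set e0 := hx.toOpenPartialHomeomorph f hd hn with he0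
  have hcoe : ∀ y, e0 y = f y := fun y => rfl
  have hsub : ∀ y ∈ U, ContDiffAt ℝ ∞ f y ∧ fderiv ℝ f y ∈ range ((↑) : (V ≃L[ℝ] W) → V →L[ℝ] W) :=
    fun y hy => hUsub hy
  refine ⟨{ toPartialEquiv := (e0.restrOpen U hU).toPartialEquiv
            open_source := (e0.restrOpen U hU).open_source
            open_target := (e0.restrOpen U hU).open_target
            contMDiffOn_toFun := ?_
            contMDiffOn_invFun := ?_ }, ?_, ?_⟩
  · rintro y ⟨hy1, hy2⟩
    exact ((hsub y hy2).1.contMDiffAt).contMDiffWithinAt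
  · intro w hw
    have hw' := (e0.restrOpen U hU).map_target hw
    have hw1 : w ∈ e0.target := hw.1
    have hw2 : e0.symm w ∈ U := hw'.2
    obtain ⟨hs, e2, he2⟩ := hsub _ hw2
    have hd2 : HasFDerivAt e0 (e2 : V →L[ℝ] W) (e0.symm w) := by
      rw [he2]
      exact (hs.differentiableAt hn).hasFDerivAt
    exact (e0.contDiffAt_symm hw1 hd2 hs).contMDiffAt.contMDiffWithinAt
  · exact ⟨ContDiffAt.mem_toOpenPartialHomeomorph_source hx hd hn, hxU⟩
  · intro y hy
    rfl

/-- A permutation which is smooth with smooth inverse. -/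
theorem ld_of_perm {f : V ≃ W} (hf : ContDiff ℝ ∞ f) (hf' : ContDiff ℝ ∞ f.symm) (x : V) :
    IsLocalDiffeomorphAt 𝓘(ℝ, V) 𝓘(ℝ, W) ∞ f x :=
  (Diffeomorph.isLocalDiffeomorph (I := 𝓘(ℝ, V)) (J := 𝓘(ℝ, W)) (n := ∞)
    ⟨f, hf.contMDiff, hf'.contMDiff⟩) x

/-- If `(x, t) ↦ (g (x, t), t)` ... and `g` has a smooth inverse for each `t`. -/
theorem ld_of_family {g : ℝ → V ≃ W} (hg : ContDiff ℝ ∞ fun q : V × ℝ => g q.2 q.1)
    (hg' : ContDiff ℝ ∞ fun q : W × ℝ => (g q.2).symm q.1) (x : V) (t : ℝ) :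
    IsLocalDiffeomorphAt 𝓘(ℝ, V × ℝ) 𝓘(ℝ, W × ℝ) ∞ (fun q : V × ℝ => (g q.2 q.1, q.2)) (x, t) := by
  have h := ld_of_perm (f := (⟨fun q : V × ℝ => (g q.2 q.1, q.2),
    fun q : W × ℝ => ((g q.2).symm q.1, q.2), fun q => by simp, fun q => by simp⟩ :
      V × ℝ ≃ W × ℝ)) (hg.prodMk contDiff_snd) (hg'.prodMk contDiff_snd) (x, t)
  exact h

/-- Conversely a bijective family which is a local diffeomorphism has a smooth inverse. -/
theorem smooth_symm_of_family {g : ℝ → V ≃ W} (hg : ContDiff ℝ ∞ fun q : V × ℝ => g q.2 q.1)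
    (h : ∀ x t v, fderiv ℝ (g t) x v = 0 → v = 0)
    (hdim : Module.finrank ℝ V = Module.finrank ℝ W) :
    ContDiff ℝ ∞ fun q : W × ℝ => (g q.2).symm q.1 := by
  set Φ : V × ℝ → W × ℝ := fun q => (g q.2 q.1, q.2) with hΦ
  have hΦs : ContDiff ℝ ∞ Φ := hg.prodMk contDiff_snd
  have hn : (∞ : WithTop ℕ∞) ≠ 0 := by simp
  have hld : ∀ q, IsLocalDiffeomorphAt 𝓘(ℝ, V × ℝ) 𝓘(ℝ, W × ℝ) ∞ Φ q := by
    rintro ⟨x, t⟩
    refine ld_of_fderiv (Filter.Eventually.of_forall fun y => hΦs.contDiffAt) ?_ ?_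
    · rw [Module.finrank_prod, Module.finrank_prod, hdim]
    · rintro ⟨v, τ⟩ hv
      have hgd : HasFDerivAt (fun q : V × ℝ => g q.2 q.1)
          (fderiv ℝ (fun q : V × ℝ => g q.2 q.1) (x, t)) (x, t) :=
        (hg.differentiable hn (x, t)).hasFDerivAt
      have hΦd : HasFDerivAt Φ ((fderiv ℝ (fun q : V × ℝ => g q.2 q.1) (x, t)).prod
          (ContinuousLinearMap.snd ℝ V ℝ)) (x, t) := hgd.prodMk hasFDerivAt_snd
      rw [hΦd.fderiv] at hv
      have h1 : fderiv ℝ (fun q : V × ℝ => g q.2 q.1) (x, t) (v, τ) = 0 := congrArg Prod.fst hv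
      have h2 : τ = 0 := congrArg Prod.snd hv
      subst h2
      have h3 : HasFDerivAt (g t) ((fderiv ℝ (fun q : V × ℝ => g q.2 q.1) (x, t)).comp
          (ContinuousLinearMap.inl ℝ V ℝ)) x := by
        have h4 : HasFDerivAt (fun y : V => (y, t)) (ContinuousLinearMap.inl ℝ V ℝ) x :=
          hasFDerivAt_prodMk_left x t
        exact HasFDerivAt.comp x hgd h4
      have h5 : v = 0 := by
        apply h x t v
        rw [h3.fderiv]
        exact h1
      rw [h5]
      rfl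
  have hsymm : ∀ q : W × ℝ, Φ ((g q.2).symm q.1, q.2) = q := by
    rintro ⟨w, t⟩
    simp [hΦ]
  rw [contDiff_iff_contDiffAt]
  intro q
  set q' : V × ℝ := ((g q.2).symm q.1, q.2) with hq'
  have hq : Φ q' = q := hsymm q
  have hL := (hld q').localInverse_contMDiffAt
  rw [hq] at hL
  have hLd : ContDiffAt ℝ ∞ (hld q').localInverse q := contMDiffAt_iff_contDiffAt.1 hL
  have hev := (hld q').localInverse_eventuallyEq_right
  rw [hq] at hev
  have h6 : ContDiffAt ℝ ∞ (fun y => ((hld q').localInverse y).1) q := hLd.fst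
  refine h6.congr_of_eventuallyEq ?_
  filter_upwards [hev] with y hy
  have hy' : Φ ((hld q').localInverse y) = y := hy
  have h7 : g ((hld q').localInverse y).2 ((hld q').localInverse y).1 = y.1 := congrArg Prod.fst hy'
  have h8 : ((hld q').localInverse y).2 = y.2 := congrArg Prod.snd hy'
  rw [h8] at h7
  rw [← h7, Equiv.symm_apply_apply]

end Real

end Pool.Agent.CSG
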