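import Pool.Agent.CSG.LDa
import Pool.Agent.CSG.LDb

/-! # CSG/LD: toolkit on local diffeomorphisms: `LDa`, `LDb` -/
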