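import Pool.Agent.CSG.Surg
import Pool.Agent.CSG.LD

/-!
# CSG/Ext: basic facts on `Mono` and `Surg`, and the extension lemma

`surg_of_period`: surgery data is determined by one period `-1/8 < t < 1`.
Given `G` on `(-1/8, 1)` with `G (φ x, t) = G (x, t + 1)` for `-1/8 < t < 0`, put
`H (x, t) = G (φ^⌊t⌋ x, t - ⌊t⌋)` (integer power in `Equiv.Perm E3`).  For `k : ℤ` the formula
`H (x, t) = G (φ^k x, t - k)` holds for all `t ∈ (k - 1/8, k + 1)`, which is an open neighbourhood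
of `[k, k+1)`, so `H` is a local diffeomorphism everywhere off the lattice.
`glue` for `1 ≤ t < 9/8`: `j (y, r e^{2πit}) = j (y, r e^{2πi(t-1)}) = G (P (t-1) (r y), t - 1)`
and `H (P t (r y), t) = G (φ (P t (r y)), t - 1)`, use `P_mon`.
-/

open scoped Manifold ContDiff Topology
open Set Filter

namespace Pool.Agent.CSG

theorem vec_add (m m' : Fin 3 → ℤ) : vec (m + m') = vec m + vec m' := by
  ext i
  simp [vec]

theorem vec_zero : vec 0 = 0 := by
  ext i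
  simp [vec]

theorem vec_neg (m : Fin 3 → ℤ) : vec (-m) = -vec m := by
  ext i
  simp [vec]

theorem Ext_vec_apply (m : Fin 3 → ℤ) (i : Fin 3) : vec m i = m i := rfl

theorem isLat_iff (x : E3) : IsLat x ↔ ∀ i, ∃ k : ℤ, x i = k := by
  constructor
  · rintro ⟨m, rfl⟩ i
    exact ⟨m i, rfl⟩
  · intro h
    choose m hm using h
    refine ⟨m, ?_⟩
    ext i
    rw [hm, Ext_vec_apply]

theorem isLat_add_vec (x : E3) (m : Fin 3 → ℤ) : IsLat (x + vec m) ↔ IsLat x := by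
  constructor
  · rintro ⟨k, hk⟩
    refine ⟨k + -m, ?_⟩
    rw [vec_add, vec_neg, ← hk]
    abel
  · rintro ⟨k, rfl⟩
    exact ⟨k + m, (vec_add _ _).symm⟩

/-- A point of norm `< 1`, nonzero, is not in the lattice; more generally some coordinate is
not an integer. -/
theorem not_isLat_of_norm {x : E3} (h0 : x ≠ 0) (h : ‖x‖ < 1) : ¬ IsLat x := by
  rintro ⟨m, rfl⟩
  apply h0
  have h1 : ∀ i, m i = 0 := by
    intro i
    have h2 : ‖(vec m) i‖ ≤ ‖vec m‖ := PiLp.norm_apply_le _ i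
    rw [Ext_vec_apply, Real.norm_eq_abs] at h2
    have h3 : |((m i : ℤ) : ℝ)| < 1 := h2.trans_lt h
    have h4 : |m i| < 1 := by exact_mod_cast h3
    exact Int.abs_lt_one_iff.mp h4
  have h5 : m = 0 := funext h1
  rw [h5, vec_zero]

/-- The lattice is closed. -/
theorem isClosed_isLat : IsClosed {x : E3 | IsLat x} := by
  have h1 : {x : E3 | IsLat x} = ⋂ i : Fin 3, (fun x : E3 => x i) ⁻¹' (Set.range (fun k : ℤ => (k : ℝ))) := by
    ext x
    rw [Set.mem_iInter]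
    show IsLat x ↔ _
    rw [isLat_iff]
    constructor
    · intro h i
      obtain ⟨k, hk⟩ := h i
      exact ⟨k, hk.symm⟩
    · intro h i
      obtain ⟨k, hk⟩ := h i
      exact ⟨k, hk.symm⟩
  rw [h1]
  apply isClosed_iInter
  intro i
  apply IsClosed.preimage
  · fun_prop
  · exact Int.isClosedEmbedding_coe_real.isClosed_range

theorem Mono.isLat {A φ} (h : Mono A φ) (x : E3) : IsLat (φ x) ↔ IsLat x := by
  constructor
  · rintro ⟨m, hm⟩
    refine ⟨A⁻¹.mulVec m, ?_⟩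
    apply φ.injective
    have h1 := h.lat 0 (A⁻¹.mulVec m)
    rw [zero_add, h.zero, zero_add, Matrix.mulVec_mulVec, Matrix.mul_nonsing_inv A h.unit,
      Matrix.one_mulVec] at h1
    rw [h1, hm]
  · rintro ⟨m, rfl⟩
    have h1 := h.lat 0 m
    rw [zero_add, h.zero, zero_add] at h1
    exact ⟨_, h1⟩

theorem Mono.one : Mono 1 1 := by
  refine ⟨contDiff_id, contDiff_id, fun x m => ?_, rfl, ?_⟩
  · rw [Matrix.one_mulVec]
    rfl
  · rw [Matrix.det_one]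
    exact isUnit_one

theorem Mono.mul {A B φ ψ} (h : Mono A φ) (h' : Mono B ψ) : Mono (A * B) (φ * ψ) := by
  refine ⟨h.smooth.comp h'.smooth, ?_, fun x m => ?_, ?_, ?_⟩
  · exact h'.smooth_symm.comp h.smooth_symm
  · show φ (ψ (x + vec m)) = φ (ψ x) + _
    rw [h'.lat, h.lat, Matrix.mulVec_mulVec]
  · show φ (ψ 0) = 0
    rw [h'.zero, h.zero]
  · rw [Matrix.det_mul]
    exact h.unit.mul h'.unit

theorem Mono.inv {A φ} (h : Mono A φ) : Mono A⁻¹ φ⁻¹ := by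
  refine ⟨h.smooth_symm, h.smooth, fun x m => ?_, ?_, ?_⟩
  · apply φ.injective
    show φ (φ.symm (x + vec m)) = φ (φ.symm x + _)
    rw [h.lat, Equiv.apply_symm_apply, Equiv.apply_symm_apply, Matrix.mulVec_mulVec,
      Matrix.mul_nonsing_inv A h.unit, Matrix.one_mulVec]
  · apply φ.injective
    show φ (φ.symm 0) = φ 0
    rw [Equiv.apply_symm_apply, h.zero]
  · exact Matrix.isUnit_nonsing_inv_det _ h.unit

theorem Ext_pow {A φ} (h : Mono A φ) (n : ℕ) : ∃ B, Mono B (φ ^ n) := by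
  induction n with
  | zero => exact ⟨1, by rw [pow_zero]; exact Mono.one⟩
  | succ n ih =>
    obtain ⟨B, hB⟩ := ih
    exact ⟨B * A, by rw [pow_succ]; exact hB.mul h⟩

/-- All integer powers of a monodromy are monodromies. -/
theorem Mono.zpow {A φ} (h : Mono A φ) (k : ℤ) : ∃ B, Mono B (φ ^ k) := by
  obtain ⟨n, rfl | rfl⟩ := Int.eq_nat_or_neg k
  · rw [zpow_natCast]
    exact Ext_pow h n
  · rw [zpow_neg, zpow_natCast]
    obtain ⟨B, hB⟩ := Ext_pow h n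
    exact ⟨B⁻¹, hB.inv⟩

section
variable {X : Type*} [TopologicalSpace X] [ChartedSpace E4 X]

/-- the shift in the base -/
def Ext_shift (φ : Equiv.Perm E3) (k : ℝ) : (E3 × ℝ) ≃ (E3 × ℝ) where
  toFun q := (φ q.1, q.2 - k)
  invFun q := (φ.symm q.1, q.2 + k)
  left_inv q := by simp
  right_inv q := by simp

/-- Extension lemma. -/
theorem surg_of_period {A : Matrix (Fin 3) (Fin 3) ℤ} {φ : Equiv.Perm E3} (hφ : Mono A φ)
    (G : E3 × ℝ → X) (j : S2 × ℂ → X) (P : ℝ → E3 ≃L[ℝ] E3)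
    (P_smooth : ContDiff ℝ ∞ fun q : ℝ × E3 => P q.1 q.2)
    (P_mon : ∀ t z, -(1 / 8) < t → t < 1 / 8 → ‖z‖ < 1 → φ (P (t + 1) z) = P t z)
    (P_avoid : ∀ t z, -(1 / 8) < t → t < 9 / 8 → z ≠ 0 → ‖z‖ < 1 → ¬ IsLat (P t z))
    (G_loc : ∀ x t, ¬ IsLat x → -(1 / 8) < t → t < 1 →
      IsLocalDiffeomorphAt 𝓘(ℝ, E3 × ℝ) (𝓡 4) ∞ G (x, t))
    (G_per : ∀ x t m, ¬ IsLat x → -(1 / 8) < t → t < 1 → G (x + vec m, t) = G (x, t))
    (G_mon : ∀ x t, ¬ IsLat x → -(1 / 8) < t → t < 0 → G (φ x, t) = G (x, t + 1))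
    (G_inj : ∀ x y s t, ¬ IsLat x → ¬ IsLat y → 0 ≤ s → s < 1 → 0 ≤ t → t < 1 →
      G (x, s) = G (y, t) → s = t ∧ ∃ m, y = x + vec m)
    (j_loc : ∀ y v, ‖v‖ < 1 → IsLocalDiffeomorphAt ((𝓡 2).prod 𝓘(ℝ, ℂ)) (𝓡 4) ∞ j (y, v))
    (j_inj : ∀ y y' v v', ‖v‖ < 1 → ‖v'‖ < 1 → j (y, v) = j (y', v') → y = y' ∧ v = v')
    (glue : ∀ (t r : ℝ) (y : S2), -(1 / 8) < t → t < 1 → 0 < r → r < 1 →
      j (y, r * Complex.exp (2 * Real.pi * t * Complex.I)) = G (P t (r • (y : E3)), t))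
    (disj : ∀ y x t, ¬ IsLat x → 0 ≤ t → t < 1 → j (y, 0) ≠ G (x, t))
    (cover : ∀ p : X, (∃ y, p = j (y, 0)) ∨ ∃ x t, ¬ IsLat x ∧ 0 ≤ t ∧ t < 1 ∧ p = G (x, t)) :
    ∃ S : Surg φ X, S.P = P ∧ S.j = j ∧
      ∀ x t, ¬ IsLat x → -(1 / 8) < t → t < 1 → S.H (x, t) = G (x, t) := by
  have hlat : ∀ (k : ℤ) (x : E3), IsLat ((φ ^ k) x) ↔ IsLat x := by
    intro k x
    obtain ⟨B, hB⟩ := hφ.zpow k
    exact hB.isLat x
  set H : E3 × ℝ → X := fun q => G ((φ ^ ⌊q.2⌋) q.1, q.2 - ⌊q.2⌋) with hH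
  -- the key formula
  have key : ∀ (k : ℤ) (x : E3) (t : ℝ), ¬ IsLat x → (k : ℝ) - 1 / 8 < t → t < k + 1 →
      H (x, t) = G ((φ ^ k) x, t - k) := by
    intro k x t hx h1 h2
    rcases le_or_gt (k : ℝ) t with h3 | h3
    · have h4 : ⌊t⌋ = k := Int.floor_eq_iff.mpr ⟨h3, h2⟩
      show G ((φ ^ ⌊t⌋) x, t - ⌊t⌋) = _
      rw [h4]
    · have h4 : ⌊t⌋ = k - 1 := by
        rw [Int.floor_eq_iff]
        push_cast
        constructor <;> linarith
      show G ((φ ^ ⌊t⌋) x, t - ⌊t⌋) = _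
      rw [h4]
      have h5 : ¬ IsLat ((φ ^ (k - 1)) x) := by rwa [hlat]
      have h6 := G_mon ((φ ^ (k - 1)) x) (t - k) h5 (by linarith) (by linarith)
      have h7 : φ ((φ ^ (k - 1)) x) = (φ ^ k) x := by
        rw [← Equiv.Perm.mul_apply, ← zpow_one_add]
        congr 2
        ring
      rw [h7] at h6
      rw [h6]
      congr 2
      push_cast
      ring
  have hH0 : ∀ x t, ¬ IsLat x → -(1 / 8) < t → t < 1 → H (x, t) = G (x, t) := by
    intro x t hx h1 h2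
    have := key 0 x t hx (by push_cast; linarith) (by push_cast; linarith)
    rw [this]
    simp
  refine ⟨⟨H, j, P, P_smooth, P_mon, P_avoid, ?_, ?_, ?_, ?_, j_loc, j_inj, ?_, ?_, ?_⟩, rfl, rfl,
    hH0⟩
  · -- local diffeomorphism
    intro x t hx
    obtain ⟨B, hB⟩ := hφ.zpow ⌊t⌋
    have f1 := Int.floor_le t
    have f2 := Int.lt_floor_add_one t
    have h1 : IsLocalDiffeomorphAt 𝓘(ℝ, E3 × ℝ) 𝓘(ℝ, E3 × ℝ) ∞
        (Ext_shift (φ ^ ⌊t⌋) ⌊t⌋) (x, t) := by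
      apply ld_of_perm
      · exact (hB.smooth.comp contDiff_fst).prodMk (contDiff_snd.sub contDiff_const)
      · exact (hB.smooth_symm.comp contDiff_fst).prodMk (contDiff_snd.add contDiff_const)
    have h2 : IsLocalDiffeomorphAt 𝓘(ℝ, E3 × ℝ) (𝓡 4) ∞ G
        (Ext_shift (φ ^ ⌊t⌋) ⌊t⌋ (x, t)) := by
      apply G_loc
      · rwa [hlat]
      · show -(1 / 8) < t - ⌊t⌋
        linarith
      · show t - ⌊t⌋ < 1
        linarith
    have h3 := h1.comp (𝓡 4) X h2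
    refine ld_congr h3 ?_
    have e1 : ∀ᶠ q : E3 × ℝ in 𝓝 (x, t), ¬ IsLat q.1 := by
      have : ∀ᶠ x' : E3 in 𝓝 x, ¬ IsLat x' := isClosed_isLat.isOpen_compl.mem_nhds hx
      exact (continuous_fst.tendsto (x, t)).eventually this
    have e2 : ∀ᶠ q : E3 × ℝ in 𝓝 (x, t), (⌊t⌋ : ℝ) - 1 / 8 < q.2 ∧ q.2 < ⌊t⌋ + 1 := by
      have : ∀ᶠ t' : ℝ in 𝓝 t, (⌊t⌋ : ℝ) - 1 / 8 < t' ∧ t' < ⌊t⌋ + 1 :=
        Ioo_mem_nhds (by linarith) f2
      exact (continuous_snd.tendsto (x, t)).eventually this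
    filter_upwards [e1, e2] with q q1 q2
    exact key ⌊t⌋ q.1 q.2 q1 q2.1 q2.2
  · intro x t m hx
    obtain ⟨B, hB⟩ := hφ.zpow ⌊t⌋
    have f1 := Int.floor_le t
    have f2 := Int.lt_floor_add_one t
    show G ((φ ^ ⌊t⌋) (x + vec m), t - ⌊t⌋) = G ((φ ^ ⌊t⌋) x, t - ⌊t⌋)
    rw [hB.lat]
    exact G_per _ _ _ (by rwa [hlat]) (by linarith) (by linarith)
  · intro x t hx
    show G ((φ ^ ⌊t⌋) (φ x), t - ⌊t⌋) = G ((φ ^ ⌊t + 1⌋) x, t + 1 - ⌊t + 1⌋)
    rw [Int.floor_add_one]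
    have h7 : (φ ^ (⌊t⌋ + 1)) x = (φ ^ ⌊t⌋) (φ x) := by
      rw [zpow_add_one, Equiv.Perm.mul_apply]
    rw [h7]
    congr 2
    push_cast
    ring
  · intro x y s t hx hy hs0 hs1 ht0 ht1 h
    rw [hH0 x s hx (by linarith) hs1, hH0 y t hy (by linarith) ht1] at h
    exact G_inj x y s t hx hy hs0 hs1 ht0 ht1 h
  · intro t r y h1 h2 hr0 hr1
    have hy1 : ‖(y : E3)‖ = 1 := by
      have := y.2
      rwa [mem_sphere_zero_iff_norm] at this
    have hnorm : ‖r • (y : E3)‖ < 1 := by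
      rw [norm_smul, hy1, Real.norm_eq_abs, abs_of_pos hr0]
      linarith
    have hne : r • (y : E3) ≠ 0 := by
      rw [← norm_ne_zero_iff, norm_smul, hy1, Real.norm_eq_abs, abs_of_pos hr0]
      linarith
    have hnl := P_avoid t _ h1 h2 hne hnorm
    rcases lt_or_ge t 1 with h3 | h3
    · rw [hH0 _ _ hnl h1 h3]
      exact glue t r y h1 h3 hr0 hr1
    · have h4 := key 1 _ t hnl (by push_cast; linarith) (by push_cast; linarith)
      rw [h4]
      have h5 := glue (t - 1) r y (by linarith) (by linarith) hr0 hr1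
      have h6 : Complex.exp (2 * Real.pi * ((t - 1 : ℝ) : ℂ) * Complex.I) =
          Complex.exp (2 * Real.pi * t * Complex.I) := by
        push_cast
        rw [Complex.exp_eq_exp_iff_exists_int]
        exact ⟨-1, by push_cast; ring⟩
      rw [h6] at h5
      rw [h5]
      have h7 := P_mon (t - 1) (r • (y : E3)) (by linarith) (by linarith) hnorm
      rw [sub_add_cancel] at h7
      rw [← h7]
      simp
  · intro y x t hx
    have f1 := Int.floor_le t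
    have f2 := Int.lt_floor_add_one t
    exact disj y _ _ (by rwa [hlat]) (by linarith) (by linarith)
  · intro p
    rcases cover p with h | ⟨x, t, hx, ht0, ht1, h⟩
    · exact Or.inl h
    · right
      exact ⟨x, t, hx, by rw [h, hH0 x t hx (by linarith) ht1]⟩

end

end Pool.Agent.CSG
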