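import Pool.Agent.CSG.Fun
import Pool.Agent.CSG.Ext

/-!
# CSG/FunBasic: elementary properties of `stp`, `lam`, `thc`, `sh`
-/

open scoped ContDiff Topology
open Complex (I)
open Set Filter

namespace Pool.Agent.CSG

theorem stp_smooth (a b : ℝ) : ContDiff ℝ ∞ (stp a b) := by
  have h : ContDiff ℝ ∞ fun x : ℝ => (x - a) / (b - a) :=
    (contDiff_id.sub contDiff_const).div_const _
  exact Real.smoothTransition.contDiff.comp h

theorem stp_zero {a b x : ℝ} (hab : a < b) (h : x ≤ a) : stp a b x = 0 := by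
  unfold stp
  exact Real.smoothTransition.zero_of_nonpos
    (div_nonpos_of_nonpos_of_nonneg (by linarith) (by linarith))

theorem stp_one {a b x : ℝ} (hab : a < b) (h : b ≤ x) : stp a b x = 1 := by
  unfold stp
  apply Real.smoothTransition.one_of_one_le
  rw [le_div_iff₀ (by linarith)]
  linarith

theorem stp_nonneg (a b x : ℝ) : 0 ≤ stp a b x := Real.smoothTransition.nonneg _

theorem stp_le_one (a b x : ℝ) : stp a b x ≤ 1 := Real.smoothTransition.le_one _

theorem stp_mono {a b : ℝ} (hab : a < b) : Monotone (stp a b) := by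
  intro x y hxy
  unfold stp
  apply Real.smoothTransition.monotone
  have : 0 < b - a := by linarith
  gcongr

theorem stp_lt_one {a b x : ℝ} (hab : a < b) (h : x < b) : stp a b x < 1 := by
  unfold stp
  apply Real.smoothTransition.lt_one_of_lt_one
  rw [div_lt_iff₀ (by linarith)]
  linarith

theorem stp_pos {a b x : ℝ} (hab : a < b) (h : a < x) : 0 < stp a b x := by
  unfold stp
  exact Real.smoothTransition.pos_of_pos (div_pos (by linarith) (by linarith))

/-- derivative of `stp` is nonnegative -/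
theorem stp_deriv_nonneg {a b : ℝ} (hab : a < b) (x : ℝ) : 0 ≤ deriv (stp a b) x :=
  (stp_mono hab).deriv_nonneg

theorem FunBasic_symm {a b : ℝ} (hab : a < b) (x : ℝ) :
    stp a b (a + b - x) = 1 - stp a b x := by
  unfold stp
  have hne : b - a ≠ 0 := (sub_pos.2 hab).ne'
  have e : (a + b - x - a) / (b - a) = 1 - (x - a) / (b - a) := by
    field_simp
    ring
  rw [e]
  set y := (x - a) / (b - a)
  unfold Real.smoothTransition
  have h1 := Real.smoothTransition.pos_denom y
  have h2 : expNegInvGlue (1 - y) + expNegInvGlue (1 - (1 - y)) =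
      expNegInvGlue y + expNegInvGlue (1 - y) := by
    rw [sub_sub_cancel, add_comm]
  rw [h2, eq_sub_iff_add_eq, ← add_div, add_comm (expNegInvGlue (1 - y)), div_self h1.ne']

/-- The value of a step function of the circle, on the largest interval where one formula
holds. -/
theorem FunBasic_key {a b : ℝ} (ha : 0 < a) (hab : a < b) (hb : b < 1) (k : ℤ) {x : ℝ}
    (h1 : k - 1 + b ≤ x) (h2 : x ≤ k + 1 + a) :
    (⌊x⌋ : ℝ) + stp a b (Int.fract x) = k + stp a b (x - k) := by
  rcases lt_or_ge x k with h | h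
  · have hf : ⌊x⌋ = k - 1 := by
      rw [Int.floor_eq_iff]
      push_cast
      constructor <;> linarith
    have hfr : Int.fract x = x - (k - 1) := by
      rw [Int.fract, hf]
      push_cast
      ring
    rw [hf, hfr, stp_one hab (by linarith), stp_zero hab (by linarith)]
    push_cast
    ring
  · rcases lt_or_ge x (k + 1) with h' | h'
    · have hf : ⌊x⌋ = k := by
        rw [Int.floor_eq_iff]
        exact ⟨h, h'⟩
      have hfr : Int.fract x = x - k := by
        rw [Int.fract, hf]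
      rw [hf, hfr]
    · have hf : ⌊x⌋ = k + 1 := by
        rw [Int.floor_eq_iff]
        push_cast
        constructor <;> linarith
      have hfr : Int.fract x = x - (k + 1) := by
        rw [Int.fract, hf]
        push_cast
        ring
      rw [hf, hfr, stp_zero hab (by linarith), stp_one hab (by linarith)]
      push_cast
      ring

theorem FunBasic_smooth {a b : ℝ} (ha : 0 < a) (hab : a < b) (hb : b < 1) :
    ContDiff ℝ ∞ fun x : ℝ => (⌊x⌋ : ℝ) + stp a b (Int.fract x) := by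
  rw [contDiff_iff_contDiffAt]
  intro x
  have h1 : ContDiffAt ℝ ∞ (fun y : ℝ => (⌊x⌋ : ℝ) + stp a b (y - ⌊x⌋)) x := by
    have h2 : ContDiff ℝ ∞ fun y : ℝ => y - (⌊x⌋ : ℝ) := contDiff_id.sub contDiff_const
    exact (contDiff_const.add ((stp_smooth a b).comp h2)).contDiffAt
  apply h1.congr_of_eventuallyEq
  have hx1 := Int.floor_le x
  have hx2 := Int.lt_floor_add_one x
  have h3 : Ioo ((⌊x⌋ : ℝ) - 1 + b) ((⌊x⌋ : ℝ) + 1 + a) ∈ 𝓝 x :=
    Ioo_mem_nhds (by linarith) (by linarith)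
  filter_upwards [h3] with y hy
  exact FunBasic_key ha hab hb ⌊x⌋ hy.1.le hy.2.le

theorem FunBasic_add_int (a b x : ℝ) (k : ℤ) :
    (⌊x + k⌋ : ℝ) + stp a b (Int.fract (x + k)) = (⌊x⌋ : ℝ) + stp a b (Int.fract x) + k := by
  rw [Int.floor_add_intCast, Int.fract_add_intCast]
  push_cast
  ring

theorem lam_smooth : ContDiff ℝ ∞ lam :=
  FunBasic_smooth (by norm_num) (by norm_num) (by norm_num)

theorem lam_add_int (x : ℝ) (k : ℤ) : lam (x + k) = lam x + k := FunBasic_add_int _ _ x k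

/-- `lam` is an integer away from the steps. -/
theorem lam_eq_floor {x : ℝ} (h : Int.fract x ≤ 9 / 20) : lam x = ⌊x⌋ := by
  rw [lam, stp_zero (by norm_num) h, add_zero]

theorem lam_eq_floor' {x : ℝ} (h : 11 / 20 ≤ Int.fract x) : lam x = ⌊x⌋ + 1 := by
  rw [lam, stp_one (by norm_num) h]

theorem FunBasic_lam (k : ℤ) {x : ℝ} (h1 : k - 1 + 11 / 20 ≤ x) (h2 : x ≤ k + 1 + 9 / 20) :
    lam x = k + stp (9 / 20) (11 / 20) (x - k) :=
  FunBasic_key (by norm_num) (by norm_num) (by norm_num) k h1 h2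

theorem FunBasic_thc (k : ℤ) {x : ℝ} (h1 : k - 1 + 3 / 4 ≤ x) (h2 : x ≤ k + 1 + 1 / 4) :
    thc x = k + stp (1 / 4) (3 / 4) (x - k) :=
  FunBasic_key (by norm_num) (by norm_num) (by norm_num) k h1 h2

theorem lam_zero {x : ℝ} (h1 : -(9 / 20) ≤ x) (h2 : x ≤ 9 / 20) : lam x = 0 := by
  rw [FunBasic_lam 0 (by push_cast; linarith) (by push_cast; linarith),
    stp_zero (by norm_num) (by push_cast; linarith)]
  simp

theorem lam_one {x : ℝ} (h1 : 11 / 20 ≤ x) (h2 : x ≤ 29 / 20) : lam x = 1 := by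
  rw [FunBasic_lam 1 (by push_cast; linarith) (by push_cast; linarith),
    stp_zero (by norm_num) (by push_cast; linarith)]
  simp

/-- on `[1/4, 3/4]` (and more generally on `[0,1)`), `lam` is the plain step. -/
theorem lam_eq_stp {x : ℝ} (h1 : 0 ≤ x) (h2 : x < 1) : lam x = stp (9 / 20) (11 / 20) x := by
  rw [FunBasic_lam 0 (by push_cast; linarith) (by push_cast; linarith)]
  simp

theorem lam_half : lam (1 / 2) = 1 / 2 := by
  rw [lam_eq_stp (by norm_num) (by norm_num)]
  have h := FunBasic_symm (a := 9 / 20) (b := 11 / 20) (by norm_num) (1 / 2)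
  have e : (9 / 20 + 11 / 20 - 1 / 2 : ℝ) = 1 / 2 := by norm_num
  rw [e] at h
  linarith

/-- `S (x) + S (1 - x) = 1`, and `S x < 1/2` for `x < 1/2`
(`S x = f x / (f x + f (1 - x))`, `f = expNegInvGlue`, which is increasing). -/
theorem lam_lt_half {x : ℝ} (h1 : 0 ≤ x) (h2 : x < 1 / 2) : lam x < 1 / 2 := by
  rw [lam_eq_stp h1 (by linarith)]
  unfold stp
  set y := (x - 9 / 20) / (11 / 20 - 9 / 20) with hy
  have hy2 : y < 1 / 2 := by
    rw [hy, div_lt_iff₀ (by norm_num)]
    linarith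
  rcases le_or_gt y 0 with h | h
  · rw [Real.smoothTransition.zero_of_nonpos h]
    norm_num
  · unfold Real.smoothTransition
    have hd := Real.smoothTransition.pos_denom y
    rw [div_lt_iff₀ hd]
    have h3 : expNegInvGlue y < expNegInvGlue (1 - y) := by
      have hy3 : ¬ y ≤ 0 := not_le.2 h
      have hy4 : ¬ (1 - y ≤ 0) := by
        rw [not_le]
        linarith
      simp only [expNegInvGlue, hy3, hy4, if_false]
      apply Real.exp_lt_exp.2
      apply neg_lt_neg
      apply inv_strictAnti₀ h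
      linarith
    linarith

theorem lam_symm (x : ℝ) : lam (-x) = -lam x := by
  have hx1 := Int.floor_le x
  have hx2 := Int.lt_floor_add_one x
  have h1 : lam x = ⌊x⌋ + stp (9 / 20) (11 / 20) (x - ⌊x⌋) :=
    FunBasic_lam ⌊x⌋ (by linarith) (by linarith)
  have h2 : lam (-x) = ((-⌊x⌋ - 1 : ℤ) : ℝ) + stp (9 / 20) (11 / 20) (-x - ((-⌊x⌋ - 1 : ℤ) : ℝ)) :=
    FunBasic_lam (-⌊x⌋ - 1) (by push_cast; linarith) (by push_cast; linarith)
  have h3 := FunBasic_symm (a := 9 / 20) (b := 11 / 20) (by norm_num) (x - ⌊x⌋)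
  have e : (9 / 20 + 11 / 20 - (x - ⌊x⌋) : ℝ) = -x - ((-⌊x⌋ - 1 : ℤ) : ℝ) := by
    push_cast
    ring
  rw [e] at h3
  rw [h2, h3, h1]
  push_cast
  ring

theorem lam_bounds {x : ℝ} (h1 : 0 ≤ x) (h2 : x ≤ 1) : 0 ≤ lam x ∧ lam x ≤ 1 := by
  rw [FunBasic_lam 0 (by push_cast; linarith) (by push_cast; linarith)]
  have h3 := stp_nonneg (9 / 20) (11 / 20) (x - ((0 : ℤ) : ℝ))
  have h4 := stp_le_one (9 / 20) (11 / 20) (x - ((0 : ℤ) : ℝ))
  push_cast at *
  constructor <;> linarith

theorem thc_smooth : ContDiff ℝ ∞ thc :=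
  FunBasic_smooth (by norm_num) (by norm_num) (by norm_num)

theorem thc_add_int (x : ℝ) (k : ℤ) : thc (x + k) = thc x + k := FunBasic_add_int _ _ x k

theorem thc_zero {x : ℝ} (h1 : -(1 / 4) ≤ x) (h2 : x ≤ 1 / 4) : thc x = 0 := by
  rw [FunBasic_thc 0 (by push_cast; linarith) (by push_cast; linarith),
    stp_zero (by norm_num) (by push_cast; linarith)]
  simp

theorem thc_one {x : ℝ} (h1 : 3 / 4 ≤ x) (h2 : x ≤ 5 / 4) : thc x = 1 := by
  rw [FunBasic_thc 1 (by push_cast; linarith) (by push_cast; linarith),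
    stp_zero (by norm_num) (by push_cast; linarith)]
  simp

theorem gfr_smooth (k : ℤ) : ContDiff ℝ ∞ (gfr k) := by
  have h1 : ContDiff ℝ ∞ fun t : ℝ => (2 * Real.pi * k * thc (t + 1 / 2) : ℝ) :=
    contDiff_const.mul (thc_smooth.comp (contDiff_id.add contDiff_const))
  have h2 : ContDiff ℝ ∞ fun t : ℝ => ((2 * Real.pi * k * thc (t + 1 / 2) : ℝ) : ℂ) * I :=
    (Complex.ofRealCLM.contDiff.comp h1).mul contDiff_const
  exact h2.cexp

theorem gfr_norm (k : ℤ) (t : ℝ) : ‖gfr k t‖ = 1 := by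
  rw [gfr, Complex.norm_exp_ofReal_mul_I]

theorem gfr_add_one (k : ℤ) (t : ℝ) : gfr k (t + 1) = gfr k t := by
  have h : thc (t + 1 + 1 / 2) = thc (t + 1 / 2) + 1 := by
    have := thc_add_int (t + 1 / 2) 1
    push_cast at this
    rw [← this]
    congr 1
    ring
  rw [gfr, gfr, h]
  have e : ((2 * Real.pi * k * (thc (t + 1 / 2) + 1) : ℝ) : ℂ) * I =
      ((2 * Real.pi * k * thc (t + 1 / 2) : ℝ) : ℂ) * I + k * (2 * Real.pi * I) := by
    push_cast
    ring
  rw [e, Complex.exp_add, Complex.exp_int_mul_two_pi_mul_I, mul_one]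

theorem gfr_mid (k : ℤ) {t : ℝ} (h1 : 1 / 4 ≤ t) (h2 : t ≤ 3 / 4) : gfr k t = 1 := by
  rw [gfr, thc_one (by linarith) (by linarith)]
  have e : ((2 * Real.pi * k * 1 : ℝ) : ℂ) * I = k * (2 * Real.pi * I) := by
    push_cast
    ring
  rw [e, Complex.exp_int_mul_two_pi_mul_I]

theorem FunBasic_coord (i : Fin 3) : ContDiff ℝ ∞ fun x : E3 => x i :=
  (EuclideanSpace.proj i : E3 →L[ℝ] ℝ).contDiff

theorem FunBasic_pt {a b c : E3 → ℝ} (ha : ContDiff ℝ ∞ a) (hb : ContDiff ℝ ∞ b)
    (hc : ContDiff ℝ ∞ c) : ContDiff ℝ ∞ fun x => pt (a x) (b x) (c x) := by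
  rw [contDiff_euclidean]
  intro i
  fin_cases i
  · simpa using ha
  · simpa using hb
  · simpa using hc

/-- Shears are monodromies.  `f (n + a, y + b) = f (n, y) + a p + b q`. -/
theorem sh_mono {f : ℝ → ℝ → ℝ} (hf : ContDiff ℝ ∞ fun q : ℝ × ℝ => f q.1 q.2) (p q : ℤ)
    (h : ∀ n y (a b : ℤ), f (n + a) (y + b) = f n y + a * p + b * q) (h0 : f 0 0 = 0) :
    Mono !![1, 0, 0; p, 1, q; 0, 0, 1] (sh f) := by
  have hf' : ContDiff ℝ ∞ fun x : E3 => f (x 0) (x 2) :=
    hf.comp ((FunBasic_coord 0).prodMk (FunBasic_coord 2))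
  refine ⟨?_, ?_, ?_, ?_, ?_⟩
  · exact FunBasic_pt (FunBasic_coord 0) ((FunBasic_coord 1).add hf') (FunBasic_coord 2)
  · exact FunBasic_pt (FunBasic_coord 0) ((FunBasic_coord 1).sub hf') (FunBasic_coord 2)
  · intro x m
    have h' := h (x 0) (x 2) (m 0) (m 2)
    ext i
    fin_cases i
    · simp [sh, vec, Matrix.mulVec, dotProduct, Fin.sum_univ_three]
    · simp [sh, vec, Matrix.mulVec, dotProduct, Fin.sum_univ_three, h']
      ring
    · simp [sh, vec, Matrix.mulVec, dotProduct, Fin.sum_univ_three]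
  · ext i
    fin_cases i <;> simp [sh, h0]
  · rw [Matrix.det_fin_three]
    simp

theorem sh_mul (f g : ℝ → ℝ → ℝ) : sh f * sh g = sh (fun n y => f n y + g n y) := by
  ext x i
  fin_cases i
  · simp [sh]
  · simp [sh]
    ring
  · simp [sh]

theorem act_mul (A B : Matrix (Fin 3) (Fin 3) ℤ) (x : E3) : act (A * B) x = act A (act B x) := by
  ext i
  simp only [act, Matrix.mul_apply, Fin.sum_univ_three]
  push_cast
  ring

theorem act_vec (A : Matrix (Fin 3) (Fin 3) ℤ) (m : Fin 3 → ℤ) :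
    act A (vec m) = vec (A.mulVec m) := by
  ext i
  simp only [act, vec, Matrix.mulVec, dotProduct, Fin.sum_univ_three]
  push_cast
  ring

theorem FunBasic_act_smooth (A : Matrix (Fin 3) (Fin 3) ℤ) : ContDiff ℝ ∞ (act A) := by
  rw [contDiff_euclidean]
  intro i
  have h : ContDiff ℝ ∞ fun x : E3 => ∑ j, (A i j : ℝ) * x j :=
    ContDiff.sum fun j _ => contDiff_const.mul (FunBasic_coord j)
  exact h

theorem FunBasic_act_one (x : E3) : act 1 x = x := by
  ext i
  fin_cases i <;> simp [act, Matrix.one_apply]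

theorem FunBasic_act_add (A : Matrix (Fin 3) (Fin 3) ℤ) (x y : E3) :
    act A (x + y) = act A x + act A y := by
  ext i
  simp only [act, Fin.sum_univ_three, PiLp.add_apply]
  ring

/-- The action of an invertible integer matrix as a monodromy. -/
theorem exists_actE {A : Matrix (Fin 3) (Fin 3) ℤ} (hA : IsUnit A.det) :
    ∃ φ : Equiv.Perm E3, (∀ x, φ x = act A x) ∧ Mono A φ := by
  refine ⟨⟨act A, act A⁻¹, ?_, ?_⟩, fun x => rfl, ?_⟩
  · intro x
    rw [← act_mul, Matrix.nonsing_inv_mul A hA, FunBasic_act_one]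
  · intro x
    rw [← act_mul, Matrix.mul_nonsing_inv A hA, FunBasic_act_one]
  · refine ⟨FunBasic_act_smooth A, FunBasic_act_smooth A⁻¹, ?_, ?_, hA⟩
    · intro x m
      show act A (x + vec m) = act A x + vec (A.mulVec m)
      rw [FunBasic_act_add, act_vec]
    · show act A 0 = 0
      ext i
      simp [act]

end Pool.Agent.CSG
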