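import Pool.Agent.CSG.EDef
import Pool.Agent.CSG.FunBasic

/-!
# CSG/FFp: the function `FF`

`bt` is smooth and 1-periodic (`(fract y - 1/2)^2 ≥ 1/25` near the integers, where `bt = 1`),
`bt = 0` iff `|fract y - 1/2| ≤ 1/10`, `bt = 1` iff `|fract y - 1/2| ≥ 1/5`; hence
`(1 - bt y) sinh (2π (fract y - 1/2))` is smooth as well (it vanishes near the integers).

`FF_ne`.  Write `y' = fract y`, `τ = t - 1/2`.
* `t ≥ 3/5`: `FF = 1`;  `t ≤ 2/5`: `FF = exp (2πi lam y)`.
* `9/20 ≤ t ≤ 11/20`: `FF = F0`; `Im F0 = -(1 - bt) sinh (2π (y' - 1/2)) = 0` iff `y' = 1/2` or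
  `bt = 1`; if `bt = 1`, `Re F0 = 1 + sin 2πτ > 0`; if `y' = 1/2`, `bt = 0`,
  `Re F0 = sin 2πτ = 0` iff `τ = 0` (as `|τ| < 1/2`).
* `11/20 < t < 3/5`: `km = 0`, `Re F0 ≥ sin 2πτ > 0`, so `Re FF > 0`.
* `2/5 < t < 9/20`: `kp = 0`, `FF = (1 - km) F0 + km exp (2πi lam y)`, `0 < km < 1`.  If `bt = 1`
  then `lam y` is an integer and `Re FF > 0`.  If `bt < 1`, `y' < 1/2`: `Im F0 > 0` and
  `Im exp (2πi lam y) = sin (2π lam y') ≥ 0` as `0 ≤ lam y' ≤ 1/2`.  If `y' > 1/2`: both imaginary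
  parts have the opposite sign (`lam y' = 1 - lam (1 - y')`).  If `y' = 1/2`: `FF` is real and
  negative (`exp (πi) = -1`, `sin 2πτ < 0`).
-/

open scoped ContDiff Topology
open Complex (I)
open Set Filter

namespace Pool.Agent.CSG

theorem FFp_smooth_of (g : ℝ → ℝ) (hg : ContDiff ℝ ∞ g) (c : ℝ)
    (h0 : ∀ x, 0 ≤ x → x < 1 / 10 → g x = c) (h1 : ∀ x, 9 / 10 < x → x < 1 → g x = c) :
    ContDiff ℝ ∞ (fun y => g (Int.fract y)) := by
  rw [contDiff_iff_contDiffAt]
  intro y
  by_cases hy : Int.fract y = 0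
  · -- `y` is an integer
    have hyi : y = ⌊y⌋ := by
      have := Int.fract_add_floor y
      rw [hy] at this
      linarith
    refine (contDiffAt_const (c := c)).congr_of_eventuallyEq ?_
    have hnb : Ioo (y - 1 / 10) (y + 1 / 10) ∈ 𝓝 y := Ioo_mem_nhds (by linarith) (by linarith)
    filter_upwards [hnb] with x hx
    rcases lt_or_ge x y with h | h
    · have h2 : ⌊x⌋ = ⌊y⌋ - 1 := by
        rw [Int.floor_eq_iff]
        push_cast
        constructor <;> linarith [hx.1]
      have h3 : Int.fract x = x - (⌊y⌋ - 1) := by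
        have := Int.self_sub_floor x
        rw [h2] at this
        push_cast at this
        linarith
      apply h1
      · rw [h3]
        linarith [hx.1]
      · exact Int.fract_lt_one x
    · have h2 : ⌊x⌋ = ⌊y⌋ := by
        rw [Int.floor_eq_iff]
        constructor <;> linarith [hx.2]
      have h3 : Int.fract x = x - ⌊y⌋ := by
        have := Int.self_sub_floor x
        rw [h2] at this
        linarith
      apply h0
      · exact Int.fract_nonneg x
      · rw [h3]
        linarith [hx.2]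
  · have hpos : 0 < Int.fract y := lt_of_le_of_ne (Int.fract_nonneg y) (Ne.symm hy)
    have hlt := Int.fract_lt_one y
    have hsf := Int.self_sub_floor y
    have hg2 : ContDiff ℝ ∞ (fun x : ℝ => g (x - ⌊y⌋)) := hg.comp (contDiff_id.sub contDiff_const)
    refine hg2.contDiffAt.congr_of_eventuallyEq ?_
    have hnb : Ioo ((⌊y⌋ : ℝ)) (⌊y⌋ + 1) ∈ 𝓝 y := Ioo_mem_nhds (by linarith) (by linarith)
    filter_upwards [hnb] with x hx
    have h2 : ⌊x⌋ = ⌊y⌋ := by
      rw [Int.floor_eq_iff]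
      constructor <;> linarith [hx.1, hx.2]
    have h3 := Int.self_sub_floor x
    rw [h2] at h3
    rw [← h3]

theorem FFp_bt_one {x : ℝ} (h : x ≤ 3 / 10 ∨ 7 / 10 ≤ x) :
    stp (1 / 100) (1 / 25) ((x - 1 / 2) ^ 2) = 1 := by
  apply stp_one (by norm_num)
  rcases h with h | h <;> nlinarith

theorem bt_smooth : ContDiff ℝ ∞ bt := by
  apply FFp_smooth_of (fun x => stp (1 / 100) (1 / 25) ((x - 1 / 2) ^ 2)) ?_ 1
  · intro x _ hx
    exact FFp_bt_one (Or.inl (by linarith))
  · intro x hx _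
    exact FFp_bt_one (Or.inr (by linarith))
  · exact (stp_smooth _ _).comp ((contDiff_id.sub contDiff_const).pow 2)

theorem FFp_sh_smooth : ContDiff ℝ ∞ fun y : ℝ =>
    (1 - bt y) * Real.sinh (2 * Real.pi * (Int.fract y - 1 / 2)) := by
  apply FFp_smooth_of (fun x => (1 - stp (1 / 100) (1 / 25) ((x - 1 / 2) ^ 2)) *
    Real.sinh (2 * Real.pi * (x - 1 / 2))) ?_ 0
  · intro x _ hx
    simp only [FFp_bt_one (x := x) (Or.inl (by linarith))]
    ring
  · intro x hx _
    simp only [FFp_bt_one (x := x) (Or.inr (by linarith))]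
    ring
  · apply ContDiff.mul
    · exact contDiff_const.sub ((stp_smooth _ _).comp ((contDiff_id.sub contDiff_const).pow 2))
    · exact Real.contDiff_sinh.comp (contDiff_const.mul (contDiff_id.sub contDiff_const))

theorem bt_mem (y : ℝ) : 0 ≤ bt y ∧ bt y ≤ 1 :=
  ⟨stp_nonneg _ _ _, stp_le_one _ _ _⟩

theorem FFp_kp_smooth : ContDiff ℝ ∞ kp := stp_smooth _ _

theorem FFp_km_smooth : ContDiff ℝ ∞ km := contDiff_const.sub (stp_smooth _ _)

theorem FFp_ofReal {E : Type*} [NormedAddCommGroup E] [NormedSpace ℝ E] {f : E → ℝ}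
    (hf : ContDiff ℝ ∞ f) : ContDiff ℝ ∞ fun x => (f x : ℂ) :=
  Complex.ofRealCLM.contDiff.comp hf

theorem FF_smooth : ContDiff ℝ ∞ fun q : ℝ × ℝ => FF q.1 q.2 := by
  unfold FF F0
  have hkp : ContDiff ℝ ∞ fun q : ℝ × ℝ => kp q.2 := FFp_kp_smooth.comp contDiff_snd
  have hkm : ContDiff ℝ ∞ fun q : ℝ × ℝ => km q.2 := FFp_km_smooth.comp contDiff_snd
  have hbt : ContDiff ℝ ∞ fun q : ℝ × ℝ => bt q.1 := bt_smooth.comp contDiff_fst
  have hlam : ContDiff ℝ ∞ fun q : ℝ × ℝ => lam q.1 := lam_smooth.comp contDiff_fst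
  have hsh : ContDiff ℝ ∞ fun q : ℝ × ℝ =>
    (1 - bt q.1) * Real.sinh (2 * Real.pi * (Int.fract q.1 - 1 / 2)) :=
    FFp_sh_smooth.comp contDiff_fst
  have hsin : ContDiff ℝ ∞ fun q : ℝ × ℝ => Real.sin (2 * Real.pi * (q.2 - 1 / 2)) + bt q.1 :=
    (Real.contDiff_sin.comp (contDiff_const.mul (contDiff_snd.sub contDiff_const))).add hbt
  apply ContDiff.add
  · apply ContDiff.add
    · apply ContDiff.mul
      · exact FFp_ofReal ((contDiff_const.sub hkp).sub hkm)
      · apply ContDiff.sub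
        · exact FFp_ofReal hsin
        · exact (FFp_ofReal hsh).mul contDiff_const
    · exact FFp_ofReal hkp
  · apply ContDiff.mul
    · exact FFp_ofReal hkm
    · exact Complex.contDiff_exp.comp ((FFp_ofReal (contDiff_const.mul hlam)).mul contDiff_const)

theorem FFp_exp_int (x : ℝ) (m : ℤ) :
    Complex.exp ((2 * Real.pi * (x + m) : ℝ) * I) = Complex.exp ((2 * Real.pi * x : ℝ) * I) := by
  have h : ((2 * Real.pi * (x + m) : ℝ) * I : ℂ) = (2 * Real.pi * x : ℝ) * I +
      m * (2 * Real.pi * I) := by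
    push_cast
    ring
  rw [h, Complex.exp_add, Complex.exp_int_mul_two_pi_mul_I, mul_one]

theorem FF_per (y t : ℝ) (m : ℤ) : FF (y + m) t = FF y t := by
  unfold FF F0 bt
  rw [Int.fract_add_intCast, lam_add_int, FFp_exp_int]

theorem FFp_kp_zero {t : ℝ} (h : t ≤ 11 / 20) : kp t = 0 := stp_zero (by norm_num) h

theorem FFp_km_zero {t : ℝ} (h : 9 / 20 ≤ t) : km t = 0 := by
  unfold km
  rw [stp_one (by norm_num) h]
  ring

theorem FF_hi {t : ℝ} (h : 3 / 5 ≤ t) (y : ℝ) : FF y t = 1 := by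
  unfold FF
  rw [FFp_km_zero (by linarith), show kp t = 1 from stp_one (by norm_num) h]
  simp

theorem FF_lo {t : ℝ} (h : t ≤ 2 / 5) (y : ℝ) :
    FF y t = Complex.exp ((2 * Real.pi * lam y : ℝ) * I) := by
  have hkm : km t = 1 := by
    unfold km
    rw [stp_zero (by norm_num) h]
    ring
  unfold FF
  rw [FFp_kp_zero (by linarith), hkm]
  simp

theorem FFp_exp_lam {y : ℝ} (h : Int.fract y ≤ 3 / 10 ∨ 7 / 10 ≤ Int.fract y) :
    Complex.exp ((2 * Real.pi * lam y : ℝ) * I) = 1 := by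
  have h1 : ∃ m : ℤ, lam y = m := by
    rcases h with h | h
    · exact ⟨_, lam_eq_floor (by linarith)⟩
    · exact ⟨⌊y⌋ + 1, by rw [lam_eq_floor' (by linarith)]; push_cast; rfl⟩
  obtain ⟨m, hm⟩ := h1
  rw [hm]
  have := FFp_exp_int 0 m
  rw [zero_add] at this
  rw [this]
  simp

theorem FFp_sin_gt {t : ℝ} (h1 : 9 / 20 ≤ t) (h2 : t ≤ 11 / 20) :
    -1 < Real.sin (2 * Real.pi * (t - 1 / 2)) := by
  have hpi := Real.pi_pos
  have h3 := Real.sin_lt_sin_of_lt_of_le_pi_div_two (x := -(Real.pi / 2))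
    (y := 2 * Real.pi * (t - 1 / 2)) le_rfl (by nlinarith) (by nlinarith)
  rw [Real.sin_neg, Real.sin_pi_div_two] at h3
  exact h3

theorem FFp_k_mem (t : ℝ) : 0 ≤ kp t ∧ 0 ≤ km t ∧ 0 ≤ 1 - kp t - km t := by
  have h1 : 0 ≤ kp t := stp_nonneg _ _ _
  have h2 : kp t ≤ 1 := stp_le_one _ _ _
  have h3 : 0 ≤ km t := by
    have := stp_le_one (2 / 5) (9 / 20) t
    unfold km
    linarith
  have h4 : km t ≤ 1 := by
    have := stp_nonneg (2 / 5) (9 / 20) t
    unfold km
    linarith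
  refine ⟨h1, h3, ?_⟩
  rcases le_or_gt t (11 / 20) with h | h
  · rw [FFp_kp_zero h]
    linarith
  · rw [FFp_km_zero (by linarith)]
    linarith

theorem FF_side {y : ℝ} (h : Int.fract y ≤ 3 / 10 ∨ 7 / 10 ≤ Int.fract y) (t : ℝ) :
    ∃ c : ℝ, 0 < c ∧ FF y t = c := by
  have hbt : bt y = 1 := FFp_bt_one h
  refine ⟨(1 - kp t - km t) * (Real.sin (2 * Real.pi * (t - 1 / 2)) + 1) + kp t + km t, ?_, ?_⟩
  · obtain ⟨h1, h2, h3⟩ := FFp_k_mem t
    have h4 := Real.neg_one_le_sin (2 * Real.pi * (t - 1 / 2))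
    rcases le_or_gt t (11 / 20) with h5 | h5
    · rcases le_or_gt (9 / 20) t with h6 | h6
      · rw [FFp_kp_zero h5, FFp_km_zero h6]
        have := FFp_sin_gt h6 h5
        linarith
      · have h7 : 0 < km t := by
          have := stp_lt_one (a := 2 / 5) (b := 9 / 20) (by norm_num) h6
          unfold km
          linarith
        have := mul_nonneg h3 (by linarith : 0 ≤ Real.sin (2 * Real.pi * (t - 1 / 2)) + 1)
        linarith
    · have h7 : 0 < kp t := stp_pos (by norm_num) h5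
      have := mul_nonneg h3 (by linarith : 0 ≤ Real.sin (2 * Real.pi * (t - 1 / 2)) + 1)
      linarith
  · unfold FF F0
    rw [hbt, FFp_exp_lam h]
    push_cast
    ring

theorem FFp_lam_fract (y : ℝ) : Complex.exp ((2 * Real.pi * lam y : ℝ) * I) =
    Complex.exp ((2 * Real.pi * lam (Int.fract y) : ℝ) * I) := by
  have h : lam y = lam (Int.fract y) + ⌊y⌋ := by
    rw [← lam_add_int, Int.fract_add_floor]
  rw [h, FFp_exp_int]

theorem FFp_re (y t : ℝ) : (FF y t).re = (1 - kp t - km t) *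
    (Real.sin (2 * Real.pi * (t - 1 / 2)) + bt y) + kp t +
      km t * Real.cos (2 * Real.pi * lam (Int.fract y)) := by
  unfold FF F0
  rw [FFp_lam_fract]
  simp only [Complex.add_re, Complex.mul_re, Complex.ofReal_re, Complex.ofReal_im,
    Complex.sub_re, Complex.sub_im, Complex.I_re, Complex.I_im, Complex.mul_im,
    Complex.exp_ofReal_mul_I_re, Complex.exp_ofReal_mul_I_im]
  ring

theorem FFp_im (y t : ℝ) : (FF y t).im = -((1 - kp t - km t) *
    ((1 - bt y) * Real.sinh (2 * Real.pi * (Int.fract y - 1 / 2)))) +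
      km t * Real.sin (2 * Real.pi * lam (Int.fract y)) := by
  unfold FF F0
  rw [FFp_lam_fract]
  simp only [Complex.add_im, Complex.mul_re, Complex.ofReal_re, Complex.ofReal_im,
    Complex.sub_re, Complex.sub_im, Complex.I_re, Complex.I_im, Complex.mul_im,
    Complex.exp_ofReal_mul_I_re, Complex.exp_ofReal_mul_I_im]
  ring

theorem FFp_lam_gt {x : ℝ} (h1 : 1 / 2 < x) (h2 : x ≤ 1) : 1 / 2 < lam x := by
  have h3 : lam (1 - x) = 1 - lam x := by
    have h4 := lam_add_int (-x) 1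
    rw [lam_symm] at h4
    push_cast at h4
    rw [show (1 : ℝ) - x = -x + 1 by ring, h4]
    ring
  have h5 := lam_lt_half (x := 1 - x) (by linarith) (by linarith)
  rw [h3] at h5
  linarith

theorem FF_ne {y t : ℝ} (h : NP y t) : FF y t ≠ 0 := by
  have hpi := Real.pi_pos
  rcases le_or_gt (3 / 5) t with h1 | h1
  · rw [FF_hi h1]
    exact one_ne_zero
  rcases le_or_gt t (2 / 5) with h2 | h2
  · rw [FF_lo h2]
    exact Complex.exp_ne_zero _
  by_cases hside : Int.fract y ≤ 3 / 10 ∨ 7 / 10 ≤ Int.fract y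
  · obtain ⟨c, hc, hFc⟩ := FF_side hside t
    rw [hFc]
    exact_mod_cast hc.ne'
  push Not at hside
  obtain ⟨hs1, hs2⟩ := hside
  have hbt1 : bt y < 1 := by
    apply stp_lt_one (by norm_num)
    nlinarith
  have hbt0 := (bt_mem y).1
  intro h0
  have hre := FFp_re y t
  have him := FFp_im y t
  rw [h0, Complex.zero_re] at hre
  rw [h0, Complex.zero_im] at him
  rcases lt_or_ge (11 / 20) t with h3 | h3
  · -- `11/20 < t < 3/5`
    rw [FFp_km_zero (by linarith)] at hre
    have hk1 : 0 < kp t := stp_pos (by norm_num) h3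
    have hk2 : kp t < 1 := stp_lt_one (by norm_num) h1
    have hsin : 0 < Real.sin (2 * Real.pi * (t - 1 / 2)) := by
      apply Real.sin_pos_of_pos_of_lt_pi
      · have : 0 < t - 1 / 2 := by linarith
        positivity
      · nlinarith
    nlinarith [mul_nonneg (by linarith : (0 : ℝ) ≤ 1 - kp t) (by linarith :
      0 ≤ Real.sin (2 * Real.pi * (t - 1 / 2)) + bt y)]
  rw [FFp_kp_zero h3] at hre him
  -- `km` is in `[0, 1)`
  have hkm0 : 0 ≤ km t := (FFp_k_mem t).2.1
  have hkm1 : km t < 1 := by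
    have := stp_pos (a := 2 / 5) (b := 9 / 20) (by norm_num) h2
    unfold km
    linarith
  have hA : 0 < (1 - km t) * (1 - bt y) := mul_pos (by linarith) (by linarith)
  rcases lt_trichotomy (Int.fract y) (1 / 2) with h5 | h5 | h5
  · have hsinh : Real.sinh (2 * Real.pi * (Int.fract y - 1 / 2)) < 0 := by
      rw [Real.sinh_neg_iff]
      have : Int.fract y - 1 / 2 < 0 := by linarith
      nlinarith
    have hl1 := lam_lt_half (Int.fract_nonneg y) h5
    have hl0 := (lam_bounds (Int.fract_nonneg y) (Int.fract_lt_one y).le).1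
    have hsin : 0 ≤ Real.sin (2 * Real.pi * lam (Int.fract y)) := by
      apply Real.sin_nonneg_of_nonneg_of_le_pi
      · positivity
      · nlinarith
    have h6 := mul_nonneg hkm0 hsin
    nlinarith [mul_neg_of_pos_of_neg hA hsinh]
  · -- `fract y = 1/2`
    have hbt : bt y = 0 := by
      unfold bt
      rw [h5]
      apply stp_zero (by norm_num)
      norm_num
    rw [h5, lam_half, hbt, show 2 * Real.pi * (1 / 2) = Real.pi by ring, Real.cos_pi] at hre
    have hne : t ≠ 1 / 2 := fun ht => h ⟨ht, h5⟩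
    rcases lt_or_gt_of_ne hne with h6 | h6
    · have hsin : Real.sin (2 * Real.pi * (t - 1 / 2)) < 0 := by
        apply Real.sin_neg_of_neg_of_neg_pi_lt
        · nlinarith
        · nlinarith
      nlinarith
    · rw [FFp_km_zero (by linarith)] at hre
      have hsin : 0 < Real.sin (2 * Real.pi * (t - 1 / 2)) := by
        apply Real.sin_pos_of_pos_of_lt_pi
        · have : 0 < t - 1 / 2 := by linarith
          positivity
        · nlinarith
      linarith
  · have hsinh : 0 < Real.sinh (2 * Real.pi * (Int.fract y - 1 / 2)) := by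
      rw [Real.sinh_pos_iff]
      have : 0 < Int.fract y - 1 / 2 := by linarith
      positivity
    have hl1 := FFp_lam_gt h5 (Int.fract_lt_one y).le
    have hl0 := (lam_bounds (Int.fract_nonneg y) (Int.fract_lt_one y).le).2
    have hsin : Real.sin (2 * Real.pi * lam (Int.fract y)) ≤ 0 := by
      rw [← Real.sin_sub_two_pi]
      apply Real.sin_nonpos_of_nonpos_of_neg_pi_le
      · nlinarith
      · nlinarith
    have h6 := mul_nonpos_of_nonneg_of_nonpos hkm0 hsin
    nlinarith [mul_pos hA hsinh]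

theorem FF_mid {y t : ℝ} (ht : |t - 1 / 2| ≤ 1 / 20) (hy : |Int.fract y - 1 / 2| ≤ 1 / 10) :
    FF y t = (Real.sin (2 * Real.pi * (t - 1 / 2)) : ℝ) -
      (Real.sinh (2 * Real.pi * (Int.fract y - 1 / 2)) : ℝ) * I := by
  rw [abs_le] at ht hy
  have hbt : bt y = 0 := by
    unfold bt
    apply stp_zero (by norm_num)
    nlinarith [hy.1, hy.2]
  unfold FF F0
  rw [FFp_kp_zero (by linarith [ht.2]), FFp_km_zero (by linarith [ht.1]), hbt]
  simp

end Pool.Agent.CSG
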