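import Pool.Agent.CSG.NfP
import Pool.Agent.CSG.FFp
import Pool.Agent.CSG.LD

/-!
# CSG/XiB: `p ↦ (py p, pm p)` is a local diffeomorphism

`xi` is antiholomorphic with nonzero derivative at `p ≠ 1`: a local diffeomorphism of `C = R^2`.
`ξ ↦ (nf |ξ|, arg ξ)` is a local diffeomorphism at `ξ ≠ 0` off the negative real axis: polar
coordinates (`log`: `ξ ↦ (log |ξ|, arg ξ)`) followed by `nf ∘ exp`, `deriv nf > 0`.
At negative real `ξ` (i.e. `pm p = 1`) use `arg (-ξ)`: `pmm p = arg (-ξ) / 2π ∈ (-1/2, 1/2]`;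
`pm p = pmm p` or `pm p = pmm p + 1`:
if `arg ξ > 0` then `arg (-ξ) = arg ξ - π`, so `pmm = pm - 1`; if `arg ξ < 0` then
`arg (-ξ) = arg ξ + π`, `pmm = pm`; near the negative axis `pmm` is near `0`.
-/

open scoped Manifold ContDiff Topology
open Complex (I)
open Set Filter

namespace Pool.Agent.CSG

/-- the time near `0` -/
noncomputable def pmm (p : ℂ) : ℝ := Complex.arg (-xi p) / (2 * Real.pi)

/-- a smooth map with a differentiable left inverse is a local diffeomorphism -/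
theorem XiB_left {V : Type*} [NormedAddCommGroup V] [NormedSpace ℝ V] [FiniteDimensional ℝ V]
    {W : Type*} [NormedAddCommGroup W] [NormedSpace ℝ W] [FiniteDimensional ℝ W]
    {f : V → W} {g : W → V} {x : V} (hf : ∀ᶠ y in 𝓝 x, ContDiffAt ℝ ∞ f y)
    (hdim : Module.finrank ℝ V = Module.finrank ℝ W)
    (hg : DifferentiableAt ℝ g (f x)) (hgf : ∀ᶠ y in 𝓝 x, g (f y) = y) :
    IsLocalDiffeomorphAt 𝓘(ℝ, V) 𝓘(ℝ, W) ∞ f x := by
  refine ld_of_fderiv hf hdim ?_
  intro v hv
  have hfx : DifferentiableAt ℝ f x := hf.self_of_nhds.differentiableAt (by simp)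
  have h1 : HasFDerivAt (fun y => g (f y)) ((fderiv ℝ g (f x)).comp (fderiv ℝ f x)) x :=
    hg.hasFDerivAt.comp x hfx.hasFDerivAt
  have h2 : HasFDerivAt (fun y : V => g (f y)) (ContinuousLinearMap.id ℝ V) x :=
    (hasFDerivAt_id x).congr_of_eventuallyEq hgf
  have h3 := h1.unique h2
  have h4 := congrArg (fun L : V →L[ℝ] V => L v) h3
  simpa [hv] using h4.symm

theorem XiB_conj : ContDiff ℝ ∞ (fun z : ℂ => (starRingEnd ℂ) z) :=
  Complex.conjCLE.contDiff

theorem XiB_ne {p : ℂ} (h : p ≠ 1) : (starRingEnd ℂ) p - 1 ≠ 0 := by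
  intro h'
  apply h
  have : (starRingEnd ℂ) p = 1 := sub_eq_zero.1 h'
  have h2 := congrArg (starRingEnd ℂ) this
  simpa using h2

theorem XiB_ne' {p : ℂ} (h : p ≠ -1) : (starRingEnd ℂ) p + 1 ≠ 0 := by
  intro h'
  apply h
  have : (starRingEnd ℂ) p = -1 := eq_neg_of_add_eq_zero_left h'
  have h2 := congrArg (starRingEnd ℂ) this
  simpa using h2

theorem XiB_cd {p : ℂ} (h : p ≠ 1) : ContDiffAt ℝ ∞ xi p := by
  have h1 : ContDiffAt ℂ ∞ (fun q : ℂ => (q + 1) / (q - 1)) ((starRingEnd ℂ) p) :=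
    ContDiffAt.div (contDiffAt_id.add contDiffAt_const) (contDiffAt_id.sub contDiffAt_const)
      (XiB_ne h)
  have h2 : ContDiffAt ℝ ∞ (fun q : ℂ => (q + 1) / (q - 1)) ((starRingEnd ℂ) p) :=
    h1.restrict_scalars ℝ
  exact ContDiffAt.comp (f := fun p : ℂ => (starRingEnd ℂ) p)
    (g := fun q : ℂ => (q + 1) / (q - 1)) p h2 XiB_conj.contDiffAt

theorem XiB_ne_zero {p : ℂ} (h : p ≠ -1) (h' : p ≠ 1) : xi p ≠ 0 :=
  div_ne_zero (XiB_ne' h) (XiB_ne h')

theorem XiB_ne_one {p : ℂ} (h : p ≠ 1) : xi p ≠ 1 := by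
  intro h1
  have h2 := XiB_ne h
  simp only [xi] at h1
  rw [div_eq_iff h2] at h1
  have : (2 : ℂ) = 0 := by linear_combination h1
  norm_num at this

/-- `xi` is a local diffeomorphism at the cap `-1` -/
theorem xi_ld {p : ℂ} (h' : p ≠ 1) :
    IsLocalDiffeomorphAt 𝓘(ℝ, ℂ) 𝓘(ℝ, ℂ) ∞ xi p := by
  have hev : ∀ᶠ q in 𝓝 p, q ≠ 1 := isOpen_ne.mem_nhds h'
  refine XiB_left (g := fun w => (starRingEnd ℂ) ((w + 1) / (w - 1))) ?_ rfl ?_ ?_
  · filter_upwards [hev] with q hq using XiB_cd hq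
  · have h1 : xi p - 1 ≠ 0 := sub_ne_zero.2 (XiB_ne_one h')
    have h2 : DifferentiableAt ℂ (fun w : ℂ => (w + 1) / (w - 1)) (xi p) :=
      DifferentiableAt.fun_div (differentiableAt_id.add_const 1)
        (differentiableAt_id.sub_const 1) h1
    have h3 : DifferentiableAt ℝ (fun w : ℂ => (w + 1) / (w - 1)) (xi p) := h2.restrictScalars ℝ
    exact DifferentiableAt.comp (f := fun w : ℂ => (w + 1) / (w - 1)) (xi p)
      (XiB_conj.differentiable (by simp) _) h3
  · filter_upwards [hev] with q hq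
    have h1 := XiB_ne hq
    have h3 : (xi q + 1) / (xi q - 1) = (starRingEnd ℂ) q := by
      have h4 : xi q - 1 ≠ 0 := sub_ne_zero.2 (XiB_ne_one hq)
      rw [div_eq_iff h4]
      simp only [xi]
      field_simp
      ring
    simp only [h3, Complex.conj_conj]

theorem XiB_inv_eq (p : ℂ) : ((starRingEnd ℂ) (xi p))⁻¹ = (p - 1) / (p + 1) := by
  simp only [xi, map_div₀, map_add, map_sub, Complex.conj_conj, map_one, inv_div]

/-- `1 / conj xi = (p - 1) / (p + 1)` is a local diffeomorphism at the cap `1` -/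
theorem xi_inv_ld {p : ℂ} (h' : p ≠ -1) :
    IsLocalDiffeomorphAt 𝓘(ℝ, ℂ) 𝓘(ℝ, ℂ) ∞ (fun p => ((starRingEnd ℂ) (xi p))⁻¹) p := by
  have hfun : (fun p => ((starRingEnd ℂ) (xi p))⁻¹) = fun p : ℂ => (p - 1) / (p + 1) := by
    funext p; exact XiB_inv_eq p
  rw [hfun]
  have hev : ∀ᶠ q in 𝓝 p, q ≠ -1 := isOpen_ne.mem_nhds h'
  have hne : ∀ q : ℂ, q ≠ -1 → q + 1 ≠ 0 := fun q hq h => hq (eq_neg_of_add_eq_zero_left h)
  have hne2 : ∀ q : ℂ, q ≠ -1 → 1 - (q - 1) / (q + 1) ≠ 0 := by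
    intro q hq h
    have h1 := hne q hq
    have h2 : (q - 1) / (q + 1) = 1 := (sub_eq_zero.1 h).symm
    rw [div_eq_iff h1] at h2
    have : (2 : ℂ) = 0 := by linear_combination -h2
    norm_num at this
  refine XiB_left (g := fun w => (1 + w) / (1 - w)) ?_ rfl ?_ ?_
  · filter_upwards [hev] with q hq
    have h1 : ContDiffAt ℂ ∞ (fun p : ℂ => (p - 1) / (p + 1)) q :=
      ContDiffAt.div (contDiffAt_id.sub contDiffAt_const) (contDiffAt_id.add contDiffAt_const)
        (hne q hq)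
    exact h1.restrict_scalars ℝ
  · have h1 : DifferentiableAt ℂ (fun w : ℂ => (1 + w) / (1 - w)) ((p - 1) / (p + 1)) :=
      DifferentiableAt.fun_div (differentiableAt_id.const_add 1)
        (differentiableAt_id.const_sub 1) (hne2 p h')
    exact h1.restrictScalars ℝ
  · filter_upwards [hev] with q hq
    have h1 := hne q hq
    rw [div_eq_iff (hne2 q hq)]
    field_simp
    ring

theorem XiB_log {w : ℂ} (h : w ∈ Complex.slitPlane) :
    IsLocalDiffeomorphAt 𝓘(ℝ, ℂ) 𝓘(ℝ, ℂ) ∞ Complex.log w := by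
  have hev : ∀ᶠ q in 𝓝 w, q ∈ Complex.slitPlane := Complex.isOpen_slitPlane.mem_nhds h
  refine XiB_left (g := Complex.exp) ?_ rfl ?_ ?_
  · filter_upwards [hev] with q hq
    exact (Complex.contDiffAt_log hq).restrict_scalars ℝ
  · have h1 : DifferentiableAt ℂ Complex.exp (Complex.log w) := Complex.differentiable_exp _
    exact h1.restrictScalars ℝ
  · filter_upwards [hev] with q hq
    exact Complex.exp_log (Complex.slitPlane_ne_zero hq)

/-- the model map in logarithmic coordinates -/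
theorem XiB_model (c : ℝ) (z : ℂ) :
    IsLocalDiffeomorphAt 𝓘(ℝ, ℂ) 𝓘(ℝ, ℝ × ℝ) ∞
      (fun z : ℂ => (nf (Real.exp z.re), c + z.im / (2 * Real.pi))) z := by
  have hre : ∀ z : ℂ, ContDiffAt ℝ ∞ (fun z : ℂ => Real.exp z.re) z := fun z =>
    (Real.contDiff_exp.comp Complex.reCLM.contDiff).contDiffAt
  have hcd : ∀ z : ℂ, ContDiffAt ℝ ∞ (fun z : ℂ => nf (Real.exp z.re)) z := fun z =>
    ContDiffAt.comp (g := nf) (f := fun z : ℂ => Real.exp z.re) z
      (nf_smooth (Real.exp_pos z.re)) (hre z)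
  have him : ∀ z : ℂ, ContDiffAt ℝ ∞ (fun z : ℂ => c + z.im / (2 * Real.pi)) z := fun z =>
    contDiffAt_const.add (Complex.imCLM.contDiff.contDiffAt.div_const _)
  refine ld_of_fderiv (Eventually.of_forall fun z => (hcd z).prodMk (him z)) ?_ ?_
  · simp [Complex.finrank_real_complex]
  · intro v hv
    have hr : HasFDerivAt (fun z : ℂ => z.re) Complex.reCLM z := Complex.reCLM.hasFDerivAt
    have hi : HasFDerivAt (fun z : ℂ => z.im) Complex.imCLM z := Complex.imCLM.hasFDerivAt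
    have h1 : HasFDerivAt (fun z : ℂ => Real.exp z.re) (Real.exp z.re • Complex.reCLM) z := hr.exp
    have hn : HasDerivAt nf (deriv nf (Real.exp z.re)) (Real.exp z.re) :=
      ((nf_smooth (Real.exp_pos z.re)).differentiableAt (by simp)).hasDerivAt
    have h2 : HasFDerivAt (fun z : ℂ => nf (Real.exp z.re))
        (deriv nf (Real.exp z.re) • (Real.exp z.re • Complex.reCLM)) z :=
      HasDerivAt.comp_hasFDerivAt (h₂ := nf) (f := fun z : ℂ => Real.exp z.re) z hn h1
    have h3 : HasFDerivAt (fun z : ℂ => c + z.im / (2 * Real.pi))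
        ((2 * Real.pi)⁻¹ • Complex.imCLM) z := by
      have := (hi.const_mul ((2 * Real.pi)⁻¹)).const_add c
      refine this.congr_of_eventuallyEq (Eventually.of_forall fun y => ?_)
      simp only [div_eq_inv_mul]
    have h4 := (h2.prodMk h3).fderiv
    rw [h4] at hv
    have h5 := Prod.ext_iff.1 hv
    simp only [ContinuousLinearMap.prod_apply, Prod.fst_zero, Prod.snd_zero] at h5
    obtain ⟨h6, h7⟩ := h5
    have hd := nf_deriv_pos (Real.exp_pos z.re)
    have he := Real.exp_pos z.re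
    have h6' : deriv nf (Real.exp z.re) * (Real.exp z.re * v.re) = 0 := h6
    have h7' : (2 * Real.pi)⁻¹ * v.im = 0 := h7
    have hpi : (2 * Real.pi)⁻¹ ≠ 0 := by positivity
    have h8 : v.re = 0 := by
      rcases mul_eq_zero.1 h6' with h | h
      · exact absurd h hd.ne'
      · rcases mul_eq_zero.1 h with h | h
        · exact absurd h he.ne'
        · exact h
    have h9 : v.im = 0 := by
      rcases mul_eq_zero.1 h7' with h | h
      · exact absurd h hpi
      · exact h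
    exact Complex.ext h8 h9

theorem pypm_ld {p : ℂ} (h : p ≠ -1) (h' : p ≠ 1) (h1 : pm p ≠ 1) :
    IsLocalDiffeomorphAt 𝓘(ℝ, ℂ) 𝓘(ℝ, ℝ × ℝ) ∞ (fun p => (py p, pm p)) p := by
  have hsl : xi p ∈ Complex.slitPlane := by
    rw [Complex.mem_slitPlane_iff_arg]
    refine ⟨?_, XiB_ne_zero h h'⟩
    intro ha
    apply h1
    simp only [pm, ha]
    field_simp
    norm_num
  have hc := IsLocalDiffeomorphAt.comp (hf := xi_ld h') (hg := XiB_log hsl)
  have hc2 := IsLocalDiffeomorphAt.comp (hf := hc) (hg := XiB_model (1 / 2) _)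
  refine ld_congr hc2 ?_
  have hev : ∀ᶠ q in 𝓝 p, q ≠ 1 := isOpen_ne.mem_nhds h'
  have hev' : ∀ᶠ q in 𝓝 p, q ≠ -1 := isOpen_ne.mem_nhds h
  filter_upwards [hev, hev'] with q hq hq'
  have hq0 : 0 < ‖xi q‖ := norm_pos_iff.2 (XiB_ne_zero hq' hq)
  simp only [Function.comp_apply, py, pm, Complex.log_re, Complex.log_im, Real.exp_log hq0]

theorem XiB_neg (w : ℂ) : IsLocalDiffeomorphAt 𝓘(ℝ, ℂ) 𝓘(ℝ, ℂ) ∞ (fun w : ℂ => -w) w := by
  refine XiB_left (g := fun w => -w) ?_ rfl ?_ ?_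
  · exact Eventually.of_forall fun y => contDiff_neg.contDiffAt
  · exact differentiableAt_id.neg
  · exact Eventually.of_forall fun y => neg_neg y

theorem XiB_arg {p : ℂ} (h1 : pm p = 1) : Complex.arg (xi p) = Real.pi := by
  simp only [pm] at h1
  have h2 : Complex.arg (xi p) / (2 * Real.pi) = 1 / 2 := by linarith
  rw [div_eq_iff (by positivity)] at h2
  linarith

theorem pypmm_ld {p : ℂ} (h : p ≠ -1) (h' : p ≠ 1) (h1 : pm p = 1) :
    IsLocalDiffeomorphAt 𝓘(ℝ, ℂ) 𝓘(ℝ, ℝ × ℝ) ∞ (fun p => (py p, pmm p)) p := by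
  have ha := XiB_arg h1
  rw [Complex.arg_eq_pi_iff] at ha
  have hsl : -xi p ∈ Complex.slitPlane := by
    left
    simp only [Complex.neg_re]
    linarith [ha.1]
  have hc0 := IsLocalDiffeomorphAt.comp (hf := xi_ld h') (hg := XiB_neg _)
  have hc := IsLocalDiffeomorphAt.comp (hf := hc0) (hg := XiB_log hsl)
  have hc2 := IsLocalDiffeomorphAt.comp (hf := hc) (hg := XiB_model 0 _)
  refine ld_congr hc2 ?_
  have hev : ∀ᶠ q in 𝓝 p, q ≠ 1 := isOpen_ne.mem_nhds h'
  have hev' : ∀ᶠ q in 𝓝 p, q ≠ -1 := isOpen_ne.mem_nhds h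
  filter_upwards [hev, hev'] with q hq hq'
  have hq0 : 0 < ‖xi q‖ := norm_pos_iff.2 (XiB_ne_zero hq' hq)
  simp only [Function.comp_apply, py, pmm, Complex.log_re, Complex.log_im, norm_neg,
    Real.exp_log hq0, zero_add]

theorem pmm_near {p : ℂ} (h : p ≠ -1) (h' : p ≠ 1) (h1 : pm p = 1) :
    ∀ᶠ p' in 𝓝 p, |pmm p'| < 1 / 8 ∧ (pm p' = pmm p' ∨ pm p' = pmm p' + 1) := by
  have ha := XiB_arg h1
  rw [Complex.arg_eq_pi_iff] at ha
  have hcont : ContinuousAt xi p := (XiB_cd h').continuousAt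
  have hcont' : ContinuousAt (fun p => -xi p) p := hcont.neg
  have hsl : -xi p ∈ Complex.slitPlane := by
    left
    simp only [Complex.neg_re]
    linarith [ha.1]
  have hpc : ContinuousAt pmm p := by
    have : ContinuousAt (fun p => Complex.arg (-xi p)) p :=
      ContinuousAt.comp (f := fun p => -xi p) (g := Complex.arg)
        (Complex.continuousAt_arg hsl) hcont'
    exact this.div_const _
  have hp0 : pmm p = 0 := by
    simp only [pmm]
    have : -xi p = ((-(xi p).re : ℝ) : ℂ) := by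
      apply Complex.ext
      · simp
      · simp [ha.2]
    rw [this, Complex.arg_ofReal_of_nonneg (by linarith [ha.1]), zero_div]
  have hE1 : ∀ᶠ p' in 𝓝 p, |pmm p'| < 1 / 8 := by
    have : Tendsto (fun p' => |pmm p'|) (𝓝 p) (𝓝 |pmm p|) := hpc.abs
    refine this.eventually (gt_mem_nhds ?_)
    rw [hp0]
    norm_num
  have hE2 : ∀ᶠ p' in 𝓝 p, (xi p').re < 0 := by
    have : ContinuousAt (fun p' => (xi p').re) p :=
      Complex.continuous_re.continuousAt.comp hcont
    exact this.eventually (gt_mem_nhds ha.1)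
  filter_upwards [hE1, hE2] with q hq1 hq2
  refine ⟨hq1, ?_⟩
  have hpi : Real.pi ≠ 0 := Real.pi_ne_zero
  rcases lt_trichotomy (xi q).im 0 with hi | hi | hi
  · left
    simp only [pm, pmm, Complex.arg_neg_eq_arg_add_pi_of_im_neg hi]
    field_simp
    ring
  · right
    have h2 : Complex.arg (xi q) = Real.pi := Complex.arg_eq_pi_iff.2 ⟨hq2, hi⟩
    have h3 : Complex.arg (-xi q) = 0 := by
      have : -xi q = ((-(xi q).re : ℝ) : ℂ) := by
        apply Complex.ext
        · simp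
        · simp [hi]
      rw [this, Complex.arg_ofReal_of_nonneg (by linarith)]
    simp only [pm, pmm, h2, h3]
    field_simp
    ring
  · right
    simp only [pm, pmm, Complex.arg_neg_eq_arg_sub_pi_of_im_pos hi]
    field_simp
    ring

end Pool.Agent.CSG
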