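import Pool.Agent.CSG.LD

/-!
# CSG/GamAbs: transporting a diffeomorphism through a chart with a closed image of the support

Put `Γ x = e (L z)` if `x = e z` for some `z ∈ D`, and `Γ x = x` otherwise; well defined by `hcomp`.
The inverse is the same with `L'` (`e '' D` is preserved).
`Γ` is a local diffeomorphism at `x ∉ T`:
* if `x = e z`, `z ∈ D`: `Γ ∘ e = e ∘ L` near `z` (`D` is open), a local diffeomorphism at `z`
  (`L z ∈ D`), and `e` is one at `z`: `ld_of_comp_left`.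
* if `x ∉ e '' D`: then `x ∉ e '' C ∪ T`, which is closed; near `x`, for every `x' ∉ e '' C`,
  `Γ x' = x'` (if `x' = e z`, `z ∈ D`, then `z ∉ C` and `L z = z`).  So `Γ = id` near `x`.
-/

open scoped Manifold ContDiff Topology
open Set Filter

namespace Pool.Agent.CSG

theorem exists_gamma {Z : Type*} [NormedAddCommGroup Z] [NormedSpace ℝ Z]
    {F : Type*} [NormedAddCommGroup F] [NormedSpace ℝ F]
    {H₂ : Type*} [TopologicalSpace H₂] {J : ModelWithCorners ℝ F H₂}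
    {X : Type*} [TopologicalSpace X] [ChartedSpace H₂ X]
    (e : Z → X) (D C : Set Z) (T : Set X) (L L' : Z → Z)
    (hD : IsOpen D) (he : ∀ z ∈ D, IsLocalDiffeomorphAt 𝓘(ℝ, Z) J ∞ e z)
    (heT : ∀ z ∈ D, e z ∉ T)
    (hL : ∀ z ∈ D, IsLocalDiffeomorphAt 𝓘(ℝ, Z) 𝓘(ℝ, Z) ∞ L z)
    (h1 : ∀ z ∈ D, L (L' z) = z) (h2 : ∀ z ∈ D, L' (L z) = z)
    (hLD : MapsTo L D D) (hLD' : MapsTo L' D D)
    (hcomp : ∀ z ∈ D, ∀ z' ∈ D, e z = e z' → e (L z) = e (L z'))
    (hcomp' : ∀ z ∈ D, ∀ z' ∈ D, e z = e z' → e (L' z) = e (L' z'))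
    (hid : ∀ z ∈ D, z ∉ C → L z = z) (hcl : IsClosed (e '' C ∪ T)) (hCD : C ⊆ D) :
    ∃ Γ : Equiv.Perm X, (∀ x, x ∉ T → IsLocalDiffeomorphAt J J ∞ Γ x) ∧
      (∀ z ∈ D, Γ (e z) = e (L z)) ∧ (∀ x, x ∉ e '' D → Γ x = x) ∧ (∀ x ∈ T, Γ x = x) := by
  classical
  set Γ : X → X := fun x => if h : ∃ z ∈ D, e z = x then e (L h.choose) else x with hΓdef
  set Γ' : X → X := fun x => if h : ∃ z ∈ D, e z = x then e (L' h.choose) else x with hΓdef'
  have hΓe : ∀ z ∈ D, Γ (e z) = e (L z) := by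
    intro z hz
    have h : ∃ w ∈ D, e w = e z := ⟨z, hz, rfl⟩
    have : Γ (e z) = e (L h.choose) := by simp only [hΓdef]; rw [dif_pos h]
    rw [this]
    exact hcomp _ h.choose_spec.1 _ hz h.choose_spec.2
  have hΓe' : ∀ z ∈ D, Γ' (e z) = e (L' z) := by
    intro z hz
    have h : ∃ w ∈ D, e w = e z := ⟨z, hz, rfl⟩
    have : Γ' (e z) = e (L' h.choose) := by simp only [hΓdef']; rw [dif_pos h]
    rw [this]
    exact hcomp' _ h.choose_spec.1 _ hz h.choose_spec.2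
  have hΓn : ∀ x, x ∉ e '' D → Γ x = x := by
    intro x hx
    simp only [hΓdef]
    rw [dif_neg]
    rintro ⟨z, hz, hzx⟩
    exact hx ⟨z, hz, hzx⟩
  have hΓn' : ∀ x, x ∉ e '' D → Γ' x = x := by
    intro x hx
    simp only [hΓdef']
    rw [dif_neg]
    rintro ⟨z, hz, hzx⟩
    exact hx ⟨z, hz, hzx⟩
  have hinv1 : ∀ x, Γ' (Γ x) = x := by
    intro x
    by_cases hx : x ∈ e '' D
    · obtain ⟨z, hz, rfl⟩ := hx
      rw [hΓe z hz, hΓe' _ (hLD hz), h2 z hz]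
    · rw [hΓn x hx, hΓn' x hx]
  have hinv2 : ∀ x, Γ (Γ' x) = x := by
    intro x
    by_cases hx : x ∈ e '' D
    · obtain ⟨z, hz, rfl⟩ := hx
      rw [hΓe' z hz, hΓe _ (hLD' hz), h1 z hz]
    · rw [hΓn' x hx, hΓn x hx]
  refine ⟨⟨Γ, Γ', hinv1, hinv2⟩, ?_, hΓe, hΓn, ?_⟩
  · intro x hxT
    change IsLocalDiffeomorphAt J J ∞ Γ x
    by_cases hx : x ∈ e '' D
    · obtain ⟨z, hz, rfl⟩ := hx
      refine ld_of_comp_left (I := 𝓘(ℝ, Z)) (f := e) ?_ (he z hz)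
      refine ld_congr (f := e ∘ L) ?_ ?_
      · exact IsLocalDiffeomorphAt.comp (hf := hL z hz) (hg := he (L z) (hLD hz))
      · filter_upwards [hD.mem_nhds hz] with w hw
        exact hΓe w hw
    · have hx' : x ∉ e '' C ∪ T := by
        rintro (⟨z, hz, rfl⟩ | h)
        · exact hx ⟨z, hCD hz, rfl⟩
        · exact hxT h
      refine ld_congr (f := id) (ld_id x) ?_
      filter_upwards [hcl.isOpen_compl.mem_nhds hx'] with y hy
      by_cases hyD : y ∈ e '' D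
      · obtain ⟨z, hz, rfl⟩ := hyD
        rw [hΓe z hz, hid z hz]
        · rfl
        · intro hzC
          exact hy (Or.inl ⟨z, hzC, rfl⟩)
      · exact hΓn y hyD
  · intro x hx
    refine hΓn x ?_
    rintro ⟨z, hz, rfl⟩
    exact heT z hz hx

end Pool.Agent.CSG
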