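import Pool.Agent.CSG.LD

/-!
# CSG/Radial: slow radial interpolation of linear maps

Let `L t τ` (`t ∈ R`, `0 ≤ τ ≤ 1`) be a smooth family of linear isomorphisms with `L t 0 = 1`,
`‖(L t τ)⁻¹‖ ≤ C` and `‖L t τ - L t τ'‖ ≤ C |τ - τ'|`, `‖L t τ‖ ≤ C`.  For `R > 0` there is a smooth
`θ : F → [0,1]`, `θ = 1` for `‖z‖ ≤ r₀`, `θ = 0` for `‖z‖ ≥ R`, such that `f t z = L t (θ z) z` is
for each `t` a bijection, and `(z, t) ↦ f t z`, `(z, t) ↦ (f t)⁻¹ z` are smooth.
-/

open scoped ContDiff Topology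
open Set Filter

namespace Pool.Agent.CSG

/-- The smooth transition is Lipschitz. -/
theorem smoothTransition_lip : ∃ C₀ : ℝ, 0 < C₀ ∧
    ∀ x y : ℝ, |Real.smoothTransition x - Real.smoothTransition y| ≤ C₀ * |x - y| := by
  have hs : ContDiff ℝ ∞ Real.smoothTransition := Real.smoothTransition.contDiff
  have hcd : Continuous (deriv Real.smoothTransition) := hs.continuous_deriv (by simp)
  obtain ⟨C, hC⟩ := (isCompact_Icc (a := (0 : ℝ)) (b := 1)).exists_bound_of_continuousOn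
    hcd.continuousOn
  have hb : ∀ x, ‖deriv Real.smoothTransition x‖ ≤ |C| + 1 := by
    intro x
    by_cases h0 : x < 0
    · have : Real.smoothTransition =ᶠ[𝓝 x] fun _ => (0 : ℝ) := by
        filter_upwards [Iio_mem_nhds h0] with y hy
        exact Real.smoothTransition.zero_of_nonpos (le_of_lt hy)
      rw [this.deriv_eq]
      simp only [deriv_const, norm_zero]
      positivity
    · by_cases h1 : 1 < x
      · have : Real.smoothTransition =ᶠ[𝓝 x] fun _ => (1 : ℝ) := by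
          filter_upwards [Ioi_mem_nhds h1] with y hy
          exact Real.smoothTransition.one_of_one_le (le_of_lt hy)
        rw [this.deriv_eq]
        simp only [deriv_const, norm_zero]
        positivity
      · have := hC x ⟨not_lt.1 h0, not_lt.1 h1⟩
        linarith [le_abs_self C]
  refine ⟨|C| + 1, by positivity, fun x y => ?_⟩
  have := Convex.norm_image_sub_le_of_norm_deriv_le (f := Real.smoothTransition)
    (s := Set.univ) (x := y) (y := x) (C := |C| + 1)
    (fun z _ => (hs.differentiable (by simp)).differentiableAt) (fun z _ => hb z) convex_univ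
    (mem_univ _) (mem_univ _)
  simpa [Real.norm_eq_abs] using this

/-- A lower bound on increments gives injectivity of the derivative. -/
theorem fderiv_inj_of_lower {F : Type*} [NormedAddCommGroup F] [NormedSpace ℝ F] {f : F → F}
    {x : F} (hf : DifferentiableAt ℝ f x) {c : ℝ} (hc : 0 < c)
    (h : ∀ᶠ y in 𝓝 x, c * ‖y - x‖ ≤ ‖f y - f x‖) (v : F) (hv : fderiv ℝ f x v = 0) : v = 0 := by
  have h1 : HasLineDerivAt ℝ f (fderiv ℝ f x v) x v := hf.hasFDerivAt.hasLineDerivAt v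
  have h2 := h1.tendsto_slope_zero
  rw [hv] at h2
  have h3 : Tendsto (fun s : ℝ => x + s • v) (𝓝[≠] 0) (𝓝 x) := by
    have : Tendsto (fun s : ℝ => x + s • v) (𝓝 0) (𝓝 (x + (0 : ℝ) • v)) := by
      apply Continuous.tendsto
      fun_prop
    simp only [zero_smul, add_zero] at this
    exact this.mono_left nhdsWithin_le_nhds
  have h4 : ∀ᶠ s : ℝ in 𝓝[≠] 0, c * ‖v‖ ≤ ‖s⁻¹ • (f (x + s • v) - f x)‖ := by
    filter_upwards [h3.eventually h, self_mem_nhdsWithin] with s hs hs0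
    have hs0' : s ≠ 0 := hs0
    have hpos : 0 < |s| := abs_pos.2 hs0'
    rw [norm_smul, norm_inv, Real.norm_eq_abs]
    have e1 : ‖x + s • v - x‖ = |s| * ‖v‖ := by
      rw [add_sub_cancel_left, norm_smul, Real.norm_eq_abs]
    rw [e1] at hs
    rw [← div_eq_inv_mul, le_div_iff₀ hpos]
    nlinarith
  have h5 : c * ‖v‖ ≤ ‖(0 : F)‖ := by
    refine ge_of_tendsto (h2.norm) h4
  rw [norm_zero] at h5
  have : ‖v‖ ≤ 0 := by
    by_contra hcon
    push Not at hcon
    nlinarith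
  exact norm_le_zero_iff.1 this

/-- `|log a - log b| ≤ |a - b| / min a b` in the form used below. -/
theorem abs_log_sub_le {a b m : ℝ} (hm : 0 < m) (ha : m ≤ a) (hb : m ≤ b) :
    |Real.log a - Real.log b| ≤ |a - b| / m := by
  have ha0 : 0 < a := lt_of_lt_of_le hm ha
  have hb0 : 0 < b := lt_of_lt_of_le hm hb
  rw [abs_le]
  have key : ∀ p q : ℝ, m ≤ p → m ≤ q → Real.log p - Real.log q ≤ |p - q| / m := by
    intro p q hp hq
    have hp0 : 0 < p := lt_of_lt_of_le hm hp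
    have hq0 : 0 < q := lt_of_lt_of_le hm hq
    rw [← Real.log_div hp0.ne' hq0.ne']
    have h1 := Real.log_le_sub_one_of_pos (div_pos hp0 hq0)
    have h2 : p / q - 1 = (p - q) / q := by field_simp
    rw [h2] at h1
    refine h1.trans ?_
    calc (p - q) / q ≤ |p - q| / q := by gcongr; exact le_abs_self _
      _ ≤ |p - q| / m := by gcongr
  constructor
  · have := key b a hb ha
    rw [abs_sub_comm b a] at this
    linarith
  · exact key a b ha hb

theorem radial {F : Type*} [NormedAddCommGroup F] [InnerProductSpace ℝ F] [FiniteDimensional ℝ F]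
    (L : ℝ → ℝ → F ≃L[ℝ] F)
    (hL : ContDiff ℝ ∞ fun q : ℝ × ℝ × F => L q.1 q.2.1 q.2.2)
    (hL0 : ∀ t z, L t 0 z = z) (C : ℝ)
    (h1 : ∀ t τ z, 0 ≤ τ → τ ≤ 1 → ‖L t τ z‖ ≤ C * ‖z‖)
    (h2 : ∀ t τ z, 0 ≤ τ → τ ≤ 1 → ‖(L t τ).symm z‖ ≤ C * ‖z‖)
    (h3 : ∀ t τ τ' z, 0 ≤ τ → τ ≤ 1 → 0 ≤ τ' → τ' ≤ 1 →
      ‖L t τ z - L t τ' z‖ ≤ C * |τ - τ'| * ‖z‖)
    (R : ℝ) (hR : 0 < R) :
    ∃ r₀ : ℝ, 0 < r₀ ∧ r₀ < R ∧ ∃ θ : F → ℝ, ∃ f : ℝ → Equiv.Perm F,
      ContDiff ℝ ∞ θ ∧ (∀ z, 0 ≤ θ z ∧ θ z ≤ 1) ∧ (∀ z, ‖z‖ ≤ r₀ → θ z = 1) ∧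
      (∀ z, R ≤ ‖z‖ → θ z = 0) ∧
      (∀ t z, f t z = L t (θ z) z) ∧
      (ContDiff ℝ ∞ fun q : F × ℝ => f q.2 q.1) ∧
      (ContDiff ℝ ∞ fun q : F × ℝ => (f q.2).symm q.1) := by
  classical
  obtain ⟨C₀, hC₀, hlip⟩ := smoothTransition_lip
  -- enlarge `C`
  set K : ℝ := |C| + 1 with hK
  have hK1 : 1 ≤ K := by rw [hK]; linarith [abs_nonneg C]
  have hK0 : 0 < K := by linarith
  have hCK : C ≤ K := by rw [hK]; linarith [le_abs_self C]
  have h1' : ∀ t τ z, 0 ≤ τ → τ ≤ 1 → ‖L t τ z‖ ≤ K * ‖z‖ := fun t τ z a b =>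
    (h1 t τ z a b).trans (by gcongr)
  have h2' : ∀ t τ z, 0 ≤ τ → τ ≤ 1 → ‖(L t τ).symm z‖ ≤ K * ‖z‖ := fun t τ z a b =>
    (h2 t τ z a b).trans (by gcongr)
  have h3' : ∀ t τ τ' z, 0 ≤ τ → τ ≤ 1 → 0 ≤ τ' → τ' ≤ 1 →
      ‖L t τ z - L t τ' z‖ ≤ K * |τ - τ'| * ‖z‖ := fun t τ τ' z a b c d =>
    (h3 t τ τ' z a b c d).trans (by gcongr)
  have hlow : ∀ t τ z, 0 ≤ τ → τ ≤ 1 → ‖z‖ ≤ K * ‖L t τ z‖ := by
    intro t τ z a b
    have := h2' t τ (L t τ z) a b
    simpa using this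
  -- parameters
  set Λ : ℝ := 4 * K ^ 2 * C₀ with hΛ
  have hΛ0 : 0 < Λ := by positivity
  set r₀ : ℝ := R * Real.exp (-Λ) with hr₀
  have hr0 : 0 < r₀ := by positivity
  have hlogr0 : Real.log r₀ = Real.log R - Λ := by
    rw [hr₀, Real.log_mul hR.ne' (Real.exp_pos _).ne', Real.log_exp]; ring
  have hr0R : r₀ < R := by
    rw [hr₀]
    have : Real.exp (-Λ) < 1 := by
      rw [Real.exp_lt_one_iff]; linarith
    nlinarith
  set g : ℝ → ℝ := fun r => Real.smoothTransition ((Real.log R - Real.log r) / Λ) with hg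
  have hg01 : ∀ r, 0 ≤ g r ∧ g r ≤ 1 := fun r =>
    ⟨Real.smoothTransition.nonneg _, Real.smoothTransition.le_one _⟩
  have hg1 : ∀ r, 0 < r → r ≤ r₀ → g r = 1 := by
    intro r hr hrr
    apply Real.smoothTransition.one_of_one_le
    rw [le_div_iff₀ hΛ0]
    have := Real.log_le_log hr hrr
    rw [hlogr0] at this
    linarith
  have hg0 : ∀ r, R ≤ r → g r = 0 := by
    intro r hr
    apply Real.smoothTransition.zero_of_nonpos
    apply div_nonpos_of_nonpos_of_nonneg _ hΛ0.le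
    have := Real.log_le_log hR hr
    linarith
  have hglip : ∀ r r', |g r - g r'| ≤ C₀ / Λ * |Real.log r - Real.log r'| := by
    intro r r'
    refine (hlip _ _).trans ?_
    rw [div_sub_div_same, abs_div, abs_of_pos hΛ0]
    have : Real.log R - Real.log r - (Real.log R - Real.log r') = -(Real.log r - Real.log r') := by
      ring
    rw [this, abs_neg]
    apply le_of_eq
    ring
  have hκ : K ^ 2 * (C₀ / Λ) = 1 / 4 := by
    rw [hΛ]; field_simp
  -- the function θ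
  set θ : F → ℝ := fun z => if ‖z‖ < r₀ then 1 else g ‖z‖ with hθ
  have hθg : ∀ z : F, z ≠ 0 → θ z = g ‖z‖ := by
    intro z hz
    simp only [hθ]
    split_ifs with h
    · exact (hg1 _ (norm_pos_iff.2 hz) h.le).symm
    · rfl
  have hθ01 : ∀ z, 0 ≤ θ z ∧ θ z ≤ 1 := by
    intro z
    simp only [hθ]
    split_ifs with h
    · exact ⟨zero_le_one, le_rfl⟩
    · exact hg01 _
  have hθ1 : ∀ z, ‖z‖ ≤ r₀ → θ z = 1 := by
    intro z hz
    simp only [hθ]
    split_ifs with h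
    · rfl
    · exact hg1 _ (lt_of_lt_of_le hr0 (not_lt.1 h)) hz
  have hθ0 : ∀ z, R ≤ ‖z‖ → θ z = 0 := by
    intro z hz
    simp only [hθ]
    rw [if_neg (not_lt.2 (hr0R.le.trans hz))]
    exact hg0 _ hz
  have hθs : ContDiff ℝ ∞ θ := by
    rw [contDiff_iff_contDiffAt]
    intro z
    by_cases hz : z = 0
    · have : θ =ᶠ[𝓝 z] fun _ => (1 : ℝ) := by
        have : Metric.ball (0 : F) r₀ ∈ 𝓝 z := by
          rw [hz]; exact Metric.ball_mem_nhds _ hr0
        filter_upwards [this] with w hw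
        exact hθ1 w (by simpa using (mem_ball_zero_iff.1 hw).le)
      exact contDiffAt_const.congr_of_eventuallyEq this
    · have : θ =ᶠ[𝓝 z] fun w => g ‖w‖ := by
        filter_upwards [isOpen_ne.mem_nhds hz] with w hw
        exact hθg w hw
      refine ContDiffAt.congr_of_eventuallyEq ?_ this
      have hn : ContDiffAt ℝ ∞ (fun w : F => ‖w‖) z := contDiffAt_norm ℝ hz
      have hl : ContDiffAt ℝ ∞ (fun w : F => Real.log ‖w‖) z :=
        (hn.log (norm_ne_zero_iff.2 hz))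
      exact Real.smoothTransition.contDiff.contDiffAt.comp z
        ((contDiffAt_const.sub hl).div_const Λ)
  have hθlip : ∀ z z' : F, z ≠ 0 → z' ≠ 0 →
      |θ z - θ z'| ≤ C₀ / Λ * |Real.log ‖z‖ - Real.log ‖z'‖| := by
    intro z z' hz hz'
    rw [hθg z hz, hθg z' hz']
    exact hglip _ _
  -- injectivity
  have hmain : ∀ t (z z' : F), z ≠ 0 → z' ≠ 0 → ‖z'‖ ≤ ‖z‖ → L t (θ z) z = L t (θ z') z' →
      z = z' := by
    intro t z z' hz hz' hle heq
    have hzn : 0 < ‖z‖ := norm_pos_iff.2 hz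
    have hzn' : 0 < ‖z'‖ := norm_pos_iff.2 hz'
    -- z - z' = (L τ)⁻¹ (L τ' z' - L τ z')
    have e1 : z - z' = (L t (θ z)).symm (L t (θ z') z' - L t (θ z) z') := by
      rw [← heq, map_sub]
      simp
    have e2 : ‖z - z'‖ ≤ 1 / 4 * |Real.log ‖z‖ - Real.log ‖z'‖| * ‖z'‖ := by
      rw [e1]
      refine (h2' t (θ z) _ (hθ01 z).1 (hθ01 z).2).trans ?_
      have := h3' t (θ z') (θ z) z' (hθ01 z').1 (hθ01 z').2 (hθ01 z).1 (hθ01 z).2
      have h4 := hθlip z' z hz' hz
      rw [abs_sub_comm (Real.log ‖z'‖)] at h4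
      calc K * ‖L t (θ z') z' - L t (θ z) z'‖ ≤ K * (K * |θ z' - θ z| * ‖z'‖) := by gcongr
        _ ≤ K * (K * (C₀ / Λ * |Real.log ‖z‖ - Real.log ‖z'‖|) * ‖z'‖) := by gcongr
        _ = (K ^ 2 * (C₀ / Λ)) * |Real.log ‖z‖ - Real.log ‖z'‖| * ‖z'‖ := by ring
        _ = 1 / 4 * |Real.log ‖z‖ - Real.log ‖z'‖| * ‖z'‖ := by rw [hκ]
    have hlog : 0 ≤ Real.log ‖z‖ - Real.log ‖z'‖ := by
      have := Real.log_le_log hzn' hle
      linarith
    rw [abs_of_nonneg hlog, ← Real.log_div hzn.ne' hzn'.ne'] at e2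
    have h5 := Real.log_le_sub_one_of_pos (div_pos hzn hzn')
    have h6 : ‖z‖ - ‖z'‖ ≤ ‖z - z'‖ := norm_sub_norm_le z z'
    have h7 : (‖z‖ / ‖z'‖ - 1) * ‖z'‖ = ‖z‖ - ‖z'‖ := by field_simp
    have h8 : ‖z - z'‖ ≤ 1 / 4 * (‖z‖ - ‖z'‖) := by
      refine e2.trans ?_
      rw [← h7]
      have : 1 / 4 * Real.log (‖z‖ / ‖z'‖) * ‖z'‖ ≤ 1 / 4 * (‖z‖ / ‖z'‖ - 1) * ‖z'‖ := by gcongr
      linarith
    have h9 : ‖z‖ - ‖z'‖ ≤ 0 := by nlinarith
    have h10 : ‖z - z'‖ ≤ 0 := by nlinarith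
    exact sub_eq_zero.1 (norm_le_zero_iff.1 h10)
  have hinj : ∀ t, Function.Injective fun z => L t (θ z) z := by
    intro t z z' heq
    simp only at heq
    by_cases hz : z = 0
    · rw [hz, map_zero] at heq
      have := (L t (θ z')).injective (heq.symm.trans (map_zero _).symm)
      rw [hz, this]
    · by_cases hz' : z' = 0
      · rw [hz', map_zero] at heq
        exact absurd ((L t (θ z)).injective (heq.trans (map_zero _).symm)) hz
      · rcases le_total ‖z'‖ ‖z‖ with h | h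
        · exact hmain t z z' hz hz' h heq
        · exact (hmain t z' z hz' hz h heq.symm).symm
  -- continuity of the inverse
  have hcinv : ∀ t y, ContinuousOn (fun τ => (L t τ).symm y) (Icc 0 1) := by
    intro t y
    have hl : LipschitzOnWith (Real.toNNReal (K ^ 3 * ‖y‖)) (fun τ => (L t τ).symm y)
        (Icc 0 1) := by
      apply LipschitzOnWith.of_dist_le_mul
      intro τ hτ τ' hτ'
      rw [dist_eq_norm, dist_eq_norm, Real.coe_toNNReal _ (by positivity)]
      have e1 : (L t τ).symm y - (L t τ').symm y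
          = (L t τ').symm (L t τ' ((L t τ).symm y) - L t τ ((L t τ).symm y)) := by
        rw [map_sub]
        simp
      rw [e1]
      refine (h2' t τ' _ hτ'.1 hτ'.2).trans ?_
      have h4 := h3' t τ' τ ((L t τ).symm y) hτ'.1 hτ'.2 hτ.1 hτ.2
      have h5 := h2' t τ y hτ.1 hτ.2
      calc K * ‖L t τ' ((L t τ).symm y) - L t τ ((L t τ).symm y)‖
          ≤ K * (K * |τ' - τ| * ‖(L t τ).symm y‖) := by gcongr
        _ ≤ K * (K * |τ' - τ| * (K * ‖y‖)) := by gcongr
        _ = K ^ 3 * ‖y‖ * ‖τ - τ'‖ := by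
            rw [Real.norm_eq_abs, abs_sub_comm τ τ']; ring
    exact hl.continuousOn
  have hsurj : ∀ t, Function.Surjective fun z => L t (θ z) z := by
    intro t y
    by_cases hy : y = 0
    · exact ⟨0, by simp [hy]⟩
    have hyn : 0 < ‖y‖ := norm_pos_iff.2 hy
    set r1 : ℝ := min r₀ (‖y‖ / K) with hr1
    set r2 : ℝ := max R ‖y‖ with hr2
    have hr1pos : 0 < r1 := lt_min hr0 (div_pos hyn hK0)
    have hr12 : r1 ≤ r2 := (min_le_left _ _).trans (hr0R.le.trans (le_max_left _ _))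
    set G : ℝ → ℝ := fun r => ‖(L t (g r)).symm y‖ - r with hG
    have hGc : ContinuousOn G (Icc r1 r2) := by
      have hgc : ContinuousOn g (Icc r1 r2) := by
        intro r hr
        have hrp : r ≠ 0 := (lt_of_lt_of_le hr1pos hr.1).ne'
        apply ContinuousAt.continuousWithinAt
        have : ContinuousAt Real.log r := Real.continuousAt_log hrp
        exact (Real.smoothTransition.continuous.continuousAt).comp
          ((continuousAt_const.sub this).div_const Λ)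
      have := (hcinv t y).comp hgc (fun r _ => ⟨(hg01 r).1, (hg01 r).2⟩)
      exact (this.norm).sub continuousOn_id
    have hG1 : 0 ≤ G r1 := by
      have hgr : g r1 = 1 := hg1 _ hr1pos (min_le_left _ _)
      simp only [hG, hgr]
      have h4 := h1' t 1 ((L t 1).symm y) zero_le_one le_rfl
      rw [ContinuousLinearEquiv.apply_symm_apply] at h4
      have h5 : r1 ≤ ‖y‖ / K := min_le_right _ _
      have h6 : ‖y‖ / K ≤ ‖(L t 1).symm y‖ := by
        rw [div_le_iff₀ hK0]; linarith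
      linarith
    have hG2 : G r2 ≤ 0 := by
      have hgr : g r2 = 0 := hg0 _ (le_max_left _ _)
      simp only [hG, hgr]
      have h4 : (L t 0).symm y = y := by
        rw [ContinuousLinearEquiv.symm_apply_eq, hL0]
      rw [h4]
      have : ‖y‖ ≤ r2 := le_max_right _ _
      linarith
    obtain ⟨r, hr, hGr⟩ := intermediate_value_Icc' hr12 hGc (show (0 : ℝ) ∈ Icc (G r2) (G r1)
      from ⟨hG2, hG1⟩)
    have hrp : 0 < r := lt_of_lt_of_le hr1pos hr.1
    refine ⟨(L t (g r)).symm y, ?_⟩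
    have hn : ‖(L t (g r)).symm y‖ = r := by
      simp only [hG] at hGr; linarith
    have hne : (L t (g r)).symm y ≠ 0 := by
      rw [← norm_pos_iff, hn]; exact hrp
    have : θ ((L t (g r)).symm y) = g r := by rw [hθg _ hne, hn]
    simp only [this]
    simp
  set f : ℝ → Equiv.Perm F := fun t => Equiv.ofBijective (fun z => L t (θ z) z)
    ⟨hinj t, hsurj t⟩ with hf
  have hfa : ∀ t z, f t z = L t (θ z) z := fun t z => rfl
  have hfs : ContDiff ℝ ∞ fun q : F × ℝ => f q.2 q.1 := by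
    have : (fun q : F × ℝ => f q.2 q.1)
        = (fun q : ℝ × ℝ × F => L q.1 q.2.1 q.2.2) ∘ fun q : F × ℝ => (q.2, θ q.1, q.1) := by
      funext q; rfl
    rw [this]
    exact hL.comp (contDiff_snd.prodMk ((hθs.comp contDiff_fst).prodMk contDiff_fst))
  -- lower bound on increments
  have hlower : ∀ t (z : F), ∀ᶠ w in 𝓝 z, 1 / (2 * K) * ‖w - z‖ ≤ ‖f t w - f t z‖ := by
    intro t z
    by_cases hz : z = 0
    · have : Metric.ball (0 : F) r₀ ∈ 𝓝 z := by rw [hz]; exact Metric.ball_mem_nhds _ hr0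
      filter_upwards [this] with w hw
      have hw1 : θ w = 1 := hθ1 w (mem_ball_zero_iff.1 hw).le
      have hz1 : θ z = 1 := hθ1 z (by rw [hz, norm_zero]; exact hr0.le)
      rw [hfa, hfa, hw1, hz1, ← map_sub]
      have h4 := hlow t 1 (w - z) zero_le_one le_rfl
      have h5 : ‖w - z‖ / K ≤ ‖L t 1 (w - z)‖ := by rw [div_le_iff₀ hK0]; linarith
      have h6 : 1 / (2 * K) * ‖w - z‖ ≤ ‖w - z‖ / K := by
        rw [div_mul_eq_mul_div, one_mul]
        gcongr
        linarith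
      linarith
    · have hzn : 0 < ‖z‖ := norm_pos_iff.2 hz
      have : Metric.ball z (‖z‖ / 2) ∈ 𝓝 z := Metric.ball_mem_nhds _ (by positivity)
      filter_upwards [this] with w hw
      rw [mem_ball_iff_norm] at hw
      have hwn : ‖z‖ / 2 ≤ ‖w‖ := by
        have := norm_sub_norm_le z w
        rw [norm_sub_rev] at this
        linarith
      have hw0 : w ≠ 0 := by
        rw [← norm_pos_iff]; linarith
      rw [hfa, hfa]
      have e1 : L t (θ w) w - L t (θ z) z = L t (θ w) (w - z) + (L t (θ w) z - L t (θ z) z) := by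
        rw [map_sub]; abel
      have h4 := hlow t (θ w) (w - z) (hθ01 w).1 (hθ01 w).2
      have h5 : ‖w - z‖ / K ≤ ‖L t (θ w) (w - z)‖ := by rw [div_le_iff₀ hK0]; linarith
      have h6 := h3' t (θ w) (θ z) z (hθ01 w).1 (hθ01 w).2 (hθ01 z).1 (hθ01 z).2
      have h7 := hθlip w z hw0 hz
      have h8 : |Real.log ‖w‖ - Real.log ‖z‖| ≤ |‖w‖ - ‖z‖| / (‖z‖ / 2) :=
        abs_log_sub_le (by positivity) hwn (by linarith)
      have h9 : |‖w‖ - ‖z‖| ≤ ‖w - z‖ := abs_norm_sub_norm_le w z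
      have h10 : ‖L t (θ w) z - L t (θ z) z‖ ≤ 1 / (2 * K) * ‖w - z‖ := by
        calc ‖L t (θ w) z - L t (θ z) z‖ ≤ K * |θ w - θ z| * ‖z‖ := h6
          _ ≤ K * (C₀ / Λ * (‖w - z‖ / (‖z‖ / 2))) * ‖z‖ := by
              gcongr
              refine h7.trans ?_
              gcongr
              refine h8.trans ?_
              gcongr
          _ = (K ^ 2 * (C₀ / Λ)) * (2 / K) * ‖w - z‖ := by
              field_simp
          _ = 1 / (2 * K) * ‖w - z‖ := by rw [hκ]; field_simp; norm_num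
      rw [e1]
      have h11 := norm_sub_le_norm_add (L t (θ w) (w - z)) (L t (θ w) z - L t (θ z) z)
      have h12 : ‖w - z‖ / K = 1 / (2 * K) * ‖w - z‖ + 1 / (2 * K) * ‖w - z‖ := by
        field_simp; norm_num
      linarith
  refine ⟨r₀, hr0, hr0R, θ, f, hθs, hθ01, hθ1, hθ0, hfa, hfs, ?_⟩
  refine smooth_symm_of_family hfs ?_ rfl
  intro x t v hv
  have hd : DifferentiableAt ℝ (f t) x := by
    have : (f t : F → F) = (fun q : F × ℝ => f q.2 q.1) ∘ fun z => (z, t) := rfl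
    rw [this]
    exact ((hfs.comp (contDiff_id.prodMk contDiff_const)).differentiable
      (by simp)).differentiableAt
  exact fderiv_inj_of_lower hd (by positivity) (hlower t x) v hv

end Pool.Agent.CSG
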