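import Pool.Agent.CSG.EDef
import Pool.Agent.CSG.FunBasic
import Pool.Agent.CSG.LD

/-!
# CSG/HHb: basic facts on `Surg` and `HH`

`H_inj_one`: from `H_inj` (`0 ≤ s, t < 1`): if `s = 1` write `H (x, 1) = H (φ x, 0)`; a coincidence
of times `1` and `t < 1`, `t > 0` would give `t = 0`; for `s = t = 1`, `φ y = φ x + vec m` gives
`y = x + vec m'` (`φ⁻¹` commutes with translations up to the inverse of `A`; see `Mono.inv`).

`ld_H`: `H` composed with a local diffeomorphism `Φ` into `R^4 = R × R × R × R`; the map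
`(y, u, n, t) ↦ (pt y u n, t)` is a linear isomorphism `R^4 → E3 × R`.
-/

open scoped Manifold ContDiff Topology
open Complex (I)
open Set Filter

namespace Pool.Agent.CSG

theorem isLat_pt {y u n : ℝ} :
    IsLat (pt y u n) ↔ (∃ m : ℤ, y = m) ∧ (∃ m : ℤ, u = m) ∧ ∃ m : ℤ, n = m := by
  constructor
  · rintro ⟨m, hm⟩
    refine ⟨⟨m 0, ?_⟩, ⟨m 1, ?_⟩, ⟨m 2, ?_⟩⟩
    · have := congrArg (fun x : E3 => x 0) hm
      simpa [vec] using this
    · have := congrArg (fun x : E3 => x 1) hm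
      simpa [vec] using this
    · have := congrArg (fun x : E3 => x 2) hm
      simpa [vec] using this
  · rintro ⟨⟨a, ha⟩, ⟨b, hb⟩, ⟨c, hc⟩⟩
    refine ⟨![a, b, c], ?_⟩
    ext i
    fin_cases i
    · simp [vec, ha]
    · simp [vec, hb]
    · simp [vec, hc]

theorem pt_add_vec (y u n : ℝ) (m : Fin 3 → ℤ) :
    pt y u n + vec m = pt (y + m 0) (u + m 1) (n + m 2) := by
  ext i
  fin_cases i <;> simp [vec, pt]

theorem pt_inj_vec {y u n y' u' n' : ℝ} {m : Fin 3 → ℤ} (h : pt y' u' n' = pt y u n + vec m) :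
    y' = y + m 0 ∧ u' = u + m 1 ∧ n' = n + m 2 := by
  rw [pt_add_vec] at h
  refine ⟨?_, ?_, ?_⟩
  · have := congrArg (fun x : E3 => x 0) h
    simpa using this
  · have := congrArg (fun x : E3 => x 1) h
    simpa using this
  · have := congrArg (fun x : E3 => x 2) h
    simpa using this

/-- the linear change of coordinates -/
noncomputable def HHb_eqv : (ℝ × ℝ × ℝ × ℝ) ≃ (E3 × ℝ) where
  toFun v := (pt v.1 v.2.1 v.2.2.1, v.2.2.2)
  invFun q := (q.1 0, q.1 1, q.1 2, q.2)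
  left_inv v := by simp
  right_inv q := by simp [pt_eta]

theorem HHb_eqv_smooth : ContDiff ℝ ∞ HHb_eqv := by
  show ContDiff ℝ ∞ (fun v : ℝ × ℝ × ℝ × ℝ => ((pt v.1 v.2.1 v.2.2.1, v.2.2.2) : E3 × ℝ))
  apply ContDiff.prodMk
  · rw [contDiff_euclidean]
    intro i
    fin_cases i
    · simp only [pt]
      exact contDiff_fst
    · simp only [pt]
      exact contDiff_fst.comp contDiff_snd
    · simp only [pt]
      exact contDiff_fst.comp (contDiff_snd.comp contDiff_snd)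
  · exact contDiff_snd.comp (contDiff_snd.comp contDiff_snd)

theorem HHb_eqv_symm_smooth : ContDiff ℝ ∞ HHb_eqv.symm := by
  show ContDiff ℝ ∞ (fun q : E3 × ℝ => ((q.1 0, q.1 1, q.1 2, q.2) : ℝ × ℝ × ℝ × ℝ))
  have h : ∀ i : Fin 3, ContDiff ℝ ∞ (fun q : E3 × ℝ => q.1 i) := fun i =>
    (contDiff_euclidean.1 contDiff_id i).comp contDiff_fst
  exact (h 0).prodMk ((h 1).prodMk ((h 2).prodMk contDiff_snd))

section
variable {X : Type*} [TopologicalSpace X] [ChartedSpace E4 X] {φ : Equiv.Perm E3}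
  {A : Matrix (Fin 3) (Fin 3) ℤ}

theorem H_inj_one (hφ : Mono A φ) (S : Surg φ X) {x y : E3} {s t : ℝ} (hx : ¬ IsLat x)
    (hy : ¬ IsLat y) (hs : 0 < s) (hs' : s ≤ 1) (ht : 0 < t) (ht' : t ≤ 1)
    (h : S.H (x, s) = S.H (y, t)) : s = t ∧ ∃ m, y = x + vec m := by
  have hx' : ¬ IsLat (φ x) := fun h => hx ((hφ.isLat x).1 h)
  have hy' : ¬ IsLat (φ y) := fun h => hy ((hφ.isLat y).1 h)
  rcases hs'.lt_or_eq with hs1 | hs1
  · rcases ht'.lt_or_eq with ht1 | ht1
    · exact S.H_inj x y s t hx hy hs.le hs1 ht.le ht1 h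
    · subst ht1
      have h1 : S.H (y, (1 : ℝ)) = S.H (φ y, 0) := by
        rw [S.H_mon y 0 hy, zero_add]
      rw [h1] at h
      have h2 := S.H_inj x (φ y) s 0 hx hy' hs.le hs1 le_rfl one_pos h
      exact absurd h2.1 hs.ne'
  · subst hs1
    have h1 : S.H (x, (1 : ℝ)) = S.H (φ x, 0) := by
      rw [S.H_mon x 0 hx, zero_add]
    rcases ht'.lt_or_eq with ht1 | ht1
    · rw [h1] at h
      have h2 := S.H_inj (φ x) y 0 t hx' hy le_rfl one_pos ht.le ht1 h
      exact absurd h2.1 ht.ne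
    · subst ht1
      have h3 : S.H (y, (1 : ℝ)) = S.H (φ y, 0) := by
        rw [S.H_mon y 0 hy, zero_add]
      rw [h1, h3] at h
      obtain ⟨_, m, hm⟩ := S.H_inj (φ x) (φ y) 0 0 hx' hy' le_rfl one_pos le_rfl one_pos h
      refine ⟨rfl, A⁻¹.mulVec m, ?_⟩
      apply φ.injective
      rw [hm, hφ.lat, Matrix.mulVec_mulVec, Matrix.mul_nonsing_inv A hφ.unit, Matrix.one_mulVec]

/-- `HH` depends only on the direction of `om`. -/
theorem HH_smul (S : Surg φ X) (y n t : ℝ) (om : ℂ) (c : ℝ) (hc : 0 < c) :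
    HH S y (c * om) n t = HH S y om n t := by
  unfold HH
  rw [Complex.arg_real_mul om hc]

theorem HH_exp (S : Surg φ X) {y n t : ℝ} (u : ℝ) (h : ¬ IsLat (pt y u n)) :
    HH S y (Complex.exp ((2 * Real.pi * u : ℝ) * I)) n t = S.H (pt y u n, t) := by
  unfold HH
  have h0 : Complex.exp ((2 * Real.pi * u : ℝ) * I) =
      Complex.exp (((2 * Real.pi * u : ℝ) : ℂ) * I) := rfl
  rw [Complex.arg_exp_mul_I]
  have h1 : toIocMod Real.two_pi_pos (-Real.pi) (2 * Real.pi * u) =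
      2 * Real.pi * u - (toIocDiv Real.two_pi_pos (-Real.pi) (2 * Real.pi * u) : ℤ) *
        (2 * Real.pi) := by
    rw [toIocMod, zsmul_eq_mul]
  rw [h1]
  set k : ℤ := toIocDiv Real.two_pi_pos (-Real.pi) (2 * Real.pi * u) with hk
  have h2 : (2 * Real.pi * u - (k : ℝ) * (2 * Real.pi)) / (2 * Real.pi) = u - k := by
    have := Real.pi_pos
    field_simp
  rw [h2]
  have h3 : pt y (u - k) n + vec ![0, k, 0] = pt y u n := by
    rw [pt_add_vec]
    simp
  have h4 : ¬ IsLat (pt y (u - k) n) := by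
    intro h5
    apply h
    rw [← h3]
    exact (isLat_add_vec _ _).2 h5
  rw [← h3, S.H_per _ _ _ h4]

/-- every nonzero `om` is a positive multiple of some `exp (2πiu)` -/
theorem exists_dir {om : ℂ} (h : om ≠ 0) :
    ∃ u c : ℝ, 0 < c ∧ om = c * Complex.exp ((2 * Real.pi * u : ℝ) * I) := by
  refine ⟨Complex.arg om / (2 * Real.pi), ‖om‖, norm_pos_iff.2 h, ?_⟩
  have h1 : (2 * Real.pi * (Complex.arg om / (2 * Real.pi)) : ℝ) = Complex.arg om := by
    have := Real.pi_pos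
    field_simp
  rw [h1]
  exact (Complex.norm_mul_exp_arg_mul_I om).symm

theorem exp_eq_iff {u u' : ℝ} : Complex.exp ((2 * Real.pi * u : ℝ) * I) =
    Complex.exp ((2 * Real.pi * u' : ℝ) * I) ↔ ∃ m : ℤ, u' = u + m := by
  rw [Complex.exp_eq_exp_iff_exists_int]
  have hpi : (Real.pi : ℂ) ≠ 0 := by exact_mod_cast Real.pi_ne_zero
  constructor
  · rintro ⟨m, hm⟩
    refine ⟨-m, ?_⟩
    have h1 : ((u : ℂ)) = (u' : ℂ) + m := by
      have h2 : (2 * (Real.pi : ℂ) * I) * (u : ℂ) = (2 * (Real.pi : ℂ) * I) * ((u' : ℂ) + m) := by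
        push_cast at hm
        linear_combination hm
      have h3 : (2 * (Real.pi : ℂ) * I) ≠ 0 := by
        simp [Complex.I_ne_zero, Real.pi_ne_zero]
      exact mul_left_cancel₀ h3 h2
    have h4 : u = u' + m := by exact_mod_cast h1
    push_cast
    linarith
  · rintro ⟨m, hm⟩
    refine ⟨-m, ?_⟩
    rw [hm]
    push_cast
    ring

/-- Local diffeomorphisms through real coordinates. -/
theorem ld_H {V : Type*} [NormedAddCommGroup V] [NormedSpace ℝ V] (S : Surg φ X)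
    {Φ : V → ℝ × ℝ × ℝ × ℝ} {v : V}
    (hΦ : IsLocalDiffeomorphAt 𝓘(ℝ, V) 𝓘(ℝ, ℝ × ℝ × ℝ × ℝ) ∞ Φ v)
    (hlat : ¬ IsLat (pt (Φ v).1 (Φ v).2.1 (Φ v).2.2.1)) :
    IsLocalDiffeomorphAt 𝓘(ℝ, V) (𝓡 4) ∞
      (fun v => S.H (pt (Φ v).1 (Φ v).2.1 (Φ v).2.2.1, (Φ v).2.2.2)) v := by
  have h1 := hΦ.comp 𝓘(ℝ, E3 × ℝ) (E3 × ℝ) (g := HHb_eqv)
    (ld_of_perm (f := HHb_eqv) HHb_eqv_smooth HHb_eqv_symm_smooth (Φ v))
  have h2 := h1.comp (𝓡 4) X (g := S.H) (S.H_loc _ _ hlat)
  exact h2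

/-- smooth local argument: near a point `v` with `om v ≠ 0`, `om = |om| exp (2πi a)` with `a`
smooth at `v` (choose a branch of the logarithm). -/
theorem exists_arg {V : Type*} [NormedAddCommGroup V] [NormedSpace ℝ V] {om : V → ℂ} {v : V}
    (h : ∀ᶠ w in 𝓝 v, ContDiffAt ℝ ∞ om w) (h0 : om v ≠ 0) :
    ∃ a : V → ℝ, (∀ᶠ w in 𝓝 v, ContDiffAt ℝ ∞ a w) ∧
      ∀ᶠ w in 𝓝 v, om w = ‖om w‖ * Complex.exp ((2 * Real.pi * a w : ℝ) * I) := by
  set c := om v with hc
  have hcont : ContinuousAt om v := (h.self_of_nhds).continuousAt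
  have h1 : ∀ᶠ w in 𝓝 v, om w / c ∈ Complex.slitPlane := by
    have h3 : ContinuousAt (fun w => om w / c) v := hcont.div_const c
    have h2 : om v / c ∈ Complex.slitPlane := by
      rw [← hc, div_self h0]
      exact Complex.one_mem_slitPlane
    exact h3.eventually (Complex.isOpen_slitPlane.eventually_mem h2)
  refine ⟨fun w => (Complex.log (om w / c)).im / (2 * Real.pi) + Complex.arg c / (2 * Real.pi),
    ?_, ?_⟩
  · filter_upwards [h, h1] with w hw hw1
    exact ((Complex.imCLM.contDiff.contDiffAt.comp w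
      (((Complex.contDiffAt_log hw1).restrict_scalars ℝ).comp w (hw.div_const c))).div_const _).add
      contDiffAt_const
  · filter_upwards [h1] with w hw
    have h4 : (2 * Real.pi * ((Complex.log (om w / c)).im / (2 * Real.pi) +
        Complex.arg c / (2 * Real.pi)) : ℝ) = Complex.arg (om w / c) + Complex.arg c := by
      rw [Complex.log_im]
      have := Real.pi_pos
      field_simp
    rw [h4]
    push_cast
    rw [add_mul, Complex.exp_add]
    have h5 : ‖om w‖ = ‖om w / c‖ * ‖c‖ := by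
      rw [norm_div]
      have : ‖c‖ ≠ 0 := norm_ne_zero_iff.2 h0
      field_simp
    have h6 := Complex.norm_mul_exp_arg_mul_I (om w / c)
    have h7 := Complex.norm_mul_exp_arg_mul_I c
    rw [h5]
    push_cast
    calc om w = (om w / c) * c := by field_simp
      _ = (((‖om w / c‖ : ℝ) : ℂ) * Complex.exp ((Complex.arg (om w / c) : ℝ) * I)) *
          (((‖c‖ : ℝ) : ℂ) * Complex.exp ((Complex.arg c : ℝ) * I)) := by rw [h6, h7]
      _ = _ := by ring

end

end Pool.Agent.CSG
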