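import Pool.Agent.CSG.Fun

/-!
# CSG/EDef: definitions for the move E1 (helper44)

Coordinates of `E3`: `x = pt y u n`, i.e. `x 0 = y`, `x 1 = u`, `x 2 = n`.

Geometry.  `X` carries surgery data `S` whose monodromy is `φ = sh (lam y) * κ`, with `κ = 1` near
the axis `u = n = 0`.  `TT S` is the fibre torus `y = 1/2`, `t = 1/2`.  On the complement of `TT S`
we use the coordinates `KK S x t` (`x` in `R^3`, `(y, t)` not a puncture), with monodromy `κ`: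
`KK S (pt y u n) t = H (pt y (u + arg (FF y t) / 2π) n, t)`.

The surface `{KK (pt y 0 0) t}` with two caps is a sphere minus one point (`(y, t) = (1/2, 1/2)`),
with the global coordinate `p ∈ C`: `ξ = (p̄ + 1) / (p̄ - 1)`, `y = nf |ξ|`, `t = 1/2 + arg ξ / 2π`;
the caps are `p = -1` (`y = 0`) and `p = 1` (`y = 1`), the puncture is `p = ∞`.
-/

open scoped ContDiff Manifold
open Complex (I)

namespace Pool.Agent.CSG

/-- position in `(0,1)` of the modulus: `r` for `r ≤ 1/5`, `1/2 + log r / 2π` for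
`3/10 ≤ r ≤ 10/3`, and `nf (1/r) = 1 - nf r`. -/
noncomputable def nf0 (r : ℝ) : ℝ :=
  (1 - stp (1 / 5) (3 / 10) r) * r + stp (1 / 5) (3 / 10) r * (1 / 2 + Real.log r / (2 * Real.pi))
noncomputable def nf (r : ℝ) : ℝ := if r ≤ 1 then nf0 r else 1 - nf0 (1 / r)

/-- width of the tube: `n` for `n ≤ 1/10`, `1/8` for `1/5 ≤ n ≤ 4/5`, `1 - n` for `n ≥ 9/10`. -/
noncomputable def wd0 (n : ℝ) : ℝ :=
  (1 - stp (1 / 10) (1 / 5) n) * n + stp (1 / 10) (1 / 5) n / 8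
noncomputable def wd (n : ℝ) : ℝ := if n ≤ 1 / 2 then wd0 n else wd0 (1 - n)

/-- `0` for `|fract y - 1/2| ≤ 1/10`, `1` for `|fract y - 1/2| ≥ 1/5` -/
noncomputable def bt (y : ℝ) : ℝ := stp (1 / 100) (1 / 25) ((Int.fract y - 1 / 2) ^ 2)

/-- the model function near the puncture -/
noncomputable def F0 (y t : ℝ) : ℂ :=
  (Real.sin (2 * Real.pi * (t - 1 / 2)) + bt y : ℝ) -
    ((1 - bt y) * Real.sinh (2 * Real.pi * (Int.fract y - 1 / 2)) : ℝ) * I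

noncomputable def kp (t : ℝ) : ℝ := stp (11 / 20) (3 / 5) t
noncomputable def km (t : ℝ) : ℝ := 1 - stp (2 / 5) (9 / 20) t

/-- smooth function on the `(y, t)`-plane, with zeros exactly at the punctures `t = 1/2`,
`fract y = 1/2`; `= 1` for `t ≥ 3/5`, `= exp (2πi lam y)` for `t ≤ 2/5`, and positive if
`fract y ≤ 3/10` or `fract y ≥ 7/10`. -/
noncomputable def FF (y t : ℝ) : ℂ :=
  (1 - kp t - km t : ℝ) * F0 y t + (kp t : ℝ) +
    (km t : ℝ) * Complex.exp ((2 * Real.pi * lam y : ℝ) * I)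

/-- not a puncture -/
def NP (y t : ℝ) : Prop := ¬ (t = 1 / 2 ∧ Int.fract y = 1 / 2)

/-- the position `ξ` on the sphere of the point `p` of the disc; `xi (-1) = 0`. -/
noncomputable def xi (p : ℂ) : ℂ :=
  ((starRingEnd ℂ) p + 1) / ((starRingEnd ℂ) p - 1)

/-- the `y`-coordinate -/
noncomputable def py (p : ℂ) : ℝ := nf ‖xi p‖
/-- the `t`-coordinate, in `(0, 1]` -/
noncomputable def pm (p : ℂ) : ℝ := 1 / 2 + Complex.arg (xi p) / (2 * Real.pi)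

/-- the point `(σ, ν) / |(σ, ν)|` of the sphere -/
noncomputable def sp (σ : ℝ) (hσ : σ ≠ 0) (ν : ℂ) : S2 :=
  ⟨(‖pt σ ν.re ν.im‖)⁻¹ • pt σ ν.re ν.im, by
    have h : pt σ ν.re ν.im ≠ 0 := by
      intro h
      apply hσ
      have := congrArg (fun x : E3 => x 0) h
      simpa using this
    simp [norm_smul, norm_ne_zero_iff.2 h]⟩

section
variable {X : Type*} [TopologicalSpace X] [ChartedSpace E4 X] {φ : Equiv.Perm E3}

/-- `H`, the second coordinate being given by a nonzero complex number `om`. -/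
noncomputable def HH (S : Surg φ X) (y : ℝ) (om : ℂ) (n t : ℝ) : X :=
  S.H (pt y (Complex.arg om / (2 * Real.pi)) n, t)

/-- coordinates on the complement of the torus -/
noncomputable def KK (S : Surg φ X) (x : E3) (t : ℝ) : X :=
  HH S (x 0) (FF (x 0) t * Complex.exp ((2 * Real.pi * x 1 : ℝ) * I)) (x 2) t

/-- the torus `y = 1/2`, `t = 1/2` -/
def TT (S : Surg φ X) : Set X := {q | ∃ u n : ℝ, q = S.H (pt (1 / 2) u n, 1 / 2)}

/-- The chart near the two caps; `P t z = ε • cmul (gfr k t) z`. -/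
noncomputable def CP0 (S : Surg φ X) (ε : ℝ) (p ν : ℂ) : X :=
  S.j (sp 1 one_ne_zero ν, (-(Real.sqrt (1 + ‖ν‖ ^ 2) / ε) : ℝ) * xi p)
noncomputable def CP1 (S : Surg φ X) (ε : ℝ) (p ν : ℂ) : X :=
  S.j (sp (-1) (by norm_num) ν,
    (-(Real.sqrt (1 + ‖ν‖ ^ 2) / ε) : ℝ) * ((starRingEnd ℂ) (xi p))⁻¹)

/-- tubular neighbourhood of the disc, away from the caps -/
noncomputable def GR (S : Surg φ X) (k : ℤ) (p ν : ℂ) : X :=
  KK S (pt (py p) ((wd (py p) : ℂ) * gfr k (pm p) * ν).re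
    ((wd (py p) : ℂ) * gfr k (pm p) * ν).im) (pm p)

/-- tubular neighbourhood of the disc -/
noncomputable def EE (S : Surg φ X) (ε : ℝ) (k : ℤ) (p ν : ℂ) : X :=
  if p = -1 then CP0 S ε p ν else if p = 1 then CP1 S ε p ν else GR S k p ν

/-- the full chart: `z = (n, p, s)`. -/
noncomputable def ee (S : Surg φ X) (ε : ℝ) (k : ℤ) (z : ℝ × ℂ × ℝ) : X :=
  if 10 < ‖z.2.1‖ then KK S (pt (py z.2.1) z.2.2 z.1) (pm z.2.1)
  else EE S ε k z.2.1 (8 * ((z.2.2 - round z.2.2 : ℝ) + (z.1 - round z.1 : ℝ) * I))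

end

/-- the domain of the full chart -/
def Dm (σ : ℝ) : Set (ℝ × ℂ × ℝ) :=
  {z | 10 < ‖z.2.1‖ ∨ (|z.1 - round z.1| < σ ∧ |z.2.2 - round z.2.2| < σ)}

/-! ## the model diffeomorphism -/

/-- the rotation of `R^3 = R × C` given by the unit quaternion `(α, β)`,
`|α|² + β² = 1`, `β` real. -/
noncomputable def rot (α : ℂ) (β : ℝ) (x : ℝ × ℂ) : ℝ × ℂ :=
  ((‖α‖ ^ 2 - β ^ 2) * x.1 - 2 * β * (α * x.2).re,
    α ^ 2 * x.2 - (β : ℂ) ^ 2 * (starRingEnd ℂ) x.2 + 2 * β * x.1 * α)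

/-- null-homotopy (`τ` from `0` to `π/2`) of the loop `exp (-i θ)` in the unit quaternions -/
noncomputable def qa (θ τ : ℝ) : ℂ :=
  (Real.sin τ ^ 2 + Real.cos τ ^ 2 * Real.cos θ : ℝ) - (Real.cos τ * Real.sin θ : ℝ) * I
noncomputable def qb (θ τ : ℝ) : ℝ := Real.sin τ * Real.cos τ * (1 - Real.cos θ)

/-- step function with `gs (s + 1) = gs s + 1`, an integer if `|s - round s| ≥ σ/2` -/
noncomputable def gs (σ s : ℝ) : ℝ := round s + stp (-(σ / 2)) (σ / 2) (s - round s)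

/-- interpolation between `gs s` (`‖p‖ ≤ 20/σ`) and `s` (`‖p‖ ≥ 40/σ`) -/
noncomputable def gr (σ : ℝ) (p : ℂ) (s : ℝ) : ℝ :=
  (1 - stp ((20 / σ) ^ 2) ((40 / σ) ^ 2) (‖p‖ ^ 2)) * gs σ s +
    stp ((20 / σ) ^ 2) ((40 / σ) ^ 2) (‖p‖ ^ 2) * s

/-- rescaled coordinates in which the ball is round -/
noncomputable def sc (σ : ℝ) (n : ℝ) (p : ℂ) : ℝ × ℂ :=
  (2 * (Int.fract n - 1 / 2) / (1 - σ), σ / 10 * p)

/-- square of the radius in the rescaled coordinates -/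
noncomputable def rr (σ : ℝ) (n : ℝ) (p : ℂ) : ℝ := (sc σ n p).1 ^ 2 + ‖(sc σ n p).2‖ ^ 2

/-- the parameter `τ`: `π/2` for radius `≤ 1`, `0` for squared radius `≥ 1 + σ`. -/
noncomputable def ta (σ : ℝ) (n : ℝ) (p : ℂ) : ℝ := Real.pi / 2 * (1 - stp 1 (1 + σ) (rr σ n p))

/-- the model diffeomorphism -/
noncomputable def Lam (σ : ℝ) (z : ℝ × ℂ × ℝ) : ℝ × ℂ × ℝ :=
  let θ := 2 * Real.pi * gr σ z.2.1 z.2.2
  let τ := ta σ z.1 z.2.1
  let x := rot (qa θ τ) (qb θ τ) (sc σ z.1 z.2.1)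
  (⌊z.1⌋ + 1 / 2 + x.1 * (1 - σ) / 2, 10 / σ * x.2, z.2.2)

/-- its inverse -/
noncomputable def Lam' (σ : ℝ) (z : ℝ × ℂ × ℝ) : ℝ × ℂ × ℝ :=
  let θ := 2 * Real.pi * gr σ z.2.1 z.2.2
  let τ := ta σ z.1 z.2.1
  let x := rot ((starRingEnd ℂ) (qa θ τ)) (-qb θ τ) (sc σ z.1 z.2.1)
  (⌊z.1⌋ + 1 / 2 + x.1 * (1 - σ) / 2, 10 / σ * x.2, z.2.2)

/-- `Lam` is the identity on `Dm \ Cm`. -/
def Cm (σ : ℝ) : Set (ℝ × ℂ × ℝ) :=
  {z | 1 ≤ rr σ z.1 z.2.1 ∧ (|z.2.2 - round z.2.2| ≤ σ / 2 ∨ 20 / σ ≤ ‖z.2.1‖)}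

/-- Normalised surgery data. -/
structure Nrm {X : Type*} [TopologicalSpace X] [ChartedSpace E4 X] {φ : Equiv.Perm E3}
    (S : Surg φ X) (κ : Equiv.Perm E3) (δ ε : ℝ) (k : ℤ) : Prop where
  δpos : 0 < δ
  εpos : 0 < ε
  εle : ε ≤ 1 / 4
  fac : φ = sh (fun y _ => lam y) * κ
  axis : ∀ x, |x 1| < δ → |x 2| < δ → κ x = x
  P_eq : ∀ t z, -(1 / 8) < t → t < 9 / 8 → S.P t z = ε • cmul (gfr k t) z
  mono : ∃ A, Mono A κ

end Pool.Agent.CSG
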