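import Pool.Agent.CSG.ChI

/-!
# CSG/EeP: the full chart `ee`

`ee S ε k (n, p, s)` is `KK S (pt (py p) s n) (pm p)` for `|p| > 10`, and the tubular chart
`EE S ε k p (8 ((s - round s) + i (n - round n)))` otherwise; by `EE_far` and the periodicity
`KK_per` the first formula holds for `|p| ≥ 9` if `|s - round s|, |n - round n| < σ` (in fact
for all `s, n`: `EE_far` holds for all `ν`).
`ee_ld`: `|p| > 10`: `KK_loc` and `pypm_ld` (`pm p ≠ 1` by `far`).  `|p| ≤ 10`: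
`|s - round s| < σ ≤ 1/4`: `round` is constant near `s` and near `n`; `EE_ld` composed with the
affine map `(n, p, s) ↦ (p, 8 (s - a) + 8 i (n - b))`; `|ν| ≤ 8 √2 σ < 16 σ ≤ δ`.
`ee_inj`: if both `|p|, |p'| > 9`: `KK_inj`, `py_pm_inj`.  If both `≤ 10`: `EE_inj`
(`|ν| < 16 σ ≤ 1`).  If `|p| ≤ 9 < 10 < |p'|`: `p' ≠ ±1`; if `p ≠ ±1` then again `KK_inj` and
`py_pm_inj` give `p = p'`, a contradiction; if `p = ±1`, `disj`.
-/

open scoped Manifold ContDiff Topology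
open Complex (I)
open Set Filter

namespace Pool.Agent.CSG

theorem EeP_cont_round : Continuous fun x : ℝ => |x - round x| := by
  have h : (fun x : ℝ => |x - round x|) = fun x : ℝ => ‖(x : UnitAddCircle)‖ := by
    funext x; rw [UnitAddCircle.norm_eq]
  rw [h]
  exact continuous_norm.comp (AddCircle.continuous_mk' 1)

theorem Dm_open (σ : ℝ) (hσ : σ ≤ 1 / 4) : IsOpen (Dm σ) := by
  have h : Dm σ = {z : ℝ × ℂ × ℝ | 10 < ‖z.2.1‖} ∪
      ({z : ℝ × ℂ × ℝ | |z.1 - round z.1| < σ} ∩ {z : ℝ × ℂ × ℝ | |z.2.2 - round z.2.2| < σ}) := by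
    ext z; rfl
  rw [h]
  refine IsOpen.union ?_ (IsOpen.inter ?_ ?_)
  · exact isOpen_lt continuous_const (continuous_norm.comp (continuous_fst.comp continuous_snd))
  · exact isOpen_lt (EeP_cont_round.comp continuous_fst) continuous_const
  · exact isOpen_lt (EeP_cont_round.comp (continuous_snd.comp continuous_snd)) continuous_const

/-- `round` is locally constant away from the half integers -/
theorem EeP_round {x : ℝ} (h : |x - round x| < 1 / 2) : ∀ᶠ y in 𝓝 x, round y = round x := by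
  have h2 := abs_lt.1 h
  have : Ioo ((round x : ℝ) - 1 / 2) (round x + 1 / 2) ∈ 𝓝 x :=
    Ioo_mem_nhds (by linarith) (by linarith)
  filter_upwards [this] with y hy
  exact round_eq_iff.2 ⟨hy.1.le, hy.2⟩

theorem EeP_ne {p : ℂ} (h : 9 ≤ ‖p‖) : p ≠ -1 ∧ p ≠ 1 := by
  constructor
  · rintro rfl; norm_num at h
  · rintro rfl; norm_num at h

theorem EeP_lat {p : ℂ} (h : p ≠ -1) (h' : p ≠ 1) (u n : ℝ) : ¬ IsLat (pt (py p) u n) := by
  intro hl
  obtain ⟨⟨m, hm⟩, -⟩ := isLat_pt.1 hl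
  have h1 := py_mem h h'
  rw [hm] at h1
  have h2 : (0 : ℤ) < m := by exact_mod_cast h1.1
  have h3 : m < (1 : ℤ) := by exact_mod_cast h1.2
  omega

theorem EeP_pt : ContDiff ℝ ∞ fun z : ℝ × ℝ × ℝ => pt z.1 z.2.1 z.2.2 := by
  rw [contDiff_euclidean]
  intro i
  fin_cases i
  · simpa using contDiff_fst
  · have h : ContDiff ℝ ∞ (fun x : ℝ × ℝ × ℝ => x.2.1) := contDiff_fst.comp contDiff_snd
    simpa using h
  · have h : ContDiff ℝ ∞ (fun x : ℝ × ℝ × ℝ => x.2.2) := contDiff_snd.comp contDiff_snd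
    simpa using h

/-- product with the identity, in the order of the coordinates used here -/
theorem EeP_prod {f : ℂ → ℝ × ℝ} {z : ℝ × ℂ × ℝ}
    (hf : IsLocalDiffeomorphAt 𝓘(ℝ, ℂ) 𝓘(ℝ, ℝ × ℝ) ∞ f z.2.1) :
    IsLocalDiffeomorphAt 𝓘(ℝ, ℝ × ℂ × ℝ) 𝓘(ℝ, E3 × ℝ) ∞
      (fun z : ℝ × ℂ × ℝ => (pt (f z.2.1).1 z.2.2 z.1, (f z.2.1).2)) z := by
  have hc : Continuous fun z : ℝ × ℂ × ℝ => z.2.1 := continuous_fst.comp continuous_snd
  have hcd : ContDiff ℝ ∞ fun z : ℝ × ℂ × ℝ => z.2.1 := contDiff_fst.comp contDiff_snd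
  refine XiB_left (g := fun y : E3 × ℝ => (y.1 2, hf.localInverse (y.1 0, y.2), y.1 1)) ?_ ?_ ?_ ?_
  · have hev := hc.continuousAt.eventually (ld_eventually hf)
    filter_upwards [hev] with w hw
    have h1 : ContDiffAt ℝ ∞ f w.2.1 := contMDiffAt_iff_contDiffAt.1 hw.contMDiffAt
    have h2 : ContDiffAt ℝ ∞ (fun z : ℝ × ℂ × ℝ => f z.2.1) w :=
      ContDiffAt.comp (g := f) (f := fun z : ℝ × ℂ × ℝ => z.2.1) w h1 hcd.contDiffAt
    have h3 : ContDiffAt ℝ ∞ (fun z : ℝ × ℂ × ℝ => ((f z.2.1).1, z.2.2, z.1)) w :=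
      (contDiff_fst.contDiffAt.comp w h2).prodMk
        (((contDiff_snd.comp contDiff_snd).contDiffAt).prodMk contDiff_fst.contDiffAt)
    have h4 : ContDiffAt ℝ ∞ (fun z : ℝ × ℂ × ℝ => pt (f z.2.1).1 z.2.2 z.1) w :=
      ContDiffAt.comp (g := fun z : ℝ × ℝ × ℝ => pt z.1 z.2.1 z.2.2)
        (f := fun z : ℝ × ℂ × ℝ => ((f z.2.1).1, z.2.2, z.1)) w EeP_pt.contDiffAt h3
    exact h4.prodMk (contDiff_snd.contDiffAt.comp w h2)
  · simp [Complex.finrank_real_complex]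
  · have h1 : DifferentiableAt ℝ hf.localInverse (f z.2.1) :=
      (contMDiffAt_iff_contDiffAt.1 hf.localInverse_contMDiffAt).differentiableAt (by simp)
    have hx : ∀ i : Fin 3, Differentiable ℝ fun y : E3 × ℝ => y.1 i := fun i =>
      ((EuclideanSpace.proj i : E3 →L[ℝ] ℝ).comp
        (ContinuousLinearMap.fst ℝ E3 ℝ)).differentiable
    have h2 : DifferentiableAt ℝ (fun y : E3 × ℝ => (y.1 0, y.2))
        (pt (f z.2.1).1 z.2.2 z.1, (f z.2.1).2) :=
      (hx 0).differentiableAt.prodMk differentiable_snd.differentiableAt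
    have h3 : DifferentiableAt ℝ (fun y : E3 × ℝ => hf.localInverse (y.1 0, y.2))
        (pt (f z.2.1).1 z.2.2 z.1, (f z.2.1).2) := by
      refine DifferentiableAt.comp (g := hf.localInverse) (f := fun y : E3 × ℝ => (y.1 0, y.2)) _
        ?_ h2
      simpa using h1
    exact (hx 2).differentiableAt.prodMk (h3.prodMk (hx 1).differentiableAt)
  · have h1 := hc.continuousAt.eventually hf.localInverse_eventuallyEq_left
    filter_upwards [h1] with w hw
    have hw' : hf.localInverse (f w.2.1) = w.2.1 := hw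
    simp [hw']

section
variable {X : Type*} [TopologicalSpace X] [ChartedSpace E4 X] {φ κ : Equiv.Perm E3}
  {δ ε : ℝ} {k : ℤ}

/-- translate `s` and `n` by integers -/
theorem EeP_shift (S : Surg φ X) {p : ℂ} (h : p ≠ -1) (h' : p ≠ 1) (n s : ℝ) (a b : ℤ) :
    KK S (pt (py p) (s + b) (n + a)) (pm p) = KK S (pt (py p) s n) (pm p) := by
  have h1 := KK_per S (EeP_lat h h' s n) (pm p) ![0, b, a]
  rw [pt_add_vec] at h1
  simpa using h1

theorem ee_eq_EE {S : Surg φ X} (N : Nrm S κ δ ε k) (z : ℝ × ℂ × ℝ) (a b : ℤ)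
    (hab : 10 < ‖z.2.1‖ ∨ (a = round z.1 ∧ b = round z.2.2)) :
    ee S ε k z = EE S ε k z.2.1 (8 * ((z.2.2 - b : ℝ) + (z.1 - a : ℝ) * I)) := by
  obtain ⟨n, p, s⟩ := z
  by_cases hp : 10 < ‖p‖
  · have hne := EeP_ne (p := p) (by linarith)
    simp only [ee, hp, if_true]
    rw [EE_far N (by linarith)]
    have h1 : (8 * (((s - b : ℝ) : ℂ) + ((n - a : ℝ) : ℂ) * I)).re / 8 = s + ((-b : ℤ) : ℝ) := by
      simp; ring
    have h2 : (8 * (((s - b : ℝ) : ℂ) + ((n - a : ℝ) : ℂ) * I)).im / 8 = n + ((-a : ℤ) : ℝ) := by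
      simp; ring
    rw [h1, h2, EeP_shift S hne.1 hne.2]
  · rcases hab with h | ⟨rfl, rfl⟩
    · exact absurd h hp
    · simp only [ee, hp, if_false]

theorem ee_far {S : Surg φ X} (N : Nrm S κ δ ε k) {p : ℂ} (h : 9 ≤ ‖p‖) (n s : ℝ) :
    ee S ε k (n, p, s) = KK S (pt (py p) s n) (pm p) := by
  have hne := EeP_ne h
  rw [ee_eq_EE N (n, p, s) (round n) (round s) (Or.inr ⟨rfl, rfl⟩)]
  simp only
  rw [EE_far N h]
  have h1 : (8 * (((s - (round s : ℤ) : ℝ) : ℂ) + ((n - (round n : ℤ) : ℝ) : ℂ) * I)).re / 8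
      = s + ((-(round s) : ℤ) : ℝ) := by
    simp; ring
  have h2 : (8 * (((s - (round s : ℤ) : ℝ) : ℂ) + ((n - (round n : ℤ) : ℝ) : ℂ) * I)).im / 8
      = n + ((-(round n) : ℤ) : ℝ) := by
    simp; ring
  rw [h1, h2, EeP_shift S hne.1 hne.2]

theorem EeP_norm {σ a b : ℝ} (ha : |a| < σ) (hb : |b| < σ) :
    ‖(8 * ((a : ℂ) + (b : ℂ) * I))‖ < 16 * σ := by
  have h1 : ‖(8 * ((a : ℂ) + (b : ℂ) * I))‖ ≤ 8 * (|a| + |b|) := by
    rw [norm_mul]
    have h2 : ‖(8 : ℂ)‖ = 8 := by norm_num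
    rw [h2]
    have h3 : ‖(a : ℂ) + (b : ℂ) * I‖ ≤ |a| + |b| := by
      refine (norm_add_le _ _).trans ?_
      simp
    linarith
  linarith

theorem ee_ld {S : Surg φ X} (N : Nrm S κ δ ε k) {σ : ℝ} (h0 : 0 < σ) (h1 : 16 * σ ≤ 1)
    (h2 : 16 * σ ≤ δ) {z : ℝ × ℂ × ℝ} (hz : z ∈ Dm σ) :
    IsLocalDiffeomorphAt 𝓘(ℝ, ℝ × ℂ × ℝ) (𝓡 4) ∞ (ee S ε k) z := by
  have hc : Continuous fun z : ℝ × ℂ × ℝ => z.2.1 := continuous_fst.comp continuous_snd
  by_cases hp : 10 < ‖z.2.1‖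
  · have hne := EeP_ne (p := z.2.1) (by linarith)
    have hfar := far (p := z.2.1) (by linarith)
    have hm : pm z.2.1 ≠ 1 := by
      intro h
      have := hfar.2.1
      rw [h] at this
      norm_num at this
    have hld := EeP_prod (z := z) (pypm_ld hne.1 hne.2 hm)
    have hK := KK_loc S (EeP_lat hne.1 hne.2 z.2.2 z.1) (t := pm z.2.1)
      (by simpa using NP_p hne.1 hne.2)
    have hcomp := IsLocalDiffeomorphAt.comp (hf := hld) (hg := hK)
    refine ld_congr hcomp ?_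
    have hev : ∀ᶠ w : ℝ × ℂ × ℝ in 𝓝 z, 10 < ‖w.2.1‖ :=
      (isOpen_lt continuous_const (continuous_norm.comp hc)).mem_nhds hp
    filter_upwards [hev] with w hw
    simp only [ee, hw, if_true, Function.comp_apply]
  · have hz' : |z.1 - round z.1| < σ ∧ |z.2.2 - round z.2.2| < σ := by
      rcases hz with h | h
      · exact absurd h hp
      · exact h
    have hnu : ‖(8 * (((z.2.2 - (round z.2.2 : ℤ) : ℝ) : ℂ) +
        ((z.1 - (round z.1 : ℤ) : ℝ) : ℂ) * I))‖ < δ :=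
      lt_of_lt_of_le (EeP_norm hz'.2 hz'.1) h2
    have hE := EE_ld N (p := z.2.1) hnu
    set a : ℤ := round z.1 with ha
    set b : ℤ := round z.2.2 with hb
    have hA : IsLocalDiffeomorphAt 𝓘(ℝ, ℝ × ℂ × ℝ) 𝓘(ℝ, ℂ × ℂ) ∞
        (fun w : ℝ × ℂ × ℝ => (w.2.1, (8 * (((w.2.2 - b : ℝ) : ℂ) + ((w.1 - a : ℝ) : ℂ) * I)))) z := by
      refine XiB_left (g := fun y : ℂ × ℂ => (y.2.im / 8 + a, y.1, y.2.re / 8 + b)) ?_ ?_ ?_ ?_
      · refine Eventually.of_forall fun w => ContDiff.contDiffAt ?_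
        have hr : ContDiff ℝ ∞ fun w : ℝ × ℂ × ℝ => ((w.2.2 - b : ℝ) : ℂ) :=
          Complex.ofRealCLM.contDiff.comp
            ((contDiff_snd.comp contDiff_snd).sub contDiff_const)
        have hi : ContDiff ℝ ∞ fun w : ℝ × ℂ × ℝ => ((w.1 - a : ℝ) : ℂ) :=
          Complex.ofRealCLM.contDiff.comp (contDiff_fst.sub contDiff_const)
        exact (contDiff_fst.comp contDiff_snd).prodMk
          (contDiff_const.mul (hr.add (hi.mul contDiff_const)))
      · simp [Complex.finrank_real_complex]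
      · have hre : DifferentiableAt ℝ (fun y : ℂ × ℂ => y.2.re / 8 + (b : ℝ))
            (z.2.1, (8 * (((z.2.2 - b : ℝ) : ℂ) + ((z.1 - a : ℝ) : ℂ) * I))) := by
          have h : Differentiable ℝ (fun y : ℂ × ℂ => Complex.reCLM y.2 / 8 + (b : ℝ)) := by
            fun_prop
          exact h _
        have him : DifferentiableAt ℝ (fun y : ℂ × ℂ => y.2.im / 8 + (a : ℝ))
            (z.2.1, (8 * (((z.2.2 - b : ℝ) : ℂ) + ((z.1 - a : ℝ) : ℂ) * I))) := by
          have h : Differentiable ℝ (fun y : ℂ × ℂ => Complex.imCLM y.2 / 8 + (a : ℝ)) := by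
            fun_prop
          exact h _
        exact him.prodMk (differentiable_fst.differentiableAt.prodMk hre)
      · refine Eventually.of_forall fun w => ?_
        refine Prod.ext ?_ (Prod.ext ?_ ?_)
        · simp
        · simp
        · simp
    have hcomp := IsLocalDiffeomorphAt.comp (hf := hA) (hg := hE)
    refine ld_congr hcomp ?_
    have hr1 : ∀ᶠ w : ℝ × ℂ × ℝ in 𝓝 z, round w.1 = a :=
      continuous_fst.continuousAt.eventually (EeP_round (by linarith [hz'.1]))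
    have hr2 : ∀ᶠ w : ℝ × ℂ × ℝ in 𝓝 z, round w.2.2 = b :=
      (continuous_snd.comp continuous_snd).continuousAt.eventually
        (EeP_round (x := z.2.2) (by linarith [hz'.2]))
    filter_upwards [hr1, hr2] with w hw1 hw2
    exact ee_eq_EE N w a b (Or.inr ⟨hw1.symm, hw2.symm⟩)

theorem ee_per {S : Surg φ X} (N : Nrm S κ δ ε k) (n s : ℝ) (p : ℂ) (a b : ℤ) :
    ee S ε k (n + a, p, s + b) = ee S ε k (n, p, s) := by
  rw [ee_eq_EE N (n + a, p, s + b) (round n + a) (round s + b)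
      (Or.inr ⟨(round_add_intCast n a).symm, (round_add_intCast s b).symm⟩),
    ee_eq_EE N (n, p, s) (round n) (round s) (Or.inr ⟨rfl, rfl⟩)]
  simp only
  have h1 : s + b - ((round s + b : ℤ) : ℝ) = s - (round s : ℤ) := by push_cast; ring
  have h2 : n + a - ((round n + a : ℤ) : ℝ) = n - (round n : ℤ) := by push_cast; ring
  rw [h1, h2]

/-- injectivity for `KK` on the disc -/
theorem EeP_KK {S : Surg φ X} (N : Nrm S κ δ ε k) {p p' : ℂ} (h1 : p ≠ -1) (h2 : p ≠ 1)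
    (h3 : p' ≠ -1) (h4 : p' ≠ 1) {u n u' n' : ℝ}
    (h : KK S (pt (py p) u n) (pm p) = KK S (pt (py p') u' n') (pm p')) :
    p' = p ∧ (∃ a : ℤ, n' = n + a) ∧ ∃ b : ℤ, u' = u + b := by
  obtain ⟨ht, m, hm⟩ := KK_inj N (EeP_lat h1 h2 u n) (EeP_lat h3 h4 u' n') (pm_mem p).1
    (pm_mem p).2 (pm_mem p').1 (pm_mem p').2 (by simpa using NP_p h1 h2)
    (by simpa using NP_p h3 h4) h
  obtain ⟨hy, hu, hn⟩ := pt_inj_vec hm
  have hy1 := py_mem h1 h2
  have hy2 := py_mem h3 h4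
  have hm0 : m 0 = 0 := by
    have e1 : ((m 0 : ℤ) : ℝ) < 1 := by linarith
    have e2 : (-1 : ℝ) < ((m 0 : ℤ) : ℝ) := by linarith
    have e1' : m 0 < 1 := by exact_mod_cast e1
    have e2' : -1 < m 0 := by exact_mod_cast e2
    omega
  rw [hm0] at hy
  have hy' : py p' = py p := by simpa using hy
  exact ⟨py_pm_inj h3 h4 h1 h2 hy' ht.symm, ⟨m 2, hn⟩, ⟨m 1, hu⟩⟩

/-- the mixed case of injectivity -/
theorem EeP_mix {S : Surg φ X} (N : Nrm S κ δ ε k) {p p' ν : ℂ} {s' n' : ℝ}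
    (hp : ‖p‖ < 9) (hp' : 9 ≤ ‖p'‖)
    (h : EE S ε k p ν = KK S (pt (py p') s' n') (pm p')) : False := by
  have hne := EeP_ne hp'
  by_cases h1 : p = -1
  · subst h1
    have e1 : EE S ε k (-1) ν = S.j (sp 1 one_ne_zero ν, 0) := by
      simp [EE, CP0, xi]
    rw [e1] at h
    exact S.disj _ _ _ (EeP_lat hne.1 hne.2 _ _) h
  · by_cases h2 : p = 1
    · subst h2
      have h11 : (1 : ℂ) ≠ -1 := by
        intro h; have := congrArg Complex.re h; norm_num at this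
      have e1 : EE S ε k 1 ν = S.j (sp (-1) (by norm_num) ν, 0) := by
        simp [EE, CP1, xi, h11]
      rw [e1] at h
      exact S.disj _ _ _ (EeP_lat hne.1 hne.2 _ _) h
    · have e1 : EE S ε k p ν = GR S k p ν := by simp [EE, h1, h2]
      rw [e1] at h
      have h3 := (EeP_KK N h1 h2 hne.1 hne.2 h).1
      rw [h3] at hp'
      linarith

theorem EeP_aux {S : Surg φ X} (N : Nrm S κ δ ε k) {σ : ℝ} (h1 : 16 * σ ≤ 1)
    {n s n' s' : ℝ} {p p' : ℂ}
    (hz1 : |n - round n| < σ ∧ |s - round s| < σ)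
    (hz2 : |n' - round n'| < σ ∧ |s' - round s'| < σ)
    (h : ee S ε k (n, p, s) = ee S ε k (n', p', s')) :
    p' = p ∧ (∃ a : ℤ, n' = n + a) ∧ ∃ b : ℤ, s' = s + b := by
  rw [ee_eq_EE N (n, p, s) (round n) (round s) (Or.inr ⟨rfl, rfl⟩),
    ee_eq_EE N (n', p', s') (round n') (round s') (Or.inr ⟨rfl, rfl⟩)] at h
  have h2 := EE_inj N (lt_of_lt_of_le (EeP_norm hz1.2 hz1.1) h1)
    (lt_of_lt_of_le (EeP_norm hz2.2 hz2.1) h1) h
  obtain ⟨e1, e2⟩ := h2
  have e3 : (((s - (round s : ℤ) : ℝ) : ℂ) + ((n - (round n : ℤ) : ℝ) : ℂ) * I) =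
      (((s' - (round s' : ℤ) : ℝ) : ℂ) + ((n' - (round n' : ℤ) : ℝ) : ℂ) * I) :=
    mul_left_cancel₀ (by norm_num : (8 : ℂ) ≠ 0) e2
  have e4 := congrArg Complex.re e3
  have e5 := congrArg Complex.im e3
  simp at e4 e5
  refine ⟨e1.symm, ⟨round n' - round n, ?_⟩, ⟨round s' - round s, ?_⟩⟩
  · push_cast; linarith
  · push_cast; linarith

theorem ee_inj {S : Surg φ X} (N : Nrm S κ δ ε k) {σ : ℝ} (h0 : 0 < σ) (h1 : 16 * σ ≤ 1)
    {n s n' s' : ℝ} {p p' : ℂ} (hz : (n, p, s) ∈ Dm σ) (hz' : (n', p', s') ∈ Dm σ)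
    (h : ee S ε k (n, p, s) = ee S ε k (n', p', s')) :
    p' = p ∧ (∃ a : ℤ, n' = n + a) ∧ ∃ b : ℤ, s' = s + b := by
  by_cases hp : 9 ≤ ‖p‖
  · by_cases hp' : 9 ≤ ‖p'‖
    · rw [ee_far N hp, ee_far N hp'] at h
      have hne := EeP_ne hp
      have hne' := EeP_ne hp'
      exact EeP_KK N hne.1 hne.2 hne'.1 hne'.2 h
    · by_cases hp10 : 10 < ‖p‖
      · exfalso
        rw [ee_far N hp, ee_eq_EE N (n', p', s') (round n') (round s') (Or.inr ⟨rfl, rfl⟩)] at h
        exact EeP_mix N (by linarith [not_le.1 hp']) hp h.symm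
      · have hz1 : |n - round n| < σ ∧ |s - round s| < σ := by
          rcases hz with h | h
          · exact absurd h hp10
          · exact h
        have hz2 : |n' - round n'| < σ ∧ |s' - round s'| < σ := by
          rcases hz' with h | h
          · have h' : 10 < ‖p'‖ := h
            exact absurd h' (by linarith [not_le.1 hp'])
          · exact h
        exact EeP_aux N h1 hz1 hz2 h
  · by_cases hp' : 10 < ‖p'‖
    · exfalso
      rw [ee_far N (by linarith : 9 ≤ ‖p'‖),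
        ee_eq_EE N (n, p, s) (round n) (round s) (Or.inr ⟨rfl, rfl⟩)] at h
      exact EeP_mix N (not_le.1 hp) (by linarith) h
    · have hz1 : |n - round n| < σ ∧ |s - round s| < σ := by
        rcases hz with h | h
        · have h' : 10 < ‖p‖ := h
          exact absurd h' (by linarith [not_le.1 hp])
        · exact h
      have hz2 : |n' - round n'| < σ ∧ |s' - round s'| < σ := by
        rcases hz' with h | h
        · exact absurd h hp'
        · exact h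
      exact EeP_aux N h1 hz1 hz2 h
theorem ee_notT {S : Surg φ X} (N : Nrm S κ δ ε k) (z : ℝ × ℂ × ℝ) : ee S ε k z ∉ TT S := by
  rw [ee_eq_EE N z (round z.1) (round z.2.2) (Or.inr ⟨rfl, rfl⟩)]
  exact EE_notT N _ _

end

end Pool.Agent.CSG
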