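import Mathlib

/-!
# Cappell-Shaneson spheres: definitions

Coordinates of `E3 = R^3` are `x 0, x 1, x 2`.  `T^3 = R^3 / Z^3`.
-/

open scoped Manifold ContDiff

namespace Pool.Agent.CSG

/-- Euclidean 3-space. -/
abbrev E3 := EuclideanSpace ℝ (Fin 3)
/-- Euclidean 4-space, the model of our 4-manifolds. -/
abbrev E4 := EuclideanSpace ℝ (Fin 4)
/-- The unit sphere of `R^3`. -/
abbrev S2 := Metric.sphere (0 : E3) 1

/-- An integer vector as a point of `R^3`. -/
noncomputable def vec (m : Fin 3 → ℤ) : E3 := WithLp.toLp 2 fun i => (m i : ℝ)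

/-- Points of the lattice `Z^3`. -/
def IsLat (x : E3) : Prop := ∃ m : Fin 3 → ℤ, x = vec m

/-- The linear action of an integer matrix on `R^3`. -/
noncomputable def act (A : Matrix (Fin 3) (Fin 3) ℤ) (x : E3) : E3 :=
  WithLp.toLp 2 fun i => ∑ j, (A i j : ℝ) * x j

/-- The data presenting a smooth 4-manifold `X` as the result of the Cappell-Shaneson construction
with monodromy matrix `A`: the mapping torus of the diffeomorphism of `T^3 = R^3 / Z^3` given by
`A`, surgered along the circle through the fixed point `0`, with the framing given by `P`.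

* `H` maps `(R^3 - Z^3) x R` to `X`; it is a local diffeomorphism and two points have the same image
  iff they have the same class in the mapping torus (fields `H_per`, `H_mon`, `H_inj`);
* `j` embeds `S^2 x D^2` (`D^2` the open unit disc of `C`) as an open submanifold;
* `P t` is a linear framing of the normal space of the circle at time `t` (fields `P_mon`,
  `P_avoid`), and the punctured tubular neighbourhood `P t (r y)`, `0 < r < 1`, `y` in `S^2`, is
  identified with `S^2 x (D^2 - 0)` by `j (y, r e^{2 pi i t}) = H (P t (r y), t)`;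
* `X` is the disjoint union of the image of `H` and of the sphere `j (S^2 x 0)`. -/
structure CSData (A : Matrix (Fin 3) (Fin 3) ℤ) (X : Type*) [TopologicalSpace X]
    [ChartedSpace E4 X] where
  H : E3 × ℝ → X
  j : S2 × ℂ → X
  P : ℝ → E3 ≃L[ℝ] E3
  P_smooth : ContDiff ℝ ∞ fun q : ℝ × E3 => P q.1 q.2
  P_mon : ∀ t z, act A (P (t + 1) z) = P t z
  P_avoid : ∀ t z, z ≠ 0 → ‖z‖ < 1 → ¬ IsLat (P t z)
  H_loc : ∀ x t, ¬ IsLat x → IsLocalDiffeomorphAt 𝓘(ℝ, E3 × ℝ) (𝓡 4) ∞ H (x, t)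
  H_per : ∀ x t m, ¬ IsLat x → H (x + vec m, t) = H (x, t)
  H_mon : ∀ x t, ¬ IsLat x → H (act A x, t) = H (x, t + 1)
  H_inj : ∀ x y s t, ¬ IsLat x → ¬ IsLat y → 0 ≤ s → s < 1 → 0 ≤ t → t < 1 →
    H (x, s) = H (y, t) → s = t ∧ ∃ m, y = x + vec m
  j_loc : ∀ y v, ‖v‖ < 1 →
    IsLocalDiffeomorphAt ((𝓡 2).prod 𝓘(ℝ, ℂ)) (𝓡 4) ∞ j (y, v)
  j_inj : ∀ y y' v v', ‖v‖ < 1 → ‖v'‖ < 1 → j (y, v) = j (y', v') → y = y' ∧ v = v'
  glue : ∀ (t r : ℝ) (y : S2), 0 < r → r < 1 →
    j (y, r * Complex.exp (2 * Real.pi * t * Complex.I)) = H (P t (r • (y : E3)), t)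
  disj : ∀ y x t, ¬ IsLat x → j (y, 0) ≠ H (x, t)
  cover : ∀ p : X, (∃ y, p = j (y, 0)) ∨ ∃ x t, ¬ IsLat x ∧ p = H (x, t)

/-- `X` is a Cappell-Shaneson sphere of `A`. -/
def IsCS (A : Matrix (Fin 3) (Fin 3) ℤ) (X : Type*) [TopologicalSpace X]
    [ChartedSpace E4 X] : Prop := Nonempty (CSData A X)

end Pool.Agent.CSG
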