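import Pool.Agent.CSG.Reparam
import Pool.Agent.CSG.Radial

/-!
# CSG/SFrame: change of the framing by a homotopy

`surg_frame`: let `M t τ` be a smooth family of linear isomorphisms of `R^3`, 1-periodic in `t`,
`M t 0 = 1`.  Then the framing `P t` of a surgery datum may be replaced by `c (P t ∘ M t 1)` for
some `0 < c ≤ 1`.
-/

open scoped Manifold ContDiff Topology
open Set Filter

namespace Pool.Agent.CSG

/-! ### Linear families -/

theorem clm_smooth_of {G : Type*} [NormedAddCommGroup G] [NormedSpace ℝ G]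
    {L : G → E3 ≃L[ℝ] E3} (h : ContDiff ℝ ∞ fun q : G × E3 => L q.1 q.2) :
    ContDiff ℝ ∞ fun q : G => (L q : E3 →L[ℝ] E3) := by
  rw [contDiff_clm_apply_iff]
  intro z
  exact h.comp (contDiff_id.prodMk contDiff_const)

theorem clm_symm_smooth_of {G : Type*} [NormedAddCommGroup G] [NormedSpace ℝ G]
    {L : G → E3 ≃L[ℝ] E3} (h : ContDiff ℝ ∞ fun q : G × E3 => L q.1 q.2) :
    ContDiff ℝ ∞ fun q : G => ((L q).symm : E3 →L[ℝ] E3) := by
  have h1 := clm_smooth_of h
  rw [contDiff_iff_contDiffAt] at h1 ⊢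
  intro q
  have h2 : ContDiffAt ℝ ∞ ContinuousLinearMap.inverse (L q : E3 →L[ℝ] E3) :=
    contDiffAt_map_inverse (L q)
  have h3 := ContDiffAt.comp q h2 (h1 q)
  refine h3.congr_of_eventuallyEq ?_
  filter_upwards with p
  simp

theorem smooth_symm_lin_gen {G : Type*} [NormedAddCommGroup G] [NormedSpace ℝ G]
    {L : G → E3 ≃L[ℝ] E3} (h : ContDiff ℝ ∞ fun q : G × E3 => L q.1 q.2) :
    ContDiff ℝ ∞ fun q : G × E3 => (L q.1).symm q.2 := by
  have h1 := clm_symm_smooth_of h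
  exact (h1.comp contDiff_fst).clm_apply contDiff_snd

/-! ### Rounding and periodization -/

/-- nearest lattice vector -/
noncomputable def rnd (x : E3) : Fin 3 → ℤ := fun i => round (x i)

theorem rnd_add_vec (x : E3) (m : Fin 3 → ℤ) : rnd (x + vec m) = rnd x + m := by
  funext i
  simp only [rnd, vec, Pi.add_apply, PiLp.add_apply]
  exact round_add_intCast _ _

theorem coord_le_norm (x : E3) (i : Fin 3) : |x i| ≤ ‖x‖ := by
  have := PiLp.norm_apply_le x i
  simpa using this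

theorem rnd_of_norm {x : E3} (h : ‖x‖ < 1 / 2) : rnd x = 0 := by
  funext i
  simp only [rnd, Pi.zero_apply]
  rw [round_eq_zero_iff]
  have := (coord_le_norm x i).trans_lt h
  rw [abs_lt] at this
  exact ⟨by linarith [this.1], by linarith [this.2]⟩

theorem rnd_vec_add {x : E3} (m : Fin 3 → ℤ) (h : ‖x‖ < 1 / 2) : rnd (vec m + x) = m := by
  rw [add_comm, rnd_add_vec, rnd_of_norm h, zero_add]

theorem rnd_of_sub {x : E3} (m : Fin 3 → ℤ) (h : ‖x - vec m‖ < 1 / 2) : rnd x = m := by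
  have := rnd_vec_add m h
  rwa [add_sub_cancel] at this

/-- periodization -/
noncomputable def perz (g : E3 → E3) (x : E3) : E3 := vec (rnd x) + g (x - vec (rnd x))

theorem perz_add (g : E3 → E3) (x : E3) (m : Fin 3 → ℤ) :
    perz g (x + vec m) = perz g x + vec m := by
  unfold perz
  rw [rnd_add_vec, vec_add]
  have : x + vec m - (vec (rnd x) + vec m) = x - vec (rnd x) := by abel
  rw [this]
  abel

theorem perz_near (g : E3 → E3) {x : E3} (m : Fin 3 → ℤ) (h : ‖x - vec m‖ < 1 / 2) :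
    perz g x = vec m + g (x - vec m) := by
  unfold perz
  rw [rnd_of_sub m h]

theorem norm_lt_of_supp {g : Equiv.Perm E3} (hg : ∀ w, 1 / 4 ≤ ‖w‖ → g w = w) {w : E3}
    (hw : ‖w‖ < 1 / 4) : ‖g w‖ < 1 / 4 := by
  by_contra hcon
  push Not at hcon
  have h1 := hg (g w) hcon
  have h2 := g.injective h1
  rw [h2] at hcon
  linarith

theorem supp_symm {g : Equiv.Perm E3} (hg : ∀ w, 1 / 4 ≤ ‖w‖ → g w = w) :
    ∀ w, 1 / 4 ≤ ‖w‖ → g.symm w = w := by
  intro w hw
  rw [Equiv.symm_apply_eq]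
  exact (hg w hw).symm

theorem perz_perz {g : Equiv.Perm E3} (hg : ∀ w, 1 / 4 ≤ ‖w‖ → g w = w) (x : E3) :
    perz g.symm (perz g x) = x := by
  set m := rnd x with hm
  set w := x - vec m with hw
  have hx : x = vec m + w := by rw [hw]; abel
  have e1 : perz g x = vec m + g w := by
    unfold perz; rw [← hm, ← hw]
  by_cases h : ‖w‖ < 1 / 4
  · have h1 := norm_lt_of_supp hg h
    rw [e1]
    have : ‖vec m + g w - vec m‖ < 1 / 2 := by
      rw [add_sub_cancel_left]; linarith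
    rw [perz_near _ m this, add_sub_cancel_left, Equiv.symm_apply_apply, hx]
  · push Not at h
    rw [e1, hg w h, ← hx]
    unfold perz
    rw [← hm, ← hw, supp_symm hg w h, ← hx]

/-- periodization of a permutation supported in the ball of radius `1/4` -/
noncomputable def perzE (g : Equiv.Perm E3) (hg : ∀ w, 1 / 4 ≤ ‖w‖ → g w = w) :
    Equiv.Perm E3 where
  toFun := perz g
  invFun := perz g.symm
  left_inv := perz_perz hg
  right_inv x := by
    have := perz_perz (supp_symm hg) x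
    simpa using this

theorem perz_far {g : E3 → E3} (hg : ∀ w, 1 / 4 ≤ ‖w‖ → g w = w) {x y : E3}
    (hx : 1 / 2 ≤ ‖x - vec (rnd x)‖) (hy : ‖y - x‖ < 1 / 8) : perz g y = y := by
  unfold perz
  by_cases h : ‖y - vec (rnd y)‖ < 1 / 4
  · exfalso
    have h1 : ‖x - vec (rnd y)‖ < 1 / 2 := by
      have : x - vec (rnd y) = (y - vec (rnd y)) - (y - x) := by abel
      rw [this]
      calc _ ≤ ‖y - vec (rnd y)‖ + ‖y - x‖ := norm_sub_le _ _
        _ < 1 / 4 + 1 / 8 := by linarith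
        _ < 1 / 2 := by norm_num
    have h2 := rnd_of_sub _ h1
    rw [h2] at hx
    linarith
  · push Not at h
    rw [hg _ h]
    abel

/-- Local diffeomorphism property of a periodized family. -/
theorem perz_ld {g : ℝ → Equiv.Perm E3} (hs : ContDiff ℝ ∞ fun q : E3 × ℝ => g q.2 q.1)
    (hs' : ContDiff ℝ ∞ fun q : E3 × ℝ => (g q.2).symm q.1) {I : Set ℝ} (hI : IsOpen I)
    (hg : ∀ t ∈ I, ∀ w, 1 / 4 ≤ ‖w‖ → g t w = w) (x : E3) (t : ℝ) (ht : t ∈ I) :
    IsLocalDiffeomorphAt 𝓘(ℝ, E3 × ℝ) 𝓘(ℝ, E3 × ℝ) ∞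
      (fun q : E3 × ℝ => (perz (g q.2) q.1, q.2)) (x, t) := by
  by_cases h : ‖x - vec (rnd x)‖ < 1 / 2
  · set m := rnd x with hm
    -- the family conjugated by the translation
    let G : ℝ → E3 ≃ E3 := fun t =>
      ((Equiv.subRight (vec m)).trans (g t)).trans (Equiv.addRight (vec m))
    have hG : ∀ t y, G t y = g t (y - vec m) + vec m := fun t y => rfl
    have hG' : ∀ t y, (G t).symm y = (g t).symm (y - vec m) + vec m := by
      intro t y
      simp [G]
      rfl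
    have h1 : ContDiff ℝ ∞ fun q : E3 × ℝ => G q.2 q.1 := by
      simp only [hG]
      exact (hs.comp ((contDiff_fst.sub contDiff_const).prodMk contDiff_snd)).add contDiff_const
    have h2 : ContDiff ℝ ∞ fun q : E3 × ℝ => (G q.2).symm q.1 := by
      simp only [hG']
      exact (hs'.comp ((contDiff_fst.sub contDiff_const).prodMk contDiff_snd)).add contDiff_const
    refine ld_congr (ld_of_family h1 h2 x t) ?_
    have hopen : IsOpen {q : E3 × ℝ | ‖q.1 - vec m‖ < 1 / 2} := by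
      apply isOpen_lt _ continuous_const
      fun_prop
    filter_upwards [hopen.mem_nhds (show (x, t) ∈ _ from h)] with q hq
    have hq' : ‖q.1 - vec m‖ < 1 / 2 := hq
    rw [perz_near _ m hq', hG, add_comm]
  · push Not at h
    refine ld_congr (ld_id (x, t)) ?_
    have hopen : IsOpen {q : E3 × ℝ | ‖q.1 - x‖ < 1 / 8 ∧ q.2 ∈ I} := by
      have h1 : IsOpen {q : E3 × ℝ | ‖q.1 - x‖ < 1 / 8} :=
        isOpen_lt (by fun_prop) continuous_const
      exact h1.inter (hI.preimage continuous_snd)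
    filter_upwards [hopen.mem_nhds (show (x, t) ∈ _ from ⟨by simp, ht⟩)] with q hq
    rw [perz_far (hg q.2 hq.2) h hq.1]
    rfl

section
variable {X : Type*} [TopologicalSpace X] [ChartedSpace E4 X]

/-- homothety -/
noncomputable def scal (c : ℝ) (hc : c ≠ 0) : E3 ≃L[ℝ] E3 :=
  (LinearEquiv.smulOfNeZero ℝ E3 c hc).toContinuousLinearEquiv

theorem scal_apply (c : ℝ) (hc : c ≠ 0) (z : E3) : scal c hc z = c • z := rfl

theorem scal_symm (c : ℝ) (hc : c ≠ 0) (z : E3) : (scal c hc).symm z = c⁻¹ • z := by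
  rw [ContinuousLinearEquiv.symm_apply_eq, scal_apply, smul_smul, mul_inv_cancel₀ hc, one_smul]

theorem surg_frame {A : Matrix (Fin 3) (Fin 3) ℤ} {φ : Equiv.Perm E3}
    (hφ : Mono A φ) (S : Surg φ X) (M : ℝ → ℝ → E3 ≃L[ℝ] E3)
    (hM : ContDiff ℝ ∞ fun q : ℝ × ℝ × E3 => M q.1 q.2.1 q.2.2)
    (hper : ∀ t τ z, M (t + 1) τ z = M t τ z) (h0 : ∀ t z, M t 0 z = z) :
    ∃ c : ℝ, 0 < c ∧ c ≤ 1 ∧ ∃ S₁ : Surg φ X, ∀ t z, S₁.P t z = c • S.P t (M t 1 z) := by
  classical
  -- operator valued version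
  let Mo : ℝ × ℝ → E3 ≃L[ℝ] E3 := fun q => M q.1 q.2
  have hMo : ContDiff ℝ ∞ fun q : (ℝ × ℝ) × E3 => Mo q.1 q.2 := by
    exact hM.comp ((contDiff_fst.comp contDiff_fst).prodMk
      ((contDiff_snd.comp contDiff_fst).prodMk contDiff_snd))
  have hc1 := clm_smooth_of hMo
  have hc2 := clm_symm_smooth_of hMo
  have hK : IsCompact (Icc (0 : ℝ) 1 ×ˢ Icc (0 : ℝ) 1) := isCompact_Icc.prod isCompact_Icc
  obtain ⟨B1, hB1⟩ := hK.exists_bound_of_continuousOn hc1.continuous.continuousOn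
  obtain ⟨B2, hB2⟩ := hK.exists_bound_of_continuousOn hc2.continuous.continuousOn
  have hd : Continuous (fderiv ℝ fun q : ℝ × ℝ => ((Mo q).symm : E3 →L[ℝ] E3)) :=
    hc2.continuous_fderiv (by simp)
  obtain ⟨B3, hB3⟩ := hK.exists_bound_of_continuousOn (E := ℝ × ℝ →L[ℝ] E3 →L[ℝ] E3)
    (f := fderiv ℝ fun q : ℝ × ℝ => ((Mo q).symm : E3 →L[ℝ] E3)) hd.continuousOn
  set C : ℝ := max (max B1 B2) (max B3 0) with hC
  have hCB1 : B1 ≤ C := (le_max_left _ _).trans (le_max_left _ _)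
  have hCB2 : B2 ≤ C := (le_max_right _ _).trans (le_max_left _ _)
  have hCB3 : B3 ≤ C := (le_max_left _ _).trans (le_max_right _ _)
  have hC0 : 0 ≤ C := (le_max_right _ _).trans (le_max_right _ _)
  -- periodicity
  have hfr : ∀ t τ, M t τ = M (Int.fract t) τ := by
    have hn : ∀ (n : ℕ) t τ z, M (t + n) τ z = M t τ z := by
      intro n
      induction n with
      | zero => intro t τ z; simp
      | succ n ih =>
        intro t τ z
        have : t + ((n + 1 : ℕ) : ℝ) = (t + n) + 1 := by push_cast; ring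
        rw [this, hper, ih]
    have hz : ∀ (k : ℤ) t τ z, M (t + k) τ z = M t τ z := by
      intro k t τ z
      rcases Int.eq_nat_or_neg k with ⟨n, rfl | rfl⟩
      · simpa using hn n t τ z
      · have := hn n (t + ((-(n : ℤ) : ℤ) : ℝ)) τ z
        rw [← this]
        congr 3
        push_cast
        ring
    intro t τ
    refine ContinuousLinearEquiv.ext (funext fun z => ?_)
    have := hz ⌊t⌋ (Int.fract t) τ z
    rw [Int.fract_add_floor] at this
    exact this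
  have hfr01 : ∀ t τ, 0 ≤ τ → τ ≤ 1 → (Int.fract t, τ) ∈ Icc (0 : ℝ) 1 ×ˢ Icc (0 : ℝ) 1 :=
    fun t τ a b => ⟨⟨Int.fract_nonneg t, (Int.fract_lt_one t).le⟩, ⟨a, b⟩⟩
  -- bounds for `M`
  have b1 : ∀ t τ z, 0 ≤ τ → τ ≤ 1 → ‖M t τ z‖ ≤ C * ‖z‖ := by
    intro t τ z a b
    rw [hfr t τ]
    have h1 := hB1 _ (hfr01 t τ a b)
    calc ‖M (Int.fract t) τ z‖ = ‖(M (Int.fract t) τ : E3 →L[ℝ] E3) z‖ := rfl
      _ ≤ ‖(M (Int.fract t) τ : E3 →L[ℝ] E3)‖ * ‖z‖ := ContinuousLinearMap.le_opNorm _ _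
      _ ≤ C * ‖z‖ := by gcongr; exact h1.trans hCB1
  have b2 : ∀ t τ z, 0 ≤ τ → τ ≤ 1 → ‖(M t τ).symm z‖ ≤ C * ‖z‖ := by
    intro t τ z a b
    rw [hfr t τ]
    have h1 := hB2 _ (hfr01 t τ a b)
    calc ‖(M (Int.fract t) τ).symm z‖ = ‖((M (Int.fract t) τ).symm : E3 →L[ℝ] E3) z‖ := rfl
      _ ≤ ‖((M (Int.fract t) τ).symm : E3 →L[ℝ] E3)‖ * ‖z‖ := ContinuousLinearMap.le_opNorm _ _
      _ ≤ C * ‖z‖ := by gcongr; exact h1.trans hCB2
  have b3 : ∀ t τ τ' z, 0 ≤ τ → τ ≤ 1 → 0 ≤ τ' → τ' ≤ 1 →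
      ‖(M t τ).symm z - (M t τ').symm z‖ ≤ C * |τ - τ'| * ‖z‖ := by
    intro t τ τ' z a b a' b'
    rw [hfr t τ, hfr t τ']
    have hconv : Convex ℝ (Icc (0 : ℝ) 1 ×ˢ Icc (0 : ℝ) 1) :=
      (convex_Icc _ _).prod (convex_Icc _ _)
    have h1 := hconv.norm_image_sub_le_of_norm_fderiv_le (𝕜 := ℝ)
      (f := fun q : ℝ × ℝ => ((Mo q).symm : E3 →L[ℝ] E3)) (C := B3)
      (fun q _ => (hc2.differentiable (by simp)).differentiableAt) hB3
      (hfr01 t τ' a' b') (hfr01 t τ a b)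
    have h2 : ‖(Int.fract t, τ) - (Int.fract t, τ')‖ = |τ - τ'| := by
      simp [Prod.norm_def]
    rw [h2] at h1
    calc ‖(M (Int.fract t) τ).symm z - (M (Int.fract t) τ').symm z‖
        = ‖(((M (Int.fract t) τ).symm : E3 →L[ℝ] E3)
            - ((M (Int.fract t) τ').symm : E3 →L[ℝ] E3)) z‖ := rfl
      _ ≤ ‖((M (Int.fract t) τ).symm : E3 →L[ℝ] E3)
            - ((M (Int.fract t) τ').symm : E3 →L[ℝ] E3)‖ * ‖z‖ :=
          ContinuousLinearMap.le_opNorm _ _
      _ ≤ (B3 * |τ - τ'|) * ‖z‖ := by gcongr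
      _ ≤ C * |τ - τ'| * ‖z‖ := by gcongr
  -- apply `radial`
  have hLs : ContDiff ℝ ∞ fun q : ℝ × ℝ × E3 => (M q.1 q.2.1).symm q.2.2 := by
    have := smooth_symm_lin_gen hMo
    exact this.comp ((contDiff_fst.prodMk (contDiff_fst.comp contDiff_snd)).prodMk
      (contDiff_snd.comp contDiff_snd))
  obtain ⟨r₀, hr₀, hr₀R, θ, f, hθs, hθ01, hθ1, hθ0, hf, hfs, hfs'⟩ :=
    radial (fun t τ => (M t τ).symm) hLs
      (by
        intro t z
        rw [ContinuousLinearEquiv.symm_apply_eq, h0])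
      C b2 (by intro t τ z a b; simpa using b1 t τ z a b) b3 (1 / 2) (by norm_num)
  have hfper : ∀ t z, f (t + 1) z = f t z := by
    intro t z
    rw [hf, hf]
    have : M (t + 1) (θ z) = M t (θ z) :=
      ContinuousLinearEquiv.ext (funext fun w => hper _ _ _)
    rw [this]
  have hffar : ∀ t z, 1 / 2 ≤ ‖z‖ → f t z = z := by
    intro t z hz
    rw [hf, hθ0 z hz]
    rw [ContinuousLinearEquiv.symm_apply_eq, h0]
  have hf0 : ∀ t, f t 0 = 0 := by intro t; rw [hf]; simp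
  have hfnorm : ∀ t z, ‖z‖ < 1 → ‖f t z‖ < 1 := by
    intro t z hz
    by_contra hcon
    push Not at hcon
    have h1 := hffar t (f t z) (by linarith)
    have h2 := (f t).injective h1
    rw [h2] at hcon
    linarith
  -- choice of `c₀`
  have hPo : ContDiff ℝ ∞ fun q : ℝ × E3 => S.P q.1 q.2 := S.P_smooth
  have hPc := clm_smooth_of hPo
  obtain ⟨BP, hBP⟩ := (isCompact_Icc (a := (-(1 / 8) : ℝ)) (b := 9 / 8)).exists_bound_of_continuousOn
    hPc.continuous.continuousOn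
  have hBP' : ∀ t z, -(1 / 8) < t → t < 9 / 8 → ‖S.P t z‖ ≤ |BP| * ‖z‖ := by
    intro t z a b
    calc ‖S.P t z‖ = ‖(S.P t : E3 →L[ℝ] E3) z‖ := rfl
      _ ≤ ‖(S.P t : E3 →L[ℝ] E3)‖ * ‖z‖ := ContinuousLinearMap.le_opNorm _ _
      _ ≤ |BP| * ‖z‖ := by
          gcongr; exact (hBP t ⟨a.le, b.le⟩).trans (le_abs_self _)
  set c₀ : ℝ := 1 / (4 * (|BP| + 1)) with hc₀
  have hc₀0 : 0 < c₀ := by positivity
  have hc₀1 : c₀ ≤ 1 := by
    rw [hc₀, div_le_one (by positivity)]
    nlinarith [abs_nonneg BP]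
  have hc₀ne : c₀ ≠ 0 := hc₀0.ne'
  have hcP : c₀ * |BP| < 1 / 4 := by
    rw [hc₀, div_mul_eq_mul_div, one_mul, div_lt_iff₀ (by positivity)]
    nlinarith [abs_nonneg BP]
  -- Q
  obtain ⟨Q, hQ⟩ : ∃ Q : ℝ → E3 ≃L[ℝ] E3, ∀ t z, Q t z = S.P t (c₀ • z) :=
    ⟨fun t => (scal c₀ hc₀ne).trans (S.P t), fun t z => rfl⟩
  have hQs : ContDiff ℝ ∞ fun q : ℝ × E3 => Q q.1 q.2 := by
    simp only [hQ]
    exact hPo.comp (contDiff_fst.prodMk (contDiff_snd.const_smul c₀))
  have hQs' : ContDiff ℝ ∞ fun q : ℝ × E3 => (Q q.1).symm q.2 := smooth_symm_lin_gen hQs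
  have hQn : ∀ t z, -(1 / 8) < t → t < 9 / 8 → ‖z‖ ≤ 1 → ‖Q t z‖ < 1 / 4 := by
    intro t z a b hz
    rw [hQ]
    have h1 := hBP' t (c₀ • z) a b
    rw [norm_smul, Real.norm_eq_abs, abs_of_pos hc₀0] at h1
    have h2 : |BP| * (c₀ * ‖z‖) ≤ c₀ * |BP| := by
      have : |BP| * (c₀ * ‖z‖) ≤ |BP| * (c₀ * 1) := by gcongr
      linarith
    linarith
  -- g
  obtain ⟨g, hg, hg'⟩ : ∃ g : ℝ → Equiv.Perm E3,
      (∀ t w, g t w = Q t (f t ((Q t).symm w))) ∧
      (∀ t w, (g t).symm w = Q t ((f t).symm ((Q t).symm w))) :=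
    ⟨fun t => (((Q t).symm.toEquiv).trans (f t)).trans (Q t).toEquiv, fun t w => rfl,
      fun t w => rfl⟩
  have hgs : ContDiff ℝ ∞ fun q : E3 × ℝ => g q.2 q.1 := by
    simp only [hg]
    have h1 : ContDiff ℝ ∞ fun q : E3 × ℝ => (Q q.2).symm q.1 :=
      hQs'.comp (contDiff_snd.prodMk contDiff_fst)
    have h2 : ContDiff ℝ ∞ fun q : E3 × ℝ => f q.2 ((Q q.2).symm q.1) :=
      hfs.comp (h1.prodMk contDiff_snd)
    exact hQs.comp (contDiff_snd.prodMk h2)
  have hgs' : ContDiff ℝ ∞ fun q : E3 × ℝ => (g q.2).symm q.1 := by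
    simp only [hg']
    have h1 : ContDiff ℝ ∞ fun q : E3 × ℝ => (Q q.2).symm q.1 :=
      hQs'.comp (contDiff_snd.prodMk contDiff_fst)
    have h2 : ContDiff ℝ ∞ fun q : E3 × ℝ => (f q.2).symm ((Q q.2).symm q.1) :=
      hfs'.comp (h1.prodMk contDiff_snd)
    exact hQs.comp (contDiff_snd.prodMk h2)
  have hgfar : ∀ t, -(1 / 8) < t → t < 9 / 8 → ∀ w, 1 / 4 ≤ ‖w‖ → g t w = w := by
    intro t a b w hw
    rw [hg]
    have h1 : 1 / 2 ≤ ‖(Q t).symm w‖ := by
      by_contra hcon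
      push Not at hcon
      have := hQn t ((Q t).symm w) a b (by linarith)
      rw [ContinuousLinearEquiv.apply_symm_apply] at this
      linarith
    rw [hffar t _ h1, ContinuousLinearEquiv.apply_symm_apply]
  have hgfar' : ∀ t w, 1 / 2 ≤ ‖(Q t).symm w‖ → g t w = w := by
    intro t w hw
    rw [hg, hffar t _ hw, ContinuousLinearEquiv.apply_symm_apply]
  -- Ψ
  let Ψ : ℝ → Equiv.Perm E3 := fun t =>
    if h : -(1 / 8) < t ∧ t < 9 / 8 then perzE (g t) (hgfar t h.1 h.2) else 1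
  have hΨ : ∀ t x, -(1 / 8) < t → t < 9 / 8 → Ψ t x = perz (g t) x := by
    intro t x a b
    simp only [Ψ]
    rw [dif_pos ⟨a, b⟩]
    rfl
  -- c
  have b1' : ∀ t z, ‖M t 1 z‖ ≤ C * ‖z‖ := fun t z => b1 t 1 z zero_le_one le_rfl
  set c : ℝ := c₀ * (min r₀ 1) / (C + 1) with hcdef
  have hmin : 0 < min r₀ 1 := lt_min hr₀ one_pos
  have hcpos : 0 < c := by positivity
  have hcle : c ≤ c₀ := by
    rw [hcdef, div_le_iff₀ (by positivity)]
    have : min r₀ 1 ≤ 1 := min_le_right _ _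
    nlinarith
  have hc1' : c ≤ 1 := hcle.trans hc₀1
  have hcne : c ≠ 0 := hcpos.ne'
  have hcC : ∀ t z, ‖z‖ < 1 → ‖(c / c₀) • M t 1 z‖ ≤ min r₀ 1 := by
    intro t z hz
    rw [norm_smul, Real.norm_eq_abs, abs_of_pos (by positivity)]
    have h1 : c / c₀ = min r₀ 1 / (C + 1) := by
      rw [hcdef]; field_simp
    rw [h1]
    have h2 := b1' t z
    have h3 : ‖M t 1 z‖ ≤ C + 1 := by nlinarith [norm_nonneg z]
    rw [div_mul_eq_mul_div, div_le_iff₀ (by positivity)]
    exact mul_le_mul_of_nonneg_left h3 hmin.le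
  obtain ⟨P₁, hP₁⟩ : ∃ P₁ : ℝ → E3 ≃L[ℝ] E3, ∀ t z, P₁ t z = c • S.P t (M t 1 z) :=
    ⟨fun t => ((M t 1).trans (S.P t)).trans (scal c hcne), fun t z => rfl⟩
  have hP₁s : ContDiff ℝ ∞ fun q : ℝ × E3 => P₁ q.1 q.2 := by
    simp only [hP₁]
    have h1 : ContDiff ℝ ∞ fun q : ℝ × E3 => M q.1 1 q.2 :=
      hM.comp (contDiff_fst.prodMk (contDiff_const.prodMk contDiff_snd))
    exact (hPo.comp (contDiff_fst.prodMk h1)).const_smul c
  obtain ⟨S₁, hS₁⟩ := surg_reparam hφ hφ S Ψ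
    (by
      intro x t a b
      refine ld_congr (perz_ld hgs hgs' (I := Ioo (-(1 / 8)) (9 / 8)) isOpen_Ioo
        (fun s hs => hgfar s hs.1 hs.2) x t ⟨a, b⟩) ?_
      have hopen : IsOpen {q : E3 × ℝ | q.2 ∈ Ioo (-(1 / 8) : ℝ) (9 / 8)} :=
        isOpen_Ioo.preimage continuous_snd
      filter_upwards [hopen.mem_nhds (show (x, t) ∈ _ from ⟨a, b⟩)] with q hq
      rw [hΨ q.2 q.1 hq.1 hq.2])
    (by
      intro x t m a b
      rw [hΨ _ _ a b, hΨ _ _ a b, perz_add])
    (by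
      intro t a b
      rw [hΨ _ _ a b, perz_near _ 0 (by rw [vec_zero]; simp), vec_zero]
      simp [hg, hf0])
    (by
      intro x t a b
      rw [hΨ (t + 1) x (by linarith) (by linarith), hΨ t (φ x) a (by linarith)]
      set m := rnd x with hm
      set w := x - vec m with hw
      have hx : x = w + vec m := by rw [hw]; abel
      have hpz : perz (g (t + 1)) x = g (t + 1) w + vec m := by
        unfold perz; rw [← hm, ← hw, add_comm]
      set z := (Q (t + 1)).symm w with hz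
      have hwz : w = S.P (t + 1) (c₀ • z) := by
        rw [← hQ, hz, ContinuousLinearEquiv.apply_symm_apply]
      have key : ∀ y : E3, ‖y‖ < 1 → φ (S.P (t + 1) (c₀ • y)) = S.P t (c₀ • y) := by
        intro y hy
        apply S.P_mon t _ a b
        rw [norm_smul, Real.norm_eq_abs, abs_of_pos hc₀0]
        nlinarith [norm_nonneg y]
      by_cases hz1 : ‖z‖ < 1
      · rw [hpz, hφ.lat, hg, ← hz, hQ, key _ (hfnorm _ _ hz1), hfper]
        have e1 : φ x = vec (A.mulVec m) + S.P t (c₀ • z) := by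
          rw [hx, hφ.lat, hwz, key z hz1]; abel
        have e2 : ‖φ x - vec (A.mulVec m)‖ < 1 / 2 := by
          rw [e1, add_sub_cancel_left, ← hQ]
          linarith [hQn t z a (by linarith) hz1.le]
        rw [perz_near _ _ e2, e1, add_sub_cancel_left, ← hQ t z, hg,
          ContinuousLinearEquiv.symm_apply_apply, ← hQ]
        abel
      · push Not at hz1
        rw [hpz, hgfar' (t + 1) w (by rw [← hz]; linarith), ← hx]
        unfold perz
        set m' := rnd (φ x) with hm'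
        set w' := φ x - vec m' with hw'
        set z' := (Q t).symm w' with hz'
        have hz'1 : 1 ≤ ‖z'‖ := by
          by_contra hcon
          push Not at hcon
          have hw'z : w' = S.P t (c₀ • z') := by
            rw [← hQ, hz', ContinuousLinearEquiv.apply_symm_apply]
          -- m' = A m''
          have hAinv : A.mulVec (A⁻¹.mulVec m') = m' := by
            rw [Matrix.mulVec_mulVec, Matrix.mul_nonsing_inv _ hφ.unit, Matrix.one_mulVec]
          have e3 : φ x = φ (S.P (t + 1) (c₀ • z') + vec (A⁻¹.mulVec m')) := by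
            rw [hφ.lat, hAinv, key z' hcon, ← hw'z, hw']
            abel
          have e4 := φ.injective e3
          have e5 : rnd x = A⁻¹.mulVec m' := by
            apply rnd_of_sub
            rw [e4, add_sub_cancel_right, ← hQ]
            linarith [hQn (t + 1) z' (by linarith) (by linarith) hcon.le]
          have e6 : z = z' := by
            rw [hz, hw, hm, e5]
            have : x - vec (A⁻¹.mulVec m') = Q (t + 1) z' := by
              rw [e4, add_sub_cancel_right, hQ]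
            rw [this, ContinuousLinearEquiv.symm_apply_apply]
          rw [e6] at hz1
          linarith
        rw [hgfar' t w' (by rw [← hz']; linarith), hw']
        abel)
    P₁ hP₁s c hcpos hc1'
    (by
      intro t z a b hz
      have e0 : P₁ t z = Q t ((c / c₀) • M t 1 z) := by
        rw [hP₁, hQ, smul_smul, map_smul]
        congr 1
        field_simp
      have e1 : ‖(c / c₀) • M t 1 z‖ ≤ min r₀ 1 := hcC t z hz
      have e2 : ‖P₁ t z‖ < 1 / 4 := by
        rw [e0]; exact hQn t _ a b (e1.trans (min_le_right _ _))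
      rw [hΨ _ _ a b, perz_near _ 0 (by rw [vec_zero, sub_zero]; linarith), vec_zero, sub_zero,
        zero_add, hg, e0, ContinuousLinearEquiv.symm_apply_apply, hf,
        hθ1 _ (e1.trans (min_le_left _ _)), map_smul, ContinuousLinearEquiv.symm_apply_apply, hQ,
        smul_smul]
      congr 2
      field_simp)
  exact ⟨c, hcpos, hc1', S₁, fun t z => by rw [hS₁, hP₁]⟩

/-- Shrinking of the tubular neighbourhood (`surg_reparam` with `Ψ = 1`). -/
theorem surg_shrink {A : Matrix (Fin 3) (Fin 3) ℤ} {φ : Equiv.Perm E3}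
    (hφ : Mono A φ) (S : Surg φ X) (c : ℝ) (hc : 0 < c) (hc1 : c ≤ 1) :
    ∃ S₁ : Surg φ X, ∀ t z, S₁.P t z = c • S.P t z := by
  let P₁ : ℝ → E3 ≃L[ℝ] E3 := fun t => (S.P t).trans (scal c hc.ne')
  have hP₁ : ∀ t z, P₁ t z = c • S.P t z := fun t z => rfl
  obtain ⟨S₁, hS₁⟩ := surg_reparam hφ hφ S (fun _ => 1)
    (by
      intro x t _ _
      exact ld_congr (ld_id (x, t)) (by filter_upwards with q; rfl))
    (by intro x t m _ _; rfl) (by intro t _ _; rfl) (by intro x t _ _; rfl)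
    P₁ (by simp only [hP₁]; exact S.P_smooth.const_smul c) c hc hc1
    (by
      intro t z _ _ _
      rw [hP₁]
      exact ((S.P t).map_smul c z).symm)
  exact ⟨S₁, fun t z => by rw [hS₁, hP₁]⟩

/-- The action of a linear isometry on the sphere. -/
noncomputable def sphMap (R : E3 ≃ₗᵢ[ℝ] E3) (y : S2) : S2 :=
  ⟨R y, by
    have := y.2
    rw [mem_sphere_zero_iff_norm] at this ⊢
    rw [R.norm_map, this]⟩

theorem sphMap_smooth (R : E3 ≃ₗᵢ[ℝ] E3) : ContMDiff (𝓡 2) (𝓡 2) ∞ (sphMap R) := by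
  have hfact : Fact (Module.finrank ℝ E3 = 2 + 1) := ⟨by simp⟩
  have h0 : ContMDiff (𝓡 2) 𝓘(ℝ, E3) ∞ (Subtype.val : S2 → E3) := contMDiff_coe_sphere (n := 2)
  have h1 : ContMDiff (𝓡 2) 𝓘(ℝ, E3) ∞ fun y : S2 => R (y : E3) := by
    have : ContMDiff 𝓘(ℝ, E3) 𝓘(ℝ, E3) ∞ fun z : E3 => R z :=
      (R.toContinuousLinearEquiv.contDiff).contMDiff
    exact this.comp h0
  exact ContMDiff.codRestrict_sphere (n := 2) h1 (fun y => (sphMap R y).2)

/-- The action of a linear isometry on the sphere as a diffeomorphism of `S^2 × C`. -/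
noncomputable def sphDiff (R : E3 ≃ₗᵢ[ℝ] E3) :
    Diffeomorph ((𝓡 2).prod 𝓘(ℝ, ℂ)) ((𝓡 2).prod 𝓘(ℝ, ℂ)) (S2 × ℂ) (S2 × ℂ) ∞ where
  toFun q := (sphMap R q.1, q.2)
  invFun q := (sphMap R.symm q.1, q.2)
  left_inv q := by
    ext1
    · apply Subtype.ext
      simp [sphMap]
    · rfl
  right_inv q := by
    ext1
    · apply Subtype.ext
      simp [sphMap]
    · rfl
  contMDiff_toFun := by
    exact ((sphMap_smooth R).comp contMDiff_fst).prodMk contMDiff_snd
  contMDiff_invFun := by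
    exact ((sphMap_smooth R.symm).comp contMDiff_fst).prodMk contMDiff_snd

/-- Composition of the framing with a fixed orthogonal map `R` (used for a reflection):
`j₁ (y, v) = j (R y, v)`, `P₁ t = P t ∘ R`. -/
theorem surg_orth {A : Matrix (Fin 3) (Fin 3) ℤ} {φ : Equiv.Perm E3}
    (hφ : Mono A φ) (S : Surg φ X) (R : E3 ≃ₗᵢ[ℝ] E3) :
    ∃ S₁ : Surg φ X, ∀ t z, S₁.P t z = S.P t (R z) := by
  refine ⟨{
    H := S.H
    j := fun q => S.j (sphMap R q.1, q.2)
    P := fun t => (R.toContinuousLinearEquiv).trans (S.P t)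
    P_smooth := ?_
    P_mon := ?_
    P_avoid := ?_
    H_loc := S.H_loc
    H_per := S.H_per
    H_mon := S.H_mon
    H_inj := S.H_inj
    j_loc := ?_
    j_inj := ?_
    glue := ?_
    disj := ?_
    cover := ?_ }, fun t z => rfl⟩
  · have : ContDiff ℝ ∞ fun z : E3 => R z := R.toContinuousLinearEquiv.contDiff
    exact S.P_smooth.comp (contDiff_fst.prodMk (this.comp contDiff_snd))
  · intro t z a b hz
    exact S.P_mon t (R z) a b (by rwa [R.norm_map])
  · intro t z a b hz hz1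
    refine S.P_avoid t (R z) a b ?_ (by rwa [R.norm_map])
    intro h
    exact hz (R.map_eq_zero_iff.1 h)
  · intro y v hv
    have h1 := S.j_loc (sphMap R y) v hv
    have h2 : IsLocalDiffeomorphAt ((𝓡 2).prod 𝓘(ℝ, ℂ)) ((𝓡 2).prod 𝓘(ℝ, ℂ)) ∞
        (sphDiff R) (y, v) := (sphDiff R).isLocalDiffeomorph (y, v)
    exact IsLocalDiffeomorphAt.comp (𝓡 4) X h2 h1
  · intro y y' v v' hv hv' h
    obtain ⟨h1, h2⟩ := S.j_inj _ _ _ _ hv hv' h
    refine ⟨?_, h2⟩
    have := congrArg (fun y : S2 => (y : E3)) h1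
    simp only [sphMap] at this
    exact Subtype.ext (R.injective this)
  · intro t r y a b hr hr1
    have := S.glue t r (sphMap R y) a b hr hr1
    rw [this]
    congr 2
    simp [sphMap]
  · intro y x t hx
    exact S.disj _ x t hx
  · intro p
    rcases S.cover p with ⟨y, hy⟩ | h
    · left
      refine ⟨sphMap R.symm y, ?_⟩
      rw [hy]
      congr 2
      apply Subtype.ext
      simp [sphMap]
    · exact Or.inr h

end

end Pool.Agent.CSG
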