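import Pool.Agent.CSG.FunBasic

/-!
# CSG/Conv: `CSData A X` and `Surg φ X` for the linear monodromy

`surg_of_cs`: restriction.  `cs_of_surg`: the same `H`, `j`, and
`P' t = (act A)^{-⌊t⌋} ∘ P (fract t)`; `P_mon` on the overlap and linearity give
`act A (P (t+1) z) = P t z` for `-1/8 < t < 1/8` and all `z`, so `P'` is smooth and agrees with `P`
on `(-1/8, 9/8)`.  `P_avoid`: `P' t z = A^{-k} P s z`.  `glue`: `H (P' t w, t) = H (A^k P' t w, s) =
H (P s w, s)`, `t = s + k` (`H_mon`).
`cs_conj`: `H' (x, t) = H (Q⁻¹ x, t)`, `P' = Q P`, the same `j`.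
`cs_inv`: `H' (x, t) = H (x, -t)`, `P' t = P (-t)`, `j' (y, v) = j (y, v̄)`.
-/

open scoped Manifold ContDiff Topology

namespace Pool.Agent.CSG

/-- `act A` as a linear map. -/
private noncomputable def Conv_lin (A : Matrix (Fin 3) (Fin 3) ℤ) : E3 →ₗ[ℝ] E3 where
  toFun := act A
  map_add' x y := by
    ext i
    simp [act, mul_add, Finset.sum_add_distrib]
  map_smul' c x := by
    ext i
    simp only [act, PiLp.smul_apply, smul_eq_mul, RingHom.id_apply]
    rw [Finset.mul_sum]
    exact Finset.sum_congr rfl fun j _ => by ring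

private theorem Conv_act_one (x : E3) : act 1 x = x := by
  ext i
  simp [act, Matrix.one_apply]

private theorem Conv_exists_L {A : Matrix (Fin 3) (Fin 3) ℤ} (hA : IsUnit A.det) :
    ∃ L : E3 ≃L[ℝ] E3, ∀ x, L x = act A x := by
  obtain ⟨φ, h1, _⟩ := exists_actE hA
  have hb : Function.Bijective (Conv_lin A) := by
    have h2 : (Conv_lin A : E3 → E3) = φ := by
      funext x
      exact (h1 x).symm
    rw [h2]
    exact φ.bijective
  exact ⟨(LinearEquiv.ofBijective (Conv_lin A) hb).toContinuousLinearEquiv, fun x => rfl⟩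

private theorem Conv_mono_of {A : Matrix (Fin 3) (Fin 3) ℤ} (hA : IsUnit A.det)
    {φ : Equiv.Perm E3} (hφ : ∀ x, φ x = act A x) : Mono A φ := by
  obtain ⟨φ', h1, h2⟩ := exists_actE hA
  have : φ = φ' := by
    ext1 x
    rw [hφ, h1]
  rw [this]
  exact h2

private theorem Conv_zpow {L : E3 ≃L[ℝ] E3} {φ : Equiv.Perm E3} (h : ∀ x, φ x = L x) (k : ℤ) :
    ∀ x, (L ^ k) x = (φ ^ k) x := by
  induction k using Int.induction_on with
  | zero => intro x; rfl
  | succ i ih =>
    intro x
    rw [zpow_add_one, zpow_add_one, Equiv.Perm.mul_apply]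
    show (L ^ (i : ℤ)) (L x) = _
    rw [ih, h]
  | pred i ih =>
    intro x
    rw [zpow_sub_one, zpow_sub_one, Equiv.Perm.mul_apply]
    show (L ^ (-(i : ℤ))) (L.symm x) = _
    rw [ih]
    congr 1
    have h1 : φ (L.symm x) = x := by rw [h, L.apply_symm_apply]
    rw [Equiv.Perm.eq_inv_iff_eq]
    exact h1

section
variable {X : Type*} [TopologicalSpace X] [ChartedSpace E4 X]

theorem surg_of_cs {A : Matrix (Fin 3) (Fin 3) ℤ} {φ : Equiv.Perm E3}
    (hφ : ∀ x, φ x = act A x) (D : CSData A X) :
    ∃ S : Surg φ X, S.H = D.H ∧ S.j = D.j ∧ S.P = D.P :=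
  ⟨{ H := D.H
     j := D.j
     P := D.P
     P_smooth := D.P_smooth
     P_mon := fun t z _ _ _ => by rw [hφ]; exact D.P_mon t z
     P_avoid := fun t z _ _ hz hz1 => D.P_avoid t z hz hz1
     H_loc := D.H_loc
     H_per := D.H_per
     H_mon := fun x t hx => by rw [hφ]; exact D.H_mon x t hx
     H_inj := D.H_inj
     j_loc := D.j_loc
     j_inj := D.j_inj
     glue := fun t r y _ _ hr hr1 => D.glue t r y hr hr1
     disj := D.disj
     cover := D.cover }, rfl, rfl, rfl⟩

private theorem Conv_H_zpow {A : Matrix (Fin 3) (Fin 3) ℤ} {φ : Equiv.Perm E3} (hM : Mono A φ)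
    (S : Surg φ X) (k : ℤ) : ∀ x t, ¬ IsLat x → S.H ((φ ^ k) x, t) = S.H (x, t + k) := by
  have hlat : ∀ (k : ℤ) x, ¬ IsLat x → ¬ IsLat ((φ ^ k) x) := by
    intro k x hx
    obtain ⟨B, hB⟩ := hM.zpow k
    rwa [hB.isLat]
  induction k using Int.induction_on with
  | zero => intro x t _; simp
  | succ i ih =>
    intro x t hx
    have e : (φ ^ ((i : ℤ) + 1)) x = φ ((φ ^ (i : ℤ)) x) := by
      rw [add_comm, zpow_one_add, Equiv.Perm.mul_apply]
    rw [e, S.H_mon _ _ (hlat _ _ hx), ih x (t + 1) hx]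
    congr 2
    push_cast
    ring
  | pred i ih =>
    intro x t hx
    have e : φ ((φ ^ (-(i : ℤ) - 1)) x) = (φ ^ (-(i : ℤ))) x := by
      have : φ ^ (-(i : ℤ)) = φ * φ ^ (-(i : ℤ) - 1) := by
        rw [← zpow_one_add]
        congr 1
        ring
      rw [this, Equiv.Perm.mul_apply]
    have h1 := S.H_mon ((φ ^ (-(i : ℤ) - 1)) x) (t - 1) (hlat _ _ hx)
    rw [e, sub_add_cancel, ih x (t - 1) hx] at h1
    rw [← h1]
    congr 2
    push_cast
    ring

theorem cs_of_surg {A : Matrix (Fin 3) (Fin 3) ℤ} {φ : Equiv.Perm E3} (hA : IsUnit A.det)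
    (hφ : ∀ x, φ x = act A x) (S : Surg φ X) :
    ∃ D : CSData A X, D.H = S.H ∧ D.j = S.j ∧
      ∀ t, -(1 / 8) < t → t < 9 / 8 → D.P t = S.P t := by
  have hM : Mono A φ := Conv_mono_of hA hφ
  obtain ⟨L, hL⟩ := Conv_exists_L hA
  have hφL : ∀ x, φ x = L x := fun x => by rw [hφ, hL]
  have hlat : ∀ (k : ℤ) x, IsLat ((L ^ k) x) ↔ IsLat x := by
    intro k x
    rw [Conv_zpow hφL k x]
    obtain ⟨B, hB⟩ := hM.zpow k
    exact hB.isLat x
  have hmul : ∀ (a b : ℤ) x, (L ^ (a + b)) x = (L ^ a) ((L ^ b) x) := by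
    intro a b x
    rw [zpow_add]
    rfl
  -- linearity: the overlap relation for all `z`
  have hov : ∀ t z, -(1 / 8) < t → t < 1 / 8 → L (S.P (t + 1) z) = S.P t z := by
    intro t z h1 h2
    set c : ℝ := (‖z‖ + 1)⁻¹ with hc
    have hcp : 0 < c := by positivity
    have hz : ‖c • z‖ < 1 := by
      rw [norm_smul, Real.norm_of_nonneg hcp.le, hc, inv_mul_lt_iff₀ (by positivity)]
      linarith
    have h3 := S.P_mon t (c • z) h1 h2 hz
    rw [hφL, map_smul, map_smul, map_smul] at h3
    exact smul_right_injective E3 hcp.ne' h3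
  set P' : ℝ → E3 ≃L[ℝ] E3 := fun t => L ^ (-⌊t⌋) * S.P (Int.fract t) with hP'
  have hP'a : ∀ t z, P' t z = (L ^ (-⌊t⌋)) (S.P (Int.fract t) z) := fun t z => rfl
  have hPP : ∀ t z, -(1 / 8) < t → t < 9 / 8 → P' t z = S.P t z := by
    intro t z h1 h2
    rw [hP'a]
    rcases lt_or_ge t 0 with h0 | h0
    · have hfl : ⌊t⌋ = -1 := by
        rw [Int.floor_eq_iff]
        push_cast
        constructor <;> linarith
      have hfr : Int.fract t = t + 1 := by
        unfold Int.fract
        rw [hfl]
        push_cast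
        ring
      rw [hfl, hfr, neg_neg, zpow_one]
      exact hov t z h1 (by linarith)
    · rcases lt_or_ge t 1 with h3 | h3
      · have hfl : ⌊t⌋ = 0 := by
          rw [Int.floor_eq_iff]
          push_cast
          constructor <;> linarith
        have hfr : Int.fract t = t := by
          unfold Int.fract
          rw [hfl]
          push_cast
          ring
        rw [hfl, hfr, neg_zero, zpow_zero]
        rfl
      · have hfl : ⌊t⌋ = 1 := by
          rw [Int.floor_eq_iff]
          push_cast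
          constructor <;> linarith
        have hfr : Int.fract t = t - 1 := by
          unfold Int.fract
          rw [hfl]
          push_cast
          ring
        have h4 := hov (t - 1) z (by linarith) (by linarith)
        rw [sub_add_cancel] at h4
        rw [hfl, hfr, ← h4]
        show (L ^ (-1 : ℤ)) (L (S.P t z)) = _
        rw [zpow_neg, zpow_one]
        exact L.symm_apply_apply _
  have hshift : ∀ (k : ℤ) t z, P' (t + k) z = (L ^ (-k)) (P' t z) := by
    intro k t z
    rw [hP'a, hP'a, Int.floor_add_intCast, Int.fract_add_intCast, ← hmul]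
    congr 2
    ring_nf
  have hkey : ∀ (k : ℤ) s z, -(1 / 8) < s → s < 9 / 8 →
      P' (s + k) z = (L ^ (-k)) (S.P s z) := by
    intro k s z h1 h2
    rw [hshift, hPP s z h1 h2]
  refine ⟨{ H := S.H
            j := S.j
            P := P'
            P_smooth := ?_
            P_mon := ?_
            P_avoid := ?_
            H_loc := S.H_loc
            H_per := S.H_per
            H_mon := fun x t hx => by rw [← hφ]; exact S.H_mon x t hx
            H_inj := S.H_inj
            j_loc := S.j_loc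
            j_inj := S.j_inj
            glue := ?_
            disj := S.disj
            cover := S.cover }, rfl, rfl, ?_⟩
  · rw [contDiff_iff_contDiffAt]
    rintro ⟨t₀, z₀⟩
    have hopen : IsOpen {q : ℝ × E3 | -(1 / 8) < q.1 - ⌊t₀⌋ ∧ q.1 - ⌊t₀⌋ < 9 / 8} := by
      apply IsOpen.and
      · exact isOpen_lt continuous_const (continuous_fst.sub continuous_const)
      · exact isOpen_lt (continuous_fst.sub continuous_const) continuous_const
    have hmem : (t₀, z₀) ∈ {q : ℝ × E3 | -(1 / 8) < q.1 - ⌊t₀⌋ ∧ q.1 - ⌊t₀⌋ < 9 / 8} := by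
      have h1 := Int.floor_le t₀
      have h2 := Int.lt_floor_add_one t₀
      constructor
      · show -(1 / 8) < t₀ - ⌊t₀⌋
        linarith
      · show t₀ - ⌊t₀⌋ < 9 / 8
        linarith
    have hsm : ContDiff ℝ ∞ fun q : ℝ × E3 => (L ^ (-⌊t₀⌋)) (S.P (q.1 - ⌊t₀⌋) q.2) := by
      refine (L ^ (-⌊t₀⌋)).contDiff.comp ?_
      exact S.P_smooth.comp ((contDiff_fst.sub contDiff_const).prodMk contDiff_snd)
    refine hsm.contDiffAt.congr_of_eventuallyEq ?_
    filter_upwards [hopen.mem_nhds hmem] with q hq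
    have := hkey ⌊t₀⌋ (q.1 - ⌊t₀⌋) q.2 hq.1 hq.2
    rw [sub_add_cancel] at this
    exact this
  · intro t z
    have := hshift 1 t z
    push_cast at this
    rw [this, ← hL, zpow_neg, zpow_one]
    exact L.apply_symm_apply _
  · intro t z hz hz1
    rw [hP'a, hlat]
    exact S.P_avoid _ z (by have := Int.fract_nonneg t; linarith)
      (by have := Int.fract_lt_one t; linarith) hz hz1
  · intro t r y hr hr1
    have hs0 := Int.fract_nonneg t
    have hs1 := Int.fract_lt_one t
    have hg := S.glue (Int.fract t) r y (by linarith) (by linarith) hr hr1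
    have hexp : Complex.exp (2 * Real.pi * t * Complex.I) =
        Complex.exp (2 * Real.pi * (Int.fract t : ℝ) * Complex.I) := by
      have ht : (t : ℂ) = ((Int.fract t : ℝ) : ℂ) + (⌊t⌋ : ℂ) := by
        have := Int.fract_add_floor t
        exact_mod_cast this.symm
      rw [Complex.exp_eq_exp_iff_exists_int]
      refine ⟨⌊t⌋, ?_⟩
      conv_lhs => rw [ht]
      ring
    rw [hexp, hg, hP'a]
    have hnl : ¬ IsLat (S.P (Int.fract t) (r • (y : E3))) := by
      refine S.P_avoid _ _ (by linarith) (by linarith) ?_ ?_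
      · intro h0
        have hy : ‖(y : E3)‖ = 1 := by simpa using y.2
        have : ‖r • (y : E3)‖ = 0 := by rw [h0, norm_zero]
        rw [norm_smul, hy, mul_one, Real.norm_of_nonneg hr.le] at this
        linarith
      · have hy : ‖(y : E3)‖ = 1 := by simpa using y.2
        rw [norm_smul, hy, mul_one, Real.norm_of_nonneg hr.le]
        exact hr1
    set w := S.P (Int.fract t) (r • (y : E3)) with hw
    have h5 := Conv_H_zpow hM S ⌊t⌋ ((L ^ (-⌊t⌋)) w) (Int.fract t) (by rwa [hlat])
    rw [Int.fract_add_floor, ← Conv_zpow hφL, ← hmul, add_neg_cancel] at h5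
    rw [← h5]
    rfl
  · intro t h1 h2
    exact ContinuousLinearEquiv.ext (funext fun z => hPP t z h1 h2)

private theorem Conv_norm_lt {r : ℝ} (hr : 0 < r) (hr1 : r < 1) (y : S2) :
    r • (y : E3) ≠ 0 ∧ ‖r • (y : E3)‖ < 1 := by
  have hy : ‖(y : E3)‖ = 1 := by simpa using y.2
  have hn : ‖r • (y : E3)‖ = r := by
    rw [norm_smul, hy, mul_one, Real.norm_of_nonneg hr.le]
  refine ⟨fun h => ?_, by rw [hn]; exact hr1⟩
  rw [h, norm_zero] at hn
  linarith

/-- Invariance under conjugation in `GL_3(Z)`. -/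
theorem cs_conj {A B Q : Matrix (Fin 3) (Fin 3) ℤ} (hQ : IsUnit Q.det) (h : Q * A = B * Q)
    (D : CSData A X) : Nonempty (CSData B X) := by
  obtain ⟨φ, hφ, hM⟩ := exists_actE hQ
  obtain ⟨L, hL⟩ := Conv_exists_L hQ
  have hφL : ∀ x, φ x = L x := fun x => by rw [hφ, hL]
  have hsymm : ∀ x, φ.symm x = L.symm x := by
    intro x
    rw [Equiv.symm_apply_eq, hφL, L.apply_symm_apply]
  have hLlat : ∀ x, IsLat (L x) ↔ IsLat x := fun x => by rw [← hφL]; exact hM.isLat x
  have hLs : ∀ x, IsLat (L.symm x) ↔ IsLat x := by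
    intro x
    rw [← hLlat, L.apply_symm_apply]
  have hcomm : ∀ x, act B (L x) = L (act A x) := by
    intro x
    rw [hL, hL, ← act_mul, ← act_mul, h]
  have hcomm' : ∀ x, L.symm (act B x) = act A (L.symm x) := by
    intro x
    rw [ContinuousLinearEquiv.symm_apply_eq, ← hcomm, L.apply_symm_apply]
  refine ⟨{ H := fun q => D.H (L.symm q.1, q.2)
            j := D.j
            P := fun t => (D.P t).trans L
            P_smooth := ?_
            P_mon := ?_
            P_avoid := ?_
            H_loc := ?_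
            H_per := ?_
            H_mon := ?_
            H_inj := ?_
            j_loc := D.j_loc
            j_inj := D.j_inj
            glue := ?_
            disj := ?_
            cover := ?_ }⟩
  · exact L.contDiff.comp D.P_smooth
  · intro t z
    show act B (L (D.P (t + 1) z)) = L (D.P t z)
    rw [hcomm, D.P_mon]
  · intro t z hz hz1
    show ¬ IsLat (L (D.P t z))
    rw [hLlat]
    exact D.P_avoid t z hz hz1
  · intro x t hx
    have h1 : IsLocalDiffeomorphAt 𝓘(ℝ, E3 × ℝ) 𝓘(ℝ, E3 × ℝ) ∞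
        (L.symm.prodCongr (ContinuousLinearEquiv.refl ℝ ℝ)) (x, t) :=
      (ContinuousLinearEquiv.toDiffeomorph
        (L.symm.prodCongr (ContinuousLinearEquiv.refl ℝ ℝ))).isLocalDiffeomorph (x, t)
    exact IsLocalDiffeomorphAt.comp (hf := h1) (g := D.H)
      (hg := D.H_loc (L.symm x) t (by rwa [hLs]))
  · intro x t m hx
    have e : L.symm (x + vec m) = L.symm x + vec (Q⁻¹.mulVec m) := by
      have := (hM.inv).lat x m
      have h2 : ∀ x, φ⁻¹ x = L.symm x := hsymm
      rw [h2, h2] at this
      exact this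
    show D.H (L.symm (x + vec m), t) = D.H (L.symm x, t)
    rw [e]
    exact D.H_per _ _ _ (by rwa [hLs])
  · intro x t hx
    show D.H (L.symm (act B x), t) = D.H (L.symm x, t + 1)
    rw [hcomm']
    exact D.H_mon _ _ (by rwa [hLs])
  · intro x y s t hx hy hs0 hs1 ht0 ht1 he
    obtain ⟨h1, m, hm⟩ := D.H_inj (L.symm x) (L.symm y) s t (by rwa [hLs]) (by rwa [hLs])
      hs0 hs1 ht0 ht1 he
    refine ⟨h1, Q.mulVec m, ?_⟩
    rw [ContinuousLinearEquiv.symm_apply_eq] at hm
    rw [hm, map_add, L.apply_symm_apply, hL, act_vec]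
  · intro t r y hr hr1
    show D.j _ = D.H (L.symm (L (D.P t (r • (y : E3)))), t)
    rw [L.symm_apply_apply]
    exact D.glue t r y hr hr1
  · intro y x t hx
    exact D.disj y (L.symm x) t (by rwa [hLs])
  · intro p
    rcases D.cover p with h1 | ⟨x, t, hx, hp⟩
    · exact Or.inl h1
    · refine Or.inr ⟨L x, t, by rwa [hLlat], ?_⟩
      show p = D.H (L.symm (L x), t)
      rw [L.symm_apply_apply]
      exact hp

/-- Invariance under inversion. -/
theorem cs_inv {A B : Matrix (Fin 3) (Fin 3) ℤ} (h : A * B = 1)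
    (D : CSData A X) : Nonempty (CSData B X) := by
  have h' : B * A = 1 := mul_eq_one_comm.1 h
  have hBu : IsUnit B.det := by
    refine IsUnit.of_mul_eq_one A.det ?_
    rw [← Matrix.det_mul, h', Matrix.det_one]
  have hAu : IsUnit A.det := by
    refine IsUnit.of_mul_eq_one B.det ?_
    rw [← Matrix.det_mul, h, Matrix.det_one]
  obtain ⟨φ, hφ, hM⟩ := exists_actE hBu
  have hAB : ∀ x, act A (act B x) = x := fun x => by rw [← act_mul, h, Conv_act_one]
  have hBA : ∀ x, act B (act A x) = x := fun x => by rw [← act_mul, h', Conv_act_one]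
  have hBlat : ∀ x, IsLat (act B x) ↔ IsLat x := fun x => by rw [← hφ]; exact hM.isLat x
  -- moving negative times
  have hmv : ∀ x s, ¬ IsLat x → D.H (x, -s) = D.H (act B x, 1 - s) := by
    intro x s hx
    have := D.H_mon (act B x) (-s) (by rwa [hBlat])
    rw [hAB] at this
    rw [this]
    congr 2
    ring
  refine ⟨{ H := fun q => D.H (q.1, -q.2)
            j := fun q => D.j (q.1, (starRingEnd ℂ) q.2)
            P := fun t => D.P (-t)
            P_smooth := ?_
            P_mon := ?_
            P_avoid := ?_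
            H_loc := ?_
            H_per := ?_
            H_mon := ?_
            H_inj := ?_
            j_loc := ?_
            j_inj := ?_
            glue := ?_
            disj := ?_
            cover := ?_ }⟩
  · exact D.P_smooth.comp ((contDiff_fst.neg).prodMk contDiff_snd)
  · intro t z
    have := D.P_mon (-t - 1) z
    rw [sub_add_cancel] at this
    show act B (D.P (-(t + 1)) z) = D.P (-t) z
    rw [neg_add, ← sub_eq_add_neg, ← this, hBA]
  · intro t z hz hz1
    exact D.P_avoid (-t) z hz hz1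
  · intro x t hx
    have h1 : IsLocalDiffeomorphAt 𝓘(ℝ, E3 × ℝ) 𝓘(ℝ, E3 × ℝ) ∞
        ((ContinuousLinearEquiv.refl ℝ E3).prodCongr (ContinuousLinearEquiv.neg ℝ)) (x, t) :=
      (ContinuousLinearEquiv.toDiffeomorph
        ((ContinuousLinearEquiv.refl ℝ E3).prodCongr
          (ContinuousLinearEquiv.neg ℝ))).isLocalDiffeomorph (x, t)
    exact IsLocalDiffeomorphAt.comp (hf := h1) (g := D.H) (hg := D.H_loc x (-t) hx)
  · intro x t m hx
    exact D.H_per x (-t) m hx
  · intro x t hx
    show D.H (act B x, -t) = D.H (x, -(t + 1))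
    rw [hmv x (t + 1) hx]
    congr 2
    ring
  · intro x y s t hx hy hs0 hs1 ht0 ht1 he
    have he' : D.H (x, -s) = D.H (y, -t) := he
    rcases hs0.eq_or_lt with hs | hs
    · rcases ht0.eq_or_lt with ht | ht
      · rw [← hs, ← ht, neg_zero] at he'
        obtain ⟨_, m, hm⟩ := D.H_inj x y 0 0 hx hy le_rfl one_pos le_rfl one_pos he'
        exact ⟨hs.symm.trans ht, m, hm⟩
      · exfalso
        rw [← hs, neg_zero, hmv y t hy] at he'
        have := (D.H_inj x (act B y) 0 (1 - t) hx (by rwa [hBlat]) le_rfl one_pos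
          (by linarith) (by linarith) he').1
        linarith
    · rcases ht0.eq_or_lt with ht | ht
      · exfalso
        rw [← ht, neg_zero, hmv x s hx] at he'
        have := (D.H_inj (act B x) y (1 - s) 0 (by rwa [hBlat]) hy (by linarith) (by linarith)
          le_rfl one_pos he').1
        linarith
      · rw [hmv x s hx, hmv y t hy] at he'
        obtain ⟨h1, m, hm⟩ := D.H_inj (act B x) (act B y) (1 - s) (1 - t) (by rwa [hBlat])
          (by rwa [hBlat]) (by linarith) (by linarith) (by linarith) (by linarith) he'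
        refine ⟨by linarith, A.mulVec m, ?_⟩
        obtain ⟨ψ, hψ, hN⟩ := exists_actE hAu
        have h2 : act A (act B y) = act A (act B x) + vec (A.mulVec m) := by
          rw [hm, ← hψ, ← hψ]
          exact hN.lat _ _
        rwa [hAB, hAB] at h2
  · intro y v hv
    have h1 : IsLocalDiffeomorphAt ((𝓡 2).prod 𝓘(ℝ, ℂ)) ((𝓡 2).prod 𝓘(ℝ, ℂ)) ∞
        ((Diffeomorph.refl (𝓡 2) S2 ∞).prodCongr
          (ContinuousLinearEquiv.toDiffeomorph Complex.conjCLE)) (y, v) :=
      ((Diffeomorph.refl (𝓡 2) S2 ∞).prodCongr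
          (ContinuousLinearEquiv.toDiffeomorph Complex.conjCLE)).isLocalDiffeomorph (y, v)
    exact IsLocalDiffeomorphAt.comp (hf := h1) (g := D.j)
      (hg := D.j_loc y ((starRingEnd ℂ) v) (by rwa [RCLike.norm_conj]))
  · intro y y' v v' hv hv' he
    obtain ⟨h1, h2⟩ := D.j_inj y y' _ _ (by rwa [RCLike.norm_conj]) (by rwa [RCLike.norm_conj]) he
    exact ⟨h1, (starRingEnd ℂ).injective h2⟩
  · intro t r y hr hr1
    have e : (starRingEnd ℂ) ((r : ℂ) * Complex.exp (2 * Real.pi * t * Complex.I)) =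
        r * Complex.exp (2 * Real.pi * ((-t : ℝ) : ℂ) * Complex.I) := by
      rw [map_mul, Complex.conj_ofReal, ← Complex.exp_conj]
      congr 2
      simp only [map_mul, Complex.conj_ofReal, Complex.conj_I]
      rw [map_ofNat]
      push_cast
      ring
    show D.j (y, (starRingEnd ℂ) ((r : ℂ) * Complex.exp (2 * Real.pi * t * Complex.I))) = _
    rw [e]
    exact D.glue (-t) r y hr hr1
  · intro y x t hx
    show D.j (y, (starRingEnd ℂ) 0) ≠ _
    rw [map_zero]
    exact D.disj y x (-t) hx
  · intro p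
    rcases D.cover p with ⟨y, hy⟩ | ⟨x, t, hx, hp⟩
    · refine Or.inl ⟨y, ?_⟩
      show p = D.j (y, (starRingEnd ℂ) 0)
      rw [map_zero]
      exact hy
    · refine Or.inr ⟨x, -t, hx, ?_⟩
      show p = D.H (x, - -t)
      rw [neg_neg]
      exact hp

end

end Pool.Agent.CSG
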