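import Pool.Agent.CSG.EDef
import Pool.Agent.CSG.LD

/-!
# CSG/SpL: the chart `ν ↦ (σ, ν) / |(σ, ν)|` of the sphere

Smooth (`ContMDiff.codRestrict_sphere`), with smooth left inverse near the image:
`y ↦ σ (y 1 + i y 2) / y 0` on `{y : σ y 0 > 0}`, which is also a right inverse there.
-/

open scoped Manifold ContDiff Topology
open Complex (I)
open Set Filter

namespace Pool.Agent.CSG

theorem SpL_pt_ne {σ : ℝ} (hσ : σ ≠ 0) (ν : ℂ) : pt σ ν.re ν.im ≠ 0 := by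
  intro h
  apply hσ
  have := congrArg (fun x : E3 => x 0) h
  simpa using this

theorem SpL_coe {σ : ℝ} (hσ : σ ≠ 0) (ν : ℂ) :
    ((sp σ hσ ν : S2) : E3) = (‖pt σ ν.re ν.im‖)⁻¹ • pt σ ν.re ν.im := rfl

/-- inverse of the chart -/
noncomputable def SpL_inv (σ : ℝ) (y : E3) : ℂ :=
  ((σ / y 0 : ℝ) : ℂ) * ((y 1 : ℝ) + (y 2 : ℝ) * I)

theorem SpL_coord (i : Fin 3) : ContDiff ℝ ∞ fun x : E3 => x i :=
  (EuclideanSpace.proj i : E3 →L[ℝ] ℝ).contDiff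

theorem SpL_inv_smooth (σ : ℝ) : ContDiffOn ℝ ∞ (SpL_inv σ) {y : E3 | y 0 ≠ 0} := by
  have h1 : ContDiffOn ℝ ∞ (fun y : E3 => σ / y 0) {y : E3 | y 0 ≠ 0} :=
    contDiffOn_const.div (SpL_coord 0).contDiffOn fun y hy => hy
  have h2 : ContDiffOn ℝ ∞ (fun y : E3 => ((σ / y 0 : ℝ) : ℂ)) {y : E3 | y 0 ≠ 0} :=
    Complex.ofRealCLM.contDiff.comp_contDiffOn h1
  have h3 : ContDiff ℝ ∞ (fun y : E3 => ((y 1 : ℝ) : ℂ) + ((y 2 : ℝ) : ℂ) * I) :=
    (Complex.ofRealCLM.contDiff.comp (SpL_coord 1)).add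
      ((Complex.ofRealCLM.contDiff.comp (SpL_coord 2)).mul contDiff_const)
  exact h2.mul h3.contDiffOn

theorem SpL_left {σ : ℝ} (hσ : σ ≠ 0) (ν : ℂ) : SpL_inv σ ((sp σ hσ ν : S2) : E3) = ν := by
  have hr : ‖pt σ ν.re ν.im‖ ≠ 0 := norm_ne_zero_iff.2 (SpL_pt_ne hσ ν)
  rw [SpL_coe]
  unfold SpL_inv
  simp only [PiLp.smul_apply, pt_zero', pt_one', pt_two', smul_eq_mul]
  have e : σ / (‖pt σ ν.re ν.im‖⁻¹ * σ) = ‖pt σ ν.re ν.im‖ := by
    field_simp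
  rw [e]
  apply Complex.ext
  · simp only [Complex.mul_re, Complex.add_re, Complex.ofReal_re, Complex.ofReal_im,
      Complex.I_re, Complex.I_im, Complex.add_im, Complex.mul_im]
    field_simp
    ring
  · simp only [Complex.mul_re, Complex.add_re, Complex.ofReal_re, Complex.ofReal_im,
      Complex.I_re, Complex.I_im, Complex.add_im, Complex.mul_im]
    field_simp
    ring

theorem SpL_right {σ : ℝ} (hσ : σ ≠ 0) (y : S2) (hy : 0 < σ * (y : E3) 0) :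
    sp σ hσ (SpL_inv σ (y : E3)) = y := by
  have hy0 : (y : E3) 0 ≠ 0 := by
    intro h
    rw [h, mul_zero] at hy
    exact lt_irrefl _ hy
  have hc : 0 < σ / (y : E3) 0 := by
    have : σ / (y : E3) 0 = (σ * (y : E3) 0) / ((y : E3) 0) ^ 2 := by
      field_simp
    rw [this]
    positivity
  have hn : ‖(y : E3)‖ = 1 := by simp
  have e : pt σ (SpL_inv σ (y : E3)).re (SpL_inv σ (y : E3)).im =
      (σ / (y : E3) 0) • (y : E3) := by
    ext i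
    fin_cases i
    · simp
      field_simp
    · simp [SpL_inv]
    · simp [SpL_inv]
  apply Subtype.ext
  rw [SpL_coe, e, norm_smul, hn, mul_one, Real.norm_of_nonneg hc.le, smul_smul,
    inv_mul_cancel₀ hc.ne', one_smul]

theorem SpL_fact : Fact (Module.finrank ℝ E3 = 2 + 1) := ⟨finrank_euclideanSpace_fin⟩

theorem SpL_smooth {σ : ℝ} (hσ : σ ≠ 0) : ContMDiff 𝓘(ℝ, ℂ) (𝓡 2) ∞ (sp σ hσ) := by
  have h1 : ContDiff ℝ ∞ fun ν : ℂ => pt σ ν.re ν.im := by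
    rw [contDiff_euclidean]
    intro i
    fin_cases i
    · simpa using contDiff_const
    · have h : ContDiff ℝ ∞ fun ν : ℂ => ν.re := Complex.reCLM.contDiff
      simpa using h
    · have h : ContDiff ℝ ∞ fun ν : ℂ => ν.im := Complex.imCLM.contDiff
      simpa using h
  have h2 : ContDiff ℝ ∞ fun ν : ℂ => (‖pt σ ν.re ν.im‖)⁻¹ • pt σ ν.re ν.im := by
    have h3 : ContDiff ℝ ∞ fun ν : ℂ => ‖pt σ ν.re ν.im‖ :=
      h1.norm ℝ fun ν => SpL_pt_ne hσ ν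
    exact (h3.inv fun ν => norm_ne_zero_iff.2 (SpL_pt_ne hσ ν)).smul h1
  have := SpL_fact
  exact ContMDiff.codRestrict_sphere h2.contMDiff
    (fun ν => (sp σ hσ ν).2)

/-- the chart as a partial diffeomorphism -/
noncomputable def SpL_pd {σ : ℝ} (hσ : σ ≠ 0) :
    PartialDiffeomorph 𝓘(ℝ, ℂ) (𝓡 2) ℂ S2 ∞ where
  toFun := sp σ hσ
  invFun := fun y => SpL_inv σ (y : E3)
  source := univ
  target := {y | 0 < σ * (y : E3) 0}
  map_source' := by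
    intro ν _
    show 0 < σ * ((sp σ hσ ν : S2) : E3) 0
    have hr : 0 < ‖pt σ ν.re ν.im‖ := norm_pos_iff.2 (SpL_pt_ne hσ ν)
    rw [SpL_coe]
    simp only [PiLp.smul_apply, pt_zero', smul_eq_mul]
    have : σ * (‖pt σ ν.re ν.im‖⁻¹ * σ) = σ ^ 2 * ‖pt σ ν.re ν.im‖⁻¹ := by ring
    rw [this]
    positivity
  map_target' := fun _ _ => mem_univ _
  left_inv' := fun ν _ => SpL_left hσ ν
  right_inv' := fun y hy => SpL_right hσ y hy
  open_source := isOpen_univ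
  open_target := by
    have h : Continuous fun y : S2 => σ * (y : E3) 0 :=
      continuous_const.mul ((SpL_coord 0).continuous.comp continuous_subtype_val)
    exact isOpen_lt continuous_const h
  contMDiffOn_toFun := (SpL_smooth hσ).contMDiffOn
  contMDiffOn_invFun := by
    have h1 : ContMDiffOn 𝓘(ℝ, E3) 𝓘(ℝ, ℂ) ∞ (SpL_inv σ) {y : E3 | y 0 ≠ 0} :=
      (SpL_inv_smooth σ).contMDiffOn
    have h2 : ContMDiffOn (𝓡 2) 𝓘(ℝ, E3) ∞ (fun y : S2 => (y : E3))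
        {y : S2 | 0 < σ * (y : E3) 0} := by
      have := SpL_fact
      exact contMDiff_coe_sphere.contMDiffOn
    refine h1.comp h2 ?_
    intro y hy
    show (y : E3) 0 ≠ 0
    intro h
    have hy' : 0 < σ * (y : E3) 0 := hy
    rw [h, mul_zero] at hy'
    exact lt_irrefl _ hy'

theorem sp_ld {σ : ℝ} (hσ : σ ≠ 0) (ν : ℂ) :
    IsLocalDiffeomorphAt 𝓘(ℝ, ℂ) (𝓡 2) ∞ (sp σ hσ) ν :=
  ⟨SpL_pd hσ, mem_univ _, fun _ _ => rfl⟩

theorem sp_inj {σ : ℝ} (hσ : σ ≠ 0) {ν ν' : ℂ} (h : sp σ hσ ν = sp σ hσ ν') : ν = ν' := by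
  rw [← SpL_left hσ ν, h, SpL_left hσ ν']

theorem sp_ne {ν ν' : ℂ} : sp 1 one_ne_zero ν ≠ sp (-1) (by norm_num) ν' := by
  intro h
  have h1 := congrArg (fun y : S2 => (y : E3) 0) h
  simp only [SpL_coe, PiLp.smul_apply, pt_zero', smul_eq_mul] at h1
  have hr : 0 < ‖pt 1 ν.re ν.im‖ := norm_pos_iff.2 (SpL_pt_ne one_ne_zero ν)
  have hr' : 0 < ‖pt (-1) ν'.re ν'.im‖ := norm_pos_iff.2 (SpL_pt_ne (by norm_num) ν')
  have h2 : 0 < ‖pt 1 ν.re ν.im‖⁻¹ := inv_pos.2 hr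
  have h3 : 0 < ‖pt (-1) ν'.re ν'.im‖⁻¹ := inv_pos.2 hr'
  linarith

/-- the first coordinate, and the norm -/
theorem sp_coe {σ : ℝ} (hσ : σ ≠ 0) (hσ1 : σ ^ 2 = 1) (ν : ℂ) :
    ((sp σ hσ ν : S2) : E3) = (Real.sqrt (1 + ‖ν‖ ^ 2))⁻¹ • pt σ ν.re ν.im := by
  rw [SpL_coe]
  congr 2
  rw [EuclideanSpace.norm_eq, Fin.sum_univ_three]
  congr 1
  simp only [pt_zero', pt_one', pt_two', Real.norm_eq_abs, sq_abs]
  rw [hσ1, Complex.sq_norm, Complex.normSq_apply]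
  ring

end Pool.Agent.CSG
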