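import Pool.Agent.CSG.XiA
import Pool.Agent.CSG.XiB
import Pool.Agent.CSG.KBas
import Pool.Agent.CSG.SpL

/-!
# CSG/ChC: the caps

`GR_eq_CP0`.  Let `r₁ = |ξ|`, `0 < r₁`, `√(1+|ν|²) r₁ < ε ≤ 1/4`, `r₁ ≤ 1/10`.  Then `y = nf r₁ = r₁`,
`wd y = r₁`, `B = r₁ g ν`, `g = gfr k t`, `t = pm p`; `KK_side` (`y ≤ 3/10`) gives
`GR = H (pt r₁ (r₁ g ν).re (r₁ g ν).im, t)`.
On the other side, with `r = √(1+|ν|²) r₁ / ε < 1`: `-(√(1+|ν|²)/ε) ξ = r exp (2πi t)`, since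
`ξ = r₁ exp (i arg ξ)` and `exp (2πi t) = exp (πi) exp (i arg ξ) = -ξ / r₁`; so by `glue`
`CP0 = H (P_t (r • sp 1 ν), t)` and `P_t (r • sp 1 ν) = ε • cmul g (r (1, ν) / √(1+|ν|²)) =
(r₁, r₁ g ν)`.
`GR_eq_CP1`.  Let `r₁ = 1/|ξ| ≤ 1/10`: `y = 1 - r₁`, `wd y = r₁`, `GR = H (pt (1 - r₁) B.re B.im, t)
= H (pt (-r₁) B.re B.im, t)` (`H_per`), and `-(√/ε) / conj ξ = r exp (2πi t)` (`1 / conj ξ =
r₁ exp (i arg ξ)`), `P_t (r • sp (-1) ν) = (-r₁, r₁ g ν)`.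
`CP0_ld`: `CP0 = S.j ∘ (sp, v)`, with `(p, ν) ↦ (sp 1 ν, -(√(1+|ν|²)/ε) ξ p)` a local diffeomorphism
at `(-1, ν)`: triangular, with `sp_ld` and `xi_ld`.  `j_loc` at `(sp 1 ν, 0)`.
-/

open scoped Manifold ContDiff Topology
open Complex (I)
open Set Filter

namespace Pool.Agent.CSG

section
variable {E F E' F' : Type*} [NormedAddCommGroup E] [NormedSpace ℝ E] [NormedAddCommGroup F]
  [NormedSpace ℝ F] [NormedAddCommGroup E'] [NormedSpace ℝ E'] [NormedAddCommGroup F']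
  [NormedSpace ℝ F'] {H₁ H₂ H₁' H₂' : Type*} [TopologicalSpace H₁] [TopologicalSpace H₂]
  [TopologicalSpace H₁'] [TopologicalSpace H₂']
  {I₁ : ModelWithCorners ℝ E H₁} {J₁ : ModelWithCorners ℝ F H₂}
  {I₂ : ModelWithCorners ℝ E' H₁'} {J₂ : ModelWithCorners ℝ F' H₂'}
  {M N M' N' : Type*} [TopologicalSpace M] [TopologicalSpace N] [TopologicalSpace M']
  [TopologicalSpace N'] [ChartedSpace H₁ M] [ChartedSpace H₂ N] [ChartedSpace H₁' M']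
  [ChartedSpace H₂' N']

/-- product of local diffeomorphisms -/
theorem ChC_prod {f : M → N} {g : M' → N'} {x : M} {y : M'}
    (hf : IsLocalDiffeomorphAt I₁ J₁ ∞ f x) (hg : IsLocalDiffeomorphAt I₂ J₂ ∞ g y) :
    IsLocalDiffeomorphAt (I₁.prod I₂) (J₁.prod J₂) ∞ (Prod.map f g) (x, y) := by
  obtain ⟨Φ, hx, hΦ⟩ := hf
  obtain ⟨Ψ, hy, hΨ⟩ := hg
  refine ⟨{ toPartialEquiv := Φ.toPartialEquiv.prod Ψ.toPartialEquiv
            open_source := Φ.open_source.prod Ψ.open_source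
            open_target := Φ.open_target.prod Ψ.open_target
            contMDiffOn_toFun := Φ.contMDiffOn_toFun.prodMap Ψ.contMDiffOn_toFun
            contMDiffOn_invFun := Φ.contMDiffOn_invFun.prodMap Ψ.contMDiffOn_invFun },
    ⟨hx, hy⟩, ?_⟩
  rintro ⟨a, b⟩ ⟨ha, hb⟩
  exact Prod.ext (hΦ ha) (hΨ hb)

theorem ChC_prodV {f : E → F} {g : E' → F'} {x : E} {y : E'}
    (hf : IsLocalDiffeomorphAt 𝓘(ℝ, E) 𝓘(ℝ, F) ∞ f x)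
    (hg : IsLocalDiffeomorphAt 𝓘(ℝ, E') 𝓘(ℝ, F') ∞ g y) :
    IsLocalDiffeomorphAt 𝓘(ℝ, E × E') 𝓘(ℝ, F × F') ∞ (Prod.map f g) (x, y) := by
  rw [modelWithCornersSelf_prod, modelWithCornersSelf_prod, ← chartedSpaceSelf_prod,
    ← chartedSpaceSelf_prod]
  exact ChC_prod hf hg

theorem ChC_prodS {f : E → N} {g : E' → N'} {x : E} {y : E'}
    (hf : IsLocalDiffeomorphAt 𝓘(ℝ, E) J₁ ∞ f x)
    (hg : IsLocalDiffeomorphAt 𝓘(ℝ, E') J₂ ∞ g y) :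
    IsLocalDiffeomorphAt 𝓘(ℝ, E × E') (J₁.prod J₂) ∞ (Prod.map f g) (x, y) := by
  rw [modelWithCornersSelf_prod, ← chartedSpaceSelf_prod]
  exact ChC_prod hf hg

end

theorem ChC_notLat {y u n : ℝ} (h1 : 0 < y) (h2 : y < 1) : ¬ IsLat (pt y u n) := by
  rw [isLat_pt]
  rintro ⟨⟨m, hm⟩, -⟩
  have h3 : (0 : ℝ) < (m : ℝ) := hm ▸ h1
  have h4 : (m : ℝ) < 1 := hm ▸ h2
  have h5 : 0 < m := by exact_mod_cast h3
  have h6 : m < 1 := by exact_mod_cast h4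
  omega

theorem ChC_R_pos (ν : ℂ) : 0 < Real.sqrt (1 + ‖ν‖ ^ 2) := Real.sqrt_pos.2 (by positivity)

/-- the fibre map of the caps -/
noncomputable def ChC_eqv {ε : ℝ} (hε : 0 < ε) : (ℂ × ℂ) ≃ (ℂ × ℂ) where
  toFun a := (a.2, (-(Real.sqrt (1 + ‖a.2‖ ^ 2) / ε) : ℝ) * a.1)
  invFun b := ((-(ε / Real.sqrt (1 + ‖b.1‖ ^ 2)) : ℝ) * b.2, b.1)
  left_inv a := by
    have h1 := (ChC_R_pos a.2).ne'
    refine Prod.ext ?_ rfl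
    simp only
    rw [← mul_assoc, ← Complex.ofReal_mul]
    have : -(ε / Real.sqrt (1 + ‖a.2‖ ^ 2)) * -(Real.sqrt (1 + ‖a.2‖ ^ 2) / ε) = 1 := by
      field_simp
    rw [this, Complex.ofReal_one, one_mul]
  right_inv b := by
    have h1 := (ChC_R_pos b.1).ne'
    refine Prod.ext rfl ?_
    simp only
    rw [← mul_assoc, ← Complex.ofReal_mul]
    have : -(Real.sqrt (1 + ‖b.1‖ ^ 2) / ε) * -(ε / Real.sqrt (1 + ‖b.1‖ ^ 2)) = 1 := by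
      field_simp
    rw [this, Complex.ofReal_one, one_mul]

theorem ChC_sqrt_smooth : ContDiff ℝ ∞ fun ν : ℂ => Real.sqrt (1 + ‖ν‖ ^ 2) := by
  refine ContDiff.sqrt ?_ fun ν => ?_
  · exact contDiff_const.add (contDiff_norm_sq ℝ)
  · positivity

theorem ChC_eqv_ld {ε : ℝ} (hε : 0 < ε) (a : ℂ × ℂ) :
    IsLocalDiffeomorphAt 𝓘(ℝ, ℂ × ℂ) 𝓘(ℝ, ℂ × ℂ) ∞ (ChC_eqv hε) a := by
  refine ld_of_perm (f := ChC_eqv hε) ?_ ?_ a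
  · refine ContDiff.prodMk contDiff_snd (ContDiff.mul ?_ contDiff_fst)
    exact Complex.ofRealCLM.contDiff.comp
      (((ChC_sqrt_smooth.comp contDiff_snd).div_const ε).neg)
  · refine ContDiff.prodMk (ContDiff.mul ?_ contDiff_snd) contDiff_fst
    refine Complex.ofRealCLM.contDiff.comp (ContDiff.neg ?_)
    exact contDiff_const.div (ChC_sqrt_smooth.comp contDiff_fst) fun b => (ChC_R_pos b.1).ne'

section
variable {X : Type*} [TopologicalSpace X] [ChartedSpace E4 X] {φ κ : Equiv.Perm E3}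
  {δ ε : ℝ} {k : ℤ}

/-- the gluing formula -/
theorem ChC_glue {S : Surg φ X} (N : Nrm S κ δ ε k) {σ : ℝ} (hσ : σ ≠ 0) (hσ1 : σ ^ 2 = 1) {r₁ t : ℝ}
    (ν : ℂ) (h0 : 0 < r₁) (h2 : Real.sqrt (1 + ‖ν‖ ^ 2) * r₁ < ε) (ht : 0 < t) (ht' : t ≤ 1) :
    S.j (sp σ hσ ν, ((Real.sqrt (1 + ‖ν‖ ^ 2) * r₁ / ε : ℝ) : ℂ) *
      Complex.exp (2 * Real.pi * t * Complex.I)) =
    S.H (pt (σ * r₁) ((r₁ : ℂ) * gfr k t * ν).re ((r₁ : ℂ) * gfr k t * ν).im, t) := by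
  have hR := ChC_R_pos ν
  have hε := N.εpos
  have hr : 0 < Real.sqrt (1 + ‖ν‖ ^ 2) * r₁ / ε := by positivity
  have hr' : Real.sqrt (1 + ‖ν‖ ^ 2) * r₁ / ε < 1 := by
    rw [div_lt_one hε]
    exact h2
  rw [S.glue t _ _ (by linarith) (by linarith) hr hr', N.P_eq t _ (by linarith) (by linarith),
    sp_coe hσ hσ1, smul_smul]
  have h3 : Real.sqrt (1 + ‖ν‖ ^ 2) * r₁ / ε * (Real.sqrt (1 + ‖ν‖ ^ 2))⁻¹ = r₁ / ε := by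
    field_simp
  rw [h3]
  congr 2
  have h4 : ε * (r₁ / ε) = r₁ := by field_simp
  ext i
  fin_cases i
  · simp only [cmul]
    simp
    field_simp
  · simp only [cmul]
    simp
    field_simp
  · simp only [cmul]
    simp
    field_simp

theorem ChC_exp (p : ℂ) :
    Complex.exp (2 * Real.pi * (pm p : ℝ) * Complex.I) =
      -Complex.exp ((Complex.arg (xi p) : ℂ) * I) := by
  have hpi : (Real.pi : ℂ) ≠ 0 := by exact_mod_cast Real.pi_ne_zero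
  have h1 : (2 * Real.pi * (pm p : ℝ) * Complex.I : ℂ) =
      Real.pi * I + (Complex.arg (xi p) : ℂ) * I := by
    unfold pm
    push_cast
    field_simp
  rw [h1, Complex.exp_add, Complex.exp_pi_mul_I]
  ring

theorem GR_eq_CP0 {S : Surg φ X} (N : Nrm S κ δ ε k) {p ν : ℂ} (h : p ≠ -1) (h' : p ≠ 1)
    (h1 : ‖xi p‖ ≤ 1 / 10) (h2 : Real.sqrt (1 + ‖ν‖ ^ 2) * ‖xi p‖ < ε) :
    GR S k p ν = CP0 S ε p ν := by
  have hx := xi_ne_zero h h'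
  have hr : 0 < ‖xi p‖ := norm_pos_iff.2 hx
  obtain ⟨ht, ht'⟩ := pm_mem p
  have hy : py p = ‖xi p‖ := nf_small (by linarith)
  have hw : wd (py p) = ‖xi p‖ := by
    rw [hy]
    exact wd_small h1
  have e1 : GR S k p ν = S.H (pt ‖xi p‖ ((‖xi p‖ : ℂ) * gfr k (pm p) * ν).re
      ((‖xi p‖ : ℂ) * gfr k (pm p) * ν).im, pm p) := by
    unfold GR
    rw [hw, hy]
    apply KK_side S (ChC_notLat hr (by linarith))
    left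
    simp only [pt_zero']
    rw [Int.fract_eq_self.2 ⟨hr.le, by linarith⟩]
    linarith
  have e2 := ChC_glue N one_ne_zero (by norm_num) ν hr h2 ht ht'
  rw [one_mul] at e2
  rw [e1, ← e2]
  unfold CP0
  congr 2
  rw [ChC_exp]
  have h3 := Complex.norm_mul_exp_arg_mul_I (xi p)
  conv_rhs => rw [← h3]
  push_cast
  ring

theorem GR_eq_CP1 {S : Surg φ X} (N : Nrm S κ δ ε k) {p ν : ℂ} (h : p ≠ -1) (h' : p ≠ 1)
    (h1 : ‖xi p‖⁻¹ ≤ 1 / 10) (h2 : Real.sqrt (1 + ‖ν‖ ^ 2) * ‖xi p‖⁻¹ < ε) :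
    GR S k p ν = CP1 S ε p ν := by
  have hx := xi_ne_zero h h'
  have hr0 : 0 < ‖xi p‖ := norm_pos_iff.2 hx
  have hr : 0 < ‖xi p‖⁻¹ := inv_pos.2 hr0
  obtain ⟨ht, ht'⟩ := pm_mem p
  have h10 : 10 ≤ ‖xi p‖ := by
    have := inv_anti₀ hr h1
    rw [inv_inv] at this
    linarith
  have hy : py p = 1 - ‖xi p‖⁻¹ := by
    rw [← one_div]
    exact nf_large (by linarith)
  have hw : wd (py p) = ‖xi p‖⁻¹ := by
    rw [hy, wd_large (by linarith)]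
    ring
  have e1 : GR S k p ν = S.H (pt (1 - ‖xi p‖⁻¹) (((‖xi p‖⁻¹ : ℝ) : ℂ) * gfr k (pm p) * ν).re
      (((‖xi p‖⁻¹ : ℝ) : ℂ) * gfr k (pm p) * ν).im, pm p) := by
    unfold GR
    rw [hw, hy]
    apply KK_side S (ChC_notLat (by linarith) (by linarith))
    right
    simp only [pt_zero']
    rw [Int.fract_eq_self.2 ⟨by linarith, by linarith⟩]
    linarith
  have hlat : ¬ IsLat (pt (-1 * ‖xi p‖⁻¹) (((‖xi p‖⁻¹ : ℝ) : ℂ) * gfr k (pm p) * ν).re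
      (((‖xi p‖⁻¹ : ℝ) : ℂ) * gfr k (pm p) * ν).im) := by
    rw [isLat_pt]
    rintro ⟨⟨m, hm⟩, -⟩
    have h3 : (m : ℝ) < 0 := by rw [← hm]; linarith
    have h4 : (-1 : ℝ) < (m : ℝ) := by rw [← hm]; linarith
    have h5 : m < 0 := by exact_mod_cast h3
    have h6 : -1 < m := by exact_mod_cast h4
    omega
  have e3 : S.H (pt (1 - ‖xi p‖⁻¹) (((‖xi p‖⁻¹ : ℝ) : ℂ) * gfr k (pm p) * ν).re
      (((‖xi p‖⁻¹ : ℝ) : ℂ) * gfr k (pm p) * ν).im, pm p) =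
      S.H (pt (-1 * ‖xi p‖⁻¹) (((‖xi p‖⁻¹ : ℝ) : ℂ) * gfr k (pm p) * ν).re
      (((‖xi p‖⁻¹ : ℝ) : ℂ) * gfr k (pm p) * ν).im, pm p) := by
    rw [← S.H_per _ _ ![1, 0, 0] hlat, pt_add_vec]
    congr 3
    · simp
      ring
    · simp
    · simp
  have e2 := ChC_glue N (σ := -1) (by norm_num) (by norm_num) ν hr h2 ht ht'
  rw [e1, e3, ← e2]
  unfold CP1
  congr 2
  rw [ChC_exp]
  have h3 := Complex.norm_mul_exp_arg_mul_I (xi p)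
  have h4 : ((starRingEnd ℂ) (xi p))⁻¹ =
      ((‖xi p‖⁻¹ : ℝ) : ℂ) * Complex.exp ((Complex.arg (xi p) : ℂ) * I) := by
    conv_lhs => rw [← h3]
    rw [map_mul, Complex.conj_ofReal, ← Complex.exp_conj, map_mul, Complex.conj_ofReal,
      Complex.conj_I, mul_inv, ← Complex.exp_neg, Complex.ofReal_inv]
    congr 2
    ring
  rw [h4]
  push_cast
  ring

theorem CP0_ld {S : Surg φ X} (N : Nrm S κ δ ε k) (ν : ℂ) :
    IsLocalDiffeomorphAt 𝓘(ℝ, ℂ × ℂ) (𝓡 4) ∞ (fun a : ℂ × ℂ => CP0 S ε a.1 a.2) (-1, ν) := by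
  have hne : (-1 : ℂ) ≠ 1 := by norm_num
  have hxi : xi (-1) = 0 := by simp [xi]
  have e1 : IsLocalDiffeomorphAt 𝓘(ℝ, ℂ × ℂ) 𝓘(ℝ, ℂ × ℂ) ∞
      (Prod.map xi (id : ℂ → ℂ)) (-1, ν) := ChC_prodV (xi_ld hne) (ld_id ν)
  have e2 := e1.comp (K := 𝓘(ℝ, ℂ × ℂ)) (P := ℂ × ℂ) (ChC_eqv_ld N.εpos _)
  have e3 : IsLocalDiffeomorphAt 𝓘(ℝ, ℂ × ℂ) ((𝓡 2).prod 𝓘(ℝ, ℂ)) ∞
      (Prod.map (sp 1 one_ne_zero) (id : ℂ → ℂ))
      ((ChC_eqv N.εpos ∘ Prod.map xi (id : ℂ → ℂ)) (-1, ν)) :=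
    ChC_prodS (sp_ld one_ne_zero _) (ld_id _)
  have e4 := e2.comp (K := (𝓡 2).prod 𝓘(ℝ, ℂ)) (P := S2 × ℂ) e3
  have e5 : IsLocalDiffeomorphAt ((𝓡 2).prod 𝓘(ℝ, ℂ)) (𝓡 4) ∞ S.j
      ((Prod.map (sp 1 one_ne_zero) (id : ℂ → ℂ) ∘ ChC_eqv N.εpos ∘ Prod.map xi (id : ℂ → ℂ))
        (-1, ν)) := by
    refine S.j_loc _ _ ?_
    simp [ChC_eqv, hxi]
  exact e4.comp (K := 𝓡 4) (P := X) e5

theorem CP1_ld {S : Surg φ X} (N : Nrm S κ δ ε k) (ν : ℂ) :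
    IsLocalDiffeomorphAt 𝓘(ℝ, ℂ × ℂ) (𝓡 4) ∞ (fun a : ℂ × ℂ => CP1 S ε a.1 a.2) (1, ν) := by
  have hne : (1 : ℂ) ≠ -1 := by norm_num
  have hne' : (-1 : ℝ) ≠ 0 := by norm_num
  have hxi : xi 1 = 0 := by simp [xi]
  have e1 : IsLocalDiffeomorphAt 𝓘(ℝ, ℂ × ℂ) 𝓘(ℝ, ℂ × ℂ) ∞
      (Prod.map (fun p => ((starRingEnd ℂ) (xi p))⁻¹) (id : ℂ → ℂ)) (1, ν) :=
    ChC_prodV (xi_inv_ld hne) (ld_id ν)
  have e2 := e1.comp (K := 𝓘(ℝ, ℂ × ℂ)) (P := ℂ × ℂ) (ChC_eqv_ld N.εpos _)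
  have e3 : IsLocalDiffeomorphAt 𝓘(ℝ, ℂ × ℂ) ((𝓡 2).prod 𝓘(ℝ, ℂ)) ∞
      (Prod.map (sp (-1) hne') (id : ℂ → ℂ))
      ((ChC_eqv N.εpos ∘ Prod.map (fun p => ((starRingEnd ℂ) (xi p))⁻¹) (id : ℂ → ℂ)) (1, ν)) :=
    ChC_prodS (sp_ld hne' _) (ld_id _)
  have e4 := e2.comp (K := (𝓡 2).prod 𝓘(ℝ, ℂ)) (P := S2 × ℂ) e3
  have e5 : IsLocalDiffeomorphAt ((𝓡 2).prod 𝓘(ℝ, ℂ)) (𝓡 4) ∞ S.j
      ((Prod.map (sp (-1) hne') (id : ℂ → ℂ) ∘ ChC_eqv N.εpos ∘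
        Prod.map (fun p => ((starRingEnd ℂ) (xi p))⁻¹) (id : ℂ → ℂ)) (1, ν)) := by
    refine S.j_loc _ _ ?_
    simp [ChC_eqv, hxi]
  exact e4.comp (K := 𝓡 4) (P := X) e5

end

end Pool.Agent.CSG
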