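import Pool.Agent.CSG.XiA
import Pool.Agent.CSG.XiB
import Pool.Agent.CSG.KBas

/-!
# CSG/ChG: the tubular neighbourhood of the disc is a local diffeomorphism off the caps

`GR S k p ν = KK S (pt (py p) B.re B.im) (pm p)`, `B = wd (py p) * gfr k (pm p) * ν`.
* If `pm p ≠ 1`: composition of `KK_loc` with `(p, ν) ↦ (pt (py p) B.re B.im, pm p)`; this is a
  local diffeomorphism: `(p, ν) ↦ ((py p, pm p), ν)` is one by `pypm_ld`, and for fixed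
  `(y, t)`, `0 < y < 1`, `ν ↦ wd y * gfr k t * ν` is an invertible linear map (smooth inverse
  `B ↦ B / (wd y * gfr k t)`).  The point is not in the lattice since `0 < y < 1`, and `NP_p`.
* If `pm p = 1`: near `p` (`pmm_near`) `t' = pmm p'` satisfies `|t'| < 1/8` and `pm p' = t'` or
  `t' + 1`; `gfr k (t' + 1) = gfr k t'`; and `KK S x (t' + 1) = KK S (κ x) t' = KK S x t'` because
  `|x 1|, |x 2| ≤ |B| ≤ |ν|/5 < δ` (`KK_mon`, `axis`).  So near `(p, ν)`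
  `GR S k p' ν' = KK S (pt (py p') B.re B.im) (pmm p')`, which is a local diffeomorphism by
  `pypmm_ld`.  (`NP`: `|t'| < 1/8`.)
-/

open scoped Manifold ContDiff Topology
open Complex (I)
open Set Filter

namespace Pool.Agent.CSG

section
variable {E F E' F' : Type*} [NormedAddCommGroup E] [NormedSpace ℝ E] [NormedAddCommGroup F]
  [NormedSpace ℝ F] [NormedAddCommGroup E'] [NormedSpace ℝ E'] [NormedAddCommGroup F']
  [NormedSpace ℝ F'] {H₁ H₂ H₁' H₂' : Type*} [TopologicalSpace H₁] [TopologicalSpace H₂]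
  [TopologicalSpace H₁'] [TopologicalSpace H₂']
  {I₁ : ModelWithCorners ℝ E H₁} {J₁ : ModelWithCorners ℝ F H₂}
  {I₂ : ModelWithCorners ℝ E' H₁'} {J₂ : ModelWithCorners ℝ F' H₂'}
  {M N M' N' : Type*} [TopologicalSpace M] [TopologicalSpace N] [TopologicalSpace M']
  [TopologicalSpace N'] [ChartedSpace H₁ M] [ChartedSpace H₂ N] [ChartedSpace H₁' M']
  [ChartedSpace H₂' N']

/-- product of local diffeomorphisms -/
theorem ChG_prod {f : M → N} {g : M' → N'} {x : M} {y : M'}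
    (hf : IsLocalDiffeomorphAt I₁ J₁ ∞ f x) (hg : IsLocalDiffeomorphAt I₂ J₂ ∞ g y) :
    IsLocalDiffeomorphAt (I₁.prod I₂) (J₁.prod J₂) ∞ (Prod.map f g) (x, y) := by
  obtain ⟨Φ, hx, hΦ⟩ := hf
  obtain ⟨Ψ, hy, hΨ⟩ := hg
  refine ⟨{ toPartialEquiv := Φ.toPartialEquiv.prod Ψ.toPartialEquiv
            open_source := Φ.open_source.prod Ψ.open_source
            open_target := Φ.open_target.prod Ψ.open_target
            contMDiffOn_toFun := Φ.contMDiffOn_toFun.prodMap Ψ.contMDiffOn_toFun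
            contMDiffOn_invFun := Φ.contMDiffOn_invFun.prodMap Ψ.contMDiffOn_invFun },
    ⟨hx, hy⟩, ?_⟩
  rintro ⟨a, b⟩ ⟨ha, hb⟩
  exact Prod.ext (hΦ ha) (hΨ hb)

theorem ChG_prodV {f : E → F} {g : E' → F'} {x : E} {y : E'}
    (hf : IsLocalDiffeomorphAt 𝓘(ℝ, E) 𝓘(ℝ, F) ∞ f x)
    (hg : IsLocalDiffeomorphAt 𝓘(ℝ, E') 𝓘(ℝ, F') ∞ g y) :
    IsLocalDiffeomorphAt 𝓘(ℝ, E × E') 𝓘(ℝ, F × F') ∞ (Prod.map f g) (x, y) := by
  rw [modelWithCornersSelf_prod, modelWithCornersSelf_prod, ← chartedSpaceSelf_prod,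
    ← chartedSpaceSelf_prod]
  exact ChG_prod hf hg

/-- local diffeomorphism from an explicit inverse -/
theorem ChG_ld_of_inv {f : E → F} {g : F → E} {U : Set E} {U' : Set F} (hU : IsOpen U)
    (hU' : IsOpen U') (hf : ContDiffOn ℝ ∞ f U) (hg : ContDiffOn ℝ ∞ g U') (hm : MapsTo f U U')
    (hm' : MapsTo g U' U) (hl : ∀ x ∈ U, g (f x) = x) (hr : ∀ y ∈ U', f (g y) = y) {x : E}
    (hx : x ∈ U) : IsLocalDiffeomorphAt 𝓘(ℝ, E) 𝓘(ℝ, F) ∞ f x :=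
  ⟨{ toFun := f
     invFun := g
     source := U
     target := U'
     map_source' := fun _ h => hm h
     map_target' := fun _ h => hm' h
     left_inv' := fun _ h => hl _ h
     right_inv' := fun _ h => hr _ h
     open_source := hU
     open_target := hU'
     contMDiffOn_toFun := contMDiffOn_iff_contDiffOn.2 hf
     contMDiffOn_invFun := contMDiffOn_iff_contDiffOn.2 hg }, hx, fun _ _ => rfl⟩

theorem ChG_pt {f g h : E → ℝ} {U : Set E} (hf : ContDiffOn ℝ ∞ f U) (hg : ContDiffOn ℝ ∞ g U)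
    (hh : ContDiffOn ℝ ∞ h U) : ContDiffOn ℝ ∞ (fun a => pt (f a) (g a) (h a)) U := by
  rw [contDiffOn_euclidean]
  intro i
  fin_cases i
  · simpa using hf
  · simpa using hg
  · simpa using hh

end

/-- the fibre coordinates -/
noncomputable def ChG_B (k : ℤ) (a : (ℝ × ℝ) × ℂ) : E3 × ℝ :=
  (pt a.1.1 ((wd a.1.1 : ℂ) * gfr k a.1.2 * a.2).re ((wd a.1.1 : ℂ) * gfr k a.1.2 * a.2).im, a.1.2)

noncomputable def ChG_B' (k : ℤ) (b : E3 × ℝ) : (ℝ × ℝ) × ℂ :=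
  ((b.1 0, b.2), ((b.1 1 : ℂ) + (b.1 2 : ℂ) * I) / ((wd (b.1 0) : ℂ) * gfr k b.2))

theorem ChG_B_ld (k : ℤ) {a : (ℝ × ℝ) × ℂ} (ha : wd a.1.1 ≠ 0) :
    IsLocalDiffeomorphAt 𝓘(ℝ, (ℝ × ℝ) × ℂ) 𝓘(ℝ, E3 × ℝ) ∞ (ChG_B k) a := by
  have hid : ContDiff ℝ ∞ (id : E3 → E3) := contDiff_id
  have hco : ∀ i : Fin 3, ContDiff ℝ ∞ fun b : E3 × ℝ => b.1 i := fun i =>
    (contDiff_euclidean.1 hid i).comp contDiff_fst
  have hg : ∀ t, gfr k t ≠ 0 := fun t h => by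
    have := gfr_norm k t
    rw [h, norm_zero] at this
    exact zero_ne_one this
  have hw : ContDiff ℝ ∞ fun a : (ℝ × ℝ) × ℂ => (wd a.1.1 : ℂ) * gfr k a.1.2 * a.2 := by
    have h1 : ContDiff ℝ ∞ fun a : (ℝ × ℝ) × ℂ => (wd a.1.1 : ℂ) :=
      Complex.ofRealCLM.contDiff.comp (wd_smooth.comp (contDiff_fst.comp contDiff_fst))
    have h2 : ContDiff ℝ ∞ fun a : (ℝ × ℝ) × ℂ => gfr k a.1.2 :=
      (gfr_smooth k).comp (contDiff_snd.comp contDiff_fst)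
    exact (h1.mul h2).mul contDiff_snd
  refine ChG_ld_of_inv (g := ChG_B' k) (U := {a | wd a.1.1 ≠ 0}) (U' := {b | wd (b.1 0) ≠ 0})
    ?_ ?_ ?_ ?_ ?_ ?_ ?_ ?_ ha
  · exact isOpen_ne_fun (wd_smooth.continuous.comp (continuous_fst.comp continuous_fst))
      continuous_const
  · exact isOpen_ne_fun (wd_smooth.continuous.comp (hco 0).continuous) continuous_const
  · refine ContDiffOn.prodMk (ChG_pt ?_ ?_ ?_) ?_
    · exact (contDiff_fst.comp (g := Prod.fst) (f := Prod.fst) contDiff_fst).contDiffOn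
    · exact (Complex.reCLM.contDiff.comp hw).contDiffOn
    · exact (Complex.imCLM.contDiff.comp hw).contDiffOn
    · exact (contDiff_snd.comp contDiff_fst).contDiffOn
  · refine ContDiffOn.prodMk (((hco 0).prodMk (contDiff_snd (E := E3) (F := ℝ))).contDiffOn) ?_
    simp only [div_eq_mul_inv]
    refine ContDiffOn.mul ?_ (ContDiffOn.inv ?_ ?_)
    · exact ((Complex.ofRealCLM.contDiff.comp (hco 1)).add
        ((Complex.ofRealCLM.contDiff.comp (hco 2)).mul contDiff_const)).contDiffOn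
    · exact ((Complex.ofRealCLM.contDiff.comp (wd_smooth.comp (hco 0))).mul
        ((gfr_smooth k).comp contDiff_snd)).contDiffOn
    · intro b hb
      exact mul_ne_zero (Complex.ofReal_ne_zero.2 hb) (hg _)
  · intro a ha
    simpa [ChG_B] using ha
  · intro b hb
    simpa [ChG_B'] using hb
  · rintro ⟨⟨y, t⟩, ν⟩ ha
    have h1 : (wd y : ℂ) * gfr k t ≠ 0 := mul_ne_zero (Complex.ofReal_ne_zero.2 ha) (hg _)
    simp only [ChG_B, ChG_B', pt_zero', pt_one', pt_two']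
    refine Prod.ext rfl ?_
    simp only
    rw [Complex.re_add_im, mul_div_cancel_left₀ _ h1]
  · rintro ⟨x, t⟩ hb
    have h1 : (wd (x 0) : ℂ) * gfr k t ≠ 0 := mul_ne_zero (Complex.ofReal_ne_zero.2 hb) (hg _)
    simp only [ChG_B, ChG_B']
    refine Prod.ext ?_ rfl
    simp only
    rw [mul_div_cancel₀ _ h1]
    conv_rhs => rw [← pt_eta x]
    simp

section
variable {X : Type*} [TopologicalSpace X] [ChartedSpace E4 X] {φ κ : Equiv.Perm E3}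
  {δ ε : ℝ} {k : ℤ}

/-- `|B| ≤ |ν| / 5` -/
theorem B_le {p : ℂ} (h : p ≠ -1) (h' : p ≠ 1) (k : ℤ) (ν : ℂ) :
    ‖(wd (py p) : ℂ) * gfr k (pm p) * ν‖ ≤ ‖ν‖ / 5 := by
  obtain ⟨h1, h2⟩ := py_mem h h'
  rw [norm_mul, norm_mul, gfr_norm, Complex.norm_real, Real.norm_of_nonneg (wd_pos h1 h2).le]
  have := wd_le h1 h2
  have h3 := norm_nonneg ν
  nlinarith

theorem ChG_notLat {y u n : ℝ} (h1 : 0 < y) (h2 : y < 1) : ¬ IsLat (pt y u n) := by
  rw [isLat_pt]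
  rintro ⟨⟨m, hm⟩, -⟩
  have h3 : (0 : ℝ) < (m : ℝ) := hm ▸ h1
  have h4 : (m : ℝ) < 1 := hm ▸ h2
  have h5 : 0 < m := by exact_mod_cast h3
  have h6 : m < 1 := by exact_mod_cast h4
  omega

theorem GR_ld {S : Surg φ X} (N : Nrm S κ δ ε k) {p ν : ℂ} (h : p ≠ -1) (h' : p ≠ 1)
    (hν : ‖ν‖ < δ) :
    IsLocalDiffeomorphAt 𝓘(ℝ, ℂ × ℂ) (𝓡 4) ∞ (fun a : ℂ × ℂ => GR S k a.1 a.2) (p, ν) := by
  obtain ⟨hy1, hy2⟩ := py_mem h h'
  have hwd := (wd_pos hy1 hy2).ne'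
  by_cases h1 : pm p = 1
  · have hnear := pmm_near h h' h1
    have e1 : IsLocalDiffeomorphAt 𝓘(ℝ, ℂ × ℂ) 𝓘(ℝ, (ℝ × ℝ) × ℂ) ∞
        (Prod.map (fun p => (py p, pmm p)) (id : ℂ → ℂ)) (p, ν) :=
      ChG_prodV (pypmm_ld h h' h1) (ld_id ν)
    have e2 : IsLocalDiffeomorphAt 𝓘(ℝ, (ℝ × ℝ) × ℂ) 𝓘(ℝ, E3 × ℝ) ∞ (ChG_B k)
        (Prod.map (fun p => (py p, pmm p)) (id : ℂ → ℂ) (p, ν)) := ChG_B_ld k hwd
    have e3 : IsLocalDiffeomorphAt 𝓘(ℝ, E3 × ℝ) (𝓡 4) ∞ (fun q : E3 × ℝ => KK S q.1 q.2)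
        (ChG_B k (Prod.map (fun p => (py p, pmm p)) (id : ℂ → ℂ) (p, ν))) := by
      refine KK_loc S (ChG_notLat hy1 hy2) ?_
      rintro ⟨h2, -⟩
      have h3 := (abs_lt.1 hnear.self_of_nhds.1).2
      have h4 : pmm p = 1 / 2 := h2
      rw [h4] at h3
      norm_num at h3
    have e4 := (e1.comp (K := 𝓘(ℝ, E3 × ℝ)) (P := E3 × ℝ) e2).comp (K := 𝓡 4) (P := X) e3
    refine ld_congr e4 ?_
    have hν' : ∀ᶠ a : ℂ × ℂ in 𝓝 (p, ν), ‖a.2‖ < δ :=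
      (continuous_snd.norm).continuousAt.eventually_lt continuousAt_const hν
    have hp1 : ∀ᶠ a : ℂ × ℂ in 𝓝 (p, ν), a.1 ≠ -1 :=
      (continuous_fst (X := ℂ) (Y := ℂ)).continuousAt.eventually_ne h
    have hp2 : ∀ᶠ a : ℂ × ℂ in 𝓝 (p, ν), a.1 ≠ 1 :=
      (continuous_fst (X := ℂ) (Y := ℂ)).continuousAt.eventually_ne h'
    have hnear' : ∀ᶠ a : ℂ × ℂ in 𝓝 (p, ν), |pmm a.1| < 1 / 8 ∧
        (pm a.1 = pmm a.1 ∨ pm a.1 = pmm a.1 + 1) :=
      (((continuous_fst (X := ℂ) (Y := ℂ)).tendsto (p, ν)).eventually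
        (p := fun p' => |pmm p'| < 1 / 8 ∧ (pm p' = pmm p' ∨ pm p' = pmm p' + 1)) hnear)
    filter_upwards [hν', hp1, hp2, hnear'] with a ha1 ha2 ha3 ha4
    obtain ⟨ha4, ha5 | ha5⟩ := ha4
    · simp only [Function.comp, Prod.map, ChG_B, GR, ha5, id]
    · obtain ⟨hz1, hz2⟩ := py_mem ha2 ha3
      have h5 := B_le ha2 ha3 k a.2
      simp only [Function.comp, Prod.map, ChG_B, GR, id]
      rw [ha5, gfr_add_one] at h5
      rw [ha5, gfr_add_one]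
      have h6 : ‖a.2‖ / 5 < δ := by
        have := norm_nonneg a.2
        linarith
      have h7 := Complex.abs_re_le_norm ((wd (py a.1) : ℂ) * gfr k (pmm a.1) * a.2)
      have h8 := Complex.abs_im_le_norm ((wd (py a.1) : ℂ) * gfr k (pmm a.1) * a.2)
      have h9 := abs_lt.1 ha4
      rw [← KK_mon N (ChG_notLat hz1 hz2) (by linarith [h9.1]) (by linarith [h9.2]), N.axis]
      · simp only [pt_one']
        linarith
      · simp only [pt_two']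
        linarith
  · have e1 : IsLocalDiffeomorphAt 𝓘(ℝ, ℂ × ℂ) 𝓘(ℝ, (ℝ × ℝ) × ℂ) ∞
        (Prod.map (fun p => (py p, pm p)) (id : ℂ → ℂ)) (p, ν) :=
      ChG_prodV (pypm_ld h h' h1) (ld_id ν)
    have e2 : IsLocalDiffeomorphAt 𝓘(ℝ, (ℝ × ℝ) × ℂ) 𝓘(ℝ, E3 × ℝ) ∞ (ChG_B k)
        (Prod.map (fun p => (py p, pm p)) (id : ℂ → ℂ) (p, ν)) := ChG_B_ld k hwd
    have e3 : IsLocalDiffeomorphAt 𝓘(ℝ, E3 × ℝ) (𝓡 4) ∞ (fun q : E3 × ℝ => KK S q.1 q.2)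
        (ChG_B k (Prod.map (fun p => (py p, pm p)) (id : ℂ → ℂ) (p, ν))) := by
      refine KK_loc S (ChG_notLat hy1 hy2) ?_
      exact NP_p h h'
    exact (e1.comp (K := 𝓘(ℝ, E3 × ℝ)) (P := E3 × ℝ) e2).comp (K := 𝓡 4) (P := X) e3

end

end Pool.Agent.CSG
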