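import Pool.Agent.CSG.ChG
import Pool.Agent.CSG.ChC

/-!
# CSG/ChI: the tubular neighbourhood of the disc

`EE_ld`: at `p ≠ ±1` this is `GR_ld`; at `p = -1` the function `EE` agrees with `CP0` near `(-1, ν)`
(`GR_eq_CP0`, `xi` is continuous at `-1` with value `0`), similarly at `p = 1` (`(xi p)⁻¹ → 0`).
`EE_inj`: two caps: `j_inj` (`EE S ε k (-1) ν = j (sp 1 ν, 0)`), `sp_inj`, `sp_ne`; a cap and a
non-cap: `disj` (`KK S x t` is `H (x', t)` with `x'` not in the lattice); two non-caps: `KK_inj`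
gives the same `t` and `y - y'` integer, hence `y = y'` (both in `(0,1)`), `p = p'` (`py_pm_inj`),
then `B - B'` has integer coordinates and `|B|, |B'| ≤ 1/5`, so `B = B'` and `ν = ν'` (`wd > 0`).
`EE_notT`: `KK_notT`, `j_notT`.
-/

open scoped Manifold ContDiff Topology
open Complex (I)
open Set Filter

namespace Pool.Agent.CSG

section
variable {X : Type*} [TopologicalSpace X] [ChartedSpace E4 X] {φ κ : Equiv.Perm E3}
  {δ ε : ℝ} {k : ℤ}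

theorem ChI_EE_neg (S : Surg φ X) (ν : ℂ) : EE S ε k (-1) ν = CP0 S ε (-1) ν := by
  simp [EE]

theorem ChI_EE_one (S : Surg φ X) (ν : ℂ) : EE S ε k 1 ν = CP1 S ε 1 ν := by
  unfold EE
  rw [if_neg (by norm_num), if_pos rfl]

theorem ChI_EE_ne (S : Surg φ X) {p : ℂ} (h : p ≠ -1) (h' : p ≠ 1) (ν : ℂ) :
    EE S ε k p ν = GR S k p ν := by
  unfold EE
  rw [if_neg h, if_neg h']

theorem ChI_CP0 (S : Surg φ X) (ν : ℂ) : CP0 S ε (-1) ν = S.j (sp 1 one_ne_zero ν, 0) := by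
  simp [CP0, xi]

theorem ChI_CP1 (S : Surg φ X) (ν : ℂ) : CP1 S ε 1 ν = S.j (sp (-1) (by norm_num) ν, 0) := by
  simp [CP1, xi]

theorem ChI_cont {g : ℂ → ℂ} {p : ℂ} (ν : ℂ) (hg : ContinuousAt g p) :
    ContinuousAt (fun a : ℂ × ℂ => ‖g a.1‖) (p, ν) :=
  (ContinuousAt.comp (f := fun a : ℂ × ℂ => a.1) (g := g) (x := (p, ν)) hg continuousAt_fst).norm

theorem ChI_ev {g : ℂ → ℂ} {p : ℂ} (ν : ℂ) (hg : ContinuousAt g p) (h0 : g p = 0) {ε : ℝ}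
    (hε : 0 < ε) : (∀ᶠ a : ℂ × ℂ in 𝓝 (p, ν), ‖g a.1‖ < 1 / 10) ∧
      ∀ᶠ a : ℂ × ℂ in 𝓝 (p, ν), Real.sqrt (1 + ‖a.2‖ ^ 2) * ‖g a.1‖ < ε := by
  have hx2 := ChI_cont ν hg
  have hR : ContinuousAt (fun a : ℂ × ℂ => Real.sqrt (1 + ‖a.2‖ ^ 2)) (p, ν) := by
    fun_prop
  constructor
  · refine hx2.eventually_lt continuousAt_const ?_
    simp [h0]
  · refine (hR.mul hx2).eventually_lt continuousAt_const ?_
    simp [h0, hε]

theorem EE_ld {S : Surg φ X} (N : Nrm S κ δ ε k) {p ν : ℂ} (hν : ‖ν‖ < δ) :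
    IsLocalDiffeomorphAt 𝓘(ℝ, ℂ × ℂ) (𝓡 4) ∞ (fun a : ℂ × ℂ => EE S ε k a.1 a.2) (p, ν) := by
  by_cases h : p = -1
  · subst h
    refine ld_congr (CP0_ld N ν) ?_
    have hx : ContinuousAt xi (-1) := ld_continuousAt (xi_ld (by norm_num))
    have hx0 : xi (-1) = 0 := by simp [xi]
    obtain ⟨h1, h2⟩ := ChI_ev ν hx hx0 N.εpos
    have h3 : ∀ᶠ a : ℂ × ℂ in 𝓝 (-1, ν), a.1 ≠ 1 :=
      (continuous_fst (X := ℂ) (Y := ℂ)).continuousAt.eventually_ne (by norm_num)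
    filter_upwards [h1, h2, h3] with a ha1 ha2 ha3
    by_cases ha : a.1 = -1
    · simp only [ha]
      exact ChI_EE_neg S a.2
    · rw [ChI_EE_ne S ha ha3, GR_eq_CP0 N ha ha3 ha1.le ha2]
  · by_cases h' : p = 1
    · subst h'
      refine ld_congr (CP1_ld N ν) ?_
      have hx : ContinuousAt (fun p => ((starRingEnd ℂ) (xi p))⁻¹) 1 :=
        ld_continuousAt (xi_inv_ld (by norm_num))
      have hx0 : ((starRingEnd ℂ) (xi 1))⁻¹ = 0 := by simp [xi]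
      obtain ⟨h1, h2⟩ := ChI_ev ν hx hx0 N.εpos
      have h3 : ∀ᶠ a : ℂ × ℂ in 𝓝 (1, ν), a.1 ≠ -1 :=
        (continuous_fst (X := ℂ) (Y := ℂ)).continuousAt.eventually_ne (by norm_num)
      filter_upwards [h1, h2, h3] with a ha1 ha2 ha3
      rw [norm_inv, RCLike.norm_conj] at ha1 ha2
      by_cases ha : a.1 = 1
      · simp only [ha]
        exact ChI_EE_one S a.2
      · rw [ChI_EE_ne S ha3 ha, GR_eq_CP1 N ha3 ha ha1.le ha2]
    · refine ld_congr (GR_ld N h h' hν) ?_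
      have h3 : ∀ᶠ a : ℂ × ℂ in 𝓝 (p, ν), a.1 ≠ -1 :=
        (continuous_fst (X := ℂ) (Y := ℂ)).continuousAt.eventually_ne h
      have h4 : ∀ᶠ a : ℂ × ℂ in 𝓝 (p, ν), a.1 ≠ 1 :=
        (continuous_fst (X := ℂ) (Y := ℂ)).continuousAt.eventually_ne h'
      filter_upwards [h3, h4] with a ha1 ha2
      exact ChI_EE_ne S ha1 ha2 a.2

theorem ChI_GR_H (S : Surg φ X) {p : ℂ} (h : p ≠ -1) (h' : p ≠ 1) (ν : ℂ) :
    ∃ x t, ¬ IsLat x ∧ GR S k p ν = S.H (x, t) := by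
  obtain ⟨h1, h2⟩ := py_mem h h'
  refine ⟨_, _, ?_, rfl⟩
  simp only [pt_zero', pt_two']
  exact ChG_notLat h1 h2

theorem ChI_int {a b : ℝ} {m : ℤ} (h : a = b + m) (h1 : |a - b| < 1) : m = 0 := by
  have h2 : a - b = m := by linarith
  rw [h2] at h1
  have h3 : |m| < 1 := by exact_mod_cast h1
  exact Int.abs_lt_one_iff.1 h3

theorem EE_inj {S : Surg φ X} (N : Nrm S κ δ ε k) {p ν p' ν' : ℂ} (hν : ‖ν‖ < 1) (hν' : ‖ν'‖ < 1)
    (h : EE S ε k p ν = EE S ε k p' ν') : p = p' ∧ ν = ν' := by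
  have hn1 : (-1 : ℝ) ≠ 0 := by norm_num
  have h01 : ‖(0 : ℂ)‖ < 1 := by simp
  by_cases a1 : p = -1
  · subst a1
    rw [ChI_EE_neg, ChI_CP0] at h
    by_cases b1 : p' = -1
    · subst b1
      rw [ChI_EE_neg, ChI_CP0] at h
      exact ⟨rfl, sp_inj _ (S.j_inj _ _ _ _ h01 h01 h).1⟩
    · by_cases b2 : p' = 1
      · subst b2
        rw [ChI_EE_one, ChI_CP1] at h
        exact absurd (S.j_inj _ _ _ _ h01 h01 h).1 sp_ne
      · rw [ChI_EE_ne S b1 b2] at h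
        obtain ⟨x, t, hx, hxt⟩ := ChI_GR_H (k := k) S b1 b2 ν'
        exact absurd (h.trans hxt) (S.disj _ _ _ hx)
  by_cases a2 : p = 1
  · subst a2
    rw [ChI_EE_one, ChI_CP1] at h
    by_cases b1 : p' = -1
    · subst b1
      rw [ChI_EE_neg, ChI_CP0] at h
      exact absurd (S.j_inj _ _ _ _ h01 h01 h).1.symm sp_ne
    · by_cases b2 : p' = 1
      · subst b2
        rw [ChI_EE_one, ChI_CP1] at h
        exact ⟨rfl, sp_inj _ (S.j_inj _ _ _ _ h01 h01 h).1⟩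
      · rw [ChI_EE_ne S b1 b2] at h
        obtain ⟨x, t, hx, hxt⟩ := ChI_GR_H (k := k) S b1 b2 ν'
        exact absurd (h.trans hxt) (S.disj _ _ _ hx)
  rw [ChI_EE_ne S a1 a2] at h
  by_cases b1 : p' = -1
  · subst b1
    rw [ChI_EE_neg, ChI_CP0] at h
    obtain ⟨x, t, hx, hxt⟩ := ChI_GR_H (k := k) S a1 a2 ν
    exact absurd (h.symm.trans hxt) (S.disj _ _ _ hx)
  by_cases b2 : p' = 1
  · subst b2
    rw [ChI_EE_one, ChI_CP1] at h
    obtain ⟨x, t, hx, hxt⟩ := ChI_GR_H (k := k) S a1 a2 ν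
    exact absurd (h.symm.trans hxt) (S.disj _ _ _ hx)
  rw [ChI_EE_ne S b1 b2] at h
  obtain ⟨y1, y2⟩ := py_mem a1 a2
  obtain ⟨z1, z2⟩ := py_mem b1 b2
  obtain ⟨s1, s2⟩ := pm_mem p
  obtain ⟨t1, t2⟩ := pm_mem p'
  obtain ⟨hst, m, hm⟩ := KK_inj N (ChG_notLat y1 y2) (ChG_notLat z1 z2) s1 s2 t1 t2
    (NP_p a1 a2) (NP_p b1 b2) h
  obtain ⟨m0, m1, m2⟩ := pt_inj_vec hm
  have e0 : m 0 = 0 := ChI_int m0 (abs_lt.2 ⟨by linarith, by linarith⟩)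
  rw [e0, Int.cast_zero, add_zero] at m0
  have hp : p = p' := py_pm_inj a1 a2 b1 b2 m0.symm hst
  subst hp
  refine ⟨rfl, ?_⟩
  have c1 := B_le a1 a2 k ν
  have c2 := B_le a1 a2 k ν'
  have c3 := Complex.abs_re_le_norm ((wd (py p) : ℂ) * gfr k (pm p) * ν)
  have c4 := Complex.abs_im_le_norm ((wd (py p) : ℂ) * gfr k (pm p) * ν)
  have c5 := Complex.abs_re_le_norm ((wd (py p) : ℂ) * gfr k (pm p) * ν')
  have c6 := Complex.abs_im_le_norm ((wd (py p) : ℂ) * gfr k (pm p) * ν')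
  have c3' := abs_le.1 c3
  have c4' := abs_le.1 c4
  have c5' := abs_le.1 c5
  have c6' := abs_le.1 c6
  have e1 : m 1 = 0 := ChI_int m1 (abs_lt.2 ⟨by linarith [c3'.2, c5'.1], by linarith [c3'.1, c5'.2]⟩)
  have e2 : m 2 = 0 := ChI_int m2 (abs_lt.2 ⟨by linarith [c4'.2, c6'.1], by linarith [c4'.1, c6'.2]⟩)
  rw [e1, Int.cast_zero, add_zero] at m1
  rw [e2, Int.cast_zero, add_zero] at m2
  have hB := Complex.ext m1 m2
  have hw : (wd (py p) : ℂ) * gfr k (pm p) ≠ 0 := by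
    refine mul_ne_zero (Complex.ofReal_ne_zero.2 (wd_pos y1 y2).ne') fun h0 => ?_
    have := gfr_norm k (pm p)
    rw [h0, norm_zero] at this
    exact zero_ne_one this
  exact (mul_left_cancel₀ hw hB).symm

theorem EE_notT {S : Surg φ X} (N : Nrm S κ δ ε k) (p ν : ℂ) : EE S ε k p ν ∉ TT S := by
  have h01 : ‖(0 : ℂ)‖ < 1 := by simp
  by_cases a1 : p = -1
  · subst a1
    rw [ChI_EE_neg, ChI_CP0]
    exact j_notT N _ h01
  by_cases a2 : p = 1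
  · subst a2
    rw [ChI_EE_one, ChI_CP1]
    exact j_notT N _ h01
  rw [ChI_EE_ne S a1 a2]
  obtain ⟨y1, y2⟩ := py_mem a1 a2
  obtain ⟨s1, s2⟩ := pm_mem p
  exact KK_notT N (ChG_notLat y1 y2) s1 s2 (NP_p a1 a2)

theorem EE_far {S : Surg φ X} (N : Nrm S κ δ ε k) {p : ℂ} (h : 9 ≤ ‖p‖) (ν : ℂ) :
    EE S ε k p ν = KK S (pt (py p) (ν.re / 8) (ν.im / 8)) (pm p) := by
  have a1 : p ≠ -1 := by
    rintro rfl
    norm_num at h
  have a2 : p ≠ 1 := by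
    rintro rfl
    norm_num at h
  obtain ⟨f1, f2, -, -⟩ := far h
  have f1' := abs_lt.1 f1
  have f2' := abs_lt.1 f2
  rw [ChI_EE_ne S a1 a2]
  unfold GR
  rw [wd_mid (by linarith [f1'.1]) (by linarith [f1'.2]),
    gfr_mid k (by linarith [f2'.1]) (by linarith [f2'.2])]
  have e1 : (((1 / 8 : ℝ) : ℂ) * 1 * ν).re = ν.re / 8 := by
    rw [mul_one, Complex.re_ofReal_mul]
    ring
  have e2 : (((1 / 8 : ℝ) : ℂ) * 1 * ν).im = ν.im / 8 := by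
    rw [mul_one, Complex.im_ofReal_mul]
    ring
  rw [e1, e2]

end

end Pool.Agent.CSG
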