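import Pool.Agent.CSG.LamA

/-!
# CSG/LamB: further properties of the model diffeomorphism

`Cm_sub`: let `rr ≥ 1`.  If `|p| ≥ 20/σ` then `|p| > 10`.  Otherwise `|s - round s| ≤ σ/2 < σ`; if
`|p| ≤ 10`, then `|x₁| ≤ σ`, `x₀² ≥ 1 - σ²`, and `(1-2σ)² / (1-σ)² < 1 - σ²`
(`(1-σ²)(1-σ)² - (1-2σ)² = 2σ(1-σ)² - σ⁴ > 0`), so `|fract n - 1/2| = |x₀| (1-σ)/2 > 1/2 - σ`, i.e.
`|n - round n| < σ`.
`Lam_id`: if `rr < 1` then `τ = π/2` and `qa = 1`, `qb = 0`; if `|s - round s| > σ/2` and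
`|p| < 20/σ` then `gr σ p s = gs σ s` is an integer, `qa = 1`, `qb = 0` (`qa_int`).
`Lam_D`: if `z ∈ Dm σ \ Cm σ`, `Lam σ z = z`.  If `z ∈ Cm σ`: `rr (Lam σ z) = rr z ≥ 1`
(`Lam_of_lt`, `Lam_of_le`); if `|s - round s| ≤ σ/2` then `Lam σ z ∈ Cm σ ⊆ Dm σ` (`s` is
preserved); if `|p| ≥ 20/σ` then `rr ≥ 4 > 1 + σ`, `|p|` is preserved and `> 10`.
-/

open scoped ContDiff Topology
open Complex (I)
open Set Filter

namespace Pool.Agent.CSG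

theorem LamB_le_rr {σ : ℝ} (h0 : 0 < σ) {c : ℝ} (hc : 0 ≤ c) {n : ℝ} {p : ℂ}
    (h : c / σ ≤ ‖p‖) : (c / 10) ^ 2 ≤ rr σ n p := by
  have h3 : ‖(sc σ n p).2‖ = σ / 10 * ‖p‖ := by
    simp only [sc]
    rw [norm_mul, norm_div, Complex.norm_real, Real.norm_of_nonneg h0.le]
    norm_num
  have h4 : c / 10 ≤ ‖(sc σ n p).2‖ := by
    rw [h3]
    rw [div_le_iff₀ h0] at h
    linarith
  rw [LamA_rr_eq]
  have h5 : (c / 10) ^ 2 ≤ ‖(sc σ n p).2‖ ^ 2 := pow_le_pow_left₀ (by positivity) h4 2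
  have := sq_nonneg (sc σ n p).1
  linarith

theorem Cm_sub {σ : ℝ} (h0 : 0 < σ) (h1 : σ ≤ 1 / 4) : Cm σ ⊆ Dm σ := by
  rintro ⟨n, p, s⟩ ⟨hr, hs⟩
  simp only at hr hs
  by_cases hp : 10 < ‖p‖
  · exact Or.inl hp
  rcases hs with hs | hs
  · right
    refine ⟨?_, ?_⟩
    · simp only
      rw [not_lt] at hp
      have h3 : ‖(sc σ n p).2‖ = σ / 10 * ‖p‖ := by
        simp only [sc]
        rw [norm_mul, norm_div, Complex.norm_real, Real.norm_of_nonneg h0.le]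
        norm_num
      have h4 : ‖(sc σ n p).2‖ ≤ σ := by
        rw [h3]
        nlinarith
      have h5 : ‖(sc σ n p).2‖ ^ 2 ≤ σ ^ 2 := pow_le_pow_left₀ (norm_nonneg _) h4 2
      have h6 : 1 - σ ^ 2 ≤ (sc σ n p).1 ^ 2 := by
        rw [LamA_rr_eq] at hr
        linarith
      simp only [sc] at h6
      have h7 : 0 < (1 - σ) ^ 2 := pow_pos (by linarith) 2
      rw [div_pow, le_div_iff₀ h7] at h6
      have h8 : (1 - σ ^ 2) * (1 - σ) ^ 2 = (1 - 2 * σ) ^ 2 + σ * (2 * (1 - σ) ^ 2 - σ ^ 3) := by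
        ring
      have h9 : 0 < 2 * (1 - σ) ^ 2 - σ ^ 3 := by
        have h10 : (3 / 4 : ℝ) ^ 2 ≤ (1 - σ) ^ 2 :=
          pow_le_pow_left₀ (by norm_num) (by linarith) 2
        have h11 : σ ^ 3 ≤ (1 / 4) ^ 3 := pow_le_pow_left₀ h0.le h1 3
        linarith
      have h10 : 0 < σ * (2 * (1 - σ) ^ 2 - σ ^ 3) := mul_pos h0 h9
      have h11 : (1 - 2 * σ) ^ 2 < (2 * (Int.fract n - 1 / 2)) ^ 2 := by linarith
      have h12 : |1 - 2 * σ| < |2 * (Int.fract n - 1 / 2)| := sq_lt_sq.1 h11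
      rw [abs_of_nonneg (by linarith : 0 ≤ 1 - 2 * σ)] at h12
      rw [abs_sub_round_eq_min, min_lt_iff]
      rcases lt_abs.1 h12 with h | h
      · right
        linarith
      · left
        linarith
    · simp only
      linarith
  · exfalso
    apply hp
    have h3 : 10 < 20 / σ := by
      rw [lt_div_iff₀ h0]
      linarith
    exact h3.trans_le hs

theorem LamB_id {σ : ℝ} (h0 : 0 < σ) (h1 : σ ≤ 1 / 4) {z : ℝ × ℂ × ℝ}
    (ha : qa (2 * Real.pi * gr σ z.2.1 z.2.2) (ta σ z.1 z.2.1) = 1)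
    (hb : qb (2 * Real.pi * gr σ z.2.1 z.2.2) (ta σ z.1 z.2.1) = 0) : Lam σ z = z := by
  simp only [Lam]
  rw [ha, hb, rot_one]
  have h6 : (1 - σ) ≠ 0 := by linarith
  have h5 : (σ : ℂ) ≠ 0 := by exact_mod_cast h0.ne'
  have h7 := Int.floor_add_fract z.1
  refine Prod.ext ?_ (Prod.ext ?_ rfl)
  · simp only [sc]
    field_simp
    linarith
  · simp only [sc]
    field_simp

theorem Lam_id {σ : ℝ} (h0 : 0 < σ) (h1 : σ ≤ 1 / 4) {z : ℝ × ℂ × ℝ} (h : z ∉ Cm σ) :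
    Lam σ z = z := by
  simp only [Cm, mem_ofPred_eq, not_and_or, not_or, not_le] at h
  rcases h with h | ⟨h2, h3⟩
  · have h4 : ta σ z.1 z.2.1 = Real.pi / 2 := by
      unfold ta
      rw [stp_zero (by linarith) h.le]
      ring
    apply LamB_id h0 h1
    · rw [h4, qa_half]
    · rw [h4, qb_half]
  · obtain ⟨m, hm⟩ := gs_int h0 h2.le
    have h4 : gr σ z.2.1 z.2.2 = m := by
      rw [LamA_gr_lt h0 h3, hm]
    apply LamB_id h0 h1
    · rw [h4, qa_int]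
    · rw [h4, qb_int]

theorem LamB_D {σ : ℝ} (h0 : 0 < σ) (h1 : σ ≤ 1 / 4) {fa : ℝ → ℝ → ℂ} {fb : ℝ → ℝ → ℝ}
    (hN : ∀ θ τ, ‖fa θ τ‖ ^ 2 + fb θ τ ^ 2 = 1) (hz : ∀ θ, fb θ 0 = 0)
    (hid : ∀ z, z ∉ Cm σ → LamA_LG σ fa fb z = z) : MapsTo (LamA_LG σ fa fb) (Dm σ) (Dm σ) := by
  intro z hzD
  by_cases hC : z ∈ Cm σ
  · obtain ⟨n, p, s⟩ := z
    obtain ⟨hr, hs⟩ := hC
    simp only at hr hs
    obtain ⟨k1, k2, k3, k4⟩ := LamA_key h0 h1 hN hz n p s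
    rcases hs with hs | hs
    · apply Cm_sub h0 h1
      refine ⟨?_, Or.inl hs⟩
      rw [k3]
      exact hr
    · left
      have h3 : (20 / 10 : ℝ) ^ 2 ≤ rr σ n p := LamB_le_rr h0 (by norm_num) hs
      have h4 : 1 + σ ≤ rr σ n p := by linarith
      rw [LamA_of_le h0 h1 hN hz s h4]
      simp only
      have h5 : ‖fa (2 * Real.pi * gr σ p s) 0‖ = 1 := by
        have h5 := hN (2 * Real.pi * gr σ p s) 0
        rw [hz] at h5
        have h6 : ‖fa (2 * Real.pi * gr σ p s) 0‖ ^ 2 = 1 := by linarith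
        have h7 := norm_nonneg (fa (2 * Real.pi * gr σ p s) 0)
        nlinarith
      rw [norm_mul, norm_pow, h5, one_pow, one_mul]
      have h3 : 10 < 20 / σ := by
        rw [lt_div_iff₀ h0]
        linarith
      exact h3.trans_le hs
  · rw [hid z hC]
    exact hzD

theorem Lam_D {σ : ℝ} (h0 : 0 < σ) (h1 : σ ≤ 1 / 4) : MapsTo (Lam σ) (Dm σ) (Dm σ) := by
  rw [LamA_Lam]
  exact LamB_D h0 h1 q_norm qb_zero fun z hz => Lam_id h0 h1 hz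

theorem Lam'_D {σ : ℝ} (h0 : 0 < σ) (h1 : σ ≤ 1 / 4) : MapsTo (Lam' σ) (Dm σ) (Dm σ) := by
  rw [LamA_Lam']
  refine LamB_D h0 h1 LamA_q'_norm LamA_qb'_zero fun z hz => ?_
  rw [← LamA_Lam']
  have h2 := Lam_left h0 h1 z
  rwa [Lam_id h0 h1 hz] at h2

theorem LamB_sc_per (σ n : ℝ) (p : ℂ) (a : ℤ) : sc σ (n + a) p = sc σ n p := by
  simp only [sc, Int.fract_add_intCast]

theorem LamB_gr_per (σ s : ℝ) (p : ℂ) (b : ℤ) : gr σ p (s + b) = gr σ p s + b := by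
  simp only [gr, gs_add_int]
  ring

theorem LamB_ta_per (σ n : ℝ) (p : ℂ) (a : ℤ) : ta σ (n + a) p = ta σ n p := by
  simp only [ta, rr, LamB_sc_per]

theorem Lam_per {σ : ℝ} (n s : ℝ) (p : ℂ) (a b : ℤ) (h0 : 0 < σ) (h1 : σ ≤ 1 / 4) :
    Lam σ (n + a, p, s + b) =
      ((Lam σ (n, p, s)).1 + a, (Lam σ (n, p, s)).2.1, (Lam σ (n, p, s)).2.2 + b) := by
  simp only [Lam, LamB_sc_per, LamB_gr_per, LamB_ta_per, Int.floor_add_intCast]
  rw [mul_add, qa_per, qb_per]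
  refine Prod.ext ?_ (Prod.ext rfl rfl)
  push_cast
  ring

theorem Lam'_per {σ : ℝ} (n s : ℝ) (p : ℂ) (a b : ℤ) (h0 : 0 < σ) (h1 : σ ≤ 1 / 4) :
    Lam' σ (n + a, p, s + b) =
      ((Lam' σ (n, p, s)).1 + a, (Lam' σ (n, p, s)).2.1, (Lam' σ (n, p, s)).2.2 + b) := by
  simp only [Lam', LamB_sc_per, LamB_gr_per, LamB_ta_per, Int.floor_add_intCast]
  rw [mul_add, qa_per, qb_per]
  refine Prod.ext ?_ (Prod.ext rfl rfl)
  push_cast
  ring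

theorem Lam_far {σ : ℝ} (h0 : 0 < σ) (h1 : σ ≤ 1 / 4) (n s : ℝ) {p : ℂ} (h : 40 / σ ≤ ‖p‖) :
    Lam σ (n, p, s) = (n, Complex.exp ((-(4 * Real.pi * s) : ℝ) * I) * p, s) := by
  have h3 : (40 / 10 : ℝ) ^ 2 ≤ rr σ n p := LamB_le_rr h0 (by norm_num) h
  have h4 : 1 + σ ≤ rr σ n p := by linarith
  have h5 : gr σ p s = s := by
    unfold gr
    have h2 : (20 / σ) ^ 2 < (40 / σ) ^ 2 := by
      apply pow_lt_pow_left₀ _ (by positivity) (by norm_num)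
      exact div_lt_div_of_pos_right (by norm_num) h0
    rw [stp_one h2 (pow_le_pow_left₀ (by positivity) h 2)]
    ring
  rw [(Lam_of_le h0 h1 s h4).1, h5]

end Pool.Agent.CSG
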