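import Pool.Agent.CSG.EeP
import Pool.Agent.CSG.LamB

/-!
# CSG/Clos: closedness of the support in the complement of the torus

`TT S` is the image of the compact square `u, n ∈ [0,1]` under the continuous map
`(u, n) ↦ H (pt (1/2) u n, 1/2)` (`H_per`), hence compact, hence closed (`X` Hausdorff).

`ee '' Cm ∪ TT` is the union of
* `ee '' {(n, p, s) ∈ Cm : 0 ≤ n ≤ 1, -1/2 ≤ s ≤ 1/2, |p| ≤ 20/σ + 10}`: by `ee_per` and the
  invariance of `Cm` under integer translations of `n` and `s` this is the image of all of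
  `{z ∈ Cm : |p| ≤ 20/σ + 10}`; `Cm` is closed (`rr` is continuous: it depends on
  `(fract n - 1/2)^2`, which is continuous; `|s - round s|` is continuous), so it is the image of a
  compact set contained in `Dm σ` (`Cm_sub`), where `ee` is continuous (`ee_ld`);
* `W = H '' {(pt y u n, t) : u, n ∈ [0,1], (y, t) ∈ Δ}` with `Δ` the compact set
  `{(y, t) : |y - 1/2| ≤ 1/20, |t - 1/2| ≤ 1/20, (y,t) = (1/2,1/2) or ‖p (y,t)‖ ≥ 20/σ + 10}`,
  `p (y, t) = conj ((w+1)/(w-1))`, `w = exp (2π((y - 1/2) + i (t - 1/2)))`; to see that `Δ` is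
  closed write the condition as `(20/σ + 10) |w - 1| ≤ |w + 1|`.  Compact image.
`W ∪ first set` is the whole of `ee '' Cm ∪ TT`: points of `ee '' Cm` with `|p| ≥ 20/σ + 10` are in
`W` by `ee_far`, `far` (`KK (pt (py p) s n) (pm p) = H (pt (py p) u n, pm p)` for some `u`, reduce
`u, n` to `[0,1]` by `H_per`); conversely a point `H (pt y u n, t)` of `W` is in `TT` or is
`KK (pt y s n) t = ee (n, p, s)` with `|p| ≥ 20/σ + 10`, which is in `Cm` (`rr ≥ |σ p/10|² ≥ 4`).
(`xi_inv`: `xi (p (y,t)) = w`, `py = y`, `pm = t` because `3/10 ≤ |w| ≤ 10/3`.)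
-/

open scoped Manifold ContDiff Topology
open Complex (I)
open Set Filter

namespace Pool.Agent.CSG

/-- the point of the disc at position `(y, t)` near the puncture -/
noncomputable def pyt (y t : ℝ) : ℂ :=
  (starRingEnd ℂ) ((Complex.exp (2 * Real.pi * ((y - 1 / 2 : ℝ) + (t - 1 / 2 : ℝ) * I)) + 1) /
    (Complex.exp (2 * Real.pi * ((y - 1 / 2 : ℝ) + (t - 1 / 2 : ℝ) * I)) - 1))

theorem Clos_pi : (2 * Real.pi : ℂ) ≠ 0 := by
  have := Real.pi_ne_zero
  exact mul_ne_zero two_ne_zero (by exact_mod_cast this)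

theorem Clos_exp_spec {y t : ℝ} (hy : |y - 1 / 2| ≤ 1 / 10) (ht : |t - 1 / 2| ≤ 1 / 10) :
    3 / 10 ≤ ‖Complex.exp (2 * Real.pi * ((y - 1 / 2 : ℝ) + (t - 1 / 2 : ℝ) * I))‖ ∧
    ‖Complex.exp (2 * Real.pi * ((y - 1 / 2 : ℝ) + (t - 1 / 2 : ℝ) * I))‖ ≤ 10 / 3 ∧
    Real.log ‖Complex.exp (2 * Real.pi * ((y - 1 / 2 : ℝ) + (t - 1 / 2 : ℝ) * I))‖ =
      2 * Real.pi * (y - 1 / 2) ∧
    Complex.arg (Complex.exp (2 * Real.pi * ((y - 1 / 2 : ℝ) + (t - 1 / 2 : ℝ) * I))) =
      2 * Real.pi * (t - 1 / 2) := by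
  have hpi := Real.pi_pos
  have hpi4 := Real.pi_lt_d2
  rw [abs_le] at hy ht
  have e : (2 * Real.pi * ((y - 1 / 2 : ℝ) + (t - 1 / 2 : ℝ) * I) : ℂ) =
      ((2 * Real.pi * (y - 1 / 2) : ℝ) : ℂ) + ((2 * Real.pi * (t - 1 / 2) : ℝ) : ℂ) * I := by
    push_cast
    ring
  have hre : (2 * Real.pi * ((y - 1 / 2 : ℝ) + (t - 1 / 2 : ℝ) * I) : ℂ).re =
      2 * Real.pi * (y - 1 / 2) := by rw [e]; simp
  have him : (2 * Real.pi * ((y - 1 / 2 : ℝ) + (t - 1 / 2 : ℝ) * I) : ℂ).im =
      2 * Real.pi * (t - 1 / 2) := by rw [e]; simp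
  rw [Complex.norm_exp, hre, Real.log_exp]
  refine ⟨?_, ?_, rfl, ?_⟩
  · have h1 := Real.add_one_le_exp (2 * Real.pi * (y - 1 / 2))
    nlinarith
  · have h1 := Real.add_one_le_exp (-(2 * Real.pi * (y - 1 / 2)))
    rw [Real.exp_neg] at h1
    have h2 : (3 / 10 : ℝ) ≤ (Real.exp (2 * Real.pi * (y - 1 / 2)))⁻¹ := by nlinarith
    have h3 := Real.exp_pos (2 * Real.pi * (y - 1 / 2))
    rw [inv_eq_one_div, le_div_iff₀ h3] at h2
    linarith
  · have h1 : Complex.log (Complex.exp (2 * Real.pi * ((y - 1 / 2 : ℝ) + (t - 1 / 2 : ℝ) * I))) =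
        2 * Real.pi * ((y - 1 / 2 : ℝ) + (t - 1 / 2 : ℝ) * I) := by
      apply Complex.log_exp
      · rw [him]; nlinarith
      · rw [him]; nlinarith
    have h2 := congrArg Complex.im h1
    rw [Complex.log_im, him] at h2
    exact h2

theorem pyt_spec {y t : ℝ} (hy : |y - 1 / 2| ≤ 1 / 10) (ht : |t - 1 / 2| ≤ 1 / 10)
    (h : ¬ (t = 1 / 2 ∧ y = 1 / 2)) : py (pyt y t) = y ∧ pm (pyt y t) = t := by
  obtain ⟨h1, h2, h3, h4⟩ := Clos_exp_spec hy ht
  have hpi := Real.pi_pos
  have hne : Complex.exp (2 * Real.pi * ((y - 1 / 2 : ℝ) + (t - 1 / 2 : ℝ) * I)) ≠ 1 := by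
    intro h0
    apply h
    rw [h0] at h3 h4
    rw [norm_one, Real.log_one] at h3
    rw [Complex.arg_one] at h4
    constructor
    · nlinarith
    · nlinarith
  have hxi := xi_inv hne
  constructor
  · unfold py pyt
    rw [hxi, nf_mid h1 h2, h3]
    field_simp
    ring
  · unfold pm pyt
    rw [hxi, h4]
    field_simp
    ring

theorem Clos_rd_cont : Continuous (fun x : ℝ => |x - round x|) := by
  have h : (fun x : ℝ => |x - round x|) = fun x : ℝ => ‖(x : UnitAddCircle)‖ := by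
    funext x
    rw [UnitAddCircle.norm_eq]
  rw [h]
  exact continuous_norm.comp (AddCircle.continuous_mk' 1)

theorem Clos_fr (x : ℝ) : (Int.fract x - 1 / 2) ^ 2 = (1 / 2 - |x - round x|) ^ 2 := by
  rw [abs_sub_round_eq_min]
  rcases min_cases (Int.fract x) (1 - Int.fract x) with ⟨h, -⟩ | ⟨h, -⟩
  · rw [h]; ring
  · rw [h]; ring

theorem Clos_rr_cont (σ : ℝ) : Continuous (fun z : ℝ × ℂ × ℝ => rr σ z.1 z.2.1) := by
  have h : (fun z : ℝ × ℂ × ℝ => rr σ z.1 z.2.1) = fun z : ℝ × ℂ × ℝ =>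
      (1 / 2 - |z.1 - round z.1|) ^ 2 * (2 / (1 - σ)) ^ 2 + ‖(σ / 10 : ℂ) * z.2.1‖ ^ 2 := by
    funext z
    unfold rr sc
    simp only
    rw [← Clos_fr]
    ring
  rw [h]
  apply Continuous.add
  · apply Continuous.mul _ continuous_const
    apply Continuous.pow
    exact continuous_const.sub (Clos_rd_cont.comp continuous_fst)
  · fun_prop

section
variable {X : Type*} [TopologicalSpace X] [T2Space X] [ChartedSpace E4 X] {φ κ : Equiv.Perm E3}
  {δ ε : ℝ} {k : ℤ}

theorem Clos_half {y : ℝ} (h : |y - 1 / 2| ≤ 1 / 10) (u n : ℝ) : ¬ IsLat (pt y u n) := by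
  rw [isLat_pt]
  rintro ⟨⟨m, hm⟩, -⟩
  rw [abs_le] at h
  have h1 : (0 : ℝ) < m := by linarith
  have h2 : (m : ℝ) < 1 := by linarith
  have h3 : (0 : ℤ) < m := by exact_mod_cast h1
  have h4 : m < (1 : ℤ) := by exact_mod_cast h2
  omega

/-- reduction of `u, n` to `[0,1]` -/
theorem Clos_red (S : Surg φ X) {y : ℝ} (h : |y - 1 / 2| ≤ 1 / 10) (u n t : ℝ) :
    S.H (pt y u n, t) = S.H (pt y (Int.fract u) (Int.fract n), t) := by
  have h1 := S.H_per (pt y (Int.fract u) (Int.fract n)) t ![0, ⌊u⌋, ⌊n⌋] (Clos_half h _ _)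
  rw [← h1, pt_add_vec]
  congr 3
  · simp
  · simp
  · simp

theorem Clos_pt_cont : Continuous (fun a : ℝ × ℝ × ℝ × ℝ => (pt a.1 a.2.2.1 a.2.2.2, a.2.1)) := by
  apply Continuous.prodMk _ (by fun_prop)
  unfold pt
  apply (PiLp.continuous_toLp 2 _).comp
  apply continuous_pi
  intro i
  fin_cases i
  · simp; fun_prop
  · simp; fun_prop
  · simp; fun_prop

theorem Clos_cont (S : Surg φ X) {K : Set (ℝ × ℝ × ℝ × ℝ)}
    (hK : ∀ a ∈ K, |a.1 - 1 / 2| ≤ 1 / 10) :
    ContinuousOn (fun a : ℝ × ℝ × ℝ × ℝ => S.H (pt a.1 a.2.2.1 a.2.2.2, a.2.1)) K := by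
  intro a ha
  apply ContinuousAt.continuousWithinAt
  exact ContinuousAt.comp (g := S.H)
    (f := fun a : ℝ × ℝ × ℝ × ℝ => (pt a.1 a.2.2.1 a.2.2.2, a.2.1))
    (ld_continuousAt (S.H_loc _ _ (Clos_half (hK a ha) _ _))) Clos_pt_cont.continuousAt

theorem isClosed_TT (S : Surg φ X) : IsClosed (TT S) := by
  have h : TT S = (fun a : ℝ × ℝ × ℝ × ℝ => S.H (pt a.1 a.2.2.1 a.2.2.2, a.2.1)) ''
      (({1 / 2} : Set ℝ) ×ˢ ({1 / 2} : Set ℝ) ×ˢ Icc (0 : ℝ) 1 ×ˢ Icc (0 : ℝ) 1) := by
    ext q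
    constructor
    · rintro ⟨u, n, rfl⟩
      refine ⟨(1 / 2, 1 / 2, Int.fract u, Int.fract n), ⟨rfl, rfl,
        ⟨Int.fract_nonneg _, (Int.fract_lt_one _).le⟩,
        ⟨Int.fract_nonneg _, (Int.fract_lt_one _).le⟩⟩, ?_⟩
      exact (Clos_red S (by norm_num) u n (1 / 2)).symm
    · rintro ⟨⟨y, t, u, n⟩, ⟨hy, ht, -, -⟩, rfl⟩
      rw [mem_singleton_iff] at hy ht
      simp only at hy ht
      exact ⟨u, n, by simp only [hy, ht]⟩
  rw [h]
  apply IsCompact.isClosed
  apply IsCompact.image_of_continuousOn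
  · exact isCompact_singleton.prod (isCompact_singleton.prod (isCompact_Icc.prod isCompact_Icc))
  · apply Clos_cont S
    rintro a ⟨ha, -⟩
    rw [mem_singleton_iff] at ha
    rw [ha]
    norm_num

theorem isClosed_Cm {σ : ℝ} (h0 : 0 < σ) (h1 : σ ≤ 1 / 4) : IsClosed (Cm σ) := by
  unfold Cm
  apply IsClosed.inter
  · exact isClosed_le continuous_const (Clos_rr_cont σ)
  · apply IsClosed.union
    · exact isClosed_le (Clos_rd_cont.comp (continuous_snd.comp continuous_snd)) continuous_const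
    · exact isClosed_le continuous_const
        (show Continuous (fun z : ℝ × ℂ × ℝ => ‖z.2.1‖) from
          (continuous_fst.comp continuous_snd).norm)

/-- the region of positions -/
def Clos_D (R : ℝ) : Set (ℝ × ℝ) :=
  {a | |a.1 - 1 / 2| ≤ 1 / 20 ∧ |a.2 - 1 / 2| ≤ 1 / 20 ∧
    R * ‖Complex.exp (2 * Real.pi * ((a.1 - 1 / 2 : ℝ) + (a.2 - 1 / 2 : ℝ) * I)) - 1‖ ≤
      ‖Complex.exp (2 * Real.pi * ((a.1 - 1 / 2 : ℝ) + (a.2 - 1 / 2 : ℝ) * I)) + 1‖}

theorem Clos_D_compact (R : ℝ) : IsCompact (Clos_D R) := by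
  have h1 : IsCompact (Icc (1 / 2 - 1 / 20 : ℝ) (1 / 2 + 1 / 20) ×ˢ
      Icc (1 / 2 - 1 / 20 : ℝ) (1 / 2 + 1 / 20)) := isCompact_Icc.prod isCompact_Icc
  apply h1.of_isClosed_subset
  · unfold Clos_D
    have h2 : Continuous (fun a : ℝ × ℝ =>
        Complex.exp (2 * Real.pi * ((a.1 - 1 / 2 : ℝ) + (a.2 - 1 / 2 : ℝ) * I))) := by fun_prop
    have h3 : Continuous (fun a : ℝ × ℝ => |a.1 - 1 / 2|) :=
      (continuous_fst.sub continuous_const).abs
    have h4 : Continuous (fun a : ℝ × ℝ => |a.2 - 1 / 2|) :=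
      (continuous_snd.sub continuous_const).abs
    have h5 : Continuous (fun a : ℝ × ℝ => R *
        ‖Complex.exp (2 * Real.pi * ((a.1 - 1 / 2 : ℝ) + (a.2 - 1 / 2 : ℝ) * I)) - 1‖) :=
      continuous_const.mul (h2.sub continuous_const).norm
    have h6 : Continuous (fun a : ℝ × ℝ =>
        ‖Complex.exp (2 * Real.pi * ((a.1 - 1 / 2 : ℝ) + (a.2 - 1 / 2 : ℝ) * I)) + 1‖) :=
      (h2.add continuous_const).norm
    apply IsClosed.inter
    · exact isClosed_le h3 continuous_const
    · apply IsClosed.inter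
      · exact isClosed_le h4 continuous_const
      · exact isClosed_le h5 h6
  · rintro a ⟨h2, h3, -⟩
    rw [abs_le] at h2 h3
    exact ⟨⟨by linarith, by linarith⟩, ⟨by linarith, by linarith⟩⟩

theorem Clos_xi {p : ℂ} (h : 9 ≤ ‖p‖) : ‖xi p + 1‖ = ‖p‖ * ‖xi p - 1‖ := by
  have h1 : (starRingEnd ℂ) p - 1 ≠ 0 := by
    intro h0
    have h2 : (starRingEnd ℂ) p = 1 := by linear_combination h0
    have h3 : ‖(starRingEnd ℂ) p‖ = ‖p‖ := RCLike.norm_conj p
    rw [h2, norm_one] at h3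
    linarith
  have e : xi p + 1 = (starRingEnd ℂ) p * (xi p - 1) := by
    unfold xi
    field_simp
    ring
  rw [e, norm_mul, RCLike.norm_conj]

theorem isClosed_image {S : Surg φ X} (N : Nrm S κ δ ε k) {σ : ℝ} (h0 : 0 < σ)
    (h1 : 16 * σ ≤ 1) (h2 : 16 * σ ≤ δ) : IsClosed (ee S ε k '' Cm σ ∪ TT S) := by
  have h1' : σ ≤ 1 / 4 := by linarith
  set R : ℝ := 20 / σ + 10 with hR
  have hR9 : 9 ≤ R := by
    have : 0 < 20 / σ := by positivity
    linarith
  set K1 : Set (ℝ × ℂ × ℝ) := Cm σ ∩ (Icc (0 : ℝ) 1 ×ˢ Metric.closedBall (0 : ℂ) R ×ˢ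
    Icc (-(1 / 2) : ℝ) (1 / 2)) with hK1
  set K2 : Set (ℝ × ℝ × ℝ × ℝ) := {a | (a.1, a.2.1) ∈ Clos_D R ∧ a.2.2.1 ∈ Icc (0 : ℝ) 1 ∧
    a.2.2.2 ∈ Icc (0 : ℝ) 1} with hK2
  have hK2c : IsCompact K2 := by
    have h3 : K2 = (fun b : (ℝ × ℝ) × ℝ × ℝ => (b.1.1, b.1.2, b.2.1, b.2.2)) ''
        (Clos_D R ×ˢ Icc (0 : ℝ) 1 ×ˢ Icc (0 : ℝ) 1) := by
      ext a
      constructor
      · rintro ⟨ha, hb, hc⟩
        exact ⟨((a.1, a.2.1), a.2.2.1, a.2.2.2), ⟨ha, hb, hc⟩, rfl⟩
      · rintro ⟨b, ⟨ha, hb, hc⟩, rfl⟩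
        exact ⟨ha, hb, hc⟩
    rw [h3]
    exact ((Clos_D_compact R).prod (isCompact_Icc.prod isCompact_Icc)).image (by fun_prop)
  have hmain : ee S ε k '' Cm σ ∪ TT S = ee S ε k '' K1 ∪
      (fun a : ℝ × ℝ × ℝ × ℝ => S.H (pt a.1 a.2.2.1 a.2.2.2, a.2.1)) '' K2 := by
    apply Subset.antisymm
    · apply union_subset
      · rintro _ ⟨⟨n, p, s⟩, hz, rfl⟩
        by_cases hp : ‖p‖ ≤ R
        · left
          refine ⟨(Int.fract n, p, s - round s), ⟨⟨?_, ?_⟩,
            ⟨Int.fract_nonneg _, (Int.fract_lt_one _).le⟩, ?_, ?_⟩, ?_⟩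
          · have e : rr σ (Int.fract n) p = rr σ n p := by
              unfold rr sc
              rw [Int.fract_fract]
            show 1 ≤ rr σ (Int.fract n) p
            rw [e]
            exact hz.1
          · rcases hz.2 with h3 | h3
            · left
              show |s - round s - round (s - round s)| ≤ σ / 2
              rw [round_sub_intCast, sub_self, Int.cast_zero, sub_zero]
              exact h3
            · right
              exact h3
          · rw [Metric.mem_closedBall, dist_zero_right]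
            exact hp
          · have := abs_sub_round s
            rw [abs_le] at this
            exact this
          · have h3 := ee_per N (Int.fract n) (s - round s) p ⌊n⌋ (round s)
            rw [Int.fract_add_floor, sub_add_cancel] at h3
            exact h3.symm
        · right
          push Not at hp
          have hp9 : 9 ≤ ‖p‖ := by linarith
          obtain ⟨f1, f2, f3, -⟩ := far hp9
          rw [ee_far N hp9]
          have hy : |py p - 1 / 2| ≤ 1 / 10 := by linarith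
          have hu : KK S (pt (py p) s n) (pm p) = S.H (pt (py p)
            (Complex.arg (FF (py p) (pm p) * Complex.exp ((2 * Real.pi * s : ℝ) * I)) /
              (2 * Real.pi)) n, pm p) := by
            unfold KK HH
            simp only [pt_zero', pt_one', pt_two']
          rw [hu, Clos_red S hy]
          refine ⟨(py p, pm p, Int.fract _, Int.fract n), ⟨⟨f1.le, f2.le, ?_⟩,
            ⟨Int.fract_nonneg _, (Int.fract_lt_one _).le⟩,
            ⟨Int.fract_nonneg _, (Int.fract_lt_one _).le⟩⟩, rfl⟩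
          show R * ‖Complex.exp (2 * Real.pi * ((py p - 1 / 2 : ℝ) + (pm p - 1 / 2 : ℝ) * I)) - 1‖
            ≤ ‖Complex.exp (2 * Real.pi * ((py p - 1 / 2 : ℝ) + (pm p - 1 / 2 : ℝ) * I)) + 1‖
          rw [← f3, Clos_xi hp9]
          gcongr
      · rintro _ ⟨u, n, rfl⟩
        right
        refine ⟨(1 / 2, 1 / 2, Int.fract u, Int.fract n), ⟨⟨by norm_num, by norm_num, ?_⟩,
            ⟨Int.fract_nonneg _, (Int.fract_lt_one _).le⟩,
            ⟨Int.fract_nonneg _, (Int.fract_lt_one _).le⟩⟩,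
            (Clos_red S (by norm_num) u n (1 / 2)).symm⟩
        simp
    · apply union_subset
      · exact (image_mono inter_subset_left).trans subset_union_left
      · rintro _ ⟨⟨y, t, u, n⟩, ⟨⟨hy, ht, hD⟩, -, -⟩, rfl⟩
        simp only at hy ht hD ⊢
        by_cases hyt : t = 1 / 2 ∧ y = 1 / 2
        · right
          obtain ⟨rfl, rfl⟩ := hyt
          exact ⟨u, n, rfl⟩
        · left
          have hy10 : |y - 1 / 2| ≤ 1 / 10 := by linarith
          have ht10 : |t - 1 / 2| ≤ 1 / 10 := by linarith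
          obtain ⟨g1, g2⟩ := pyt_spec hy10 ht10 hyt
          set p := pyt y t with hp
          obtain ⟨q1, q2, q3, q4⟩ := Clos_exp_spec hy10 ht10
          have hne : Complex.exp (2 * Real.pi * ((y - 1 / 2 : ℝ) + (t - 1 / 2 : ℝ) * I)) ≠ 1 := by
            intro h5
            apply hyt
            have hpi := Real.pi_pos
            rw [h5] at q3 q4
            rw [norm_one, Real.log_one] at q3
            rw [Complex.arg_one] at q4
            constructor
            · nlinarith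
            · nlinarith
          have hpR : R ≤ ‖p‖ := by
            rw [hp]
            unfold pyt
            rw [RCLike.norm_conj, norm_div, le_div_iff₀ (norm_pos_iff.2 (sub_ne_zero.2 hne))]
            exact hD
          have hp9 : 9 ≤ ‖p‖ := by linarith
          have hp0 : p ≠ 0 := by
            intro h5
            rw [h5, norm_zero] at hp9
            norm_num at hp9
          obtain ⟨-, -, -, c, hc, hF⟩ := far hp9
          obtain ⟨a, c₁, hc₁, ha⟩ := exists_dir (om := -I * p)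
            (mul_ne_zero (neg_ne_zero.2 Complex.I_ne_zero) hp0)
          refine ⟨(n, p, u - a), ⟨?_, Or.inr ?_⟩, ?_⟩
          · show 1 ≤ rr σ n p
            have h5 : ‖(σ / 10 : ℂ) * p‖ = σ / 10 * ‖p‖ := by
              rw [norm_mul]
              congr 1
              rw [norm_div, Complex.norm_real, Real.norm_of_nonneg h0.le]
              simp
            have h6 : 2 ≤ σ / 10 * ‖p‖ := by
              have h7 : 20 / σ ≤ ‖p‖ := by linarith
              rw [div_le_iff₀ h0] at h7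
              linarith
            unfold rr sc
            simp only
            rw [h5]
            nlinarith [sq_nonneg (2 * (Int.fract n - 1 / 2) / (1 - σ))]
          · show 20 / σ ≤ ‖p‖
            linarith
          · rw [ee_far N hp9]
            unfold KK
            simp only [pt_zero', pt_one', pt_two']
            rw [hF, ha, g1, g2]
            have e : (c : ℂ) * ((c₁ : ℂ) * Complex.exp ((2 * Real.pi * a : ℝ) * I)) *
                Complex.exp ((2 * Real.pi * (u - a) : ℝ) * I) =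
                ((c * c₁ : ℝ) : ℂ) * Complex.exp ((2 * Real.pi * u : ℝ) * I) := by
              have e2 : Complex.exp ((2 * Real.pi * u : ℝ) * I) =
                  Complex.exp ((2 * Real.pi * a : ℝ) * I) *
                  Complex.exp ((2 * Real.pi * (u - a) : ℝ) * I) := by
                rw [← Complex.exp_add]
                congr 1
                push_cast
                ring
              rw [e2]
              push_cast
              ring
            rw [e, HH_smul S _ _ _ _ _ (by positivity), HH_exp S _ (Clos_half hy10 _ _)]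
  rw [hmain]
  apply IsClosed.union
  · apply IsCompact.isClosed
    apply IsCompact.image_of_continuousOn
    · apply IsCompact.inter_left _ (isClosed_Cm h0 h1')
      exact isCompact_Icc.prod ((isCompact_closedBall _ _).prod isCompact_Icc)
    · intro z hz
      exact (ld_continuousAt (ee_ld N h0 h1 h2 (Cm_sub h0 h1' hz.1))).continuousWithinAt
  · apply IsCompact.isClosed
    apply hK2c.image_of_continuousOn
    apply Clos_cont S
    rintro a ⟨⟨ha, -, -⟩, -, -⟩
    simp only at ha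
    linarith

end

end Pool.Agent.CSG
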