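import Pool.Agent.CSG.Surg

/-!
# CSG/Fun: the explicit functions used in the construction

`S` is `Real.smoothTransition` (`0` for `x ≤ 0`, `1` for `x ≥ 1`).
-/

open scoped ContDiff
open Complex (I)

namespace Pool.Agent.CSG

/-- smooth step from `0` (for `x ≤ a`) to `1` (for `x ≥ b`). -/
noncomputable def stp (a b x : ℝ) : ℝ := Real.smoothTransition ((x - a) / (b - a))

/-- smooth step function of the circle: `⌊x⌋` plus a step in `9/20 < fract x < 11/20`. -/
noncomputable def lam (x : ℝ) : ℝ := ⌊x⌋ + stp (9 / 20) (11 / 20) (Int.fract x)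

/-- smooth step function of the circle with step in `1/4 < fract x < 3/4`. -/
noncomputable def thc (x : ℝ) : ℝ := ⌊x⌋ + stp (1 / 4) (3 / 4) (Int.fract x)

/-- the shear `(n, u, y) ↦ (n, u + f n y, y)`. -/
noncomputable def sh (f : ℝ → ℝ → ℝ) : Equiv.Perm E3 where
  toFun x := pt (x 0) (x 1 + f (x 0) (x 2)) (x 2)
  invFun x := pt (x 0) (x 1 - f (x 0) (x 2)) (x 2)
  left_inv x := by
    ext i; fin_cases i <;> simp [pt]
  right_inv x := by
    ext i; fin_cases i <;> simp [pt]

/-- the rotation of the normal framing, as a unit complex number (`= 1` for `1/4 ≤ t ≤ 3/4`). -/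
noncomputable def gfr (k : ℤ) (t : ℝ) : ℂ :=
  Complex.exp ((2 * Real.pi * k * thc (t + 1 / 2) : ℝ) * I)

/-- `(z₀, z₁, z₂) ↦ (z₀, c (z₁ + i z₂))`. -/
noncomputable def cmul (c : ℂ) (z : E3) : E3 :=
  pt (z 0) (c * (z 1 + z 2 * I)).re (c * (z 1 + z 2 * I)).im

end Pool.Agent.CSG
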