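import Pool.Agent.CSG.Gam

/-!
# CSG/GDef: the new surgery data

`GG S Γ σ (x, t)`: `Γ (K2 x t)` away from the puncture, where
`K2 (pt y u n) t = HH S y (FF y t ^ 2 * exp (2πiu)) n t` `( = KK (pt y (u + arg FF / 2π) n) t)`, and
near the puncture the explicit formula `NN`, which is smooth at the torus.
-/

open scoped Manifold ContDiff Topology
open Complex (I)
open Set Filter

namespace Pool.Agent.CSG

/-- `ξ` at the position `(y, t)` near the puncture -/
noncomputable def Xi (y t : ℝ) : ℂ :=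
  Complex.exp (2 * Real.pi * ((Int.fract y - 1 / 2 : ℝ) + (t - 1 / 2 : ℝ) * I))

/-- the coordinate `q = 1 / p` -/
noncomputable def QQ (y t : ℝ) : ℂ := (starRingEnd ℂ) ((Xi y t - 1) / (Xi y t + 1))

/-- the new position `q' = - q̄ exp (4πiu)` -/
noncomputable def Q1 (u : ℝ) (q : ℂ) : ℂ :=
  -((starRingEnd ℂ) q * Complex.exp ((4 * Real.pi * u : ℝ) * I))

/-- `(y - 1/2) + i (t - 1/2)` as a function of `q` -/
noncomputable def Wq (q : ℂ) : ℂ :=
  Complex.log ((1 + (starRingEnd ℂ) q) / (1 - (starRingEnd ℂ) q)) / (2 * Real.pi)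

/-- near the puncture -/
def nearP (σ y t : ℝ) : Prop :=
  |t - 1 / 2| < 1 / 20 ∧ |Int.fract y - 1 / 2| < 1 / 20 ∧ ‖QQ y t‖ < σ / 40

section
variable {X : Type*} [TopologicalSpace X] [ChartedSpace E4 X] {φ : Equiv.Perm E3}

noncomputable def NN (S : Surg φ X) (x : E3) (t : ℝ) : X :=
  S.H (pt (1 / 2 + (Wq (Q1 (x 1) (QQ (x 0) t))).re) (-x 1) (x 2),
    1 / 2 + (Wq (Q1 (x 1) (QQ (x 0) t))).im)

noncomputable def K2 (S : Surg φ X) (x : E3) (t : ℝ) : X :=
  HH S (x 0) (FF (x 0) t ^ 2 * Complex.exp ((2 * Real.pi * x 1 : ℝ) * I)) (x 2) t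

open Classical in
noncomputable def GG (S : Surg φ X) (Γ : Equiv.Perm X) (σ : ℝ) (a : E3 × ℝ) : X :=
  if nearP σ (a.1 0) a.2 then NN S a.1 a.2 else Γ (K2 S a.1 a.2)

end

end Pool.Agent.CSG
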