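import Pool.Agent.CSG.GDef

/-!
# CSG/GNear: the region near the puncture

`Wq` inverts `QQ`: for `|fract y - 1/2|, |t - 1/2| < 1/20`, with `w = Xi y t`,
`q̄ = (w-1)/(w+1)`, `(1 + q̄)/(1 - q̄) = w` and `log w / 2π = (fract y - 1/2) + i (t - 1/2)`
(`|Im| < π`).  If `q = QQ y t ≠ 0` then `p = 1/q` satisfies `p̄ = (w+1)/(w-1)`, `xi p = w`, and
`py p = fract y`, `pm p = t` (`nf_mid`).

`overlap`: let `q ≠ 0`, `p = 1/q`, `‖p‖ > 40/σ ≥ 160`.  `FF y t = c (-i p)`, `c > 0` (`far`,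
`FF_per`), write `-i p = |p| exp (2πia)`.  Then `K2 (pt y u n) t = HH S y (exp (2πi(2a+u))) n t =
KK (pt (py p) (a + u) n) (pm p)` (also use `H_per` to pass from `y` to `fract y`).
By `IsGam.far` with `s = a + u`, `p' = exp (-4πi(a+u)) p`,
`Γ (..) = KK (pt (py p') (a + u) n) (pm p')`, and `-i p' = |p| exp (2πi(a - 2a - 2u))`, so this is
`HH (py p') (exp (2πi(-a-2u)) exp (2πi(a+u))) n (pm p') = H (pt (py p') (-u) n, pm p')`.
Finally `q' = 1/p' = exp (4πi(a+u)) q` and `q = 1/p = i̅ ...`: `-i p = |p| exp (2πia)` gives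
`q = -i exp (-2πia)/|p|`, `q̄ = i exp (2πia)/|p|`, so `-q̄ exp (4πiu) = -i exp (2πia + 4πiu)/|p| =
exp (4πi(a+u)) q`.  Hence `Q1 u q = 1/p'` and `py p' - 1/2 = Re Wq (Q1 u q)`,
`pm p' - 1/2 = Im Wq (Q1 u q)` (`‖Q1 u q‖ = ‖q‖ < σ/40`; `far` applied to `p'`).

`NN_ld`: `NN` is `ld_H` for `Φ (x, t) = (1/2 + Re Wq.., -x 1, x 2, 1/2 + Im Wq ..)`, a composition of
the local diffeomorphisms `(y, u, n, t) ↦ (QQ y t, u, n)` (locally `fract y = y - m`; `QQ` is the
conjugate of `tanh (π((y-m-1/2) + i (t-1/2)))`, derivative nonzero), `(q, u, n) ↦ (Q1 u q, -u, n)`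
(for fixed `u` an isometry in `q`) and `(q, u, n) ↦ (Wq q, u, n)`.  Not in the lattice:
`|Re Wq| < 1/10`.

`near_open`: the set `{(y, t) : nearP σ y t}` is open, and every `(y, t)` with
`|t - 1/2| ≤ 1/20` ... outside it has a neighbourhood on which `‖QQ‖ > σ/80`: see `near_alt`.
-/

open scoped Manifold ContDiff Topology
open Complex (I)
open Set Filter

namespace Pool.Agent.CSG

/-- `T w = conj tanh (π w)` -/
noncomputable def GNear_T (w : ℂ) : ℂ :=
  (starRingEnd ℂ) ((Complex.exp (2 * Real.pi * w) - 1) / (Complex.exp (2 * Real.pi * w) + 1))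

theorem GNear_QQ (y t : ℝ) : QQ y t =
    GNear_T ((Int.fract y - 1 / 2 : ℝ) + (t - 1 / 2 : ℝ) * I) := rfl

theorem GNear_pi : (2 * Real.pi : ℂ) ≠ 0 := by
  have := Real.pi_ne_zero
  exact mul_ne_zero two_ne_zero (by exact_mod_cast this)

theorem GNear_im (w : ℂ) : (2 * Real.pi * w).im = 2 * Real.pi * w.im := by
  have : (2 * Real.pi * w : ℂ) = ((2 * Real.pi : ℝ) : ℂ) * w := by push_cast; ring
  rw [this, Complex.im_ofReal_mul]

theorem GNear_log_exp {w : ℂ} (h : |w.im| < 1 / 2) :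
    Complex.log (Complex.exp (2 * Real.pi * w)) = 2 * Real.pi * w := by
  rw [abs_lt] at h
  have hpi := Real.pi_pos
  apply Complex.log_exp
  · rw [GNear_im]; nlinarith
  · rw [GNear_im]; nlinarith

theorem GNear_add_ne {w : ℂ} (h : |w.im| < 1 / 2) :
    Complex.exp (2 * Real.pi * w) + 1 ≠ 0 := by
  intro h0
  have h1 : Complex.exp (2 * Real.pi * w) = -1 := eq_neg_of_add_eq_zero_left h0
  have h2 := GNear_log_exp h
  rw [h1, Complex.log_neg_one] at h2
  have h3 := congrArg Complex.im h2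
  rw [GNear_im] at h3
  have hpi := Real.pi_pos
  rw [abs_lt] at h
  simp at h3
  nlinarith

/-- the argument of the logarithm -/
theorem GNear_arg {q : ℂ} (h : ‖q‖ < 1 / 100) :
    1 - (starRingEnd ℂ) q ≠ 0 ∧ (1 + (starRingEnd ℂ) q) / (1 - (starRingEnd ℂ) q) =
      1 + 2 * (starRingEnd ℂ) q / (1 - (starRingEnd ℂ) q) ∧
      ‖2 * (starRingEnd ℂ) q / (1 - (starRingEnd ℂ) q)‖ < 1 / 40 := by
  have hc : ‖(starRingEnd ℂ) q‖ = ‖q‖ := RCLike.norm_conj q
  have h1 : 99 / 100 < ‖1 - (starRingEnd ℂ) q‖ := by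
    have := norm_sub_norm_le (1 : ℂ) ((starRingEnd ℂ) q)
    rw [norm_one, hc] at this
    linarith
  have h2 : 1 - (starRingEnd ℂ) q ≠ 0 := by
    rw [← norm_pos_iff]; linarith
  refine ⟨h2, ?_, ?_⟩
  · field_simp
    ring
  · rw [norm_div, norm_mul, hc, div_lt_iff₀ (by linarith)]
    have : ‖(2 : ℂ)‖ = 2 := by simp
    rw [this]
    linarith

theorem GNear_exp_Wq {q : ℂ} (h : ‖q‖ < 1 / 100) :
    Complex.exp (2 * Real.pi * Wq q) = (1 + (starRingEnd ℂ) q) / (1 - (starRingEnd ℂ) q) := by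
  obtain ⟨h1, h2, h3⟩ := GNear_arg h
  unfold Wq
  rw [mul_div_cancel₀ _ GNear_pi, Complex.exp_log]
  rw [h2]
  intro h0
  have : 2 * (starRingEnd ℂ) q / (1 - (starRingEnd ℂ) q) = -1 :=
    (neg_eq_of_add_eq_zero_right h0).symm
  rw [this, norm_neg, norm_one] at h3
  norm_num at h3

theorem GNear_T_Wq {q : ℂ} (h : ‖q‖ < 1 / 100) : GNear_T (Wq q) = q := by
  obtain ⟨h1, -, -⟩ := GNear_arg h
  unfold GNear_T
  rw [GNear_exp_Wq h]
  have e : ((1 + (starRingEnd ℂ) q) / (1 - (starRingEnd ℂ) q) - 1) /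
      ((1 + (starRingEnd ℂ) q) / (1 - (starRingEnd ℂ) q) + 1) = (starRingEnd ℂ) q := by
    have e1 : (1 + (starRingEnd ℂ) q) / (1 - (starRingEnd ℂ) q) - 1 =
        2 * (starRingEnd ℂ) q / (1 - (starRingEnd ℂ) q) := by field_simp; ring
    have e2 : (1 + (starRingEnd ℂ) q) / (1 - (starRingEnd ℂ) q) + 1 =
        2 / (1 - (starRingEnd ℂ) q) := by field_simp; ring
    rw [e1, e2]
    field_simp
  rw [e, Complex.conj_conj]

theorem GNear_Wq_T {w : ℂ} (h : |w.im| < 1 / 2) : Wq (GNear_T w) = w := by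
  unfold Wq GNear_T
  rw [Complex.conj_conj]
  have h1 := GNear_add_ne h
  set E := Complex.exp (2 * Real.pi * w) with hE
  have e1 : 1 + (E - 1) / (E + 1) = 2 * E / (E + 1) := by field_simp; ring
  have e2 : 1 - (E - 1) / (E + 1) = 2 / (E + 1) := by field_simp; ring
  have e3 : (1 + (E - 1) / (E + 1)) / (1 - (E - 1) / (E + 1)) = E := by
    rw [e1, e2]; field_simp
  rw [e3, hE, GNear_log_exp h, mul_div_cancel_left₀ _ GNear_pi]

/-- small `q` give `Wq` small -/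
theorem Wq_small {q : ℂ} (h : ‖q‖ < 1 / 100) : ‖Wq q‖ < 1 / 100 := by
  obtain ⟨h1, h2, h3⟩ := GNear_arg h
  unfold Wq
  rw [h2, norm_div]
  have h4 := Complex.norm_log_one_add_half_le_self
    (show ‖2 * (starRingEnd ℂ) q / (1 - (starRingEnd ℂ) q)‖ ≤ 1 / 2 by linarith)
  have h5 : ‖(2 * Real.pi : ℂ)‖ = 2 * Real.pi := by
    have : (2 * Real.pi : ℂ) = ((2 * Real.pi : ℝ) : ℂ) := by push_cast; ring
    rw [this, Complex.norm_real, Real.norm_of_nonneg (by positivity)]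
  have hpi := Real.pi_gt_three
  rw [h5, div_lt_iff₀ (by positivity)]
  linarith

theorem Wq_zero_iff {q : ℂ} (h : ‖q‖ < 1 / 100) : Wq q = 0 ↔ q = 0 := by
  constructor
  · intro h0
    have := GNear_T_Wq h
    rw [h0] at this
    rw [← this]
    simp [GNear_T]
  · rintro rfl
    simp [Wq]

theorem Wq_inj {q q' : ℂ} (h : ‖q‖ < 1 / 100) (h' : ‖q'‖ < 1 / 100) (he : Wq q = Wq q') :
    q = q' := by
  rw [← GNear_T_Wq h, ← GNear_T_Wq h', he]

theorem GNear_im' (a t : ℝ) : ((a : ℂ) + (t : ℂ) * I).im = t := by simp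

theorem GNear_re' (a t : ℝ) : ((a : ℂ) + (t : ℂ) * I).re = a := by simp

theorem Wq_QQ {y t : ℝ} (ht : |t - 1 / 2| < 1 / 20) (hy : |Int.fract y - 1 / 2| < 1 / 20) :
    Wq (QQ y t) = (Int.fract y - 1 / 2 : ℝ) + (t - 1 / 2 : ℝ) * I := by
  rw [GNear_QQ]
  apply GNear_Wq_T
  rw [GNear_im']
  linarith

/-- conversely every small `q` is `QQ` of a point near the puncture -/
theorem QQ_Wq {q : ℂ} (h : ‖q‖ < 1 / 100) : QQ (1 / 2 + (Wq q).re) (1 / 2 + (Wq q).im) = q := by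
  rw [GNear_QQ]
  have hs := Wq_small h
  have hre := (Complex.abs_re_le_norm (Wq q)).trans_lt hs
  rw [abs_lt] at hre
  have hf : Int.fract (1 / 2 + (Wq q).re) = 1 / 2 + (Wq q).re :=
    Int.fract_eq_self.2 ⟨by linarith, by linarith⟩
  rw [hf]
  have e : ((1 / 2 + (Wq q).re - 1 / 2 : ℝ) : ℂ) + ((1 / 2 + (Wq q).im - 1 / 2 : ℝ) : ℂ) * I =
      Wq q := by
    apply Complex.ext
    · rw [GNear_re']; ring
    · rw [GNear_im']; ring
  rw [e, GNear_T_Wq h]

theorem QQ_zero_iff {y t : ℝ} (ht : |t - 1 / 2| < 1 / 20) (hy : |Int.fract y - 1 / 2| < 1 / 20) :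
    QQ y t = 0 ↔ ¬ NP y t := by
  unfold NP
  rw [not_not]
  constructor
  · intro h
    have h1 := Wq_QQ ht hy
    rw [h] at h1
    have h2 : Wq 0 = 0 := by simp [Wq]
    rw [h2] at h1
    have h3 := congrArg Complex.re h1
    have h4 := congrArg Complex.im h1
    rw [GNear_re', Complex.zero_re] at h3
    rw [GNear_im', Complex.zero_im] at h4
    exact ⟨by linarith, by linarith⟩
  · rintro ⟨rfl, h⟩
    rw [GNear_QQ, h]
    simp [GNear_T]

theorem nearP_per (σ y t : ℝ) (m : ℤ) : nearP σ (y + m) t ↔ nearP σ y t := by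
  unfold nearP QQ Xi
  rw [Int.fract_add_intCast]

theorem GNear_T_cont {w : ℂ} (h : |w.im| < 1 / 2) : ContinuousAt GNear_T w := by
  unfold GNear_T
  have h1 := GNear_add_ne h
  have h2 : ContinuousAt (fun w : ℂ => Complex.exp (2 * Real.pi * w)) w := by fun_prop
  exact Complex.continuous_conj.continuousAt.comp
    ((h2.sub continuousAt_const).div (h2.add continuousAt_const) h1)

theorem nearP_open (σ : ℝ) (hσ : σ ≤ 1 / 4) : IsOpen {a : E3 × ℝ | nearP σ (a.1 0) a.2} := by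
  rw [isOpen_iff_mem_nhds]
  rintro ⟨x, t⟩ ⟨ht, hy, hq⟩
  simp only at ht hy hq
  have hne : x 0 ≠ (⌊x 0⌋ : ℤ) := by
    intro h
    have : Int.fract (x 0) = 0 := by rw [h, Int.fract_intCast]
    rw [this] at hy
    norm_num [abs_lt] at hy
  have hx0 : ContinuousAt (fun a : E3 × ℝ => a.1 0) (x, t) := by fun_prop
  have hfr : ContinuousAt (fun a : E3 × ℝ => Int.fract (a.1 0)) (x, t) :=
    ContinuousAt.comp (g := Int.fract) (f := fun a : E3 × ℝ => a.1 0)
      (continuousAt_fract hne) hx0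
  have ht' : ContinuousAt (fun a : E3 × ℝ => |a.2 - 1 / 2|) (x, t) := by fun_prop
  have hy' : ContinuousAt (fun a : E3 × ℝ => |Int.fract (a.1 0) - 1 / 2|) (x, t) :=
    (hfr.sub continuousAt_const).abs
  have hw : ContinuousAt (fun a : E3 × ℝ =>
      (((Int.fract (a.1 0) - 1 / 2 : ℝ) : ℂ) + ((a.2 - 1 / 2 : ℝ) : ℂ) * I)) (x, t) := by
    apply ContinuousAt.add
    · exact Complex.continuous_ofReal.continuousAt.comp (hfr.sub continuousAt_const)
    · apply ContinuousAt.mul _ continuousAt_const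
      exact Complex.continuous_ofReal.continuousAt.comp
        (continuousAt_snd.sub continuousAt_const)
  have hq' : ContinuousAt (fun a : E3 × ℝ => ‖QQ (a.1 0) a.2‖) (x, t) := by
    apply ContinuousAt.norm
    exact ContinuousAt.comp (g := GNear_T) (GNear_T_cont (by
      rw [GNear_im']; linarith)) hw
  filter_upwards [ht'.eventually (gt_mem_nhds ht), hy'.eventually (gt_mem_nhds hy),
    hq'.eventually (gt_mem_nhds hq)] with a h1 h2 h3
  exact ⟨h1, h2, h3⟩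

/-- at a point which is not near the puncture, nearby points satisfy `NP` -/
theorem NP_of_not_near {σ y t : ℝ} (hσ : 0 < σ) (h : ¬ nearP σ y t) : NP y t := by
  by_contra hn
  apply h
  have hn' := hn
  unfold NP at hn'
  rw [not_not] at hn'
  obtain ⟨rfl, hf⟩ := hn'
  have h1 : |(1 / 2 : ℝ) - 1 / 2| < 1 / 20 := by norm_num
  have h2 : |Int.fract y - 1 / 2| < 1 / 20 := by rw [hf]; norm_num
  refine ⟨h1, h2, ?_⟩
  rw [(QQ_zero_iff h1 h2).2 hn, norm_zero]
  positivity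

/-! ### The local diffeomorphism -/

/-- the map in the coordinate `w` -/
noncomputable def GNear_M (u : ℝ) (w : ℂ) : ℂ := Wq (Q1 u (GNear_T w))

theorem GNear_Q1_norm (u : ℝ) (q : ℂ) : ‖Q1 u q‖ = ‖q‖ := by
  unfold Q1
  rw [norm_neg, norm_mul, Complex.norm_exp_ofReal_mul_I, mul_one, RCLike.norm_conj]

theorem GNear_Q1_Q1 (u : ℝ) (q : ℂ) : Q1 u (Q1 u q) = q := by
  unfold Q1
  have e : (starRingEnd ℂ) (Complex.exp ((4 * Real.pi * u : ℝ) * I)) =
      Complex.exp (-((4 * Real.pi * u : ℝ) * I)) := by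
    rw [← Complex.exp_conj]
    congr 1
    rw [map_mul, Complex.conj_ofReal, Complex.conj_I]
    ring
  rw [map_neg, map_mul, Complex.conj_conj, e]
  have e2 : Complex.exp (-((4 * Real.pi * u : ℝ) * I)) * Complex.exp ((4 * Real.pi * u : ℝ) * I) =
      1 := by
    rw [← Complex.exp_add, neg_add_cancel, Complex.exp_zero]
  calc -(-(q * Complex.exp (-((4 * Real.pi * u : ℝ) * I))) *
        Complex.exp ((4 * Real.pi * u : ℝ) * I))
      = q * (Complex.exp (-((4 * Real.pi * u : ℝ) * I)) *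
        Complex.exp ((4 * Real.pi * u : ℝ) * I)) := by ring
    _ = q := by rw [e2, mul_one]

theorem GNear_M_M {u : ℝ} {w : ℂ} (h : |w.im| < 1 / 2) (hq : ‖GNear_T w‖ < 1 / 100) :
    GNear_M u (GNear_M u w) = w := by
  unfold GNear_M
  rw [GNear_T_Wq (by rw [GNear_Q1_norm]; exact hq), GNear_Q1_Q1, GNear_Wq_T h]

/-- the domain of `M` -/
def GNear_dom : Set (ℝ × ℂ) := {a | |a.2.im| < 1 / 2 ∧ ‖GNear_T a.2‖ < 1 / 100}

theorem GNear_dom_open : IsOpen GNear_dom := by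
  rw [isOpen_iff_mem_nhds]
  rintro ⟨u, w⟩ ⟨h1, h2⟩
  simp only at h1 h2
  have h3 : ContinuousAt (fun a : ℝ × ℂ => |a.2.im|) (u, w) := by fun_prop
  have h4 : ContinuousAt (fun a : ℝ × ℂ => ‖GNear_T a.2‖) (u, w) :=
    (ContinuousAt.comp (g := GNear_T) (f := fun a : ℝ × ℂ => a.2) (GNear_T_cont h1)
      continuousAt_snd).norm
  filter_upwards [h3.eventually (gt_mem_nhds h1), h4.eventually (gt_mem_nhds h2)] with a h5 h6
  exact ⟨h5, h6⟩

theorem GNear_conj_smooth : ContDiff ℝ ∞ (fun z : ℂ => (starRingEnd ℂ) z) :=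
  Complex.conjCLE.contDiff

theorem GNear_T_smooth {w : ℂ} (h : |w.im| < 1 / 2) : ContDiffAt ℝ ∞ GNear_T w := by
  have h1 := GNear_add_ne h
  have h2 : ContDiffAt ℝ ∞ (fun w : ℂ => Complex.exp (2 * Real.pi * w)) w :=
    (Complex.contDiff_exp.comp (contDiff_const.mul contDiff_id)).contDiffAt
  have h3 : ContDiffAt ℝ ∞ (fun w : ℂ => (Complex.exp (2 * Real.pi * w) - 1) *
      (Complex.exp (2 * Real.pi * w) + 1)⁻¹) w :=
    (h2.sub contDiffAt_const).mul ((h2.add contDiffAt_const).inv h1)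
  exact GNear_conj_smooth.contDiffAt.comp w h3

theorem GNear_Wq_smooth {q : ℂ} (h : ‖q‖ < 1 / 100) : ContDiffAt ℝ ∞ Wq q := by
  obtain ⟨h1, h2, h3⟩ := GNear_arg h
  have h4 : ContDiffAt ℝ ∞ (fun q : ℂ => (starRingEnd ℂ) q) q := GNear_conj_smooth.contDiffAt
  have h5 : ContDiffAt ℝ ∞
      (fun q : ℂ => (1 + (starRingEnd ℂ) q) * (1 - (starRingEnd ℂ) q)⁻¹) q :=
    (contDiffAt_const.add h4).mul ((contDiffAt_const.sub h4).inv h1)
  have h6 : (1 + (starRingEnd ℂ) q) / (1 - (starRingEnd ℂ) q) ∈ Complex.slitPlane := by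
    rw [h2]
    apply Complex.mem_slitPlane_of_norm_lt_one
    linarith
  have h7 : ContDiffAt ℝ ∞
      (fun q : ℂ => Complex.log ((1 + (starRingEnd ℂ) q) * (1 - (starRingEnd ℂ) q)⁻¹)) q :=
    ContDiffAt.comp (g := Complex.log)
      (f := fun q : ℂ => (1 + (starRingEnd ℂ) q) * (1 - (starRingEnd ℂ) q)⁻¹) q
      ((Complex.contDiffAt_log (by rw [div_eq_mul_inv] at h6; exact h6)).restrict_scalars ℝ) h5
  exact h7.div_const _

theorem GNear_Q1_smooth : ContDiff ℝ ∞ (fun a : ℝ × ℂ => Q1 a.1 a.2) := by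
  unfold Q1
  apply ContDiff.neg
  apply ContDiff.mul
  · exact GNear_conj_smooth.comp contDiff_snd
  · apply Complex.contDiff_exp.comp
    apply ContDiff.mul _ contDiff_const
    exact Complex.ofRealCLM.contDiff.comp (contDiff_const.mul contDiff_fst)

theorem GNear_M_smooth {a : ℝ × ℂ} (h : a ∈ GNear_dom) :
    ContDiffAt ℝ ∞ (fun a : ℝ × ℂ => GNear_M a.1 a.2) a := by
  have h1 : ContDiffAt ℝ ∞ (fun a : ℝ × ℂ => (a.1, GNear_T a.2)) a :=
    contDiffAt_fst.prodMk ((GNear_T_smooth h.1).comp a contDiffAt_snd)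
  have h2 : ContDiffAt ℝ ∞ (fun a : ℝ × ℂ => Q1 a.1 (GNear_T a.2)) a :=
    ContDiffAt.comp (g := fun b : ℝ × ℂ => Q1 b.1 b.2)
      (f := fun a : ℝ × ℂ => (a.1, GNear_T a.2)) a GNear_Q1_smooth.contDiffAt h1
  exact ContDiffAt.comp (g := Wq) (f := fun a : ℝ × ℂ => Q1 a.1 (GNear_T a.2)) a
    (GNear_Wq_smooth (by rw [GNear_Q1_norm]; exact h.2)) h2

/-- the transition map: `w(y,t) ↦ M u w` -/
noncomputable def GNear_Phi (m : ℝ) (a : E3 × ℝ) : ℝ × ℝ × ℝ × ℝ :=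
  (1 / 2 + (GNear_M (a.1 1) ((a.1 0 - m - 1 / 2 : ℝ) + (a.2 - 1 / 2 : ℝ) * I)).re, -a.1 1, a.1 2,
    1 / 2 + (GNear_M (a.1 1) ((a.1 0 - m - 1 / 2 : ℝ) + (a.2 - 1 / 2 : ℝ) * I)).im)

noncomputable def GNear_Psi (m : ℝ) (b : ℝ × ℝ × ℝ × ℝ) : E3 × ℝ :=
  (pt (m + 1 / 2 + (GNear_M (-b.2.1) ((b.1 - 1 / 2 : ℝ) + (b.2.2.2 - 1 / 2 : ℝ) * I)).re)
    (-b.2.1) b.2.2.1,
    1 / 2 + (GNear_M (-b.2.1) ((b.1 - 1 / 2 : ℝ) + (b.2.2.2 - 1 / 2 : ℝ) * I)).im)

/-- the coordinates `(u, w)` -/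
noncomputable def GNear_c (m : ℝ) (a : E3 × ℝ) : ℝ × ℂ :=
  (a.1 1, (a.1 0 - m - 1 / 2 : ℝ) + (a.2 - 1 / 2 : ℝ) * I)

noncomputable def GNear_d (b : ℝ × ℝ × ℝ × ℝ) : ℝ × ℂ :=
  (-b.2.1, (b.1 - 1 / 2 : ℝ) + (b.2.2.2 - 1 / 2 : ℝ) * I)

theorem GNear_coord (i : Fin 3) : ContDiff ℝ ∞ (fun a : E3 × ℝ => a.1 i) :=
  (EuclideanSpace.proj (𝕜 := ℝ) i).contDiff.comp contDiff_fst

theorem GNear_c_smooth (m : ℝ) : ContDiff ℝ ∞ (GNear_c m) := by
  unfold GNear_c
  apply ContDiff.prodMk (GNear_coord 1)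
  apply ContDiff.add
  · exact Complex.ofRealCLM.contDiff.comp
      (((GNear_coord 0).sub contDiff_const).sub contDiff_const)
  · apply ContDiff.mul _ contDiff_const
    exact Complex.ofRealCLM.contDiff.comp (contDiff_snd.sub contDiff_const)

theorem GNear_d_smooth : ContDiff ℝ ∞ GNear_d := by
  unfold GNear_d
  apply ContDiff.prodMk
  · exact (contDiff_fst.comp contDiff_snd).neg
  apply ContDiff.add
  · exact Complex.ofRealCLM.contDiff.comp (contDiff_fst.sub contDiff_const)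
  · apply ContDiff.mul _ contDiff_const
    exact Complex.ofRealCLM.contDiff.comp
      ((contDiff_snd.comp (contDiff_snd.comp contDiff_snd)).sub contDiff_const)

theorem GNear_Phi_smooth (m : ℝ) {a : E3 × ℝ} (h : GNear_c m a ∈ GNear_dom) :
    ContDiffAt ℝ ∞ (GNear_Phi m) a := by
  have h1 : ContDiffAt ℝ ∞ (fun a : E3 × ℝ => GNear_M (GNear_c m a).1 (GNear_c m a).2) a :=
    ContDiffAt.comp (g := fun b : ℝ × ℂ => GNear_M b.1 b.2) (f := GNear_c m) a
      (GNear_M_smooth h) (GNear_c_smooth m).contDiffAt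
  have h2 : ContDiffAt ℝ ∞ (fun a : E3 × ℝ => (GNear_M (GNear_c m a).1 (GNear_c m a).2).re) a :=
    Complex.reCLM.contDiff.contDiffAt.comp a h1
  have h3 : ContDiffAt ℝ ∞ (fun a : E3 × ℝ => (GNear_M (GNear_c m a).1 (GNear_c m a).2).im) a :=
    Complex.imCLM.contDiff.contDiffAt.comp a h1
  exact (contDiffAt_const.add h2).prodMk ((GNear_coord 1).contDiffAt.neg.prodMk
    ((GNear_coord 2).contDiffAt.prodMk (contDiffAt_const.add h3)))

theorem GNear_pt_smooth : ContDiff ℝ ∞ (fun b : ℝ × ℝ × ℝ => pt b.1 b.2.1 b.2.2) := by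
  rw [contDiff_euclidean]
  intro i
  fin_cases i
  · simp only [Fin.zero_eta, pt_zero']
    exact contDiff_fst
  · simp only [Fin.mk_one, pt_one']
    exact contDiff_fst.comp contDiff_snd
  · simp only [Fin.reduceFinMk, pt_two']
    exact contDiff_snd.comp contDiff_snd

theorem GNear_Psi_smooth (m : ℝ) {b : ℝ × ℝ × ℝ × ℝ} (h : GNear_d b ∈ GNear_dom) :
    ContDiffAt ℝ ∞ (GNear_Psi m) b := by
  have h1 : ContDiffAt ℝ ∞ (fun b : ℝ × ℝ × ℝ × ℝ => GNear_M (GNear_d b).1 (GNear_d b).2) b :=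
    ContDiffAt.comp (g := fun b : ℝ × ℂ => GNear_M b.1 b.2) (f := GNear_d) b
      (GNear_M_smooth h) GNear_d_smooth.contDiffAt
  have h2 : ContDiffAt ℝ ∞
      (fun b : ℝ × ℝ × ℝ × ℝ => (GNear_M (GNear_d b).1 (GNear_d b).2).re) b :=
    Complex.reCLM.contDiff.contDiffAt.comp b h1
  have h3 : ContDiffAt ℝ ∞
      (fun b : ℝ × ℝ × ℝ × ℝ => (GNear_M (GNear_d b).1 (GNear_d b).2).im) b :=
    Complex.imCLM.contDiff.contDiffAt.comp b h1
  have h4 : ContDiffAt ℝ ∞ (fun b : ℝ × ℝ × ℝ × ℝ =>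
      (m + 1 / 2 + (GNear_M (GNear_d b).1 (GNear_d b).2).re, -b.2.1, b.2.2.1)) b :=
    (contDiffAt_const.add h2).prodMk ((contDiff_fst.comp contDiff_snd).neg.contDiffAt.prodMk
      (contDiff_fst.comp (contDiff_snd.comp contDiff_snd)).contDiffAt)
  have h5 := ContDiffAt.comp (g := fun b : ℝ × ℝ × ℝ => pt b.1 b.2.1 b.2.2)
    (f := fun b : ℝ × ℝ × ℝ × ℝ =>
      (m + 1 / 2 + (GNear_M (GNear_d b).1 (GNear_d b).2).re, -b.2.1, b.2.2.1)) b
    GNear_pt_smooth.contDiffAt h4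
  exact h5.prodMk (contDiffAt_const.add h3)

theorem GNear_d_Phi (m : ℝ) (a : E3 × ℝ) : GNear_d (GNear_Phi m a) =
    ((GNear_c m a).1, GNear_M (GNear_c m a).1 (GNear_c m a).2) := by
  unfold GNear_d GNear_Phi GNear_c
  simp only [neg_neg]
  congr 1
  apply Complex.ext
  · rw [GNear_re']; ring
  · rw [GNear_im']; ring

theorem GNear_Psi_Phi (m : ℝ) {a : E3 × ℝ} (h : GNear_c m a ∈ GNear_dom) :
    GNear_Psi m (GNear_Phi m a) = a := by
  have h1 : GNear_Psi m (GNear_Phi m a) =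
      (pt (m + 1 / 2 + (GNear_M (GNear_d (GNear_Phi m a)).1 (GNear_d (GNear_Phi m a)).2).re)
        (-(GNear_Phi m a).2.1) (GNear_Phi m a).2.2.1,
      1 / 2 + (GNear_M (GNear_d (GNear_Phi m a)).1 (GNear_d (GNear_Phi m a)).2).im) := rfl
  rw [h1, GNear_d_Phi]
  simp only
  rw [GNear_M_M h.1 h.2]
  unfold GNear_c GNear_Phi
  simp only [neg_neg]
  rw [GNear_re', GNear_im']
  have e1 : m + 1 / 2 + (a.1 0 - m - 1 / 2) = a.1 0 := by ring
  have e2 : 1 / 2 + (a.2 - 1 / 2) = a.2 := by ring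
  rw [e1, e2, pt_eta]

theorem GNear_M_dom {u : ℝ} {w : ℂ} (hq : ‖GNear_T w‖ < 1 / 100) :
    (u, GNear_M u w) ∈ GNear_dom := by
  have h1 : ‖Q1 u (GNear_T w)‖ < 1 / 100 := by rw [GNear_Q1_norm]; exact hq
  constructor
  · show |(GNear_M u w).im| < 1 / 2
    have h2 := (Complex.abs_im_le_norm (GNear_M u w)).trans_lt (Wq_small h1)
    linarith
  · show ‖GNear_T (GNear_M u w)‖ < 1 / 100
    unfold GNear_M
    rw [GNear_T_Wq h1]
    exact h1

theorem GNear_Phi_ld (m : ℝ) {a : E3 × ℝ} (h : GNear_c m a ∈ GNear_dom) :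
    IsLocalDiffeomorphAt 𝓘(ℝ, E3 × ℝ) 𝓘(ℝ, ℝ × ℝ × ℝ × ℝ) ∞ (GNear_Phi m) a := by
  have hev : ∀ᶠ b in 𝓝 a, GNear_c m b ∈ GNear_dom :=
    (GNear_c_smooth m).continuous.continuousAt.eventually_mem (GNear_dom_open.mem_nhds h)
  apply ld_of_fderiv
  · filter_upwards [hev] with b hb
    exact GNear_Phi_smooth m hb
  · simp
  · intro v hv
    have hd : GNear_d (GNear_Phi m a) ∈ GNear_dom := by
      rw [GNear_d_Phi]
      exact GNear_M_dom h.2
    have h1 : DifferentiableAt ℝ (GNear_Phi m) a :=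
      (GNear_Phi_smooth m h).differentiableAt (by simp)
    have h2 : DifferentiableAt ℝ (GNear_Psi m) (GNear_Phi m a) :=
      (GNear_Psi_smooth m hd).differentiableAt (by simp)
    have h3 : (GNear_Psi m ∘ GNear_Phi m) =ᶠ[𝓝 a] id := by
      filter_upwards [hev] with b hb
      exact GNear_Psi_Phi m hb
    have h4 : fderiv ℝ (GNear_Psi m ∘ GNear_Phi m) a v = v := by
      rw [h3.fderiv_eq, fderiv_id]
      rfl
    rw [fderiv_comp a h2 h1] at h4
    rw [← h4]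
    show fderiv ℝ (GNear_Psi m) (GNear_Phi m a) (fderiv ℝ (GNear_Phi m) a v) = 0
    rw [hv, map_zero]

/-! ### The overlap -/

theorem GNear_not_int {y u n : ℝ} (h : |y - 1 / 2| < 1 / 20) : ¬ IsLat (pt y u n) := by
  rw [isLat_pt]
  rintro ⟨⟨m, hm⟩, -⟩
  rw [abs_lt] at h
  have h1 : (0 : ℝ) < m := by linarith
  have h2 : (m : ℝ) < 1 := by linarith
  have h3 : (0 : ℤ) < m := by exact_mod_cast h1
  have h4 : m < (1 : ℤ) := by exact_mod_cast h2
  omega

theorem GNear_not_int' {y u n : ℝ} (h : |Int.fract y - 1 / 2| < 1 / 20) :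
    ¬ IsLat (pt y u n) := by
  rw [isLat_pt]
  rintro ⟨⟨m, hm⟩, -⟩
  rw [hm, Int.fract_intCast] at h
  norm_num [abs_lt] at h

theorem GNear_Wq_inv {p : ℂ} (h : 9 ≤ ‖p‖) :
    Wq (1 / p) = (py p - 1 / 2 : ℝ) + (pm p - 1 / 2 : ℝ) * I := by
  obtain ⟨h1, h2, h3, -⟩ := far h
  have hp : p ≠ 0 := by
    intro h0
    rw [h0, norm_zero] at h
    norm_num at h
  have hcp : (starRingEnd ℂ) p ≠ 0 := by
    intro h0
    apply hp
    have := congrArg (starRingEnd ℂ) h0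
    rwa [Complex.conj_conj, map_zero] at this
  have hc : (1 + (starRingEnd ℂ) (1 / p)) / (1 - (starRingEnd ℂ) (1 / p)) = xi p := by
    unfold xi
    rw [map_div₀, map_one]
    by_cases h1 : (starRingEnd ℂ) p - 1 = 0
    · have : (starRingEnd ℂ) p = 1 := by linear_combination h1
      rw [this]
      simp
    · field_simp
  unfold Wq
  rw [hc, h3, GNear_log_exp (by rw [GNear_im']; linarith), mul_div_cancel_left₀ _ GNear_pi]

section
variable {X : Type*} [TopologicalSpace X] [ChartedSpace E4 X] {φ κ : Equiv.Perm E3}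
  {δ ε : ℝ} {k : ℤ}

theorem NN_ld (S : Surg φ X) {σ : ℝ} (h0 : 0 < σ) (h1 : σ ≤ 1 / 4) {x : E3} {t : ℝ}
    (h : nearP σ (x 0) t) :
    IsLocalDiffeomorphAt 𝓘(ℝ, E3 × ℝ) (𝓡 4) ∞ (fun a : E3 × ℝ => NN S a.1 a.2) (x, t) := by
  obtain ⟨ht, hy, hq⟩ := h
  set m : ℤ := ⌊x 0⌋ with hm
  have hfr : Int.fract (x 0) = x 0 - m := by rw [hm]; rfl
  have hy' := hy
  rw [abs_lt, hfr] at hy'
  have hcx : GNear_c m (x, t) ∈ GNear_dom := by
    constructor
    · show |(((x 0 - m - 1 / 2 : ℝ) : ℂ) + ((t - 1 / 2 : ℝ) : ℂ) * I).im| < 1 / 2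
      rw [GNear_im']; linarith
    · show ‖GNear_T (((x 0 - m - 1 / 2 : ℝ) : ℂ) + ((t - 1 / 2 : ℝ) : ℂ) * I)‖ < 1 / 100
      rw [← hfr, ← GNear_QQ]
      linarith
  have hld := ld_H S (GNear_Phi_ld m hcx) (by
    apply GNear_not_int
    show |1 / 2 + (GNear_M (x 1) (((x 0 - m - 1 / 2 : ℝ) : ℂ) + ((t - 1 / 2 : ℝ) : ℂ) * I)).re
      - 1 / 2| < 1 / 20
    have h5 : ‖Q1 (x 1) (GNear_T (((x 0 - m - 1 / 2 : ℝ) : ℂ) + ((t - 1 / 2 : ℝ) : ℂ) * I))‖
        < 1 / 100 := by rw [GNear_Q1_norm]; exact hcx.2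
    have h6 := (Complex.abs_re_le_norm
      (GNear_M (x 1) (((x 0 - m - 1 / 2 : ℝ) : ℂ) + ((t - 1 / 2 : ℝ) : ℂ) * I))).trans_lt
      (Wq_small h5)
    rw [add_sub_cancel_left]
    linarith)
  apply ld_congr hld
  have hfloor : ∀ᶠ a : E3 × ℝ in 𝓝 (x, t), Int.fract (a.1 0) = a.1 0 - m := by
    have hc : ContinuousAt (fun a : E3 × ℝ => a.1 0) (x, t) := by fun_prop
    filter_upwards [hc.eventually (lt_mem_nhds (show (m : ℝ) < x 0 by linarith)),
      hc.eventually (gt_mem_nhds (show x 0 < (m : ℝ) + 1 by linarith))] with a ha1 ha2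
    have : ⌊a.1 0⌋ = m := Int.floor_eq_iff.2 ⟨ha1.le, ha2⟩
    rw [← this]
    rfl
  filter_upwards [hfloor] with a ha
  unfold NN GNear_Phi GNear_M
  rw [GNear_QQ, ha]

theorem overlap [T2Space X] {S : Surg φ X} (N : Nrm S κ δ ε k) {σ : ℝ} (h0 : 0 < σ)
    (h1 : σ ≤ 1 / 4) {Γ : Equiv.Perm X} (hΓ : IsGam S σ Γ) {x : E3} {t : ℝ}
    (h : nearP σ (x 0) t) (hn : NP (x 0) t) : Γ (K2 S x t) = NN S x t := by
  obtain ⟨ht, hy, hq⟩ := h
  set q := QQ (x 0) t with hqd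
  have hq0 : q ≠ 0 := by
    intro h
    exact ((QQ_zero_iff ht hy).1 h) hn
  have hqn : 0 < ‖q‖ := norm_pos_iff.2 hq0
  set p := 1 / q with hp
  have hpn : 40 / σ ≤ ‖p‖ := by
    rw [hp, norm_div, norm_one, div_le_div_iff₀ h0 hqn]
    linarith
  have h160 : 9 ≤ ‖p‖ := by
    refine le_trans ?_ hpn
    rw [le_div_iff₀ h0]
    linarith
  have hp0 : p ≠ 0 := by
    rw [hp]
    exact one_div_ne_zero hq0
  have hqp : 1 / p = q := by rw [hp, one_div_one_div]
  -- position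
  have hW := GNear_Wq_inv h160
  rw [hqp, hqd, Wq_QQ ht hy] at hW
  have hre := congrArg Complex.re hW
  have him := congrArg Complex.im hW
  rw [GNear_re', GNear_re'] at hre
  rw [GNear_im', GNear_im'] at him
  have hpy : py p = Int.fract (x 0) := by linarith
  have hpm : pm p = t := by linarith
  obtain ⟨-, -, -, c, hc, hFF⟩ := far h160
  obtain ⟨a, c', hc', ha⟩ := exists_dir (om := -I * p)
    (mul_ne_zero (neg_ne_zero.2 Complex.I_ne_zero) hp0)
  have hFFx : FF (x 0) t = c * (-I * p) := by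
    have e : x 0 = Int.fract (x 0) + (⌊x 0⌋ : ℤ) := (Int.fract_add_floor (x 0)).symm
    rw [e, FF_per, ← hpy, ← hpm]
    exact hFF
  -- the first formula
  have hK2 : K2 S x t = S.H (pt (x 0) (2 * a + x 1) (x 2), t) := by
    unfold K2
    rw [hFFx, ha]
    have e : ((c : ℂ) * ((c' : ℂ) * Complex.exp ((2 * Real.pi * a : ℝ) * I))) ^ 2 *
        Complex.exp ((2 * Real.pi * x 1 : ℝ) * I) =
        (((c * c') ^ 2 : ℝ) : ℂ) * Complex.exp ((2 * Real.pi * (2 * a + x 1) : ℝ) * I) := by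
      have e2 : Complex.exp ((2 * Real.pi * (2 * a + x 1) : ℝ) * I) =
          Complex.exp ((2 * Real.pi * a : ℝ) * I) ^ 2 *
          Complex.exp ((2 * Real.pi * x 1 : ℝ) * I) := by
        rw [← Complex.exp_nat_mul, ← Complex.exp_add]
        congr 1
        push_cast
        ring
      rw [e2]
      push_cast
      ring
    rw [e, HH_smul S _ _ _ _ _ (by positivity), HH_exp S _ (GNear_not_int' hy)]
  have hper : S.H (pt (x 0) (2 * a + x 1) (x 2), t) =
      S.H (pt (py p) (2 * a + x 1) (x 2), t) := by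
    have hnl : ¬ IsLat (pt (py p) (2 * a + x 1) (x 2)) := by
      apply GNear_not_int
      rw [hpy]; exact hy
    have := S.H_per (pt (py p) (2 * a + x 1) (x 2)) t ![⌊x 0⌋, 0, 0] hnl
    rw [← this, pt_add_vec]
    congr 3
    · rw [hpy]
      simp
    · simp
    · simp
  have hKK : ∀ (p' : ℂ) (c₁ b s n : ℝ), 9 ≤ ‖p'‖ → 0 < c₁ →
      -I * p' = c₁ * Complex.exp ((2 * Real.pi * b : ℝ) * I) →
      KK S (pt (py p') s n) (pm p') = S.H (pt (py p') (b + s) n, pm p') := by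
    intro p' c₁ b s n hp' hc₁ hb
    obtain ⟨h3, -, -, c₂, hc₂, hF⟩ := far hp'
    unfold KK
    simp only [pt_zero', pt_one', pt_two']
    rw [hF, hb]
    have e : (c₂ : ℂ) * ((c₁ : ℂ) * Complex.exp ((2 * Real.pi * b : ℝ) * I)) *
        Complex.exp ((2 * Real.pi * s : ℝ) * I) =
        ((c₂ * c₁ : ℝ) : ℂ) * Complex.exp ((2 * Real.pi * (b + s) : ℝ) * I) := by
      have e2 : Complex.exp ((2 * Real.pi * (b + s) : ℝ) * I) =
          Complex.exp ((2 * Real.pi * b : ℝ) * I) * Complex.exp ((2 * Real.pi * s : ℝ) * I) := by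
        rw [← Complex.exp_add]
        congr 1
        push_cast
        ring
      rw [e2]
      push_cast
      ring
    rw [e, HH_smul S _ _ _ _ _ (by positivity), HH_exp S _ (GNear_not_int h3)]
  have hfirst : K2 S x t = KK S (pt (py p) (a + x 1) (x 2)) (pm p) := by
    rw [hK2, hper, hKK p c' a (a + x 1) (x 2) h160 hc' ha, hpm]
    congr 3
    ring
  rw [hfirst, hΓ.far _ _ _ hpn]
  set p' := Complex.exp ((-(4 * Real.pi * (a + x 1)) : ℝ) * I) * p with hp'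
  have hp'n : ‖p'‖ = ‖p‖ := by
    rw [hp', norm_mul, Complex.norm_exp_ofReal_mul_I, one_mul]
  have hb : -I * p' = c' * Complex.exp ((2 * Real.pi * (-a - 2 * x 1) : ℝ) * I) := by
    have e : -I * p' = Complex.exp ((-(4 * Real.pi * (a + x 1)) : ℝ) * I) * (-I * p) := by
      rw [hp']; ring
    rw [e, ha]
    have e2 : Complex.exp ((2 * Real.pi * (-a - 2 * x 1) : ℝ) * I) =
        Complex.exp ((-(4 * Real.pi * (a + x 1)) : ℝ) * I) *
        Complex.exp ((2 * Real.pi * a : ℝ) * I) := by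
      rw [← Complex.exp_add]
      congr 1
      push_cast
      ring
    rw [e2]
    ring
  rw [hKK p' c' (-a - 2 * x 1) (a + x 1) (x 2) (by rw [hp'n]; exact h160) hc' hb]
  -- the formula for `NN`
  have hQ : Q1 (x 1) q = 1 / p' := by
    have e1 : q = -I * Complex.exp ((-(2 * Real.pi * a) : ℝ) * I) / c' := by
      have e2 : p = I * (c' * Complex.exp ((2 * Real.pi * a : ℝ) * I)) := by
        rw [← ha]
        ring_nf
        rw [Complex.I_sq]
        ring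
      have e3 : Complex.exp ((-(2 * Real.pi * a) : ℝ) * I) *
          Complex.exp ((2 * Real.pi * a : ℝ) * I) = 1 := by
        rw [← Complex.exp_add, ← Complex.exp_zero]
        congr 1
        push_cast
        ring
      have hc'' : (c' : ℂ) ≠ 0 := by exact_mod_cast hc'.ne'
      rw [← hqp, one_div, inv_eq_of_mul_eq_one_right]
      rw [e2]
      field_simp
      calc _ = -(I ^ 2) * (Complex.exp ((-(2 * Real.pi * a) : ℝ) * I) *
          Complex.exp ((2 * Real.pi * a : ℝ) * I)) := by ring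
        _ = 1 := by rw [e3, Complex.I_sq]; ring
    have e4 : (starRingEnd ℂ) q = I * Complex.exp ((2 * Real.pi * a : ℝ) * I) / c' := by
      rw [e1, map_div₀, map_mul, map_neg, Complex.conj_I, Complex.conj_ofReal, ← Complex.exp_conj,
        map_mul, Complex.conj_ofReal, Complex.conj_I, neg_neg]
      congr 3
      push_cast
      ring
    have e5 : 1 / p' = Complex.exp ((4 * Real.pi * (a + x 1) : ℝ) * I) * q := by
      rw [hp', one_div, mul_inv, ← Complex.exp_neg, ← one_div p, hqp]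
      congr 2
      push_cast
      ring
    rw [e5]
    unfold Q1
    rw [e4, e1]
    have e6 : Complex.exp ((4 * Real.pi * (a + x 1) : ℝ) * I) *
        Complex.exp ((-(2 * Real.pi * a) : ℝ) * I) =
        Complex.exp ((2 * Real.pi * a : ℝ) * I) * Complex.exp ((4 * Real.pi * x 1 : ℝ) * I) := by
      rw [← Complex.exp_add, ← Complex.exp_add]
      congr 1
      push_cast
      ring
    calc -(I * Complex.exp ((2 * Real.pi * a : ℝ) * I) / c' *
          Complex.exp ((4 * Real.pi * x 1 : ℝ) * I))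
        = -I / c' * (Complex.exp ((2 * Real.pi * a : ℝ) * I) *
          Complex.exp ((4 * Real.pi * x 1 : ℝ) * I)) := by ring
      _ = _ := by rw [← e6]; ring
  unfold NN
  rw [← hqd, hQ, GNear_Wq_inv (by rw [hp'n]; exact h160), GNear_re', GNear_im']
  congr 3 <;> ring

end

end Pool.Agent.CSG
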