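import Pool.Agent.CSG.GNear

/-!
# CSG/GProp: properties of `K2` and `GG`

`K2 S (pt y u n) t = KK S (pt y (u + a) n) t` if `FF y t = c exp (2πia)`, `c > 0`.
* `K2_side`: as `KK_side` (`FF > 0`).
* `K2_hi`: `t ≥ 3/5`: `K2 S x t = H (x, t)`.
* `K2_lo`: `t ≤ 2/5`: `K2 S x t = H (sh (fun y _ => 2 lam y) x, t)`.
* `K2_loc`, `K2_per`, `K2_inj`, `K2_notT`, `K2_cover` follow from those of `KK`.
* `GG_eq`: for `NP (x 0) t` always `GG = Γ (K2 S x t)` (`overlap`).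
* `GG_loc`: near a point with `NP (x 0) t` (an open condition on `(x,t)`, as `FF` ... or directly)
  `GG = Γ ∘ K2`; at a puncture `GG = NN` nearby (`nearP_open`).
* `GG_T`: at a puncture `QQ = 0`, `NN S x (1/2) = H (pt (1/2) (-x 1) (x 2), 1/2) ∈ TT`; if `NP`,
  `GG = Γ (K2 ..) ∉ TT` as `Γ` preserves `TT` and its complement.
-/

open scoped Manifold ContDiff Topology
open Complex (I)
open Set Filter

namespace Pool.Agent.CSG

section
variable {X : Type*} [TopologicalSpace X] [ChartedSpace E4 X] {φ κ : Equiv.Perm E3}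
  {δ ε : ℝ} {k : ℤ}

theorem GProp_dir_uniq {c c' a a' : ℝ} (hc : 0 < c) (hc' : 0 < c')
    (h : (c : ℂ) * Complex.exp ((2 * Real.pi * a : ℝ) * I) =
      c' * Complex.exp ((2 * Real.pi * a' : ℝ) * I)) : ∃ m : ℤ, a' = a + m := by
  have hn : c = c' := by
    have h1 := congrArg (fun z : ℂ => ‖z‖) h
    simp only [norm_mul, Complex.norm_exp_ofReal_mul_I, mul_one, Complex.norm_real,
      Real.norm_of_nonneg hc.le, Real.norm_of_nonneg hc'.le] at h1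
    exact h1
  rw [hn] at h
  have hc0 : (c' : ℂ) ≠ 0 := by exact_mod_cast hc'.ne'
  exact exp_eq_iff.1 (mul_left_cancel₀ hc0 h)

theorem GProp_int {y t a c : ℝ} (hc : 0 < c)
    (h : FF y t = c * Complex.exp ((2 * Real.pi * a : ℝ) * I)) (hy : ∃ m : ℤ, y = m) :
    ∃ k : ℤ, a = k := by
  obtain ⟨m, hm⟩ := hy
  have hfr : Int.fract y ≤ 3 / 10 ∨ 7 / 10 ≤ Int.fract y := by
    left
    rw [hm, Int.fract_intCast]
    norm_num
  obtain ⟨c', hc', h'⟩ := FF_side hfr t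
  have h2 : (c' : ℂ) * Complex.exp ((2 * Real.pi * (0 : ℝ) : ℝ) * I) =
      c * Complex.exp ((2 * Real.pi * a : ℝ) * I) := by
    rw [← h, h']
    simp
  obtain ⟨k, hk⟩ := GProp_dir_uniq hc' hc h2
  exact ⟨k, by rw [hk, zero_add]⟩

/-- the shifted point is not in the lattice -/
theorem GProp_lat {x : E3} (hx : ¬ IsLat x) {t a c : ℝ} (hc : 0 < c)
    (h : FF (x 0) t = c * Complex.exp ((2 * Real.pi * a : ℝ) * I)) (j : ℤ) :
    ¬ IsLat (pt (x 0) (x 1 + j * a) (x 2)) := by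
  intro hl
  obtain ⟨h2, ⟨m1, h3⟩, h4⟩ := isLat_pt.1 hl
  obtain ⟨k, hk⟩ := GProp_int hc h h2
  apply hx
  rw [← pt_eta x]
  refine isLat_pt.2 ⟨h2, ⟨m1 - j * k, ?_⟩, h4⟩
  push_cast
  rw [← h3, hk]
  ring

/-- `K2` in terms of a direction of `FF` -/
theorem GProp_dir (S : Surg φ X) {y t a c : ℝ} (hc : 0 < c)
    (h : FF y t = c * Complex.exp ((2 * Real.pi * a : ℝ) * I)) (u n : ℝ) :
    K2 S (pt y u n) t = KK S (pt y (u + a) n) t := by
  simp only [K2, KK, pt_zero', pt_one', pt_two']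
  have h5 : FF y t ^ 2 * Complex.exp ((2 * Real.pi * u : ℝ) * I) =
      c * (FF y t * Complex.exp ((2 * Real.pi * (u + a) : ℝ) * I)) := by
    have h6 : Complex.exp ((2 * Real.pi * (u + a) : ℝ) * I) =
        Complex.exp ((2 * Real.pi * u : ℝ) * I) * Complex.exp ((2 * Real.pi * a : ℝ) * I) := by
      rw [← Complex.exp_add]
      congr 1
      push_cast
      ring
    rw [h6, sq]
    nth_rewrite 2 [h]
    ring
  rw [h5, HH_smul S _ _ _ _ c hc]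

theorem GProp_dir' (S : Surg φ X) {x : E3} {t a c : ℝ} (hc : 0 < c)
    (h : FF (x 0) t = c * Complex.exp ((2 * Real.pi * a : ℝ) * I)) :
    K2 S x t = KK S (pt (x 0) (x 1 + a) (x 2)) t := by
  have h1 := GProp_dir S hc h (x 1) (x 2)
  rwa [pt_eta] at h1

theorem K2_eq (S : Surg φ X) {x : E3} {t : ℝ} (h : NP (x 0) t) :
    ∃ a : ℝ, K2 S x t = KK S (pt (x 0) (x 1 + a) (x 2)) t ∧
      ∀ u n, K2 S (pt (x 0) u n) t = KK S (pt (x 0) (u + a) n) t := by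
  obtain ⟨a, c, hc, h1⟩ := exists_dir (FF_ne h)
  exact ⟨a, GProp_dir' S hc h1, fun u n => GProp_dir S hc h1 u n⟩

theorem K2_side (S : Surg φ X) {x : E3} (hx : ¬ IsLat x)
    (h : Int.fract (x 0) ≤ 3 / 10 ∨ 7 / 10 ≤ Int.fract (x 0)) (t : ℝ) :
    K2 S x t = S.H (x, t) := by
  obtain ⟨c, hc, hF⟩ := FF_side h t
  have h1 : ¬ IsLat (pt (x 0) (x 1) (x 2)) := by rw [pt_eta]; exact hx
  have h2 : (c : ℂ) ^ 2 = ((c ^ 2 : ℝ) : ℂ) := by push_cast; ring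
  unfold K2
  rw [hF, h2, HH_smul S _ _ _ _ (c ^ 2) (by positivity), HH_exp S (x 1) h1, pt_eta]

theorem K2_hi (S : Surg φ X) {x : E3} (hx : ¬ IsLat x) {t : ℝ} (ht : 3 / 5 ≤ t) :
    K2 S x t = S.H (x, t) := by
  have h1 : ¬ IsLat (pt (x 0) (x 1) (x 2)) := by rw [pt_eta]; exact hx
  unfold K2
  rw [FF_hi ht, one_pow, one_mul, HH_exp S (x 1) h1, pt_eta]

theorem K2_lo (S : Surg φ X) {x : E3} (hx : ¬ IsLat x) {t : ℝ} (ht : t ≤ 2 / 5) :
    K2 S x t = S.H (sh (fun y _ => 2 * lam y) x, t) := by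
  have hF : FF (x 0) t = (1 : ℝ) * Complex.exp ((2 * Real.pi * lam (x 0) : ℝ) * I) := by
    rw [FF_lo ht, Complex.ofReal_one, one_mul]
  have h1 := GProp_lat hx one_pos hF 2
  have h1' : ¬ IsLat (pt (x 0) (x 1 + 2 * lam (x 0)) (x 2)) := by
    simpa using h1
  have h2 : sh (fun y _ => 2 * lam y) x = pt (x 0) (x 1 + 2 * lam (x 0)) (x 2) := rfl
  have h3 : FF (x 0) t ^ 2 * Complex.exp ((2 * Real.pi * x 1 : ℝ) * I) =
      Complex.exp ((2 * Real.pi * (x 1 + 2 * lam (x 0)) : ℝ) * I) := by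
    rw [FF_lo ht, ← Complex.exp_nat_mul, ← Complex.exp_add]
    congr 1
    push_cast
    ring
  unfold K2
  rw [h3, HH_exp S _ h1', h2]

theorem GProp_ev_lat {x : E3} (hx : ¬ IsLat x) (t : ℝ) :
    ∀ᶠ q : E3 × ℝ in 𝓝 (x, t), ¬ IsLat q.1 := by
  have h1 : {y : E3 | IsLat y}ᶜ ∈ 𝓝 x := isClosed_isLat.isOpen_compl.mem_nhds hx
  exact (continuous_fst.tendsto (x, t)).eventually h1

theorem GProp_punct_FF {y t : ℝ} (h : ¬ NP y t) : FF y t = 0 := by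
  obtain ⟨h1, h2⟩ : t = 1 / 2 ∧ Int.fract y = 1 / 2 := not_not.1 h
  have h3 : |t - 1 / 2| ≤ 1 / 20 := by rw [h1]; norm_num
  have h4 : |Int.fract y - 1 / 2| ≤ 1 / 10 := by rw [h2]; norm_num
  have h5 := FF_mid h3 h4
  rw [h5, h1, h2]
  simp

theorem GProp_ev_NP {x : E3} {t : ℝ} (h : NP (x 0) t) :
    ∀ᶠ q : E3 × ℝ in 𝓝 (x, t), NP (q.1 0) q.2 := by
  have hc : Continuous fun q : E3 × ℝ => (q.1 0, q.2) := by
    have h0 : Continuous fun q : E3 × ℝ => q.1 0 :=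
      (EuclideanSpace.proj (0 : Fin 3) : E3 →L[ℝ] ℝ).continuous.comp continuous_fst
    exact h0.prodMk continuous_snd
  have hcont : Tendsto (fun q : E3 × ℝ => (q.1 0, q.2)) (𝓝 (x, t)) (𝓝 (x 0, t)) :=
    hc.tendsto (x, t)
  have h1 : ContinuousAt (fun w : ℝ × ℝ => FF w.1 w.2) (x 0, t) :=
    FF_smooth.continuous.continuousAt
  have h2 : ∀ᶠ w : ℝ × ℝ in 𝓝 (x 0, t), FF w.1 w.2 ≠ 0 := h1.eventually_ne (FF_ne h)
  filter_upwards [hcont.eventually h2] with q hq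
  by_contra hn
  exact hq (GProp_punct_FF hn)

/-- the shear by a function of `(y, t)` -/
theorem GProp_shear {a : ℝ × ℝ → ℝ} {x : E3} {t : ℝ}
    (ha : ∀ᶠ w in 𝓝 (x 0, t), ContDiffAt ℝ ∞ a w) :
    IsLocalDiffeomorphAt 𝓘(ℝ, E3 × ℝ) 𝓘(ℝ, E3 × ℝ) ∞
      (fun q : E3 × ℝ => (pt (q.1 0) (q.1 1 + a (q.1 0, q.2)) (q.1 2), q.2)) (x, t) := by
  have hx : ∀ i : Fin 3, ContDiff ℝ ∞ fun y : E3 × ℝ => y.1 i := fun i =>
    ((EuclideanSpace.proj i : E3 →L[ℝ] ℝ).comp (ContinuousLinearMap.fst ℝ E3 ℝ)).contDiff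
  have hpair : ContDiff ℝ ∞ fun q : E3 × ℝ => (q.1 0, q.2) := (hx 0).prodMk contDiff_snd
  have hcd : ∀ (sg : ℝ) (q : E3 × ℝ), ContDiffAt ℝ ∞ a (q.1 0, q.2) → ContDiffAt ℝ ∞
      (fun q : E3 × ℝ => (pt (q.1 0) (q.1 1 + sg * a (q.1 0, q.2)) (q.1 2), q.2)) q := by
    intro sg q hq
    have h1 : ContDiffAt ℝ ∞ (fun q : E3 × ℝ => a (q.1 0, q.2)) q :=
      ContDiffAt.comp q (g := a) (f := fun q : E3 × ℝ => (q.1 0, q.2)) hq hpair.contDiffAt
    have h2 : ContDiffAt ℝ ∞ (fun q : E3 × ℝ => (q.1 0, q.1 1 + sg * a (q.1 0, q.2), q.1 2)) q :=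
      (hx 0).contDiffAt.prodMk (((hx 1).contDiffAt.add (contDiffAt_const.mul h1)).prodMk
        (hx 2).contDiffAt)
    have h3 : ContDiffAt ℝ ∞
        (fun q : E3 × ℝ => pt (q.1 0) (q.1 1 + sg * a (q.1 0, q.2)) (q.1 2)) q :=
      ContDiffAt.comp (g := fun z : ℝ × ℝ × ℝ => pt z.1 z.2.1 z.2.2)
        (f := fun q : E3 × ℝ => (q.1 0, q.1 1 + sg * a (q.1 0, q.2), q.1 2)) q
        EeP_pt.contDiffAt h2
    exact h3.prodMk contDiff_snd.contDiffAt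
  refine XiB_left (g := fun q : E3 × ℝ =>
    (pt (q.1 0) (q.1 1 + (-1) * a (q.1 0, q.2)) (q.1 2), q.2)) ?_ rfl ?_ ?_
  · have hev : ∀ᶠ q : E3 × ℝ in 𝓝 (x, t), ContDiffAt ℝ ∞ a (q.1 0, q.2) :=
      (hpair.continuous.tendsto (x, t)).eventually ha
    filter_upwards [hev] with q hq
    have := hcd 1 q hq
    simpa only [one_mul] using this
  · refine (hcd (-1) _ ?_).differentiableAt (by simp)
    simpa using ha.self_of_nhds
  · refine Eventually.of_forall fun q => ?_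
    refine Prod.ext ?_ rfl
    simp only [pt_zero', pt_one', pt_two']
    have : q.1 1 + a (q.1 0, q.2) + -1 * a (q.1 0, q.2) = q.1 1 := by ring
    rw [this, pt_eta]

theorem K2_loc (S : Surg φ X) {x : E3} (hx : ¬ IsLat x) {t : ℝ} (h : NP (x 0) t) :
    IsLocalDiffeomorphAt 𝓘(ℝ, E3 × ℝ) (𝓡 4) ∞ (fun q : E3 × ℝ => K2 S q.1 q.2) (x, t) := by
  have hom0 : FF (x 0) t ≠ 0 := FF_ne h
  obtain ⟨a, ha1, ha2⟩ := exists_arg (V := ℝ × ℝ) (om := fun w => FF w.1 w.2) (v := (x 0, t))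
    (Eventually.of_forall (fun w => FF_smooth.contDiffAt)) hom0
  have hcont : Tendsto (fun q : E3 × ℝ => (q.1 0, q.2)) (𝓝 (x, t)) (𝓝 (x 0, t)) := by
    have h0 : Continuous fun q : E3 × ℝ => q.1 0 :=
      (EuclideanSpace.proj (0 : Fin 3) : E3 →L[ℝ] ℝ).continuous.comp continuous_fst
    exact (h0.prodMk continuous_snd).tendsto (x, t)
  have hpos : ∀ z : ℂ, z ≠ 0 → 0 < ‖z‖ := fun z hz => norm_pos_iff.2 hz
  have hat : FF (x 0) t = (‖FF (x 0) t‖ : ℝ) * Complex.exp ((2 * Real.pi * a (x 0, t) : ℝ) * I) :=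
    ha2.self_of_nhds
  have hlat : ¬ IsLat (pt (x 0) (x 1 + a (x 0, t)) (x 2)) := by
    have := GProp_lat hx (hpos _ hom0) hat 1
    simpa using this
  have hK := KK_loc S hlat (t := t) (by simpa using h)
  have hcomp := IsLocalDiffeomorphAt.comp (hf := GProp_shear ha1) (hg := hK)
  refine ld_congr hcomp ?_
  filter_upwards [GProp_ev_NP h, hcont.eventually ha2] with q hq1 hq2
  exact GProp_dir' S (hpos _ (FF_ne hq1)) hq2

theorem K2_per (S : Surg φ X) {x : E3} (hx : ¬ IsLat x) (t : ℝ) (m : Fin 3 → ℤ) :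
    K2 S (x + vec m) t = K2 S x t := by
  by_cases hi : ∃ k : ℤ, x 0 = k
  · have hfr : Int.fract (x 0) ≤ 3 / 10 ∨ 7 / 10 ≤ Int.fract (x 0) := by
      left
      obtain ⟨k, hk⟩ := hi
      rw [hk, Int.fract_intCast]
      norm_num
    have hx' : ¬ IsLat (x + vec m) := fun h => hx ((isLat_add_vec x m).1 h)
    have h0 : (x + vec m) 0 = x 0 + m 0 := by simp [vec]
    rw [K2_side S hx hfr, K2_side S hx' (by rw [h0, Int.fract_add_intCast]; exact hfr),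
      S.H_per _ _ _ hx]
  · have h0 : (x + vec m) 0 = x 0 + m 0 := by simp [vec]
    have h1 : (x + vec m) 1 = x 1 + m 1 := by simp [vec]
    have h2 : (x + vec m) 2 = x 2 + m 2 := by simp [vec]
    have he : Complex.exp ((2 * Real.pi * (x 1 + m 1) : ℝ) * I) =
        Complex.exp ((2 * Real.pi * x 1 : ℝ) * I) := (exp_eq_iff.2 ⟨m 1, rfl⟩).symm
    unfold K2 HH
    rw [h0, h1, h2, FF_per, he]
    set u := Complex.arg (FF (x 0) t ^ 2 * Complex.exp ((2 * Real.pi * x 1 : ℝ) * I)) /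
      (2 * Real.pi) with hu
    have hl : ¬ IsLat (pt (x 0) u (x 2)) := by
      intro hl
      exact hi (isLat_pt.1 hl).1
    have h3 := S.H_per _ t ![m 0, 0, m 2] hl
    rw [pt_add_vec] at h3
    simpa using h3

theorem K2_inj {S : Surg φ X} (N : Nrm S κ δ ε k) {x y : E3} (hx : ¬ IsLat x) (hy : ¬ IsLat y)
    {s t : ℝ} (hs : 0 < s) (hs' : s ≤ 1) (ht : 0 < t) (ht' : t ≤ 1)
    (hxs : NP (x 0) s) (hyt : NP (y 0) t)
    (h : K2 S x s = K2 S y t) : s = t ∧ ∃ m, y = x + vec m := by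
  obtain ⟨a, c, hc, h1⟩ := exists_dir (FF_ne hxs)
  obtain ⟨a', c', hc', h1'⟩ := exists_dir (FF_ne hyt)
  rw [GProp_dir' S hc h1, GProp_dir' S hc' h1'] at h
  have hlx : ¬ IsLat (pt (x 0) (x 1 + a) (x 2)) := by
    have := GProp_lat hx hc h1 1
    simpa using this
  have hly : ¬ IsLat (pt (y 0) (y 1 + a') (y 2)) := by
    have := GProp_lat hy hc' h1' 1
    simpa using this
  obtain ⟨hst, m, hm⟩ := KK_inj N hlx hly hs hs' ht ht' (by simpa using hxs)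
    (by simpa using hyt) h
  obtain ⟨e0, e1, e2⟩ := pt_inj_vec hm
  refine ⟨hst, ?_⟩
  rw [e0, ← hst, FF_per, h1] at h1'
  obtain ⟨r, hr⟩ := GProp_dir_uniq hc hc' h1'
  refine ⟨![m 0, m 1 - r, m 2], ?_⟩
  rw [← pt_eta x, pt_add_vec, ← pt_eta y]
  have e1' : y 1 = x 1 + ((m 1 - r : ℤ) : ℝ) := by
    push_cast
    rw [hr] at e1
    linarith
  simp only [Matrix.cons_val_zero, Matrix.cons_val_one, Matrix.cons_val]
  rw [← e0, ← e1', ← e2]

/-- the monodromy `sh (-lam) * κ` is a monodromy -/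
theorem GProp_mono {S : Surg φ X} (N : Nrm S κ δ ε k) :
    ∃ A, Mono A (sh (fun y _ => -lam y) * κ) := by
  obtain ⟨A, hA⟩ := N.mono
  have h1 : Mono !![1, 0, 0; (-1), 1, 0; 0, 0, 1] (sh (fun y _ => -lam y)) := by
    refine sh_mono (f := fun y _ => -lam y) ?_ (-1) 0 ?_ ?_
    · exact (lam_smooth.comp contDiff_fst).neg
    · intro n y a b
      rw [lam_add_int]
      push_cast
      ring
    · have : lam 0 = 0 := lam_zero (by norm_num) (by norm_num)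
      simp [this]
  exact ⟨_, h1.mul hA⟩

/-- the time shift at the monodromy -/
theorem K2_mon {S : Surg φ X} (N : Nrm S κ δ ε k) {x : E3} (hx : ¬ IsLat x) {t : ℝ}
    (h1 : -(2 / 5) ≤ t) (h2 : t ≤ 2 / 5) :
    K2 S ((sh (fun y _ => -lam y) * κ) x) t = K2 S x (t + 1) := by
  obtain ⟨B, hB⟩ := GProp_mono N
  have hl : ¬ IsLat ((sh (fun y _ => -lam y) * κ) x) := fun h => hx ((hB.isLat x).1 h)
  rw [K2_lo S hl h2, K2_hi S hx (by linarith)]
  have h3 : sh (fun y _ => 2 * lam y) ((sh (fun y _ => -lam y) * κ) x) = φ x := by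
    rw [N.fac]
    change pt _ _ _ = pt _ _ _
    simp only [sh, Equiv.Perm.coe_mul, Function.comp_apply, Equiv.coe_fn_mk, pt_zero', pt_one',
      pt_two']
    congr 1
    ring
  rw [h3, S.H_mon _ _ hx]

theorem GProp_notT_pos {S : Surg φ X} (N : Nrm S κ δ ε k) {x : E3} (hx : ¬ IsLat x)
    {t : ℝ} (ht : 0 < t) (ht' : t ≤ 1) (h : NP (x 0) t) : K2 S x t ∉ TT S := by
  obtain ⟨a, c, hc, h1⟩ := exists_dir (FF_ne h)
  rw [GProp_dir' S hc h1]
  have hlx : ¬ IsLat (pt (x 0) (x 1 + a) (x 2)) := by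
    have := GProp_lat hx hc h1 1
    simpa using this
  exact KK_notT N hlx ht ht' (by simpa using h)

theorem K2_notT {S : Surg φ X} (N : Nrm S κ δ ε k) {x : E3} (hx : ¬ IsLat x)
    {t : ℝ} (ht : -(1 / 8) < t) (ht' : t ≤ 1) (h : NP (x 0) t) : K2 S x t ∉ TT S := by
  by_cases h0 : 0 < t
  · exact GProp_notT_pos N hx h0 ht' h
  · have h0' : t ≤ 0 := not_lt.1 h0
    obtain ⟨B, hB⟩ := GProp_mono N
    obtain ⟨z, hz⟩ := (sh (fun y _ => -lam y) * κ).surjective x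
    have hzl : ¬ IsLat z := by
      intro h
      apply hx
      rw [← hz]
      exact (hB.isLat z).2 h
    rw [← hz, K2_mon N hzl (by linarith) (by linarith)]
    refine GProp_notT_pos N hzl (by linarith) (by linarith) ?_
    rintro ⟨h3, -⟩
    linarith

theorem K2_cover {S : Surg φ X} (N : Nrm S κ δ ε k) {q : X} (hq : q ∉ TT S) :
    (∃ y, q = S.j (y, 0)) ∨ ∃ x t, ¬ IsLat x ∧ 0 < t ∧ t ≤ 1 ∧ NP (x 0) t ∧ q = K2 S x t := by
  rcases KK_cover N hq with h | ⟨x, t, hx, ht, ht', hn, hq'⟩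
  · exact Or.inl h
  · right
    obtain ⟨a, c, hc, h1⟩ := exists_dir (FF_ne hn)
    refine ⟨pt (x 0) (x 1 + (-1 : ℤ) * a) (x 2), t, GProp_lat hx hc h1 (-1), ht, ht', by simpa using hn, ?_⟩
    rw [GProp_dir S hc h1, hq']
    have : x 1 + ((-1 : ℤ) : ℝ) * a + a = x 1 := by push_cast; ring
    rw [this, pt_eta]

variable [T2Space X]

theorem GG_eq {S : Surg φ X} (N : Nrm S κ δ ε k) {σ : ℝ} (h0 : 0 < σ)
    (h1 : σ ≤ 1 / 4) {Γ : Equiv.Perm X} (hΓ : IsGam S σ Γ) {x : E3} {t : ℝ}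
    (hn : NP (x 0) t) : GG S Γ σ (x, t) = Γ (K2 S x t) := by
  unfold GG
  by_cases h : nearP σ (x 0) t
  · rw [if_pos h]
    exact (overlap N h0 h1 hΓ h hn).symm
  · rw [if_neg h]

theorem GG_loc {S : Surg φ X} (N : Nrm S κ δ ε k) {σ : ℝ} (h0 : 0 < σ)
    (h1 : σ ≤ 1 / 4) {Γ : Equiv.Perm X} (hΓ : IsGam S σ Γ) {x : E3} {t : ℝ}
    (hx : ¬ IsLat x) (ht : -(1 / 8) < t) (ht' : t ≤ 1) :
    IsLocalDiffeomorphAt 𝓘(ℝ, E3 × ℝ) (𝓡 4) ∞ (GG S Γ σ) (x, t) := by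
  by_cases h : nearP σ (x 0) t
  · refine ld_congr (NN_ld S h0 h1 h) ?_
    have hev : ∀ᶠ q : E3 × ℝ in 𝓝 (x, t), nearP σ (q.1 0) q.2 :=
      (nearP_open σ h1).mem_nhds h
    filter_upwards [hev] with q hq
    unfold GG
    rw [if_pos hq]
  · have hn := NP_of_not_near h0 h
    have hK := K2_loc S hx hn
    have hG := hΓ.ld _ (K2_notT N hx ht ht' hn)
    have hcomp := IsLocalDiffeomorphAt.comp (hf := hK) (hg := hG)
    refine ld_congr hcomp ?_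
    filter_upwards [GProp_ev_NP hn] with q hq
    exact GG_eq N h0 h1 hΓ hq

/-- at a puncture -/
theorem GG_punct {S : Surg φ X} {σ : ℝ} (h0 : 0 < σ) {Γ : Equiv.Perm X} {x : E3}
    (h : Int.fract (x 0) = 1 / 2) :
    GG S Γ σ (x, 1 / 2) = S.H (pt (1 / 2) (-x 1) (x 2), 1 / 2) := by
  have hQ : QQ (x 0) (1 / 2) = 0 := by
    simp [QQ, Xi, h]
  have hnear : nearP σ (x 0) (1 / 2) := by
    refine ⟨by norm_num, by rw [h]; norm_num, ?_⟩
    rw [hQ, norm_zero]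
    positivity
  have hQ1 : Q1 (x 1) 0 = 0 := by simp [Q1]
  have hW : Wq 0 = 0 := by simp [Wq]
  unfold GG
  rw [if_pos hnear]
  unfold NN
  simp only [hQ, hQ1, hW, Complex.zero_re, Complex.zero_im, add_zero]

theorem GG_T {S : Surg φ X} (N : Nrm S κ δ ε k) {σ : ℝ} (h0 : 0 < σ)
    (h1 : σ ≤ 1 / 4) {Γ : Equiv.Perm X} (hΓ : IsGam S σ Γ) {x : E3} {t : ℝ}
    (hx : ¬ IsLat x) (ht : -(1 / 8) < t) (ht' : t ≤ 1) :
    GG S Γ σ (x, t) ∈ TT S ↔ ¬ NP (x 0) t := by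
  constructor
  · intro hG hn
    rw [GG_eq N h0 h1 hΓ hn] at hG
    have h2 := hΓ.fix _ hG
    have h3 := Γ.injective h2
    rw [h3] at hG
    exact K2_notT N hx ht ht' hn hG
  · intro hn
    have h' : t = 1 / 2 ∧ Int.fract (x 0) = 1 / 2 := not_not.1 hn
    obtain ⟨rfl, h3⟩ := h'
    rw [GG_punct h0 h3]
    exact ⟨_, _, rfl⟩

end

end Pool.Agent.CSG
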