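import Pool.Agent.CSG.Clos
import Pool.Agent.CSG.GamAbs

/-!
# CSG/Gam: existence of the diffeomorphism `Γ` of the complement of the torus

`exists_gamma` with `e = ee S ε k`, `D = Dm σ`, `C = Cm σ`, `T = TT S`, `L = Lam σ`, `L' = Lam' σ`.
`L` is a local diffeomorphism: smooth with smooth inverse (`ld_of_perm`).
`hcomp`: `ee_inj`, `Lam_per`, `ee_per`.
The last property: `Lam_far`, `ee_far` (`(n, p, s) ∈ Dm σ` as `|p| ≥ 40/σ > 10`), and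
`‖exp (..) p‖ = ‖p‖`.
-/

open scoped Manifold ContDiff Topology
open Complex (I)
open Set Filter

namespace Pool.Agent.CSG

section
variable {X : Type*} [TopologicalSpace X] [T2Space X] [ChartedSpace E4 X] {φ κ : Equiv.Perm E3}
  {δ ε : ℝ} {k : ℤ}

/-- the diffeomorphism of the complement of the torus -/
structure IsGam (S : Surg φ X) (σ : ℝ) (Γ : Equiv.Perm X) : Prop where
  ld : ∀ x, x ∉ TT S → IsLocalDiffeomorphAt (𝓡 4) (𝓡 4) ∞ Γ x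
  fix : ∀ x ∈ TT S, Γ x = x
  far : ∀ (n s : ℝ) (p : ℂ), 40 / σ ≤ ‖p‖ → Γ (KK S (pt (py p) s n) (pm p)) =
    KK S (pt (py (Complex.exp ((-(4 * Real.pi * s) : ℝ) * I) * p)) s n)
      (pm (Complex.exp ((-(4 * Real.pi * s) : ℝ) * I) * p))

theorem exists_isGam {S : Surg φ X} (N : Nrm S κ δ ε k) {σ : ℝ} (h0 : 0 < σ)
    (h1 : 16 * σ ≤ 1) (h2 : 16 * σ ≤ δ) : ∃ Γ : Equiv.Perm X, IsGam S σ Γ := by
  have hσ : σ ≤ 1 / 4 := by linarith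
  let L : (ℝ × ℂ × ℝ) ≃ (ℝ × ℂ × ℝ) :=
    ⟨Lam σ, Lam' σ, Lam_left h0 hσ, Lam_right h0 hσ⟩
  have hcomp : ∀ (F : ℝ × ℂ × ℝ → ℝ × ℂ × ℝ),
      (∀ (n s : ℝ) (p : ℂ) (a b : ℤ), F (n + a, p, s + b) =
        ((F (n, p, s)).1 + a, (F (n, p, s)).2.1, (F (n, p, s)).2.2 + b)) →
      ∀ z ∈ Dm σ, ∀ z' ∈ Dm σ, ee S ε k z = ee S ε k z' → ee S ε k (F z) = ee S ε k (F z') := by
    intro F hF z hz z' hz' h
    obtain ⟨n, p, s⟩ := z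
    obtain ⟨n', p', s'⟩ := z'
    obtain ⟨hp, ⟨a, ha⟩, ⟨b, hb⟩⟩ := ee_inj N h0 h1 hz hz' h
    subst hp ha hb
    rw [hF n s p' a b, ee_per N]
  obtain ⟨Γ, hΓ1, hΓ2, -, hΓ4⟩ := exists_gamma (J := 𝓡 4) (ee S ε k) (Dm σ) (Cm σ) (TT S) (Lam σ) (Lam' σ)
    (Dm_open σ hσ) (fun z hz => ee_ld N h0 h1 h2 hz) (fun z _ => ee_notT N z)
    (fun z _ => ld_of_perm (f := L) (Lam_smooth h0 hσ) (Lam'_smooth h0 hσ) z)
    (fun z _ => Lam_right h0 hσ z) (fun z _ => Lam_left h0 hσ z) (Lam_D h0 hσ) (Lam'_D h0 hσ)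
    (hcomp _ fun n s p a b => Lam_per n s p a b h0 hσ)
    (hcomp _ fun n s p a b => Lam'_per n s p a b h0 hσ)
    (fun z _ hz => Lam_id h0 hσ hz) (isClosed_image N h0 h1 h2) (Cm_sub h0 hσ)
  refine ⟨Γ, hΓ1, hΓ4, ?_⟩
  intro n s p hp
  have hσ4 : 160 ≤ 40 / σ := by
    rw [le_div_iff₀ h0]; linarith
  have hp10 : 10 < ‖p‖ := by linarith
  have hn : ‖Complex.exp ((-(4 * Real.pi * s) : ℝ) * I) * p‖ = ‖p‖ := by
    rw [norm_mul, Complex.norm_exp_ofReal_mul_I, one_mul]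
  rw [← ee_far N (by linarith : 9 ≤ ‖p‖) n s, hΓ2 _ (Or.inl hp10), Lam_far h0 hσ n s hp,
    ee_far N (by rw [hn]; linarith)]

end

end Pool.Agent.CSG
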