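import Pool.Agent.CSG.LoopDefs
import Pool.Agent.CSG.FunBasic
import Pool.Agent.CSG.Radial

/-!
# CSG/Kappa: cutting off a linear isotopy near the axis `R e₀` and its translates

Given a smooth path `B τ` of linear isomorphisms of `R^3` fixing `e₀`, `B 0 = 1`.
Let `Y = (x 1, x 2)`.  `B τ (n, Y) = (n + b τ Y, M τ Y)` with `M τ` a linear isomorphism of `R^2`
(the first column of `B τ` is `e₀`).  Let `s t = stp (1/4) (3/4) t`.
Apply `radial` on `F = EuclideanSpace ℝ (Fin 2)` to `L t τ = M (s t * τ')`, `τ' =` `τ` (only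
`0 ≤ τ ≤ 1` matters; the bounds hold by compactness since `s t ∈ [0,1]`), with `R = 1/4`:
`θ`, `f t Y = M (s t θ(Y)) Y`.  Define on `|Y - m| < 1/2` (`m ∈ Z^2` nearest)
`κ t (n, Y) = (n + b (s t θ(Y-m)) (Y - m), m + f t (Y - m))`.
Since `θ = 0` for `|Y - m| ≥ 1/4`, this is the identity there, so `κ t` is well defined and smooth,
commutes with `Z^3`, and is bijective with smooth inverse
(`(n', Y') ↦ (n' - b (..)(Y - m), Y)`, `Y = m + (f t)⁻¹ (Y' - m)`).
`δ`: `|x 1|, |x 2| < δ` implies `‖Y‖ ≤ r₀`.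
-/

open scoped ContDiff

namespace Pool.Agent.CSG

/-- the plane -/
abbrev Kappa_F := EuclideanSpace ℝ (Fin 2)

/-- inclusion of the plane `x 0 = 0` -/
noncomputable def Kappa_i : Kappa_F →L[ℝ] E3 :=
  LinearMap.toContinuousLinearMap
    { toFun := fun Y => pt 0 (Y 0) (Y 1)
      map_add' := by
        intro x y
        ext j
        fin_cases j <;> simp [pt]
      map_smul' := by
        intro c x
        ext j
        fin_cases j <;> simp [pt] }

/-- projection to the plane -/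
noncomputable def Kappa_p : E3 →L[ℝ] Kappa_F :=
  LinearMap.toContinuousLinearMap
    { toFun := fun x => WithLp.toLp 2 ![x 1, x 2]
      map_add' := by
        intro x y
        ext j
        fin_cases j <;> simp
      map_smul' := by
        intro c x
        ext j
        fin_cases j <;> simp }

theorem Kappa_i_apply (Y : Kappa_F) : Kappa_i Y = pt 0 (Y 0) (Y 1) := rfl

theorem Kappa_p_apply (x : E3) : Kappa_p x = WithLp.toLp 2 ![x 1, x 2] := rfl

theorem Kappa_p_zero (x : E3) : Kappa_p x 0 = x 1 := by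
  rw [Kappa_p_apply]; rfl

theorem Kappa_p_one (x : E3) : Kappa_p x 1 = x 2 := by
  rw [Kappa_p_apply]; rfl

theorem Kappa_pi (Y : Kappa_F) : Kappa_p (Kappa_i Y) = Y := by
  ext j
  fin_cases j
  · show Kappa_p (Kappa_i Y) 0 = Y 0
    rw [Kappa_p_zero, Kappa_i_apply, pt_one']
  · show Kappa_p (Kappa_i Y) 1 = Y 1
    rw [Kappa_p_one, Kappa_i_apply, pt_two']

theorem Kappa_p_e : Kappa_p e₀ = 0 := by
  ext j
  fin_cases j
  · show Kappa_p e₀ 0 = 0
    rw [Kappa_p_zero, e₀, pt_one']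
  · show Kappa_p e₀ 1 = 0
    rw [Kappa_p_one, e₀, pt_two']

theorem Kappa_decomp (x : E3) : x = (x 0) • e₀ + Kappa_i (Kappa_p x) := by
  ext j
  fin_cases j
  · simp [Kappa_i_apply, e₀]
  · simp [Kappa_i_apply, e₀, Kappa_p_zero]
  · simp [Kappa_i_apply, e₀, Kappa_p_one]

theorem Kappa_inv (B : E3 ≃L[ℝ] E3) (h : B e₀ = e₀) (Y : Kappa_F) :
    Kappa_p (B.symm (Kappa_i (Kappa_p (B (Kappa_i Y))))) = Y := by
  have h1 : Kappa_i (Kappa_p (B (Kappa_i Y))) = B (Kappa_i Y) - (B (Kappa_i Y)) 0 • e₀ := by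
    conv_rhs => rw [Kappa_decomp (B (Kappa_i Y))]
    simp [Kappa_i_apply, e₀]
  have h2 : B.symm e₀ = e₀ := by
    rw [ContinuousLinearEquiv.symm_apply_eq]
    exact h.symm
  rw [h1, map_sub, map_smul, h2, ContinuousLinearEquiv.symm_apply_apply, map_sub, map_smul,
    Kappa_p_e, smul_zero, sub_zero, Kappa_pi]

/-- the linear map of the plane -/
noncomputable def Kappa_M (B : E3 ≃L[ℝ] E3) (h : B e₀ = e₀) : Kappa_F ≃L[ℝ] Kappa_F :=
  ContinuousLinearEquiv.equivOfInverse (Kappa_p ∘L (B : E3 →L[ℝ] E3) ∘L Kappa_i)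
    (Kappa_p ∘L (B.symm : E3 →L[ℝ] E3) ∘L Kappa_i)
    (by
      intro Y
      exact Kappa_inv B h Y)
    (by
      intro Y
      have h2 : B.symm e₀ = e₀ := by
        rw [ContinuousLinearEquiv.symm_apply_eq]
        exact h.symm
      exact Kappa_inv B.symm h2 Y)

theorem Kappa_M_apply (B : E3 ≃L[ℝ] E3) (h : B e₀ = e₀) (Y : Kappa_F) :
    Kappa_M B h Y = Kappa_p (B (Kappa_i Y)) := rfl

/-- reduction modulo the lattice -/
noncomputable def Kappa_red (Y : Kappa_F) : Kappa_F :=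
  WithLp.toLp 2 fun j => Y j - round (Y j)

theorem Kappa_red_apply (Y : Kappa_F) (j : Fin 2) : Kappa_red Y j = Y j - round (Y j) := rfl

/-- integer points -/
noncomputable def Kappa_z (m : Fin 2 → ℤ) : Kappa_F := WithLp.toLp 2 fun j => (m j : ℝ)

theorem Kappa_z_apply (m : Fin 2 → ℤ) (j : Fin 2) : Kappa_z m j = m j := rfl

theorem Kappa_red_add (Y : Kappa_F) (m : Fin 2 → ℤ) : Kappa_red (Y + Kappa_z m) = Kappa_red Y := by
  ext j
  rw [Kappa_red_apply, Kappa_red_apply, PiLp.add_apply, Kappa_z_apply, round_add_intCast]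
  push_cast
  ring

theorem Kappa_red_small {Z : Kappa_F} (h : ∀ j, |Z j| < 1 / 2) (m : Fin 2 → ℤ) :
    Kappa_red (Kappa_z m + Z) = Z := by
  rw [add_comm, Kappa_red_add]
  ext j
  rw [Kappa_red_apply]
  have h1 : round (Z j) = 0 := by
    rw [round_eq_zero_iff, Set.mem_Ico]
    have := abs_lt.1 (h j)
    exact ⟨this.1.le, this.2⟩
  rw [h1]
  simp

theorem Kappa_red_eq (Y : Kappa_F) : Y = Kappa_z (fun j => round (Y j)) + Kappa_red Y := by
  ext j
  rw [PiLp.add_apply, Kappa_z_apply, Kappa_red_apply]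
  ring

theorem Kappa_coord_le (Z : Kappa_F) (j : Fin 2) : |Z j| ≤ ‖Z‖ := by
  have h := PiLp.norm_apply_le Z j
  rwa [Real.norm_eq_abs] at h

theorem Kappa_norm_le (Z : Kappa_F) : ‖Z‖ ≤ |Z 0| + |Z 1| := by
  rw [EuclideanSpace.norm_eq, Fin.sum_univ_two]
  apply Real.sqrt_le_iff.2
  constructor
  · positivity
  · rw [Real.norm_eq_abs, Real.norm_eq_abs]
    nlinarith [abs_nonneg (Z 0), abs_nonneg (Z 1), mul_nonneg (abs_nonneg (Z 0)) (abs_nonneg (Z 1))]

theorem Kappa_periodize {G : Kappa_F × ℝ → E3} (hG : ContDiff ℝ ∞ G)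
    (h0 : ∀ Z t, 1 / 4 ≤ ‖Z‖ → G (Z, t) = 0) :
    ContDiff ℝ ∞ fun q : E3 × ℝ => G (Kappa_red (Kappa_p q.1), q.2) := by
  rw [contDiff_iff_contDiffAt]
  rintro ⟨x0, t0⟩
  have hcoord : ∀ j, ContinuousAt (fun q : E3 × ℝ => Kappa_p q.1 j) (x0, t0) := by
    intro j
    have h1 : Continuous (fun q : E3 × ℝ => Kappa_p q.1 j) :=
      (EuclideanSpace.proj j : Kappa_F →L[ℝ] ℝ).continuous.comp
        (Kappa_p.continuous.comp continuous_fst)
    exact h1.continuousAt
  by_cases hc : ∀ j, |Kappa_p x0 j - round (Kappa_p x0 j)| < 1 / 2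
  · have hev : (fun q : E3 × ℝ => G (Kappa_red (Kappa_p q.1), q.2)) =ᶠ[nhds (x0, t0)]
        (fun q : E3 × ℝ => G (Kappa_p q.1 - Kappa_z (fun j => round (Kappa_p x0 j)), q.2)) := by
      have h1 : ∀ j, ∀ᶠ q : E3 × ℝ in nhds (x0, t0),
          |Kappa_p q.1 j - round (Kappa_p x0 j)| < 1 / 2 := by
        intro j
        have h2 : ContinuousAt (fun q : E3 × ℝ => |Kappa_p q.1 j - round (Kappa_p x0 j)|)
            (x0, t0) := ((hcoord j).sub continuousAt_const).abs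
        exact h2.eventually_lt_const (hc j)
      filter_upwards [Filter.eventually_all.2 h1] with q hq
      congr 2
      set m : Fin 2 → ℤ := fun j => round (Kappa_p x0 j) with hm
      have h3 := Kappa_red_small (Z := Kappa_p q.1 - Kappa_z m) (by
        intro j
        rw [PiLp.sub_apply, Kappa_z_apply]
        exact hq j) m
      rw [← h3]
      congr 1
      abel_nf
    apply ContDiffAt.congr_of_eventuallyEq _ hev
    apply ContDiff.contDiffAt
    apply hG.comp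
    exact ((Kappa_p.contDiff.comp contDiff_fst).sub contDiff_const).prodMk contDiff_snd
  · push Not at hc
    obtain ⟨j, hj⟩ := hc
    have hev : (fun q : E3 × ℝ => G (Kappa_red (Kappa_p q.1), q.2)) =ᶠ[nhds (x0, t0)]
        (fun _ => 0) := by
      have h2 : ContinuousAt (fun q : E3 × ℝ => |Kappa_p q.1 j - Kappa_p x0 j|)
          (x0, t0) := ((hcoord j).sub continuousAt_const).abs
      have h3 : ∀ᶠ q : E3 × ℝ in nhds (x0, t0), |Kappa_p q.1 j - Kappa_p x0 j| < 1 / 4 := by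
        apply h2.eventually_lt_const
        simp
      filter_upwards [h3] with q hq
      apply h0
      refine le_trans ?_ (Kappa_coord_le _ j)
      rw [Kappa_red_apply]
      have h4 : |Kappa_p x0 j - round (Kappa_p x0 j)| ≤
          |Kappa_p x0 j - round (Kappa_p q.1 j)| := round_le _ _
      have h5 : |Kappa_p x0 j - round (Kappa_p q.1 j)| ≤
          |Kappa_p q.1 j - round (Kappa_p q.1 j)| + |Kappa_p q.1 j - Kappa_p x0 j| := by
        have h6 : Kappa_p x0 j - (round (Kappa_p q.1 j) : ℝ) =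
            (Kappa_p q.1 j - round (Kappa_p q.1 j)) - (Kappa_p q.1 j - Kappa_p x0 j) := by ring
        rw [h6]
        exact abs_sub _ _
      linarith
    exact contDiffAt_const.congr_of_eventuallyEq hev

theorem Kappa_bounds (M : ℝ → Kappa_F ≃L[ℝ] Kappa_F)
    (hM : ContDiff ℝ ∞ fun q : ℝ × Kappa_F => M q.1 q.2) :
    ∃ C : ℝ, (∀ σ z, 0 ≤ σ → σ ≤ 1 → ‖M σ z‖ ≤ C * ‖z‖) ∧
      (∀ σ z, 0 ≤ σ → σ ≤ 1 → ‖(M σ).symm z‖ ≤ C * ‖z‖) ∧
      (∀ σ σ' z, 0 ≤ σ → σ ≤ 1 → 0 ≤ σ' → σ' ≤ 1 → ‖M σ z - M σ' z‖ ≤ C * |σ - σ'| * ‖z‖) ∧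
      0 ≤ C := by
  set K : Set (ℝ × Kappa_F) := Set.Icc (0 : ℝ) 1 ×ˢ Metric.sphere (0 : Kappa_F) 1 with hK
  have hKc : IsCompact K := isCompact_Icc.prod (isCompact_sphere _ _)
  set g : ℝ × Kappa_F → Kappa_F := fun q => M q.1 q.2 with hg
  have hgv : ∀ σ z, g (σ, z) = M σ z := fun σ z => rfl
  have hgc : Continuous g := hM.continuous
  obtain ⟨C1, hC1⟩ := hKc.exists_bound_of_continuousOn hgc.continuousOn
  have hne : ∀ q ∈ K, ‖g q‖ ≠ 0 := by
    rintro ⟨σ, u⟩ ⟨_, hu⟩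
    rw [norm_ne_zero_iff]
    intro h
    have h1 : M σ u = 0 := by rw [← hgv]; exact h
    rw [ContinuousLinearEquiv.map_eq_zero_iff] at h1
    rw [mem_sphere_zero_iff_norm] at hu
    rw [h1, norm_zero] at hu
    exact one_ne_zero hu.symm
  obtain ⟨C2, hC2⟩ := hKc.exists_bound_of_continuousOn
    (f := fun q => ‖g q‖⁻¹) (hgc.norm.continuousOn.inv₀ hne)
  have hgs : ContDiff ℝ ∞ g := hM
  have hgd : Differentiable ℝ g := hgs.differentiable (by simp)
  have hgf : Continuous (fderiv ℝ g) := hgs.continuous_fderiv (by simp)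
  have hfd : Continuous (fun q : ℝ × Kappa_F => fderiv ℝ g q ((1 : ℝ), (0 : Kappa_F))) :=
    hgf.clm_apply continuous_const
  clear_value g
  obtain ⟨C3, hC3⟩ := hKc.exists_bound_of_continuousOn hfd.continuousOn
  have hunit : ∀ z : Kappa_F, z ≠ 0 → ‖‖z‖⁻¹ • z‖ = 1 := by
    intro z hz
    rw [norm_smul, norm_inv, norm_norm, inv_mul_cancel₀ (norm_ne_zero_iff.2 hz)]
  have hz' : ∀ z : Kappa_F, z ≠ 0 → z = ‖z‖ • (‖z‖⁻¹ • z) := by
    intro z hz
    rw [smul_smul, mul_inv_cancel₀ (norm_ne_zero_iff.2 hz), one_smul]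
  refine ⟨|C1| + |C2| + |C3|, ?_, ?_, ?_, by positivity⟩
  · intro σ z h0 h1
    by_cases hz : z = 0
    · rw [hz, map_zero, norm_zero, mul_zero]
    · have h2 := hC1 (σ, ‖z‖⁻¹ • z) ⟨⟨h0, h1⟩, mem_sphere_zero_iff_norm.2 (hunit z hz)⟩
      have h3 : M σ z = ‖z‖ • M σ (‖z‖⁻¹ • z) := by
        conv_lhs => rw [hz' z hz]
        rw [map_smul]
      rw [h3, norm_smul, norm_norm, mul_comm]
      apply mul_le_mul_of_nonneg_right _ (norm_nonneg z)
      rw [hgv] at h2
      linarith [le_abs_self C1, abs_nonneg C2, abs_nonneg C3]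
  · intro σ z h0 h1
    have hlow : ∀ w : Kappa_F, ‖w‖ ≤ (|C1| + |C2| + |C3|) * ‖M σ w‖ := by
      intro w
      by_cases hz : w = 0
      · rw [hz, norm_zero]
        positivity
      · have hmem : (σ, ‖w‖⁻¹ • w) ∈ K :=
          ⟨⟨h0, h1⟩, mem_sphere_zero_iff_norm.2 (hunit w hz)⟩
        have h2 := hC2 (σ, ‖w‖⁻¹ • w) hmem
        rw [norm_inv, norm_norm, hgv] at h2
        have h3 : M σ w = ‖w‖ • M σ (‖w‖⁻¹ • w) := by
          conv_lhs => rw [hz' w hz]
          rw [map_smul]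
        have h4 := hne _ hmem
        rw [hgv] at h4
        have h5 : 0 < ‖M σ (‖w‖⁻¹ • w)‖ := lt_of_le_of_ne (norm_nonneg _) (Ne.symm h4)
        have h6 : (‖M σ (‖w‖⁻¹ • w)‖)⁻¹ ≤ |C1| + |C2| + |C3| := by
          linarith [le_abs_self C2, abs_nonneg C1, abs_nonneg C3]
        have h8 : 1 ≤ (|C1| + |C2| + |C3|) * ‖M σ (‖w‖⁻¹ • w)‖ := by
          have h9 := mul_le_mul_of_nonneg_right h6 h5.le
          rwa [inv_mul_cancel₀ h5.ne'] at h9
        have h10 : ‖M σ w‖ = ‖w‖ * ‖M σ (‖w‖⁻¹ • w)‖ := by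
          rw [h3, norm_smul, norm_norm]
        rw [h10]
        nlinarith [norm_nonneg w]
    have h11 := hlow ((M σ).symm z)
    rwa [ContinuousLinearEquiv.apply_symm_apply] at h11
  · intro σ σ' z h0 h1 h0' h1'
    by_cases hz : z = 0
    · rw [hz, map_zero, map_zero, sub_zero, norm_zero, mul_zero]
    · set u := ‖z‖⁻¹ • z with hu
      have hu1 : ‖u‖ = 1 := hunit z hz
      have hder : ∀ x ∈ Set.Icc (0 : ℝ) 1, HasDerivWithinAt (fun x => M x u)
          (fderiv ℝ g (x, u) ((1 : ℝ), (0 : Kappa_F))) (Set.Icc 0 1) x := by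
        intro x _
        have h2 : HasFDerivAt g (fderiv ℝ g (x, u)) (x, u) :=
          (hgd (x, u)).hasFDerivAt
        have h3 : HasDerivAt (fun x : ℝ => (x, u)) ((1 : ℝ), (0 : Kappa_F)) x :=
          (hasDerivAt_id x).prodMk (hasDerivAt_const x u)
        have h6 : (fun x => M x u) = g ∘ (fun x : ℝ => (x, u)) := by
          funext y
          exact (hgv y u).symm
        rw [h6]
        exact (h2.comp_hasDerivAt x h3).hasDerivWithinAt
      have hb : ∀ x ∈ Set.Icc (0 : ℝ) 1,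
          ‖fderiv ℝ g (x, u) ((1 : ℝ), (0 : Kappa_F))‖ ≤ C3 := fun x hx =>
        hC3 (x, u) ⟨hx, mem_sphere_zero_iff_norm.2 hu1⟩
      have h4 := Convex.norm_image_sub_le_of_norm_hasDerivWithin_le hder hb (convex_Icc 0 1)
        (x := σ') (y := σ) ⟨h0', h1'⟩ ⟨h0, h1⟩
      have h5 : ∀ σ, M σ z = ‖z‖ • M σ u := by
        intro σ
        conv_lhs => rw [hz' z hz]
        rw [map_smul]
      rw [h5, h5, ← smul_sub, norm_smul, norm_norm, mul_comm]
      apply mul_le_mul_of_nonneg_right _ (norm_nonneg z)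
      rw [Real.norm_eq_abs] at h4
      refine h4.trans ?_
      apply mul_le_mul_of_nonneg_right _ (abs_nonneg _)
      linarith [le_abs_self C3, abs_nonneg C1, abs_nonneg C2]

theorem exists_kappa {B : ℝ → E3 ≃L[ℝ] E3} (hB : ContDiff ℝ ∞ fun q : ℝ × E3 => B q.1 q.2)
    (hB0 : ∀ z, B 0 z = z) (hBe : ∀ τ, B τ e₀ = e₀) :
    ∃ δ : ℝ, 0 < δ ∧ ∃ κ : ℝ → Equiv.Perm E3,
      (ContDiff ℝ ∞ fun q : E3 × ℝ => κ q.2 q.1) ∧
      (ContDiff ℝ ∞ fun q : E3 × ℝ => (κ q.2).symm q.1) ∧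
      (∀ t x m, κ t (x + vec m) = κ t x + vec m) ∧
      (∀ t, t ≤ 1 / 4 → κ t = 1) ∧ (∀ t, 3 / 4 ≤ t → κ t = κ 1) ∧
      (∀ t x, |x 1| < δ → |x 2| < δ → κ t x = B (stp (1 / 4) (3 / 4) t) x) := by
  set M : ℝ → Kappa_F ≃L[ℝ] Kappa_F := fun τ => Kappa_M (B τ) (hBe τ) with hMdef
  have hMs : ContDiff ℝ ∞ fun q : ℝ × Kappa_F => M q.1 q.2 :=
    Kappa_p.contDiff.comp (hB.comp (contDiff_fst.prodMk (Kappa_i.contDiff.comp contDiff_snd)))
  have hM0 : ∀ z, M 0 z = z := by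
    intro z
    show Kappa_p (B 0 (Kappa_i z)) = z
    rw [hB0, Kappa_pi]
  obtain ⟨C, hC1, hC2, hC3, hC0⟩ := Kappa_bounds M hMs
  set st : ℝ → ℝ := stp (1 / 4) (3 / 4) with hst
  have hst0 : ∀ t, 0 ≤ st t := fun t => stp_nonneg _ _ _
  have hst1 : ∀ t, st t ≤ 1 := fun t => stp_le_one _ _ _
  have hsts : ContDiff ℝ ∞ st := stp_smooth _ _
  set L : ℝ → ℝ → Kappa_F ≃L[ℝ] Kappa_F := fun t τ => M (st t * τ) with hL
  have hmem : ∀ t τ, 0 ≤ τ → τ ≤ 1 → 0 ≤ st t * τ ∧ st t * τ ≤ 1 := by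
    intro t τ h0 h1
    exact ⟨mul_nonneg (hst0 t) h0, mul_le_one₀ (hst1 t) h0 h1⟩
  obtain ⟨r₀, hr0, hr1, θ, f, hθs, hθm, hθ1, hθ0, hf, hfs, hfs'⟩ := radial L
    (hMs.comp (((hsts.comp contDiff_fst).mul (contDiff_fst.comp contDiff_snd)).prodMk
      (contDiff_snd.comp contDiff_snd)))
    (by
      intro t z
      show M (st t * 0) z = z
      rw [mul_zero, hM0]) C
    (fun t τ z h0 h1 => hC1 _ z (hmem t τ h0 h1).1 (hmem t τ h0 h1).2)
    (fun t τ z h0 h1 => hC2 _ z (hmem t τ h0 h1).1 (hmem t τ h0 h1).2)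
    (by
      intro t τ τ' z h0 h1 h0' h1'
      refine (hC3 _ _ z (hmem t τ h0 h1).1 (hmem t τ h0 h1).2 (hmem t τ' h0' h1').1
        (hmem t τ' h0' h1').2).trans ?_
      apply mul_le_mul_of_nonneg_right _ (norm_nonneg z)
      apply mul_le_mul_of_nonneg_left _ hC0
      rw [← mul_sub, abs_mul, abs_of_nonneg (hst0 t)]
      have := abs_nonneg (τ - τ')
      nlinarith [hst1 t])
    (1 / 4) (by norm_num)
  have hfM : ∀ t z, f t z = M (st t * θ z) z := hf
  set D : Kappa_F × ℝ → E3 := fun q =>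
    (B (st q.2 * θ q.1) (Kappa_i q.1)) 0 • e₀ + Kappa_i (f q.2 q.1 - q.1) with hD
  have hDs : ContDiff ℝ ∞ D := by
    have h1 : ContDiff ℝ ∞ (fun q : Kappa_F × ℝ => B (st q.2 * θ q.1) (Kappa_i q.1)) :=
      hB.comp (((hsts.comp contDiff_snd).mul (hθs.comp contDiff_fst)).prodMk
        (Kappa_i.contDiff.comp contDiff_fst))
    have h2 : ContDiff ℝ ∞ (fun q : Kappa_F × ℝ => (B (st q.2 * θ q.1) (Kappa_i q.1)) 0) :=
      (contDiff_euclidean.1 h1 0)
    exact (h2.smul contDiff_const).add (Kappa_i.contDiff.comp (hfs.sub contDiff_fst))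
  have hf1 : ∀ t Z, 1 / 4 ≤ ‖Z‖ → f t Z = Z := by
    intro t Z hZ
    rw [hfM, hθ0 Z hZ, mul_zero, hM0]
  have hi0 : ∀ Z, (Kappa_i Z) 0 = 0 := by
    intro Z
    rw [Kappa_i_apply, pt_zero']
  have hD0 : ∀ Z t, 1 / 4 ≤ ‖Z‖ → D (Z, t) = 0 := by
    intro Z t hZ
    show (B (st t * θ Z) (Kappa_i Z)) 0 • e₀ + Kappa_i (f t Z - Z) = 0
    rw [hθ0 Z hZ, mul_zero, hB0, hi0, hf1 t Z hZ, sub_self, map_zero, zero_smul, zero_add]
  have hf2 : ∀ t Z, ‖Z‖ < 1 / 4 → ‖f t Z‖ < 1 / 4 := by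
    intro t Z hZ
    by_contra hcon
    push Not at hcon
    have h1 := hf1 t (f t Z) hcon
    have h2 := (f t).injective h1
    rw [h2] at hcon
    linarith
  have hf1' : ∀ t W, 1 / 4 ≤ ‖W‖ → (f t).symm W = W := by
    intro t W hW
    rw [Equiv.symm_apply_eq]
    exact (hf1 t W hW).symm
  have hf2' : ∀ t W, ‖W‖ < 1 / 4 → ‖(f t).symm W‖ < 1 / 4 := by
    intro t W hW
    by_contra hcon
    push Not at hcon
    have h1 := hf1 t _ hcon
    rw [Equiv.apply_symm_apply] at h1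
    rw [← h1] at hcon
    linarith
  have hpD : ∀ Z t, Kappa_p (D (Z, t)) = f t Z - Z := by
    intro Z t
    show Kappa_p ((B (st t * θ Z) (Kappa_i Z)) 0 • e₀ + Kappa_i (f t Z - Z)) = f t Z - Z
    rw [map_add, map_smul, Kappa_p_e, smul_zero, zero_add, Kappa_pi]
  have hsmall : ∀ Z : Kappa_F, ‖Z‖ < 1 / 4 → ∀ j, |Z j| < 1 / 2 := by
    intro Z hZ j
    linarith [Kappa_coord_le Z j]
  set k : ℝ → E3 → E3 := fun t x => x + D (Kappa_red (Kappa_p x), t) with hk
  set k' : ℝ → E3 → E3 := fun t x => x - D ((f t).symm (Kappa_red (Kappa_p x)), t) with hk'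
  have hred1 : ∀ t x, Kappa_red (Kappa_p (k t x)) = f t (Kappa_red (Kappa_p x)) := by
    intro t x
    set Z := Kappa_red (Kappa_p x) with hZ
    set m : Fin 2 → ℤ := fun j => round (Kappa_p x j) with hm
    have h1 : Kappa_p x = Kappa_z m + Z := Kappa_red_eq (Kappa_p x)
    have h2 : Kappa_p (k t x) = Kappa_z m + f t Z := by
      show Kappa_p (x + D (Z, t)) = _
      rw [map_add, hpD, h1]
      abel
    rcases lt_or_ge ‖Z‖ (1 / 4) with h | h
    · rw [h2, Kappa_red_small (hsmall _ (hf2 t Z h))]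
    · rw [h2, hf1 t Z h, ← h1]
  have hred2 : ∀ t x, Kappa_red (Kappa_p (k' t x)) = (f t).symm (Kappa_red (Kappa_p x)) := by
    intro t x
    set W := Kappa_red (Kappa_p x) with hW
    set m : Fin 2 → ℤ := fun j => round (Kappa_p x j) with hm
    have h1 : Kappa_p x = Kappa_z m + W := Kappa_red_eq (Kappa_p x)
    have h2 : Kappa_p (k' t x) = Kappa_z m + (f t).symm W := by
      show Kappa_p (x - D ((f t).symm W, t)) = _
      rw [map_sub, hpD, h1, Equiv.apply_symm_apply]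
      abel
    rcases lt_or_ge ‖W‖ (1 / 4) with h | h
    · rw [h2, Kappa_red_small (hsmall _ (hf2' t W h))]
    · rw [h2, hf1' t W h, ← h1]
  set κ : ℝ → Equiv.Perm E3 := fun t =>
    { toFun := k t
      invFun := k' t
      left_inv := by
        intro x
        show k t x - D ((f t).symm (Kappa_red (Kappa_p (k t x))), t) = x
        rw [hred1, Equiv.symm_apply_apply]
        show x + D (Kappa_red (Kappa_p x), t) - D (Kappa_red (Kappa_p x), t) = x
        rw [add_sub_cancel_right]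
      right_inv := by
        intro x
        show k' t x + D (Kappa_red (Kappa_p (k' t x)), t) = x
        rw [hred2]
        show x - D ((f t).symm (Kappa_red (Kappa_p x)), t) +
          D ((f t).symm (Kappa_red (Kappa_p x)), t) = x
        rw [sub_add_cancel] } with hκ
  have hκa : ∀ t x, κ t x = x + D (Kappa_red (Kappa_p x), t) := fun t x => rfl
  refine ⟨r₀ / 2, by linarith, κ, ?_, ?_, ?_, ?_, ?_, ?_⟩
  · exact contDiff_fst.add (Kappa_periodize hDs hD0)
  · have h1 : ContDiff ℝ ∞ (fun q : Kappa_F × ℝ => D ((f q.2).symm q.1, q.2)) :=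
      hDs.comp (hfs'.prodMk contDiff_snd)
    have h2 := Kappa_periodize h1 (by
      intro Z t hZ
      show D ((f t).symm Z, t) = 0
      rw [hf1' t Z hZ]
      exact hD0 Z t hZ)
    exact contDiff_fst.sub h2
  · intro t x m
    rw [hκa, hκa]
    have h1 : Kappa_p (x + vec m) = Kappa_p x + Kappa_z ![m 1, m 2] := by
      rw [map_add]
      congr 1
      ext j
      fin_cases j
      · show Kappa_p (vec m) 0 = (m 1 : ℝ)
        rw [Kappa_p_zero]
        rfl
      · show Kappa_p (vec m) 1 = (m 2 : ℝ)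
        rw [Kappa_p_one]
        rfl
    rw [h1, Kappa_red_add]
    abel
  · intro t ht
    apply Equiv.ext
    intro x
    rw [hκa]
    have h1 : st t = 0 := stp_zero (by norm_num) ht
    show x + ((B (st t * θ _) (Kappa_i _)) 0 • e₀ + Kappa_i (f t _ - _)) = x
    rw [hfM, h1, zero_mul, hM0, hB0, hi0, sub_self, map_zero, zero_smul, zero_add, add_zero]
  · intro t ht
    apply Equiv.ext
    intro x
    rw [hκa, hκa]
    have h1 : st t = 1 := stp_one (by norm_num) ht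
    have h2 : st 1 = 1 := stp_one (by norm_num) (by norm_num)
    show x + ((B (st t * θ _) (Kappa_i _)) 0 • e₀ + Kappa_i (f t _ - _)) =
      x + ((B (st 1 * θ _) (Kappa_i _)) 0 • e₀ + Kappa_i (f 1 _ - _))
    rw [hfM, hfM, h1, h2]
  · intro t x hx1 hx2
    rw [hκa]
    set Z := Kappa_p x with hZ
    have hZ0 : Z 0 = x 1 := Kappa_p_zero x
    have hZ1 : Z 1 = x 2 := Kappa_p_one x
    have hZn : ‖Z‖ ≤ r₀ := by
      refine (Kappa_norm_le Z).trans ?_
      rw [hZ0, hZ1]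
      linarith
    have hz0 : Kappa_z 0 + Z = Z := by
      ext j
      rw [PiLp.add_apply, Kappa_z_apply]
      simp
    have hredZ : Kappa_red Z = Z := by
      have h1 := Kappa_red_small (Z := Z) (by
        intro j
        have := Kappa_coord_le Z j
        linarith) 0
      rwa [hz0] at h1
    rw [hredZ]
    show x + ((B (st t * θ Z) (Kappa_i Z)) 0 • e₀ + Kappa_i (f t Z - Z)) = B (st t) x
    rw [hfM, hθ1 Z hZn, mul_one]
    have h3 : M (st t) Z = Kappa_p (B (st t) (Kappa_i Z)) := rfl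
    have h4 := Kappa_decomp (B (st t) (Kappa_i Z))
    have h5 := Kappa_decomp x
    rw [← hZ] at h5
    conv_rhs => rw [h5, map_add, map_smul, hBe, h4]
    rw [h3, map_sub]
    conv_lhs => rw [h5]
    abel_nf

end Pool.Agent.CSG
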