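import Pool.Agent.CSG.Reparam

/-!
# CSG/SIsot: change of the monodromy by an isotopy

`surg_isot`: apply `surg_reparam` with `Ψ = Ψ.ψ`, `φ₁ = φ * ψ 1`, `P₁ t = c L_t⁻¹ P t` with
`c` so small that `‖P₁ t z‖ < ε` for `‖z‖ < 1`, `t ∈ [-1/8, 9/8]` (compactness).
`Ψ_mon`: for `-1/8 < t < 1/8` one has `ψ t = 1`, `ψ (t+1) = ψ 1`.
`Isot.symm`: the inverse isotopy `t ↦ (ψ t)⁻¹`.  Linear near `0`: for `‖x‖ < ε'` with
`‖L_t⁻¹ x‖ < ε` (`L_t` is constant for `t ≤ 1/4` and `t ≥ 3/4` near 0, so `‖L_t⁻¹‖` is bounded;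
note `L t` is determined by `ψ t`).  `L⁻¹` is smooth (inverse of a smooth family of linear
isomorphisms).
-/

open scoped Manifold ContDiff Topology
open Set Filter

namespace Pool.Agent.CSG

theorem SIsot_psi_zero (Ψ : Isot) (t : ℝ) : Ψ.ψ t 0 = 0 := by
  obtain ⟨ε, hε, L, -, hL⟩ := Ψ.lin
  rw [hL t 0 (by simpa using hε), map_zero]

theorem Isot.mono (Ψ : Isot) (t : ℝ) : Mono 1 (Ψ.ψ t) where
  smooth := Ψ.smooth.comp (contDiff_id.prodMk contDiff_const)
  smooth_symm := Ψ.smooth_symm.comp (contDiff_id.prodMk contDiff_const)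
  lat x m := by rw [Ψ.lat, Matrix.one_mulVec]
  zero := SIsot_psi_zero Ψ t
  unit := by simp

/-- a smooth family of linear maps is a smooth map to the space of linear maps -/
theorem SIsot_clm {L : ℝ → E3 ≃L[ℝ] E3} (h : ContDiff ℝ ∞ fun q : ℝ × E3 => L q.1 q.2) :
    ContDiff ℝ ∞ fun t : ℝ => (L t : E3 →L[ℝ] E3) := by
  rw [contDiff_clm_apply_iff]
  intro y
  exact h.comp (contDiff_id.prodMk contDiff_const)

theorem SIsot_clm_symm {L : ℝ → E3 ≃L[ℝ] E3} (h : ContDiff ℝ ∞ fun q : ℝ × E3 => L q.1 q.2) :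
    ContDiff ℝ ∞ fun t : ℝ => ((L t).symm : E3 →L[ℝ] E3) := by
  have h1 := SIsot_clm h
  have h2 : (fun t : ℝ => ((L t).symm : E3 →L[ℝ] E3)) =
      fun t => ContinuousLinearMap.inverse (L t : E3 →L[ℝ] E3) := by
    funext t
    rw [ContinuousLinearMap.inverse_equiv]
  rw [h2, contDiff_iff_contDiffAt]
  intro t
  have h3 : ContDiffAt ℝ ∞ ContinuousLinearMap.inverse (L t : E3 →L[ℝ] E3) :=
    contDiffAt_map_inverse (L t)
  exact ContDiffAt.comp t h3 (contDiff_iff_contDiffAt.1 h1 t)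

/-- smoothness of the inverse of a smooth family of linear isomorphisms -/
theorem smooth_symm_lin {L : ℝ → E3 ≃L[ℝ] E3} (h : ContDiff ℝ ∞ fun q : ℝ × E3 => L q.1 q.2) :
    ContDiff ℝ ∞ fun q : ℝ × E3 => (L q.1).symm q.2 := by
  have h1 := SIsot_clm_symm h
  exact (h1.comp contDiff_fst).clm_apply contDiff_snd

/-- bound for a continuous family of linear maps on a compact interval -/
theorem SIsot_bound {L : ℝ → E3 →L[ℝ] E3} (h : Continuous L) (a b : ℝ) :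
    ∃ K : ℝ, 0 < K ∧ ∀ t ∈ Icc a b, ‖L t‖ ≤ K := by
  obtain ⟨K, hK⟩ := (isCompact_Icc (a := a) (b := b)).exists_bound_of_continuousOn
    (h.continuousOn)
  exact ⟨max K 1, lt_of_lt_of_le one_pos (le_max_right _ _),
    fun t ht => (hK t ht).trans (le_max_left _ _)⟩

/-- the linear family is determined by the isotopy -/
theorem SIsot_lin_eq {L L' : E3 →L[ℝ] E3} {ε : ℝ} (hε : 0 < ε)
    (h : ∀ x, ‖x‖ < ε → L x = L' x) : L = L' := by
  ext1 x
  set c : ℝ := ε / (2 * (‖x‖ + 1)) with hc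
  have hx : 0 ≤ ‖x‖ := norm_nonneg x
  have hc0 : 0 < c := by positivity
  have h1 : ‖c • x‖ < ε := by
    rw [norm_smul, Real.norm_of_nonneg hc0.le, hc, div_mul_eq_mul_div, div_lt_iff₀ (by positivity)]
    nlinarith
  have h2 := h _ h1
  rw [map_smul, map_smul] at h2
  exact smul_right_injective E3 hc0.ne' h2

theorem Isot.exists_symm (Ψ : Isot) : ∃ Ψ' : Isot, ∀ t, Ψ'.ψ t = (Ψ.ψ t)⁻¹ := by
  refine ⟨⟨fun t => (Ψ.ψ t)⁻¹, Ψ.smooth_symm, ?_, ?_, ?_, ?_, ?_⟩, fun t => rfl⟩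
  · exact Ψ.smooth
  · intro t x m
    show (Ψ.ψ t).symm _ = (Ψ.ψ t).symm _ + _
    rw [Equiv.symm_apply_eq, Ψ.lat, Equiv.apply_symm_apply]
  · intro t ht
    show (Ψ.ψ t)⁻¹ = 1
    rw [Ψ.start t ht, inv_one]
  · intro t ht
    show (Ψ.ψ t)⁻¹ = (Ψ.ψ 1)⁻¹
    rw [Ψ.stop t ht]
  · obtain ⟨ε, hε, L, hLs, hL⟩ := Ψ.lin
    have hsymm := SIsot_clm_symm hLs
    obtain ⟨K, hK, hKb⟩ := SIsot_bound hsymm.continuous (1 / 4) 1
    have hall : ∀ t, ‖((L t).symm : E3 →L[ℝ] E3)‖ ≤ K := by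
      intro t
      rcases le_total t (1 / 4) with h1 | h1
      · have e1 : (L t : E3 →L[ℝ] E3) = (L (1 / 4) : E3 →L[ℝ] E3) := by
          apply SIsot_lin_eq hε
          intro x hx
          have a := hL t x hx
          have b := hL (1 / 4) x hx
          rw [Ψ.start t h1] at a
          rw [Ψ.start _ le_rfl] at b
          exact a.symm.trans b
        have e2 : L t = L (1 / 4) := ContinuousLinearEquiv.coe_injective e1
        rw [e2]
        exact hKb _ ⟨le_rfl, by norm_num⟩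
      · rcases le_total t 1 with h2 | h2
        · exact hKb _ ⟨h1, h2⟩
        · have e1 : (L t : E3 →L[ℝ] E3) = (L 1 : E3 →L[ℝ] E3) := by
            apply SIsot_lin_eq hε
            intro x hx
            have a := hL t x hx
            have b := hL 1 x hx
            rw [Ψ.stop t (by linarith)] at a
            exact a.symm.trans b
          have e2 : L t = L 1 := ContinuousLinearEquiv.coe_injective e1
          rw [e2]
          exact hKb _ ⟨by norm_num, le_rfl⟩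
    refine ⟨ε / K, by positivity, fun t => (L t).symm, smooth_symm_lin hLs, ?_⟩
    intro t x hx
    show (Ψ.ψ t).symm x = _
    rw [Equiv.symm_apply_eq, hL, ContinuousLinearEquiv.apply_symm_apply]
    calc ‖(L t).symm x‖ = ‖((L t).symm : E3 →L[ℝ] E3) x‖ := rfl
      _ ≤ ‖((L t).symm : E3 →L[ℝ] E3)‖ * ‖x‖ := ContinuousLinearMap.le_opNorm _ _
      _ ≤ K * ‖x‖ := by gcongr; exact hall t
      _ < K * (ε / K) := by gcongr
      _ = ε := by field_simp

section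
variable {X : Type*} [TopologicalSpace X] [ChartedSpace E4 X]

theorem surg_isot {A : Matrix (Fin 3) (Fin 3) ℤ} {φ : Equiv.Perm E3}
    (hφ : Mono A φ) (S : Surg φ X) (Ψ : Isot) : Nonempty (Surg (φ * Ψ.ψ 1) X) := by
  obtain ⟨ε, hε, L, hLs, hL⟩ := Ψ.lin
  have hsymm := SIsot_clm_symm hLs
  have hP := SIsot_clm S.P_smooth
  obtain ⟨K, hK, hKb⟩ := SIsot_bound hsymm.continuous (-(1 / 8)) (9 / 8)
  obtain ⟨K', hK', hKb'⟩ := SIsot_bound hP.continuous (-(1 / 8)) (9 / 8)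
  set c : ℝ := min 1 (ε / (2 * (K * K'))) with hc
  have hc0 : 0 < c := lt_min one_pos (by positivity)
  have hc1 : c ≤ 1 := min_le_left _ _
  have hcK : K * K' * c < ε := by
    have : c ≤ ε / (2 * (K * K')) := min_le_right _ _
    calc K * K' * c ≤ K * K' * (ε / (2 * (K * K'))) := by gcongr
      _ = ε / 2 := by field_simp
      _ < ε := by linarith
  let sc : E3 ≃L[ℝ] E3 := (LinearEquiv.smulOfNeZero ℝ E3 c hc0.ne').toContinuousLinearEquiv
  have hsc : ∀ z, sc z = c • z := fun z => rfl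
  have key : ∀ t z, -(1 / 8) < t → t < 9 / 8 → ‖z‖ < 1 →
      ‖(L t).symm (S.P t (c • z))‖ < ε := by
    intro t z h1 h2 hz
    have ht : t ∈ Icc (-(1 / 8) : ℝ) (9 / 8) := ⟨h1.le, h2.le⟩
    calc ‖(L t).symm (S.P t (c • z))‖ = ‖((L t).symm : E3 →L[ℝ] E3) (S.P t (c • z))‖ := rfl
      _ ≤ ‖((L t).symm : E3 →L[ℝ] E3)‖ * ‖S.P t (c • z)‖ := ContinuousLinearMap.le_opNorm _ _
      _ ≤ K * ‖S.P t (c • z)‖ := by gcongr; exact hKb t ht
      _ = K * ‖(S.P t : E3 →L[ℝ] E3) (c • z)‖ := rfl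
      _ ≤ K * (‖(S.P t : E3 →L[ℝ] E3)‖ * ‖c • z‖) := by
          gcongr; exact ContinuousLinearMap.le_opNorm _ _
      _ ≤ K * (K' * ‖c • z‖) := by gcongr; exact hKb' t ht
      _ = K * K' * c * ‖z‖ := by
          rw [norm_smul, Real.norm_of_nonneg hc0.le]; ring
      _ ≤ K * K' * c * 1 := by gcongr
      _ < ε := by rw [mul_one]; exact hcK
  have hmono : Mono (A * 1) (φ * Ψ.ψ 1) := hφ.mul (Ψ.mono 1)
  obtain ⟨S₁, -⟩ := surg_reparam (φ₁ := φ * Ψ.ψ 1) (A₁ := A * 1) hφ hmono S (fun t => Ψ.ψ t)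
    (fun x t _ _ => ld_of_family Ψ.smooth Ψ.smooth_symm x t)
    (fun x t m _ _ => Ψ.lat t x m)
    (fun t _ _ => SIsot_psi_zero Ψ t)
    (fun x t h1 h2 => by
      rw [Ψ.stop (t + 1) (by linarith), Ψ.start t (by linarith)]
      rfl)
    (fun t => sc.trans ((S.P t).trans (L t).symm))
    (by
      show ContDiff ℝ ∞ fun q : ℝ × E3 => (L q.1).symm (S.P q.1 (c • q.2))
      exact (hsymm.comp contDiff_fst).clm_apply
        ((hP.comp contDiff_fst).clm_apply (contDiff_snd.const_smul c)))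
    c hc0 hc1
    (fun t z h1 h2 hz => by
      show Ψ.ψ t ((L t).symm (S.P t (c • z))) = _
      rw [hL t _ (key t z h1 h2 hz), ContinuousLinearEquiv.apply_symm_apply])
  exact ⟨S₁⟩

end

end Pool.Agent.CSG
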