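import Pool.Agent.CSG.PathC
import Pool.Agent.CSG.Kappa
import Pool.Agent.CSG.SIsot

/-!
# CSG/Isots: from linear monodromies to the adapted ones

`C` has determinant `1` and first column `e₀`.  Take `B` from `exists_path`, `κ` from `exists_kappa`,
`actC` the linear permutation (`exists_actE`) and `κ₀ = actC * κ 1`.  Near the axis
`κ₀ x = act C (B 1 x) = x`.
For `k : ℤ`, `act (transvection 1 0 k * C) = sh (fun y _ => k y) ∘ act C`.  The isotopy is
`ψ t = actC⁻¹ * sh (fun y _ => s k (lam y - y)) * actC * κ t`, `s = stp (1/4) (3/4) t`.  The middle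
shear is by a periodic function of `y`, hence commutes with `Z^3`, and `actC⁻¹ * .. * actC` too;
near `0` it is linear: `lam y = 0` for `|y| ≤ 9/20`.  At `t = 1`:
`sh (k y) * actC * actC⁻¹ * sh (k (lam y - y)) * actC * κ 1 = sh (k lam y) * κ₀`.
-/

open scoped ContDiff
open Set

namespace Pool.Agent.CSG

theorem Isots_pt_smooth {V : Type*} [NormedAddCommGroup V] [NormedSpace ℝ V] {f g h : V → ℝ}
    (hf : ContDiff ℝ ∞ f) (hg : ContDiff ℝ ∞ g) (hh : ContDiff ℝ ∞ h) :
    ContDiff ℝ ∞ fun q => pt (f q) (g q) (h q) := by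
  rw [contDiff_euclidean]
  intro i
  fin_cases i
  · simpa using hf
  · simpa using hg
  · simpa using hh

theorem Isots_coord_smooth {V : Type*} [NormedAddCommGroup V] [NormedSpace ℝ V] {f : V → E3}
    (hf : ContDiff ℝ ∞ f) (i : Fin 3) : ContDiff ℝ ∞ fun q => f q i :=
  contDiff_euclidean.1 hf i

theorem Isots_act_add (A : Matrix (Fin 3) (Fin 3) ℤ) (x y : E3) :
    act A (x + y) = act A x + act A y := by
  ext i
  simp [act, mul_add, Finset.sum_add_distrib]

theorem Isots_act_smul (A : Matrix (Fin 3) (Fin 3) ℤ) (c : ℝ) (x : E3) :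
    act A (c • x) = c • act A x := by
  ext i
  simp only [act, PiLp.smul_apply, smul_eq_mul, Finset.mul_sum]
  exact Finset.sum_congr rfl fun j _ => by ring

/-- the linear permutation as a continuous linear equivalence -/
theorem Isots_exists_clm {A : Matrix (Fin 3) (Fin 3) ℤ} {φ : Equiv.Perm E3}
    (hφ : ∀ x, φ x = act A x) : ∃ L : E3 ≃L[ℝ] E3, (∀ x, L x = φ x) ∧ ∀ x, L.symm x = φ.symm x := by
  let L0 : E3 ≃ₗ[ℝ] E3 :=
    { toFun := φ
      invFun := φ.symm
      left_inv := φ.left_inv
      right_inv := φ.right_inv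
      map_add' := fun x y => by simp only [hφ]; exact Isots_act_add A x y
      map_smul' := fun c x => by
        simp only [hφ, RingHom.id_apply]; exact Isots_act_smul A c x }
  exact ⟨L0.toContinuousLinearEquiv, fun x => rfl, fun x => rfl⟩

/-- the linear shear -/
noncomputable def Isots_shL (c : ℝ) : E3 ≃L[ℝ] E3 :=
  ({ toFun := fun z => pt (z 0) (z 1 + c * z 0) (z 2)
     invFun := fun z => pt (z 0) (z 1 - c * z 0) (z 2)
     left_inv := fun z => by ext i; fin_cases i <;> simp [pt]
     right_inv := fun z => by ext i; fin_cases i <;> simp [pt]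
     map_add' := fun x y => by
      ext i; fin_cases i
      · simp [pt]
      · simp [pt]; ring
      · simp [pt]
     map_smul' := fun a x => by
      ext i; fin_cases i
      · simp [pt]
      · simp [pt]; ring
      · simp [pt] } : E3 ≃ₗ[ℝ] E3).toContinuousLinearEquiv

theorem Isots_shL_apply (c : ℝ) (z : E3) : Isots_shL c z = pt (z 0) (z 1 + c * z 0) (z 2) := rfl

theorem Isots_act_transvection (k : ℤ) (z : E3) :
    act (Matrix.transvection 1 0 k) z = sh (fun y _ => k * y) z := by
  show _ = pt (z 0) (z 1 + k * z 0) (z 2)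
  ext i
  fin_cases i
  · simp [act, Matrix.transvection, Fin.sum_univ_three, Matrix.single, Matrix.one_apply]
  · simp [act, Matrix.transvection, Fin.sum_univ_three, Matrix.single, Matrix.one_apply]
    ring
  · simp [act, Matrix.transvection, Fin.sum_univ_three, Matrix.single, Matrix.one_apply]

theorem exists_isots {C : Matrix (Fin 3) (Fin 3) ℤ} (hC : C.det = 1) (h0 : C 0 0 = 1)
    (h1 : C 1 0 = 0) (h2 : C 2 0 = 0) :
    ∃ κ₀ : Equiv.Perm E3, ∃ δ : ℝ, 0 < δ ∧ Mono C κ₀ ∧
      (∀ x, |x 1| < δ → |x 2| < δ → κ₀ x = x) ∧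
      ∀ (k : ℤ) (B : Equiv.Perm E3),
        (∀ x, B x = act (Matrix.transvection 1 0 k * C) x) →
        ∃ Ψ : Isot, B * Ψ.ψ 1 = sh (fun y _ => k * lam y) * κ₀ := by
  obtain ⟨B, hBs, hB0, hBe, hB1⟩ := exists_path hC h0 h1 h2
  obtain ⟨δ, hδ, κ, hκs, hκs', hκlat, hκstart, hκstop, hκ⟩ := exists_kappa hBs hB0 hBe
  obtain ⟨aC, haC, hmC⟩ := exists_actE (A := C) (by rw [hC]; exact isUnit_one)
  obtain ⟨CL, hCL, hCL'⟩ := Isots_exists_clm haC
  have hst1 : stp (1 / 4) (3 / 4) 1 = 1 := stp_one (by norm_num) (by norm_num)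
  have hκ0 : ∀ t, κ t 0 = 0 := by
    intro t
    rw [hκ t 0 (by simpa using hδ) (by simpa using hδ), map_zero]
  have hmκ : Mono 1 (κ 1) :=
    { smooth := hκs.comp (contDiff_id.prodMk contDiff_const)
      smooth_symm := hκs'.comp (contDiff_id.prodMk contDiff_const)
      lat := fun x m => by rw [hκlat, Matrix.one_mulVec]
      zero := hκ0 1
      unit := by simp }
  have haCsymm_lat : ∀ x m, aC.symm (x + vec (C.mulVec m)) = aC.symm x + vec m := by
    intro x m
    rw [Equiv.symm_apply_eq, hmC.lat, Equiv.apply_symm_apply]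
  refine ⟨aC * κ 1, δ, hδ, by simpa using hmC.mul hmκ, ?_, ?_⟩
  · intro x hx1 hx2
    show aC (κ 1 x) = x
    rw [hκ 1 x hx1 hx2, hst1, haC, hB1]
  · intro k B' hB'
    set s : ℝ → ℝ := stp (1 / 4) (3 / 4) with hs
    have hss : ContDiff ℝ ∞ s := stp_smooth _ _
    let F : ℝ → Equiv.Perm E3 := fun t => sh (fun y _ => s t * k * (lam y - y))
    have hF : ∀ t x, F t x = pt (x 0) (x 1 + s t * k * (lam (x 0) - x 0)) (x 2) := fun t x => rfl
    have hF' : ∀ t x, (F t).symm x = pt (x 0) (x 1 - s t * k * (lam (x 0) - x 0)) (x 2) :=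
      fun t x => rfl
    have hFs : ContDiff ℝ ∞ fun q : E3 × ℝ => F q.2 q.1 := by
      simp only [hF]
      have c0 : ContDiff ℝ ∞ fun q : E3 × ℝ => q.1 0 := Isots_coord_smooth contDiff_fst 0
      have c1 : ContDiff ℝ ∞ fun q : E3 × ℝ => q.1 1 := Isots_coord_smooth contDiff_fst 1
      have c2 : ContDiff ℝ ∞ fun q : E3 × ℝ => q.1 2 := Isots_coord_smooth contDiff_fst 2
      exact Isots_pt_smooth c0
        (c1.add (((hss.comp contDiff_snd).mul contDiff_const).mul ((lam_smooth.comp c0).sub c0))) c2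
    have hFs' : ContDiff ℝ ∞ fun q : E3 × ℝ => (F q.2).symm q.1 := by
      simp only [hF']
      have c0 : ContDiff ℝ ∞ fun q : E3 × ℝ => q.1 0 := Isots_coord_smooth contDiff_fst 0
      have c1 : ContDiff ℝ ∞ fun q : E3 × ℝ => q.1 1 := Isots_coord_smooth contDiff_fst 1
      have c2 : ContDiff ℝ ∞ fun q : E3 × ℝ => q.1 2 := Isots_coord_smooth contDiff_fst 2
      exact Isots_pt_smooth c0
        (c1.sub (((hss.comp contDiff_snd).mul contDiff_const).mul ((lam_smooth.comp c0).sub c0))) c2
    have hFlat : ∀ t x m, F t (x + vec m) = F t x + vec m := by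
      intro t x m
      have e0 : (x + vec m) 0 = x 0 + (m 0 : ℤ) := rfl
      rw [hF, hF, e0, lam_add_int]
      ext i
      fin_cases i
      · simp [pt, vec]
      · simp [pt, vec]; ring
      · simp [pt, vec]
    have hFone : ∀ t, t ≤ 1 / 4 → F t = 1 := by
      intro t ht
      have : s t = 0 := stp_zero (by norm_num) ht
      ext1 x
      rw [hF, this]
      show _ = x
      rw [zero_mul, zero_mul, add_zero, pt_eta]
    have hFstop : ∀ t, 3 / 4 ≤ t → F t = F 1 := by
      intro t ht
      have e1 : s t = 1 := stp_one (by norm_num) ht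
      have e2 : s 1 = 1 := hst1
      show sh _ = sh _
      rw [e1, e2]
    let ψ : ℝ → Equiv.Perm E3 := fun t => aC⁻¹ * F t * aC * κ t
    have hψ : ∀ t x, ψ t x = aC.symm (F t (aC (κ t x))) := fun t x => rfl
    have hψ' : ∀ t x, (ψ t).symm x = (κ t).symm (aC.symm ((F t).symm (aC x))) := fun t x => rfl
    -- linearity near the origin
    have hBc : Continuous fun t : ℝ => (B t : E3 →L[ℝ] E3) := (SIsot_clm hBs).continuous
    obtain ⟨K, hK, hKb⟩ := SIsot_bound hBc 0 1
    have hlin : ∃ ε > 0, ∃ L : ℝ → E3 ≃L[ℝ] E3, (ContDiff ℝ ∞ fun q : ℝ × E3 => L q.1 q.2) ∧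
        ∀ t x, ‖x‖ < ε → ψ t x = L t x := by
      set N : ℝ := ‖(CL : E3 →L[ℝ] E3)‖ with hN
      have hN0 : 0 ≤ N := norm_nonneg _
      refine ⟨min δ (9 / 20 / (N * K + 1)), lt_min hδ (by positivity),
        fun t => (B (s t)).trans (CL.trans ((Isots_shL (-(s t * k))).trans CL.symm)), ?_, ?_⟩
      · show ContDiff ℝ ∞ fun q : ℝ × E3 =>
          CL.symm (Isots_shL (-(s q.1 * k)) (CL (B (s q.1) q.2)))
        refine CL.symm.contDiff.comp ?_
        have hb : ContDiff ℝ ∞ fun q : ℝ × E3 => CL (B (s q.1) q.2) := by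
          refine CL.contDiff.comp ?_
          exact hBs.comp ((hss.comp contDiff_fst).prodMk contDiff_snd)
        simp only [Isots_shL_apply]
        have c0 := Isots_coord_smooth hb 0
        have c1 := Isots_coord_smooth hb 1
        have c2 := Isots_coord_smooth hb 2
        exact Isots_pt_smooth c0
          (c1.add ((((hss.comp contDiff_fst).mul contDiff_const).neg).mul c0)) c2
      · intro t x hx
        have hxδ : ‖x‖ < δ := hx.trans_le (min_le_left _ _)
        have hx2 : ‖x‖ < 9 / 20 / (N * K + 1) := hx.trans_le (min_le_right _ _)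
        have a1 : |x 1| < δ := lt_of_le_of_lt (by simpa using PiLp.norm_apply_le x 1) hxδ
        have a2 : |x 2| < δ := lt_of_le_of_lt (by simpa using PiLp.norm_apply_le x 2) hxδ
        rw [hψ, hκ t x a1 a2]
        show aC.symm (F t (aC (B (s t) x))) = CL.symm (Isots_shL (-(s t * k)) (CL (B (s t) x)))
        rw [hCL', hCL]
        congr 1
        set w : E3 := aC (B (s t) x) with hw
        have hwn : |w 0| ≤ 9 / 20 := by
          have b1 : |w 0| ≤ ‖w‖ := by simpa using PiLp.norm_apply_le w 0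
          have b2 : ‖w‖ ≤ N * (K * ‖x‖) := by
            calc ‖w‖ = ‖(CL : E3 →L[ℝ] E3) (B (s t) x)‖ := by
                  rw [hw, ← hCL]; rfl
              _ ≤ N * ‖B (s t) x‖ := ContinuousLinearMap.le_opNorm _ _
              _ = N * ‖(B (s t) : E3 →L[ℝ] E3) x‖ := rfl
              _ ≤ N * (‖(B (s t) : E3 →L[ℝ] E3)‖ * ‖x‖) := by
                  gcongr; exact ContinuousLinearMap.le_opNorm _ _
              _ ≤ N * (K * ‖x‖) := by
                  gcongr
                  exact hKb _ ⟨stp_nonneg _ _ _, stp_le_one _ _ _⟩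
          have b3 : ‖x‖ * (N * K + 1) < 9 / 20 := (lt_div_iff₀ (by positivity)).1 hx2
          have hx0 : 0 ≤ ‖x‖ := norm_nonneg x
          nlinarith
        have hl : lam (w 0) = 0 := lam_zero (by linarith [neg_abs_le (w 0)])
          (by linarith [le_abs_self (w 0)])
        rw [hF, Isots_shL_apply, hl]
        ext i
        fin_cases i
        · simp [pt]
        · simp [pt]
        · simp [pt]
    refine ⟨⟨ψ, ?_, ?_, ?_, ?_, ?_, hlin⟩, ?_⟩
    · show ContDiff ℝ ∞ fun q : E3 × ℝ => aC.symm (F q.2 (aC (κ q.2 q.1)))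
      refine hmC.smooth_symm.comp ?_
      exact hFs.comp ((hmC.smooth.comp hκs).prodMk contDiff_snd)
    · show ContDiff ℝ ∞ fun q : E3 × ℝ => (κ q.2).symm (aC.symm ((F q.2).symm (aC q.1)))
      have e1 : ContDiff ℝ ∞ fun q : E3 × ℝ => (F q.2).symm (aC q.1) :=
        hFs'.comp ((hmC.smooth.comp contDiff_fst).prodMk contDiff_snd)
      exact hκs'.comp ((hmC.smooth_symm.comp e1).prodMk contDiff_snd)
    · intro t x m
      rw [hψ, hψ, hκlat, hmC.lat, hFlat, haCsymm_lat]
    · intro t ht
      show aC⁻¹ * F t * aC * κ t = 1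
      rw [hFone t ht, hκstart t ht]
      simp
    · intro t ht
      show aC⁻¹ * F t * aC * κ t = aC⁻¹ * F 1 * aC * κ 1
      rw [hFstop t ht, hκstop t ht]
    · show B' * (aC⁻¹ * F 1 * aC * κ 1) = sh (fun y _ => k * lam y) * (aC * κ 1)
      have e1 : B' = sh (fun y _ => k * y) * aC := by
        ext1 x
        show B' x = sh (fun y _ => k * y) (aC x)
        rw [hB', act_mul, haC, Isots_act_transvection]
      have e2 : F 1 = sh (fun y _ => k * (lam y - y)) := by
        show sh _ = sh _
        have : s 1 = 1 := hst1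
        simp only [this, one_mul]
      have e3 : sh (fun y _ => k * y) * F 1 = sh (fun y _ => k * lam y) := by
        rw [e2, sh_mul]
        congr 1
        funext n y
        ring
      rw [e1, ← e3]
      group

end Pool.Agent.CSG
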