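import Pool.Agent.CSG.RotP

/-!
# CSG/LamA: the model diffeomorphism is smooth with smooth inverse

`0 < σ ≤ 1/4`.  Write `m = ⌊n⌋`, `x₀ = 2 (n - m - 1/2)/(1 - σ)`, `x₁ = σ p / 10`, `rr = x₀² + |x₁|²`.

*Where `rr ≥ 1 + σ`*: `τ = 0`, `Lam σ (n, p, s) = (n, exp (-2iθ) p, s)`, `θ = 2π gr σ p s`
(`rot_zero`, `qa_zero`).  This holds in particular near `n ∈ Z`, where `|x₀| ≥ (1 - small)/(1 - σ)`
and `1/(1-σ)² > 1 + σ` because `(1+σ)(1-σ)² = (1-σ²)(1-σ) < 1`.  So `Lam` is smooth near integers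
`n`; near other `n` the floor is constant.  `gs` is smooth: near `s - round s = ±1/2` it is
locally an integer (`stp = 0` or `1`), i.e. `gs` is `round s` resp. `round s + 1` for
`s - round s ≤ -σ/2` resp. `≥ σ/2`; both agree with the same integer across half-integers.

*Inverse.*  If `rr < 1 + σ` then the rotated point `x'` has the same norm, so
`|x₀'| < sqrt (1+σ) < 1/(1-σ)`, the new `n' = m + 1/2 + x₀' (1-σ)/2` is in `(m, m+1)`, has the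
same floor, `sc σ n' p' = x'`, the same `rr`, the same `τ`; moreover `|p|² ≤ 100 (1+σ)/σ² < (20/σ)²`
and the same for `p'`, so `gr σ p s = gs σ s = gr σ p' s` and the same `θ`.  If `rr ≥ 1 + σ`, `n`
is unchanged and `|p'| = |p|`, again the same `θ`, `τ = 0`.  Then use `rot_inv`.
-/

open scoped ContDiff Topology
open Complex (I)
open Set Filter

namespace Pool.Agent.CSG

theorem LamA_gs_eq {σ : ℝ} (h0 : 0 < σ) (h1 : σ ≤ 1 / 4) {s : ℝ} {m : ℤ} (h : |s - m| < 3 / 4) :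
    gs σ s = m + stp (-(σ / 2)) (σ / 2) (s - m) := by
  unfold gs
  have hr := abs_sub_round s
  have hab : -(σ / 2) < σ / 2 := by linarith
  have hr1 := abs_le.1 hr
  have hm1 := abs_lt.1 h
  have h2 : -(2 : ℝ) < ((round s - m : ℤ) : ℝ) := by push_cast; linarith
  have h3 : ((round s - m : ℤ) : ℝ) < 2 := by push_cast; linarith
  have h2' : -2 < round s - m := by exact_mod_cast h2
  have h3' : round s - m < 2 := by exact_mod_cast h3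
  have hc : round s = m - 1 ∨ round s = m ∨ round s = m + 1 := by omega
  rcases hc with hc | hc | hc
  · rw [hc] at hr1 ⊢
    push_cast at hr1 ⊢
    rw [stp_one hab (by linarith), stp_zero hab (by linarith)]
    ring
  · rw [hc]
  · rw [hc] at hr1 ⊢
    push_cast at hr1 ⊢
    rw [stp_zero hab (by linarith), stp_one hab (by linarith)]
    ring

theorem gs_smooth {σ : ℝ} (h0 : 0 < σ) (h1 : σ ≤ 1 / 4) : ContDiff ℝ ∞ (gs σ) := by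
  rw [contDiff_iff_contDiffAt]
  intro s
  have hev : gs σ =ᶠ[𝓝 s] fun s' => (round s : ℝ) + stp (-(σ / 2)) (σ / 2) (s' - round s) := by
    have : {s' : ℝ | |s' - round s| < 3 / 4} ∈ 𝓝 s := by
      apply IsOpen.mem_nhds
      · exact isOpen_lt (by fun_prop) (by fun_prop)
      · have := abs_sub_round s
        simp only [mem_ofPred_eq]
        linarith
    filter_upwards [this] with s' hs'
    exact LamA_gs_eq h0 h1 hs'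
  refine ContDiffAt.congr_of_eventuallyEq ?_ hev
  have h := stp_smooth (-(σ / 2)) (σ / 2)
  fun_prop

theorem gs_add_int (σ s : ℝ) (m : ℤ) : gs σ (s + m) = gs σ s + m := by
  unfold gs
  rw [round_add_intCast]
  push_cast
  rw [show s + (m : ℝ) - ((round s : ℝ) + m) = s - round s by ring]
  ring

theorem gs_int {σ : ℝ} (h0 : 0 < σ) {s : ℝ} (h : σ / 2 ≤ |s - round s|) :
    ∃ m : ℤ, gs σ s = m := by
  unfold gs
  have hab : -(σ / 2) < σ / 2 := by linarith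
  rcases le_abs.1 h with h | h
  · refine ⟨round s + 1, ?_⟩
    rw [stp_one hab h]
    push_cast
    ring
  · refine ⟨round s, ?_⟩
    rw [stp_zero hab (by linarith)]
    ring

theorem gr_smooth {σ : ℝ} (h0 : 0 < σ) (h1 : σ ≤ 1 / 4) :
    ContDiff ℝ ∞ fun q : ℂ × ℝ => gr σ q.1 q.2 := by
  unfold gr
  have h2 := gs_smooth h0 h1
  have h3 := stp_smooth ((20 / σ) ^ 2) ((40 / σ) ^ 2)
  have h4 : ContDiff ℝ ∞ fun q : ℂ × ℝ => ‖q.1‖ ^ 2 := (contDiff_norm_sq ℝ).comp contDiff_fst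
  have h5 : ContDiff ℝ ∞ fun q : ℂ × ℝ => stp ((20 / σ) ^ 2) ((40 / σ) ^ 2) (‖q.1‖ ^ 2) :=
    h3.comp h4
  have h6 : ContDiff ℝ ∞ fun q : ℂ × ℝ => gs σ q.2 := h2.comp contDiff_snd
  exact ((contDiff_const.sub h5).mul h6).add (h5.mul contDiff_snd)

/-- common generalisation of `Lam` and `Lam'` -/
noncomputable def LamA_LG (σ : ℝ) (fa : ℝ → ℝ → ℂ) (fb : ℝ → ℝ → ℝ) (z : ℝ × ℂ × ℝ) :
    ℝ × ℂ × ℝ :=
  let θ := 2 * Real.pi * gr σ z.2.1 z.2.2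
  let τ := ta σ z.1 z.2.1
  let x := rot (fa θ τ) (fb θ τ) (sc σ z.1 z.2.1)
  (⌊z.1⌋ + 1 / 2 + x.1 * (1 - σ) / 2, 10 / σ * x.2, z.2.2)

noncomputable abbrev LamA_qa' (θ τ : ℝ) : ℂ := (starRingEnd ℂ) (qa θ τ)
noncomputable abbrev LamA_qb' (θ τ : ℝ) : ℝ := -qb θ τ

theorem LamA_Lam (σ : ℝ) : Lam σ = LamA_LG σ qa qb := rfl
theorem LamA_Lam' (σ : ℝ) : Lam' σ = LamA_LG σ LamA_qa' LamA_qb' := rfl

theorem LamA_q'_norm (θ τ : ℝ) : ‖LamA_qa' θ τ‖ ^ 2 + LamA_qb' θ τ ^ 2 = 1 := by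
  have := q_norm θ τ
  simp only [LamA_qa', LamA_qb', RCLike.norm_conj, neg_sq]
  exact this

theorem LamA_qb'_zero (θ : ℝ) : LamA_qb' θ 0 = 0 := by
  simp [LamA_qb', qb_zero]

theorem LamA_sq_lt {σ : ℝ} (h0 : 0 < σ) (h1 : σ ≤ 1 / 4) {x : ℝ} (h : x ^ 2 < 1 + σ) :
    |x * (1 - σ) / 2| < 1 / 2 := by
  have h2 : (x * (1 - σ)) ^ 2 < 1 := by
    have h3 : (x * (1 - σ)) ^ 2 = x ^ 2 * (1 - σ) ^ 2 := by ring
    have h4 : 0 < (1 - σ) ^ 2 := pow_pos (by linarith) 2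
    have h5 : x ^ 2 * (1 - σ) ^ 2 < (1 + σ) * (1 - σ) ^ 2 := mul_lt_mul_of_pos_right h h4
    have h6 : (1 + σ) * (1 - σ) ^ 2 = 1 - σ - σ ^ 2 * (1 - σ) := by ring
    have h7 : 0 ≤ σ ^ 2 * (1 - σ) := mul_nonneg (sq_nonneg _) (by linarith)
    linarith
  have h3 : |x * (1 - σ)| < 1 := (sq_lt_one_iff_abs_lt_one _).1 h2
  rw [abs_div, abs_two]
  linarith

/-- rescaling back -/
theorem LamA_sc_back {σ : ℝ} (h0 : 0 < σ) (h1 : σ ≤ 1 / 4) {n : ℝ} {w : ℝ × ℂ}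
    (h : |w.1 * (1 - σ) / 2| < 1 / 2) :
    ⌊(⌊n⌋ : ℝ) + 1 / 2 + w.1 * (1 - σ) / 2⌋ = ⌊n⌋ ∧
    sc σ ((⌊n⌋ : ℝ) + 1 / 2 + w.1 * (1 - σ) / 2) (10 / σ * w.2) = w := by
  have h2 := abs_lt.1 h
  have h3 : ⌊(⌊n⌋ : ℝ) + 1 / 2 + w.1 * (1 - σ) / 2⌋ = ⌊n⌋ := by
    rw [Int.floor_eq_iff]
    constructor <;> linarith
  refine ⟨h3, ?_⟩
  unfold sc
  have h4 : (1 - σ) ≠ 0 := by linarith
  have h5 : (σ : ℂ) ≠ 0 := by exact_mod_cast h0.ne'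
  ext
  · simp only
    rw [Int.fract, h3]
    field_simp
    ring
  · simp only
    field_simp

theorem LamA_rr_eq (σ n : ℝ) (p : ℂ) : rr σ n p = (sc σ n p).1 ^ 2 + ‖(sc σ n p).2‖ ^ 2 := rfl

theorem LamA_norm_lt {σ : ℝ} (h0 : 0 < σ) (h1 : σ ≤ 1 / 4) {p : ℂ}
    (h : ‖(σ / 10 : ℂ) * p‖ ^ 2 < 4) : ‖p‖ < 20 / σ := by
  have h2 : ‖(σ / 10 : ℂ) * p‖ = σ / 10 * ‖p‖ := by
    rw [norm_mul, norm_div, Complex.norm_real, Real.norm_of_nonneg h0.le]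
    norm_num
  rw [h2] at h
  have h3 : σ / 10 * ‖p‖ < 2 := by
    have h4 : 0 ≤ σ / 10 * ‖p‖ := by positivity
    nlinarith
  rw [lt_div_iff₀ h0]
  linarith

theorem LamA_norm_lt' {σ : ℝ} (h0 : 0 < σ) (h1 : σ ≤ 1 / 4) {n : ℝ} {p : ℂ}
    (h : rr σ n p < 1 + σ) : ‖p‖ < 20 / σ := by
  apply LamA_norm_lt h0 h1
  have h2 : ‖(sc σ n p).2‖ ^ 2 ≤ rr σ n p := by
    rw [LamA_rr_eq]
    have := sq_nonneg (sc σ n p).1
    linarith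
  have h3 : (sc σ n p).2 = (σ / 10 : ℂ) * p := by
    simp [sc]
  rw [h3] at h2
  linarith

theorem LamA_gr_norm (σ : ℝ) {p p' : ℂ} (h : ‖p‖ = ‖p'‖) (s : ℝ) : gr σ p s = gr σ p' s := by
  unfold gr
  rw [h]

theorem LamA_gr_lt {σ : ℝ} (h0 : 0 < σ) {p : ℂ} (h : ‖p‖ < 20 / σ) (s : ℝ) :
    gr σ p s = gs σ s := by
  unfold gr
  have h2 : (20 / σ) ^ 2 < (40 / σ) ^ 2 := by
    apply pow_lt_pow_left₀ _ (by positivity) (by norm_num)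
    exact div_lt_div_of_pos_right (by norm_num) h0
  have h3 : ‖p‖ ^ 2 ≤ (20 / σ) ^ 2 := pow_le_pow_left₀ (norm_nonneg _) h.le 2
  rw [stp_zero h2 h3]
  ring

theorem LamA_ta_zero {σ : ℝ} (h0 : 0 < σ) {n : ℝ} {p : ℂ} (h : 1 + σ ≤ rr σ n p) :
    ta σ n p = 0 := by
  unfold ta
  rw [stp_one (by linarith) h]
  ring

theorem LamA_ta_rr (σ : ℝ) {n n' : ℝ} {p p' : ℂ} (h : rr σ n p = rr σ n' p') :
    ta σ n p = ta σ n' p' := by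
  unfold ta
  rw [h]

/-- the key facts, in both regions -/
theorem LamA_key {σ : ℝ} (h0 : 0 < σ) (h1 : σ ≤ 1 / 4) {fa : ℝ → ℝ → ℂ} {fb : ℝ → ℝ → ℝ}
    (hN : ∀ θ τ, ‖fa θ τ‖ ^ 2 + fb θ τ ^ 2 = 1) (hz : ∀ θ, fb θ 0 = 0) (n : ℝ) (p : ℂ) (s : ℝ) :
    ⌊(LamA_LG σ fa fb (n, p, s)).1⌋ = ⌊n⌋ ∧
    sc σ (LamA_LG σ fa fb (n, p, s)).1 (LamA_LG σ fa fb (n, p, s)).2.1 =
      rot (fa (2 * Real.pi * gr σ p s) (ta σ n p)) (fb (2 * Real.pi * gr σ p s) (ta σ n p))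
        (sc σ n p) ∧
    rr σ (LamA_LG σ fa fb (n, p, s)).1 (LamA_LG σ fa fb (n, p, s)).2.1 = rr σ n p ∧
    gr σ (LamA_LG σ fa fb (n, p, s)).2.1 s = gr σ p s := by
  set θ := 2 * Real.pi * gr σ p s with hθ
  set τ := ta σ n p with hτ
  set w := rot (fa θ τ) (fb θ τ) (sc σ n p) with hw
  have e1 : (LamA_LG σ fa fb (n, p, s)).1 = (⌊n⌋ : ℝ) + 1 / 2 + w.1 * (1 - σ) / 2 := rfl
  have e2 : (LamA_LG σ fa fb (n, p, s)).2.1 = 10 / σ * w.2 := rfl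
  have hnorm : w.1 ^ 2 + ‖w.2‖ ^ 2 = rr σ n p := by
    rw [hw, rot_norm (hN θ τ), LamA_rr_eq]
  have hlt : |w.1 * (1 - σ) / 2| < 1 / 2 ∨
      ((⌊n⌋ : ℝ) + 1 / 2 + w.1 * (1 - σ) / 2 = n ∧ ‖w.2‖ = ‖(σ / 10 : ℂ) * p‖ ∧
        w.1 = (sc σ n p).1) := by
    rcases lt_or_ge (rr σ n p) (1 + σ) with h | h
    · left
      apply LamA_sq_lt h0 h1
      have := sq_nonneg ‖w.2‖
      linarith
    · right
      have h3 : τ = 0 := LamA_ta_zero h0 h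
      have h4 : ‖fa θ 0‖ = 1 := by
        have h5 := hN θ 0
        rw [hz] at h5
        have h6 : ‖fa θ 0‖ ^ 2 = 1 := by linarith
        have h7 := norm_nonneg (fa θ 0)
        nlinarith
      have h5 : w = ((sc σ n p).1, fa θ 0 ^ 2 * (sc σ n p).2) := by
        rw [hw, h3, hz, rot_zero _ h4]
      have h6 : (1 - σ) ≠ 0 := by linarith
      refine ⟨?_, ?_, ?_⟩
      · rw [h5]
        simp only [sc]
        have := Int.floor_add_fract n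
        field_simp
        linarith
      · rw [h5]
        simp [sc, h4]
      · rw [h5]
  have hboth : ⌊(⌊n⌋ : ℝ) + 1 / 2 + w.1 * (1 - σ) / 2⌋ = ⌊n⌋ ∧
      sc σ ((⌊n⌋ : ℝ) + 1 / 2 + w.1 * (1 - σ) / 2) (10 / σ * w.2) = w := by
    rcases hlt with h | ⟨ha, hb, hc⟩
    · exact LamA_sc_back h0 h1 h
    · rw [ha]
      refine ⟨rfl, ?_⟩
      have h5 : (σ : ℂ) ≠ 0 := by exact_mod_cast h0.ne'
      ext
      · rw [hc]
        rfl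
      · simp only [sc]
        field_simp
  have hrr : rr σ ((⌊n⌋ : ℝ) + 1 / 2 + w.1 * (1 - σ) / 2) (10 / σ * w.2) = rr σ n p := by
    rw [LamA_rr_eq, hboth.2, hnorm]
  rw [e1, e2]
  refine ⟨hboth.1, hboth.2, hrr, ?_⟩
  rcases lt_or_ge (rr σ n p) (1 + σ) with h | h
  · rw [LamA_gr_lt h0 (LamA_norm_lt' h0 h1 h), LamA_gr_lt h0 (LamA_norm_lt' h0 h1 (hrr ▸ h))]
  · apply LamA_gr_norm
    have h3 : τ = 0 := LamA_ta_zero h0 h
    have h4 : ‖fa θ 0‖ = 1 := by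
      have h5 := hN θ 0
      rw [hz] at h5
      have h6 : ‖fa θ 0‖ ^ 2 = 1 := by linarith
      have h7 := norm_nonneg (fa θ 0)
      nlinarith
    have h5 : w = ((sc σ n p).1, fa θ 0 ^ 2 * (sc σ n p).2) := by
      rw [hw, h3, hz, rot_zero _ h4]
    have h6 : (σ : ℂ) ≠ 0 := by exact_mod_cast h0.ne'
    have h7 : (10 / σ * w.2 : ℂ) = fa θ 0 ^ 2 * p := by
      rw [h5]
      simp only [sc]
      field_simp
    rw [h7, norm_mul, norm_pow, h4]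
    ring

theorem LamA_inv {σ : ℝ} (h0 : 0 < σ) (h1 : σ ≤ 1 / 4) {fa ga : ℝ → ℝ → ℂ} {fb gb : ℝ → ℝ → ℝ}
    (hN : ∀ θ τ, ‖fa θ τ‖ ^ 2 + fb θ τ ^ 2 = 1) (hz : ∀ θ, fb θ 0 = 0)
    (hi : ∀ θ τ v, rot (ga θ τ) (gb θ τ) (rot (fa θ τ) (fb θ τ) v) = v) (z : ℝ × ℂ × ℝ) :
    LamA_LG σ ga gb (LamA_LG σ fa fb z) = z := by
  obtain ⟨n, p, s⟩ := z
  obtain ⟨k1, k2, k3, k4⟩ := LamA_key h0 h1 hN hz n p s
  have k5 := LamA_ta_rr σ k3
  have hs : (LamA_LG σ fa fb (n, p, s)).2.2 = s := rfl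
  rw [LamA_LG, hs, k4, k5, k2, hi, k1]
  have h6 : (1 - σ) ≠ 0 := by linarith
  have h5 : (σ : ℂ) ≠ 0 := by exact_mod_cast h0.ne'
  have h7 := Int.floor_add_fract n
  refine Prod.ext ?_ (Prod.ext ?_ rfl)
  · simp only [sc]
    field_simp
    linarith
  · simp only [sc]
    push_cast
    field_simp

/-- far from the centre of the ball -/
theorem LamA_of_le {σ : ℝ} (h0 : 0 < σ) (h1 : σ ≤ 1 / 4) {fa : ℝ → ℝ → ℂ} {fb : ℝ → ℝ → ℝ}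
    (hN : ∀ θ τ, ‖fa θ τ‖ ^ 2 + fb θ τ ^ 2 = 1) (hz : ∀ θ, fb θ 0 = 0) {n : ℝ} {p : ℂ} (s : ℝ)
    (h : 1 + σ ≤ rr σ n p) :
    LamA_LG σ fa fb (n, p, s) = (n, fa (2 * Real.pi * gr σ p s) 0 ^ 2 * p, s) := by
  set θ := 2 * Real.pi * gr σ p s with hθ
  have h4 : ‖fa θ 0‖ = 1 := by
    have h5 := hN θ 0
    rw [hz] at h5
    have h6 : ‖fa θ 0‖ ^ 2 = 1 := by linarith
    have h7 := norm_nonneg (fa θ 0)
    nlinarith
  simp only [LamA_LG]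
  rw [LamA_ta_zero h0 h, ← hθ, hz, rot_zero _ h4]
  have h6 : (1 - σ) ≠ 0 := by linarith
  have h5 : (σ : ℂ) ≠ 0 := by exact_mod_cast h0.ne'
  have h7 := Int.floor_add_fract n
  refine Prod.ext ?_ (Prod.ext ?_ rfl)
  · simp only [sc]
    field_simp
    linarith
  · simp only [sc]
    push_cast
    field_simp

/-- far from the centre of the ball -/
theorem Lam_of_le {σ : ℝ} (h0 : 0 < σ) (h1 : σ ≤ 1 / 4) {n : ℝ} {p : ℂ} (s : ℝ)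
    (h : 1 + σ ≤ rr σ n p) :
    Lam σ (n, p, s) = (n, Complex.exp ((-(4 * Real.pi * gr σ p s) : ℝ) * I) * p, s) ∧
    Lam' σ (n, p, s) = (n, Complex.exp ((4 * Real.pi * gr σ p s : ℝ) * I) * p, s) := by
  constructor
  · rw [LamA_Lam, LamA_of_le h0 h1 q_norm qb_zero s h, qa_zero, ← Complex.exp_nat_mul]
    congr 3
    push_cast
    ring_nf
  · rw [LamA_Lam', LamA_of_le h0 h1 LamA_q'_norm LamA_qb'_zero s h, LamA_qa', qa_zero,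
      ← Complex.exp_conj, ← Complex.exp_nat_mul]
    congr 3
    simp only [map_neg, map_mul, Complex.conj_I, Complex.conj_ofReal]
    push_cast
    ring_nf

/-- inside the ball of squared radius `1 + σ` -/
theorem Lam_of_lt {σ : ℝ} (h0 : 0 < σ) (h1 : σ ≤ 1 / 4) {n : ℝ} {p : ℂ} (s : ℝ)
    (h : rr σ n p < 1 + σ) :
    rr σ (Lam σ (n, p, s)).1 (Lam σ (n, p, s)).2.1 = rr σ n p ∧
    ⌊(Lam σ (n, p, s)).1⌋ = ⌊n⌋ ∧ ‖p‖ < 20 / σ ∧ ‖(Lam σ (n, p, s)).2.1‖ < 20 / σ := by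
  rw [LamA_Lam]
  obtain ⟨k1, k2, k3, k4⟩ := LamA_key h0 h1 q_norm qb_zero n p s
  exact ⟨k3, k1, LamA_norm_lt' h0 h1 h, LamA_norm_lt' h0 h1 (k3.symm ▸ h)⟩

theorem Lam'_of_lt {σ : ℝ} (h0 : 0 < σ) (h1 : σ ≤ 1 / 4) {n : ℝ} {p : ℂ} (s : ℝ)
    (h : rr σ n p < 1 + σ) :
    rr σ (Lam' σ (n, p, s)).1 (Lam' σ (n, p, s)).2.1 = rr σ n p ∧
    ⌊(Lam' σ (n, p, s)).1⌋ = ⌊n⌋ ∧ ‖p‖ < 20 / σ ∧ ‖(Lam' σ (n, p, s)).2.1‖ < 20 / σ := by
  rw [LamA_Lam']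
  obtain ⟨k1, k2, k3, k4⟩ := LamA_key h0 h1 LamA_q'_norm LamA_qb'_zero n p s
  exact ⟨k3, k1, LamA_norm_lt' h0 h1 h, LamA_norm_lt' h0 h1 (k3.symm ▸ h)⟩

theorem Lam_left {σ : ℝ} (h0 : 0 < σ) (h1 : σ ≤ 1 / 4) (z : ℝ × ℂ × ℝ) :
    Lam' σ (Lam σ z) = z := by
  rw [LamA_Lam, LamA_Lam']
  exact LamA_inv h0 h1 q_norm qb_zero (fun θ τ v => rot_inv (q_norm θ τ) v) z

theorem Lam_right {σ : ℝ} (h0 : 0 < σ) (h1 : σ ≤ 1 / 4) (z : ℝ × ℂ × ℝ) :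
    Lam σ (Lam' σ z) = z := by
  rw [LamA_Lam, LamA_Lam']
  exact LamA_inv h0 h1 LamA_q'_norm LamA_qb'_zero (fun θ τ v => rot_inv' (q_norm θ τ) v) z

theorem LamA_near_int {σ : ℝ} (h0 : 0 < σ) (h1 : σ ≤ 1 / 4) {n : ℝ} {k : ℤ} (h : |n - k| < σ / 4)
    (p : ℂ) : 1 + σ ≤ rr σ n p := by
  have h2 := abs_lt.1 h
  have h3 : (1 - σ / 2) ^ 2 ≤ (2 * (Int.fract n - 1 / 2)) ^ 2 := by
    rcases lt_or_ge n k with hc | hc
    · have : ⌊n⌋ = k - 1 := by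
        rw [Int.floor_eq_iff]
        push_cast
        constructor <;> linarith
      have h4 : Int.fract n = n - k + 1 := by
        rw [Int.fract, this]
        push_cast
        ring
      rw [h4]
      nlinarith
    · have : ⌊n⌋ = k := by
        rw [Int.floor_eq_iff]
        constructor <;> linarith
      have h4 : Int.fract n = n - k := by
        rw [Int.fract, this]
      rw [h4]
      nlinarith
  have h4 : 0 < (1 - σ) ^ 2 := pow_pos (by linarith) 2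
  have h5 : (1 + σ) * (1 - σ) ^ 2 ≤ (1 - σ / 2) ^ 2 := by
    have h6 : (1 - σ / 2) ^ 2 - (1 + σ) * (1 - σ) ^ 2 = σ ^ 2 * (5 / 4 - σ) := by ring
    have h7 : 0 ≤ σ ^ 2 * (5 / 4 - σ) := mul_nonneg (sq_nonneg _) (by linarith)
    linarith
  have h6 : 1 + σ ≤ (sc σ n p).1 ^ 2 := by
    simp only [sc]
    rw [div_pow, le_div_iff₀ h4]
    linarith
  rw [LamA_rr_eq]
  have := sq_nonneg ‖(sc σ n p).2‖
  linarith

theorem LamA_smooth {σ : ℝ} (h0 : 0 < σ) (h1 : σ ≤ 1 / 4) {fa : ℝ → ℝ → ℂ} {fb : ℝ → ℝ → ℝ}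
    (hN : ∀ θ τ, ‖fa θ τ‖ ^ 2 + fb θ τ ^ 2 = 1) (hz : ∀ θ, fb θ 0 = 0)
    (hfa : ContDiff ℝ ∞ fun q : ℝ × ℝ => fa q.1 q.2)
    (hfb : ContDiff ℝ ∞ fun q : ℝ × ℝ => fb q.1 q.2) : ContDiff ℝ ∞ (LamA_LG σ fa fb) := by
  rw [contDiff_iff_contDiffAt]
  intro z
  have hθ : ContDiff ℝ ∞ fun z : ℝ × ℂ × ℝ => 2 * Real.pi * gr σ z.2.1 z.2.2 :=
    contDiff_const.mul ((gr_smooth h0 h1).comp contDiff_snd)
  by_cases hn : (⌊z.1⌋ : ℝ) = z.1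
  · -- near an integer
    have hev : LamA_LG σ fa fb =ᶠ[𝓝 z] fun z' =>
        (z'.1, fa (2 * Real.pi * gr σ z'.2.1 z'.2.2) 0 ^ 2 * z'.2.1, z'.2.2) := by
      have : {z' : ℝ × ℂ × ℝ | |z'.1 - ⌊z.1⌋| < σ / 4} ∈ 𝓝 z := by
        apply IsOpen.mem_nhds
        · exact isOpen_lt (by fun_prop) (by fun_prop)
        · simp only [mem_ofPred_eq, hn, sub_self, abs_zero]
          linarith
      filter_upwards [this] with z' hz'
      obtain ⟨n', p', s'⟩ := z'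
      exact LamA_of_le h0 h1 hN hz s' (LamA_near_int h0 h1 hz' p')
    refine ContDiffAt.congr_of_eventuallyEq ?_ hev
    have h3 : ContDiff ℝ ∞ fun z' : ℝ × ℂ × ℝ =>
        fa (2 * Real.pi * gr σ z'.2.1 z'.2.2) 0 :=
      hfa.comp (hθ.prodMk contDiff_const)
    exact (contDiff_fst.prodMk (((h3.pow 2).mul (contDiff_fst.comp contDiff_snd)).prodMk
      (contDiff_snd.comp contDiff_snd))).contDiffAt
  · -- floor is locally constant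
    set m := ⌊z.1⌋ with hm
    have hm1 : (m : ℝ) < z.1 := lt_of_le_of_ne (Int.floor_le _) hn
    have hm2 : z.1 < m + 1 := Int.lt_floor_add_one _
    have hfl : ∀ᶠ z' : ℝ × ℂ × ℝ in 𝓝 z, ⌊z'.1⌋ = m := by
      have : {z' : ℝ × ℂ × ℝ | (m : ℝ) < z'.1 ∧ z'.1 < m + 1} ∈ 𝓝 z := by
        apply IsOpen.mem_nhds
        · exact (isOpen_lt (continuous_const (y := (m : ℝ))) (continuous_fst (X := ℝ) (Y := ℂ × ℝ))).inter
            (isOpen_lt (continuous_fst (X := ℝ) (Y := ℂ × ℝ)) (continuous_const (y := (m : ℝ) + 1)))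
        · exact ⟨hm1, hm2⟩
      filter_upwards [this] with z' hz'
      rw [Int.floor_eq_iff]
      exact ⟨hz'.1.le, hz'.2⟩
    have hsc : ContDiff ℝ ∞ fun z' : ℝ × ℂ × ℝ =>
        ((2 * (z'.1 - m - 1 / 2) / (1 - σ), σ / 10 * z'.2.1) : ℝ × ℂ) := by
      apply ContDiff.prodMk
      · fun_prop
      · fun_prop
    have hrr : ContDiff ℝ ∞ fun z' : ℝ × ℂ × ℝ =>
        (2 * (z'.1 - m - 1 / 2) / (1 - σ)) ^ 2 + ‖(σ / 10 * z'.2.1 : ℂ)‖ ^ 2 := by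
      apply ContDiff.add
      · fun_prop
      · exact (contDiff_norm_sq ℝ).comp (contDiff_snd.comp hsc)
    have hta : ContDiff ℝ ∞ fun z' : ℝ × ℂ × ℝ => Real.pi / 2 * (1 - stp 1 (1 + σ)
        ((2 * (z'.1 - m - 1 / 2) / (1 - σ)) ^ 2 + ‖(σ / 10 * z'.2.1 : ℂ)‖ ^ 2)) :=
      contDiff_const.mul (contDiff_const.sub ((stp_smooth 1 (1 + σ)).comp hrr))
    have hev : LamA_LG σ fa fb =ᶠ[𝓝 z] fun z' =>
        ((m : ℝ) + 1 / 2 + (rot (fa (2 * Real.pi * gr σ z'.2.1 z'.2.2)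
          (Real.pi / 2 * (1 - stp 1 (1 + σ)
        ((2 * (z'.1 - m - 1 / 2) / (1 - σ)) ^ 2 + ‖(σ / 10 * z'.2.1 : ℂ)‖ ^ 2))))
          (fb (2 * Real.pi * gr σ z'.2.1 z'.2.2)
          (Real.pi / 2 * (1 - stp 1 (1 + σ)
        ((2 * (z'.1 - m - 1 / 2) / (1 - σ)) ^ 2 + ‖(σ / 10 * z'.2.1 : ℂ)‖ ^ 2))))
          ((2 * (z'.1 - m - 1 / 2) / (1 - σ), σ / 10 * z'.2.1) : ℝ × ℂ)).1 * (1 - σ) / 2,
        10 / σ * (rot (fa (2 * Real.pi * gr σ z'.2.1 z'.2.2)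
          (Real.pi / 2 * (1 - stp 1 (1 + σ)
        ((2 * (z'.1 - m - 1 / 2) / (1 - σ)) ^ 2 + ‖(σ / 10 * z'.2.1 : ℂ)‖ ^ 2))))
          (fb (2 * Real.pi * gr σ z'.2.1 z'.2.2)
          (Real.pi / 2 * (1 - stp 1 (1 + σ)
        ((2 * (z'.1 - m - 1 / 2) / (1 - σ)) ^ 2 + ‖(σ / 10 * z'.2.1 : ℂ)‖ ^ 2))))
          ((2 * (z'.1 - m - 1 / 2) / (1 - σ), σ / 10 * z'.2.1) : ℝ × ℂ)).2, z'.2.2) := by
      filter_upwards [hfl] with z' hz'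
      simp only [LamA_LG, ta, rr, sc, Int.fract, hz']
    refine ContDiffAt.congr_of_eventuallyEq ?_ hev
    have hrot : ContDiff ℝ ∞ fun z' : ℝ × ℂ × ℝ =>
        rot (fa (2 * Real.pi * gr σ z'.2.1 z'.2.2)
          (Real.pi / 2 * (1 - stp 1 (1 + σ)
        ((2 * (z'.1 - m - 1 / 2) / (1 - σ)) ^ 2 + ‖(σ / 10 * z'.2.1 : ℂ)‖ ^ 2))))
          (fb (2 * Real.pi * gr σ z'.2.1 z'.2.2)
          (Real.pi / 2 * (1 - stp 1 (1 + σ)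
        ((2 * (z'.1 - m - 1 / 2) / (1 - σ)) ^ 2 + ‖(σ / 10 * z'.2.1 : ℂ)‖ ^ 2))))
          ((2 * (z'.1 - m - 1 / 2) / (1 - σ), σ / 10 * z'.2.1) : ℝ × ℂ) :=
      rot_smooth.comp ((hfa.comp (hθ.prodMk hta)).prodMk ((hfb.comp (hθ.prodMk hta)).prodMk hsc))
    refine ContDiff.contDiffAt ?_
    refine ContDiff.prodMk ?_ (ContDiff.prodMk ?_ (contDiff_snd.comp contDiff_snd))
    · exact contDiff_const.add (((contDiff_fst.comp hrot).mul contDiff_const).div_const 2)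
    · exact contDiff_const.mul (contDiff_snd.comp hrot)

theorem Lam_smooth {σ : ℝ} (h0 : 0 < σ) (h1 : σ ≤ 1 / 4) : ContDiff ℝ ∞ (Lam σ) := by
  rw [LamA_Lam]
  exact LamA_smooth h0 h1 q_norm qb_zero qa_smooth qb_smooth

theorem Lam'_smooth {σ : ℝ} (h0 : 0 < σ) (h1 : σ ≤ 1 / 4) : ContDiff ℝ ∞ (Lam' σ) := by
  rw [LamA_Lam']
  refine LamA_smooth h0 h1 LamA_q'_norm LamA_qb'_zero ?_ ?_
  · exact Complex.conjCLE.contDiff.comp qa_smooth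
  · exact qb_smooth.neg

end Pool.Agent.CSG
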