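import Pool.Agent.CSG.LoopDefs

/-!
# CSG/LoopA: a loop whose first column avoids the line of `e₀`

The map `R^2 → R^3`, `(t, c) ↦ c • P t e₀` is `C^1`, so the complement of its range is dense
(`ContDiff.dense_compl_range_of_finrank_lt_finrank`).  Choose `w` in the complement with
`‖w - e₀‖ < 1/2`.  Then `P t e₀ ≠ c • w` for all `t, c` (if `P t e₀ = c w` then `c ≠ 0` and
`w = c⁻¹ P t e₀`).  Let `B τ x = x + τ (⟪w, x⟫ / ⟪w, w⟫) (e₀ - w)`; `B 0 = 1`, `B 1 w = e₀`,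
`det (B τ) = 1 + τ ⟪w, e₀ - w⟫ / ⟪w, w⟫ > 0` for `0 ≤ τ ≤ 1`; to have it invertible for all `τ ∈ R`
replace `τ` by `Real.smoothTransition τ`.  The homotopy is `B τ ∘ P t`.
(The inverse of `B τ` is `x ↦ x - s (⟪w,x⟫/⟪w,w⟫)/(1 + s ⟪w,e₀-w⟫/⟪w,w⟫) (e₀ - w)`.)
-/

open scoped ContDiff

namespace Pool.Agent.CSG

/-- A homotopy of loops from a family of injective linear maps. -/
theorem LoopA_mk {P : ℝ → E3 ≃L[ℝ] E3} (hpos : PosDet P)
    (F : ℝ → ℝ → E3 →L[ℝ] E3) (hsm : ContDiff ℝ ∞ fun q : ℝ × ℝ × E3 => F q.1 q.2.1 q.2.2)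
    (hper : ∀ t τ z, F (t + 1) τ z = F t τ z) (h0 : ∀ t z, F t 0 z = P t z)
    (hinj : ∀ t τ z, F t τ z = 0 → z = 0) :
    ∃ Q : ℝ → E3 ≃L[ℝ] E3, IsLoop Q ∧ PosDet Q ∧ LoopHom P Q ∧ ∀ t z, Q t z = F t 1 z := by
  have hi : ∀ t τ, Function.Injective ((F t τ : E3 →L[ℝ] E3) : E3 →ₗ[ℝ] E3) := by
    intro t τ
    rw [← LinearMap.ker_eq_bot, LinearMap.ker_eq_bot']
    intro z hz
    exact hinj t τ z hz
  let M : ℝ → ℝ → E3 ≃L[ℝ] E3 := fun t τ =>
    (LinearEquiv.ofInjectiveEndo ((F t τ : E3 →L[ℝ] E3) : E3 →ₗ[ℝ] E3) (hi t τ)).toContinuousLinearEquiv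
  have hM : ∀ t τ z, M t τ z = F t τ z := fun t τ z => rfl
  have hMsm : ContDiff ℝ ∞ fun q : ℝ × ℝ × E3 => M q.1 q.2.1 q.2.2 := hsm
  have hMF : ∀ t τ, ((M t τ).toLinearEquiv : E3 →ₗ[ℝ] E3) = ((F t τ : E3 →L[ℝ] E3) : E3 →ₗ[ℝ] E3) := by
    intro t τ
    ext z
    rfl
  have hdet : ∀ t τ, 0 < LinearMap.det ((M t τ).toLinearEquiv : E3 →ₗ[ℝ] E3) := by
    intro t τ
    have hc : Continuous fun τ : ℝ => (F t τ).det := by
      apply ContinuousLinearMap.continuous_det.comp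
      rw [continuous_clm_apply]
      intro z
      exact hsm.continuous.comp (by fun_prop : Continuous fun τ : ℝ => ((t, τ, z) : ℝ × ℝ × E3))
    have hne : ∀ τ, (F t τ).det ≠ 0 := by
      intro τ
      have := (M t τ).toLinearEquiv.isUnit_det'.ne_zero
      rw [hMF] at this
      exact this
    have hp0 : 0 < (F t 0).det := by
      have h1 := hpos t
      have h2 : ((P t).toLinearEquiv : E3 →ₗ[ℝ] E3) = ((F t 0 : E3 →L[ℝ] E3) : E3 →ₗ[ℝ] E3) := by
        ext z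
        rw [ContinuousLinearMap.coe_coe, h0]
        rfl
      rw [h2] at h1
      exact h1
    rw [hMF]
    change 0 < (F t τ).det
    by_contra hneg
    have hneg' : (F t τ).det ≤ 0 := not_lt.mp hneg
    have hmem : (0 : ℝ) ∈ Set.range fun τ : ℝ => (F t τ).det :=
      mem_range_of_exists_le_of_exists_ge hc ⟨τ, hneg'⟩ ⟨0, hp0.le⟩
    obtain ⟨τ', hτ'⟩ := hmem
    exact hne τ' hτ'
  refine ⟨fun t => M t 1, ⟨?_, ?_⟩, fun t => hdet t 1, ⟨M, hMsm, ?_, ?_, ?_⟩, ?_⟩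
  · exact hMsm.comp (by fun_prop : ContDiff ℝ ∞ fun q : ℝ × E3 => ((q.1, 1, q.2) : ℝ × ℝ × E3))
  · intro t z
    exact hper t 1 z
  · intro t τ z
    exact hper t τ z
  · intro t z
    exact h0 t z
  · intro t z
    rfl
  · intro t z
    rfl

theorem LoopA_e₀_ne : e₀ ≠ 0 := by
  intro h
  have := congrArg (fun x : E3 => x 0) h
  simp [e₀] at this

theorem LoopA_norm_e₀ : ‖e₀‖ = 1 := by
  simp [e₀, pt, EuclideanSpace.norm_eq, Fin.sum_univ_three]

theorem loopA {P : ℝ → E3 ≃L[ℝ] E3} (hP : IsLoop P) (hpos : PosDet P) :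
    ∃ Q : ℝ → E3 ≃L[ℝ] E3, IsLoop Q ∧ PosDet Q ∧ LoopHom P Q ∧
      ∀ t (c : ℝ), Q t e₀ ≠ c • e₀ := by
  have hf : ContDiff ℝ 1 fun q : ℝ × ℝ => q.2 • P q.1 e₀ := by
    have h1 : ContDiff ℝ ∞ fun q : ℝ × ℝ => P q.1 e₀ :=
      hP.smooth.comp (by fun_prop : ContDiff ℝ ∞ fun q : ℝ × ℝ => ((q.1, e₀) : ℝ × E3))
    exact (contDiff_snd.smul h1).of_le (by exact_mod_cast le_top)
  have hd := hf.dense_compl_range_of_finrank_lt_finrank (by simp)
  obtain ⟨w, hw, hwd⟩ := hd.exists_dist_lt e₀ (by norm_num : (0 : ℝ) < 1 / 2)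
  rw [dist_eq_norm] at hwd
  have hwn : 1 / 2 < ‖w‖ := by
    have h1 := norm_sub_norm_le e₀ w
    rw [LoopA_norm_e₀] at h1
    linarith
  have hw0 : w ≠ 0 := by
    intro h
    rw [h, norm_zero] at hwn
    linarith
  have hPw : ∀ t (c : ℝ), P t e₀ ≠ c • w := by
    intro t c h
    have hc : c ≠ 0 := by
      rintro rfl
      rw [zero_smul] at h
      exact LoopA_e₀_ne ((P t).injective (h.trans (map_zero (P t)).symm))
    apply hw
    refine ⟨(t, c⁻¹), ?_⟩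
    simp only [h]
    rw [smul_smul, inv_mul_cancel₀ hc, one_smul]
  have hww : (0 : ℝ) < inner ℝ w w := by
    rw [real_inner_self_eq_norm_sq]
    positivity
  have hk : |inner ℝ w (e₀ - w) / inner ℝ w w| < 1 := by
    rw [abs_div, abs_of_pos hww, div_lt_one hww, real_inner_self_eq_norm_sq]
    calc |inner ℝ w (e₀ - w)| ≤ ‖w‖ * ‖e₀ - w‖ := abs_real_inner_le_norm _ _
      _ < ‖w‖ ^ 2 := by
        have : ‖e₀ - w‖ < ‖w‖ := by linarith
        nlinarith [norm_pos_iff.mpr hw0]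
  let B : ℝ → E3 →L[ℝ] E3 := fun τ => ContinuousLinearMap.id ℝ E3 +
    Real.smoothTransition τ • (innerSL ℝ w).smulRight ((inner ℝ w w : ℝ)⁻¹ • (e₀ - w))
  have hB : ∀ τ x, B τ x = x + Real.smoothTransition τ • (inner ℝ w x / inner ℝ w w : ℝ) • (e₀ - w) := by
    intro τ x
    simp [B, div_eq_mul_inv, smul_smul]
  have hBinj : ∀ τ x, B τ x = 0 → x = 0 := by
    intro τ x hx
    rw [hB] at hx
    have h1 := congrArg (fun y : E3 => (inner ℝ w y : ℝ) / inner ℝ w w) hx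
    simp only [inner_add_right, inner_smul_right, inner_zero_right, zero_div] at h1
    have hs0 := Real.smoothTransition.nonneg τ
    have hs1 := Real.smoothTransition.le_one τ
    set s := Real.smoothTransition τ
    set κ : ℝ := inner ℝ w x / inner ℝ w w with hκ
    set ρ : ℝ := inner ℝ w (e₀ - w) / inner ℝ w w with hρ
    have h2 : κ * (1 + s * ρ) = 0 := by
      rw [← h1]
      simp only [hκ, hρ]
      ring
    have h3 : 0 < 1 + s * ρ := by
      have := abs_lt.mp hk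
      nlinarith
    have h4 : κ = 0 := by
      rcases mul_eq_zero.mp h2 with h | h
      · exact h
      · exact absurd h h3.ne'
    rw [h4, zero_smul, smul_zero, add_zero] at hx
    exact hx
  have hB1 : B 1 w = e₀ := by
    rw [hB, Real.smoothTransition.one, div_self hww.ne']
    simp
  obtain ⟨Q, hQ1, hQ2, hQ3, hQ4⟩ := LoopA_mk (P := P) hpos (fun t τ => (B τ).comp (P t : E3 →L[ℝ] E3))
    (by
      have h1 : ContDiff ℝ ∞ fun q : ℝ × ℝ × E3 => P q.1 q.2.2 :=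
        hP.smooth.comp (by fun_prop : ContDiff ℝ ∞ fun q : ℝ × ℝ × E3 => ((q.1, q.2.2) : ℝ × E3))
      have h2 : ContDiff ℝ ∞ fun q : ℝ × ℝ × E3 => Real.smoothTransition q.2.1 :=
        Real.smoothTransition.contDiff.comp (by fun_prop)
      have h3 : (fun q : ℝ × ℝ × E3 => ((B q.2.1).comp (P q.1 : E3 →L[ℝ] E3)) q.2.2) =
          fun q : ℝ × ℝ × E3 => P q.1 q.2.2 + Real.smoothTransition q.2.1 •
            (inner ℝ w (P q.1 q.2.2) / inner ℝ w w : ℝ) • (e₀ - w) := by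
        funext q
        simp [hB]
      rw [h3]
      exact h1.add (h2.smul (((contDiff_const.inner ℝ h1).div_const _).smul contDiff_const)))
    (by
      intro t τ z
      simp [hP.per])
    (by
      intro t z
      simp [hB, Real.smoothTransition.zero])
    (by
      intro t τ z hz
      have h1 : (P t) z = 0 := hBinj τ _ hz
      exact (P t).map_eq_zero_iff.mp h1)
  refine ⟨Q, hQ1, hQ2, hQ3, ?_⟩
  intro t c h
  rw [hQ4] at h
  have h1 : B 1 (P t e₀ - c • w) = 0 := by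
    rw [map_sub, map_smul, hB1, sub_eq_zero]
    exact h
  exact hPw t c (sub_eq_zero.mp (hBinj 1 _ h1))

end Pool.Agent.CSG
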