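import Pool.Agent.CSG.LoopA

/-!
# CSG/LoopB: rotate the first column to the direction of `e₀`

With `v t = P t e₀` (never a multiple of `e₀`), let `κ t` be the linear functional
`κ (x) = x₀ + (1 - v₀) (v₁ x₁ + v₂ x₂) / (v₁² + v₂²)`, so `κ (e₀) = κ (v) = 1`.
`M t τ = (1 + τ (e₀ - v) ⊗ κ) ∘ P t` is unipotent after `P t`, hence invertible, and
`M t 1 e₀ = e₀`.
-/

open scoped ContDiff

namespace Pool.Agent.CSG

theorem LoopB_contDiff_coord (i : Fin 3) : ContDiff ℝ ∞ fun x : E3 => x i :=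
  contDiff_euclidean.mp contDiff_id i

theorem loopB {P : ℝ → E3 ≃L[ℝ] E3} (hP : IsLoop P) (hpos : PosDet P)
    (h : ∀ t (c : ℝ), P t e₀ ≠ c • e₀) :
    ∃ Q : ℝ → E3 ≃L[ℝ] E3, IsLoop Q ∧ PosDet Q ∧ LoopHom P Q ∧
      ∀ t, ∃ c : ℝ, 0 < c ∧ Q t e₀ = c • e₀ := by
  have hv : ContDiff ℝ ∞ fun t : ℝ => P t e₀ :=
    hP.smooth.comp (by fun_prop : ContDiff ℝ ∞ fun t : ℝ => ((t, e₀) : ℝ × E3))
  have hG : ∀ t, 0 < (P t e₀) 1 ^ 2 + (P t e₀) 2 ^ 2 := by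
    intro t
    by_contra hneg
    have h1 : (P t e₀) 1 = 0 := by nlinarith [sq_nonneg ((P t e₀) 1), sq_nonneg ((P t e₀) 2)]
    have h2 : (P t e₀) 2 = 0 := by nlinarith [sq_nonneg ((P t e₀) 1), sq_nonneg ((P t e₀) 2)]
    apply h t ((P t e₀) 0)
    rw [← pt_eta (P t e₀), h1, h2]
    ext i
    fin_cases i <;> simp [pt, e₀]
  -- the functional
  let κ : ℝ → E3 →L[ℝ] ℝ := fun t =>
    (EuclideanSpace.proj 0 : E3 →L[ℝ] ℝ) +
      ((1 - (P t e₀) 0) / ((P t e₀) 1 ^ 2 + (P t e₀) 2 ^ 2)) •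
        ((P t e₀) 1 • (EuclideanSpace.proj 1 : E3 →L[ℝ] ℝ) +
          (P t e₀) 2 • (EuclideanSpace.proj 2 : E3 →L[ℝ] ℝ))
  have hκ : ∀ t x, κ t x = x 0 + (1 - (P t e₀) 0) / ((P t e₀) 1 ^ 2 + (P t e₀) 2 ^ 2) *
      ((P t e₀) 1 * x 1 + (P t e₀) 2 * x 2) := by
    intro t x
    simp [κ, mul_add]
  have hκ0 : ∀ t, κ t e₀ = 1 := by
    intro t
    rw [hκ]
    simp [e₀]
  have hκv : ∀ t, κ t (P t e₀) = 1 := by
    intro t
    rw [hκ]
    have := (hG t).ne'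
    field_simp
    ring
  let B : ℝ → ℝ → E3 →L[ℝ] E3 := fun t τ => ContinuousLinearMap.id ℝ E3 +
    τ • (κ t).smulRight (e₀ - P t e₀)
  have hB : ∀ t τ x, B t τ x = x + τ • κ t x • (e₀ - P t e₀) := by
    intro t τ x
    simp [B]
  have hBinj : ∀ t τ x, B t τ x = 0 → x = 0 := by
    intro t τ x hx
    rw [hB] at hx
    have h1 := congrArg (κ t) hx
    rw [map_add, map_smul, map_smul, map_sub, hκ0, hκv, sub_self, smul_zero, smul_zero, add_zero,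
      map_zero] at h1
    rw [h1, zero_smul, smul_zero, add_zero] at hx
    exact hx
  have hvi : ∀ i : Fin 3, ContDiff ℝ ∞ fun t : ℝ => (P t e₀) i := fun i =>
    (LoopB_contDiff_coord i).comp hv
  obtain ⟨Q, hQ1, hQ2, hQ3, hQ4⟩ := LoopA_mk (P := P) hpos
    (fun t τ => (B t τ).comp (P t : E3 →L[ℝ] E3))
    (by
      have h1 : ContDiff ℝ ∞ fun q : ℝ × ℝ × E3 => P q.1 q.2.2 :=
        hP.smooth.comp (by fun_prop : ContDiff ℝ ∞ fun q : ℝ × ℝ × E3 => ((q.1, q.2.2) : ℝ × E3))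
      have h1i : ∀ i : Fin 3, ContDiff ℝ ∞ fun q : ℝ × ℝ × E3 => (P q.1 q.2.2) i := fun i =>
        (LoopB_contDiff_coord i).comp h1
      have h2i : ∀ i : Fin 3, ContDiff ℝ ∞ fun q : ℝ × ℝ × E3 => (P q.1 e₀) i := fun i =>
        (hvi i).comp contDiff_fst
      have h3 : (fun q : ℝ × ℝ × E3 => ((B q.1 q.2.1).comp (P q.1 : E3 →L[ℝ] E3)) q.2.2) =
          fun q : ℝ × ℝ × E3 => P q.1 q.2.2 + q.2.1 •
            ((P q.1 q.2.2) 0 + (1 - (P q.1 e₀) 0) / ((P q.1 e₀) 1 ^ 2 + (P q.1 e₀) 2 ^ 2) *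
              ((P q.1 e₀) 1 * (P q.1 q.2.2) 1 + (P q.1 e₀) 2 * (P q.1 q.2.2) 2)) •
              (e₀ - P q.1 e₀) := by
        funext q
        simp [hB, hκ]
      rw [h3]
      have h4 : ContDiff ℝ ∞ fun q : ℝ × ℝ × E3 =>
          (P q.1 q.2.2) 0 + (1 - (P q.1 e₀) 0) / ((P q.1 e₀) 1 ^ 2 + (P q.1 e₀) 2 ^ 2) *
              ((P q.1 e₀) 1 * (P q.1 q.2.2) 1 + (P q.1 e₀) 2 * (P q.1 q.2.2) 2) :=
        (h1i 0).add (((contDiff_const.sub (h2i 0)).div (((h2i 1).pow 2).add ((h2i 2).pow 2))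
          (fun q => (hG q.1).ne')).mul (((h2i 1).mul (h1i 1)).add ((h2i 2).mul (h1i 2))))
      exact h1.add (contDiff_snd.fst.smul (h4.smul (contDiff_const.sub (hv.comp contDiff_fst)))))
    (by
      intro t τ z
      simp [hB, hκ, hP.per])
    (by
      intro t z
      simp [hB])
    (by
      intro t τ z hz
      have h1 : (P t) z = 0 := hBinj t τ _ hz
      exact (P t).map_eq_zero_iff.mp h1)
  refine ⟨Q, hQ1, hQ2, hQ3, fun t => ⟨1, one_pos, ?_⟩⟩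
  rw [hQ4]
  change B t 1 (P t e₀) = _
  rw [hB, hκv]
  simp

end Pool.Agent.CSG
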