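import Pool.Agent.CSG.LoopB

/-!
# CSG/LoopC: reduction to `GL_2` and to `C^*`

`P t = [[a, b^T], [0, g]]` with `a > 0`, `det g > 0`.  First homotopy
`[[(1-s) a + s, (1-s) b^T], [0, g]]` (`s = Real.smoothTransition τ`).  Then write
`g (x) = α x + β x̄` (`x = z₁ + i z₂`), `det g = |α|² - |β|² > 0`; second homotopy
`α x + (1-s) β x̄`.  The result is `z ↦ cmul (α t) z`, `α` smooth, 1-periodic and nowhere zero.
-/

open scoped ContDiff
open Complex (I)

namespace Pool.Agent.CSG

theorem LoopC_contDiff_pt {E : Type*} [NormedAddCommGroup E] [NormedSpace ℝ E] {f g h : E → ℝ}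
    (hf : ContDiff ℝ ∞ f) (hg : ContDiff ℝ ∞ g) (hh : ContDiff ℝ ∞ h) :
    ContDiff ℝ ∞ fun x => pt (f x) (g x) (h x) := by
  rw [contDiff_euclidean]
  intro i
  fin_cases i
  · simpa using hf
  · simpa using hg
  · simpa using hh

theorem LoopC_e₁_decomp (z : E3) : z = z 0 • pt 1 0 0 + z 1 • pt 0 1 0 + z 2 • pt 0 0 1 := by
  ext i
  fin_cases i <;> simp [pt]

/-- The linear map `z ↦ (c z₀ + A z, B z, C z)`. -/
noncomputable def LoopC_mkpt (A B C : E3 →L[ℝ] ℝ) : E3 →L[ℝ] E3 :=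
  A.smulRight (pt 1 0 0) + B.smulRight (pt 0 1 0) + C.smulRight (pt 0 0 1)

theorem LoopC_mkpt_apply (A B C : E3 →L[ℝ] ℝ) (z : E3) :
    LoopC_mkpt A B C z = pt (A z) (B z) (C z) := by
  ext i
  fin_cases i <;> simp [LoopC_mkpt, pt]

/-- determinant of a map fixing the first coordinate -/
theorem LoopC_det (f : E3 →ₗ[ℝ] E3) (h0 : ∀ z, (f z) 0 = z 0) :
    LinearMap.det f = (f (pt 0 1 0)) 1 * (f (pt 0 0 1)) 2 - (f (pt 0 0 1)) 1 * (f (pt 0 1 0)) 2 := by
  have hb : ∀ j : Fin 3, (EuclideanSpace.basisFun (Fin 3) ℝ).toBasis j =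
      ![pt 1 0 0, pt 0 1 0, pt 0 0 1] j := by
    intro j
    rw [OrthonormalBasis.coe_toBasis, EuclideanSpace.basisFun_apply]
    ext i
    fin_cases j <;> fin_cases i <;> simp [pt]
  rw [← LinearMap.det_toMatrix (EuclideanSpace.basisFun (Fin 3) ℝ).toBasis f, Matrix.det_fin_three]
  simp only [LinearMap.toMatrix_apply, hb]
  have hr : ∀ (x : E3) (i : Fin 3),
      ((EuclideanSpace.basisFun (Fin 3) ℝ).toBasis.repr x) i = x i := by
    intro x i
    simp
  simp only [hr]
  simp [h0]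

/-- `cmul c` as a continuous linear map. -/
noncomputable def LoopC_cmulL (c : ℂ) : E3 →L[ℝ] E3 :=
  LoopC_mkpt (EuclideanSpace.proj 0 : E3 →L[ℝ] ℝ)
    (c.re • (EuclideanSpace.proj 1 : E3 →L[ℝ] ℝ) - c.im • (EuclideanSpace.proj 2 : E3 →L[ℝ] ℝ))
    (c.re • (EuclideanSpace.proj 2 : E3 →L[ℝ] ℝ) + c.im • (EuclideanSpace.proj 1 : E3 →L[ℝ] ℝ))

theorem LoopC_cmulL_apply (c : ℂ) (z : E3) : LoopC_cmulL c z = cmul c z := by
  rw [LoopC_cmulL, LoopC_mkpt_apply, cmul]
  simp

theorem LoopC_cmul_smooth {E : Type*} [NormedAddCommGroup E] [NormedSpace ℝ E] {f : E → ℂ}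
    {g : E → E3} (hf : ContDiff ℝ ∞ f) (hg : ContDiff ℝ ∞ g) :
    ContDiff ℝ ∞ fun x => cmul (f x) (g x) := by
  have hre : ContDiff ℝ ∞ fun x => (f x).re := Complex.reCLM.contDiff.comp hf
  have him : ContDiff ℝ ∞ fun x => (f x).im := Complex.imCLM.contDiff.comp hf
  have hgi : ∀ i : Fin 3, ContDiff ℝ ∞ fun x => g x i := fun i => (LoopB_contDiff_coord i).comp hg
  have h : (fun x => cmul (f x) (g x)) = fun x => pt (g x 0)
      ((f x).re * g x 1 - (f x).im * g x 2) ((f x).re * g x 2 + (f x).im * g x 1) := by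
    funext x
    simp [cmul]
  rw [h]
  exact LoopC_contDiff_pt (hgi 0) ((hre.mul (hgi 1)).sub (him.mul (hgi 2)))
    ((hre.mul (hgi 2)).add (him.mul (hgi 1)))

/-- `cmul c` is injective for `c ≠ 0`. -/
theorem LoopC_cmul_inj {c : ℂ} (hc : c ≠ 0) {z : E3} (h : cmul c z = 0) : z = 0 := by
  have h0 := congrArg (fun x : E3 => x 0) h
  have h1 := congrArg (fun x : E3 => x 1) h
  have h2 := congrArg (fun x : E3 => x 2) h
  simp only [cmul, pt_zero', pt_one', pt_two', PiLp.zero_apply] at h0 h1 h2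
  have h3 : c * (z 1 + z 2 * I) = 0 := Complex.ext h1 h2
  have h4 : (z 1 + z 2 * I : ℂ) = 0 := (mul_eq_zero.mp h3).resolve_left hc
  have h5 := congrArg Complex.re h4
  have h6 := congrArg Complex.im h4
  simp at h5 h6
  rw [← pt_eta z, h0, h5, h6]
  ext i
  fin_cases i <;> simp [pt]

theorem loopC {P : ℝ → E3 ≃L[ℝ] E3} (hP : IsLoop P) (hpos : PosDet P)
    (h : ∀ t, ∃ c : ℝ, 0 < c ∧ P t e₀ = c • e₀) :
    ∃ Q : ℝ → E3 ≃L[ℝ] E3, IsLoop Q ∧ Relation.ReflTransGen LoopHom P Q ∧
      ∃ α : ℝ → ℂ, ContDiff ℝ ∞ α ∧ (∀ t, α (t + 1) = α t) ∧ (∀ t, α t ≠ 0) ∧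
        ∀ t z, Q t z = cmul (α t) z := by
  have hs0 := Real.smoothTransition.nonneg
  have hs1 := Real.smoothTransition.le_one
  have hsm3 : ∀ {P : ℝ → E3 ≃L[ℝ] E3}, IsLoop P → ∀ i : Fin 3,
      ContDiff ℝ ∞ fun q : ℝ × ℝ × E3 => (P q.1 q.2.2) i := fun hP i =>
    (LoopB_contDiff_coord i).comp (hP.smooth.comp
      (by fun_prop : ContDiff ℝ ∞ fun q : ℝ × ℝ × E3 => ((q.1, q.2.2) : ℝ × E3)))
  have hz : ∀ i : Fin 3, ContDiff ℝ ∞ fun q : ℝ × ℝ × E3 => q.2.2 i := fun i =>
    (LoopB_contDiff_coord i).comp (by fun_prop)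
  have hss : ContDiff ℝ ∞ fun q : ℝ × ℝ × E3 => Real.smoothTransition q.2.1 :=
    Real.smoothTransition.contDiff.comp (by fun_prop)
  -- first homotopy
  obtain ⟨Q, hQ1, hQ2, hQ3, hQ4⟩ := LoopA_mk (P := P) hpos
    (fun t τ => LoopC_mkpt
      ((1 - Real.smoothTransition τ) • (EuclideanSpace.proj 0 : E3 →L[ℝ] ℝ).comp (P t : E3 →L[ℝ] E3) +
        Real.smoothTransition τ • (EuclideanSpace.proj 0 : E3 →L[ℝ] ℝ))
      ((EuclideanSpace.proj 1 : E3 →L[ℝ] ℝ).comp (P t : E3 →L[ℝ] E3))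
      ((EuclideanSpace.proj 2 : E3 →L[ℝ] ℝ).comp (P t : E3 →L[ℝ] E3)))
    (by
      simp only [LoopC_mkpt_apply]
      apply LoopC_contDiff_pt
      · simp
        exact ((contDiff_const.sub hss).mul (hsm3 hP 0)).add (hss.mul (hz 0))
      · simpa using hsm3 hP 1
      · simpa using hsm3 hP 2)
    (by
      intro t τ z
      simp [LoopC_mkpt_apply, hP.per])
    (by
      intro t z
      rw [LoopC_mkpt_apply]
      simp [Real.smoothTransition.zero, pt_eta])
    (by
      intro t τ z hz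
      rw [LoopC_mkpt_apply] at hz
      have h0 := congrArg (fun x : E3 => x 0) hz
      have h1 := congrArg (fun x : E3 => x 1) hz
      have h2 := congrArg (fun x : E3 => x 2) hz
      simp at h0 h1 h2
      obtain ⟨c, hc, hPc⟩ := h t
      have h3 : P t z = (P t z) 0 • e₀ := by
        conv_lhs => rw [← pt_eta (P t z), h1, h2]
        ext i
        fin_cases i <;> simp [pt, e₀]
      have h4 : P t z = P t (((P t z) 0 / c) • e₀) := by
        rw [map_smul, hPc, smul_smul, div_mul_cancel₀ _ hc.ne']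
        exact h3
      have h5 : z = ((P t z) 0 / c) • e₀ := (P t).injective h4
      set β := (P t z) 0 / c with hβ
      have h6 : (P t z) 0 = β * c := by
        rw [hβ, div_mul_cancel₀ _ hc.ne']
      have h7 : z 0 = β := by
        rw [h5]
        simp [e₀]
      rw [h6, h7] at h0
      have h8 : β * ((1 - Real.smoothTransition τ) * c + Real.smoothTransition τ) = 0 := by
        linarith
      have h9 : 0 < (1 - Real.smoothTransition τ) * c + Real.smoothTransition τ := by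
        rcases (hs0 τ).eq_or_lt with h | h
        · rw [← h]
          simpa using hc
        · have := hs1 τ
          have : 0 ≤ (1 - Real.smoothTransition τ) * c := mul_nonneg (by linarith) hc.le
          linarith
      have h10 : β = 0 := by
        rcases mul_eq_zero.mp h8 with h | h
        · exact h
        · exact absurd h h9.ne'
      rw [h5, h10, zero_smul])
  have hQf : ∀ t z, Q t z = pt (z 0) ((P t z) 1) ((P t z) 2) := by
    intro t z
    rw [hQ4, LoopC_mkpt_apply]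
    simp [Real.smoothTransition.one]
  have hQe : ∀ t, Q t e₀ = e₀ := by
    intro t
    obtain ⟨c, hc, hPc⟩ := h t
    rw [hQf, hPc]
    simp [e₀]
  -- complex coordinates
  let g : ℝ → E3 → ℂ := fun t z => (Q t z) 1 + (Q t z) 2 * I
  let α : ℝ → ℂ := fun t => (g t (pt 0 1 0) - I * g t (pt 0 0 1)) / 2
  let β : ℝ → ℂ := fun t => (g t (pt 0 1 0) + I * g t (pt 0 0 1)) / 2
  have hg : ∀ t z, g t z = α t * (z 1 + z 2 * I) + β t * (z 1 - z 2 * I) := by
    intro t z
    have h1 : Q t z = z 0 • e₀ + z 1 • Q t (pt 0 1 0) + z 2 • Q t (pt 0 0 1) := by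
      conv_lhs => rw [LoopC_e₁_decomp z]
      rw [map_add, map_add, map_smul, map_smul, map_smul]
      have : Q t (pt 1 0 0) = e₀ := hQe t
      rw [this]
    have h2 : g t z = z 1 * g t (pt 0 1 0) + z 2 * g t (pt 0 0 1) := by
      simp only [g]
      rw [h1]
      simp [e₀]
      ring
    rw [h2]
    simp only [α, β]
    linear_combination ((z 2 : ℂ) * g t (pt 0 0 1)) * Complex.I_sq
  have hαβ : ∀ t, ‖β t‖ < ‖α t‖ := by
    intro t
    have h1 := hQ2 t
    rw [LoopC_det _ (fun z => by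
      change (Q t z) 0 = z 0
      rw [hQf]; simp)] at h1
    change 0 < (Q t (pt 0 1 0)) 1 * (Q t (pt 0 0 1)) 2 - (Q t (pt 0 0 1)) 1 * (Q t (pt 0 1 0)) 2 at h1
    have h2 : ‖β t‖ ^ 2 < ‖α t‖ ^ 2 := by
      rw [← Complex.normSq_eq_norm_sq, ← Complex.normSq_eq_norm_sq]
      simp only [α, β, g, Complex.normSq_apply]
      simp
      nlinarith
    exact lt_of_pow_lt_pow_left₀ 2 (norm_nonneg _) h2
  have hQc : ∀ z : E3, ContDiff ℝ ∞ fun t : ℝ => Q t z := fun z =>
    hQ1.smooth.comp (by fun_prop : ContDiff ℝ ∞ fun t : ℝ => ((t, z) : ℝ × E3))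
  have hof : ContDiff ℝ ∞ fun x : ℝ => (x : ℂ) := Complex.ofRealCLM.contDiff
  have hgc : ∀ z : E3, ContDiff ℝ ∞ fun t : ℝ => g t z := by
    intro z
    exact (hof.comp ((LoopB_contDiff_coord 1).comp (hQc z))).add
      ((hof.comp ((LoopB_contDiff_coord 2).comp (hQc z))).mul contDiff_const)
  have hαc : ContDiff ℝ ∞ α := ((hgc _).sub (contDiff_const.mul (hgc _))).div_const _
  have hβc : ContDiff ℝ ∞ β := ((hgc _).add (contDiff_const.mul (hgc _))).div_const _
  have hgp : ∀ t z, g (t + 1) z = g t z := by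
    intro t z
    simp only [g, hQ1.per]
  have hαp : ∀ t, α (t + 1) = α t := by
    intro t
    simp only [α, hgp]
  have hβp : ∀ t, β (t + 1) = β t := by
    intro t
    simp only [β, hgp]
  -- second homotopy
  have hcm : ∀ (c : ℂ) (z : E3), ((cmul c z) 1 : ℂ) + (cmul c z) 2 * I = c * (z 1 + z 2 * I) := by
    intro c z
    simp only [cmul, pt_one', pt_two']
    exact Complex.re_add_im _
  obtain ⟨R, hR1, hR2, hR3, hR4⟩ := LoopA_mk (P := Q) hQ2
    (fun t τ => (1 - Real.smoothTransition τ) • (Q t : E3 →L[ℝ] E3) +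
      Real.smoothTransition τ • LoopC_cmulL (α t))
    (by
      have h1 : ContDiff ℝ ∞ fun q : ℝ × ℝ × E3 => Q q.1 q.2.2 :=
        hQ1.smooth.comp (by fun_prop : ContDiff ℝ ∞ fun q : ℝ × ℝ × E3 => ((q.1, q.2.2) : ℝ × E3))
      have h2 : ContDiff ℝ ∞ fun q : ℝ × ℝ × E3 => cmul (α q.1) q.2.2 :=
        LoopC_cmul_smooth (hαc.comp contDiff_fst) (contDiff_snd.snd)
      have h3 : (fun q : ℝ × ℝ × E3 => ((1 - Real.smoothTransition q.2.1) • (Q q.1 : E3 →L[ℝ] E3) +
          Real.smoothTransition q.2.1 • LoopC_cmulL (α q.1)) q.2.2) =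
          fun q : ℝ × ℝ × E3 => (1 - Real.smoothTransition q.2.1) • Q q.1 q.2.2 +
            Real.smoothTransition q.2.1 • cmul (α q.1) q.2.2 := by
        funext q
        simp [LoopC_cmulL_apply]
      rw [h3]
      exact ((contDiff_const.sub hss).smul h1).add (hss.smul h2))
    (by
      intro t τ z
      simp [hQ1.per, hαp])
    (by
      intro t z
      simp [Real.smoothTransition.zero])
    (by
      intro t τ z hz
      have hz' : (1 - Real.smoothTransition τ) • Q t z + Real.smoothTransition τ • cmul (α t) z = 0 := by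
        simpa [LoopC_cmulL_apply] using hz
      set s := Real.smoothTransition τ with hs
      have h0 := congrArg (fun x : E3 => x 0) hz'
      have h1 := congrArg (fun x : E3 => ((x 1 : ℝ) : ℂ)) hz'
      have h2 := congrArg (fun x : E3 => ((x 2 : ℝ) : ℂ)) hz'
      simp only [PiLp.add_apply, PiLp.smul_apply, PiLp.zero_apply, smul_eq_mul, Complex.ofReal_zero]
        at h0 h1 h2
      have h3 : z 0 = 0 := by
        rw [hQf] at h0
        simp only [cmul, pt_zero'] at h0
        linarith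
      have h4 : (1 - s : ℂ) * g t z + s * (α t * (z 1 + z 2 * I)) = 0 := by
        rw [← hcm (α t) z]
        simp only [g]
        push_cast at h1 h2
        linear_combination h1 + I * h2
      rw [hg] at h4
      have h5 : α t * (z 1 + z 2 * I) = -((1 - s : ℂ) * (β t * (z 1 - z 2 * I))) := by
        linear_combination h4
      have h6 : ‖α t‖ * ‖(z 1 + z 2 * I : ℂ)‖ ≤ ‖β t‖ * ‖(z 1 + z 2 * I : ℂ)‖ := by
        rw [← norm_mul, h5, norm_neg, norm_mul, norm_mul]
        have h7 : ‖(1 - s : ℂ)‖ ≤ 1 := by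
          have : (1 - s : ℂ) = ((1 - s : ℝ) : ℂ) := by push_cast; ring
          rw [this, Complex.norm_real, Real.norm_eq_abs, abs_le]
          have := hs0 τ
          have := hs1 τ
          constructor <;> linarith
        have h8 : ‖(z 1 - z 2 * I : ℂ)‖ = ‖(z 1 + z 2 * I : ℂ)‖ := by
          have : (z 1 - z 2 * I : ℂ) = (starRingEnd ℂ) (z 1 + z 2 * I : ℂ) := by
            simp [sub_eq_add_neg]
          rw [this, Complex.norm_conj]
        rw [h8]
        exact mul_le_of_le_one_left (by positivity) h7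
      have h7 : ‖(z 1 + z 2 * I : ℂ)‖ = 0 := by
        by_contra hne
        have : 0 < ‖(z 1 + z 2 * I : ℂ)‖ := lt_of_le_of_ne (norm_nonneg _) (Ne.symm hne)
        exact absurd (le_of_mul_le_mul_right h6 this) (not_le.mpr (hαβ t))
      have h8 := norm_eq_zero.mp h7
      have h9 := congrArg Complex.re h8
      have h10 := congrArg Complex.im h8
      simp at h9 h10
      rw [← pt_eta z, h3, h9, h10]
      ext i
      fin_cases i <;> simp [pt])
  refine ⟨R, hR1, (Relation.ReflTransGen.single hQ3).tail hR3, α, hαc, hαp, ?_, ?_⟩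
  · intro t h0
    have := hαβ t
    rw [h0, norm_zero] at this
    exact absurd this (not_lt.mpr (norm_nonneg _))
  · intro t z
    rw [hR4]
    simp [Real.smoothTransition.one, LoopC_cmulL_apply]

end Pool.Agent.CSG
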