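import Pool.Agent.CSG.LoopC
import Pool.Agent.CSG.FunBasic

/-!
# CSG/LoopD: loops in `C^*`

`α : R → C^*` smooth and 1-periodic.  There is a smooth `ℓ : R → C` with `exp ℓ = α`
(`ℓ t = log (α 0) + ∫₀ᵗ α'/α`; `(α exp (-ℓ))' = 0`), and `ℓ (t+1) - ℓ t` is a constant
`2 π i k`, `k ∈ Z`.  The homotopy is `cmul (exp ((1-τ) ℓ t + τ i (2 π k thc (t + 1/2))))`.
-/

open scoped ContDiff
open Complex (I)

namespace Pool.Agent.CSG

/-- smooth logarithm of a nowhere vanishing smooth function. -/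
theorem LoopD_log {α : ℝ → ℂ} (hα : ContDiff ℝ ∞ α) (hper : ∀ t, α (t + 1) = α t)
    (h0 : ∀ t, α t ≠ 0) :
    ∃ (l : ℝ → ℂ) (k : ℤ), ContDiff ℝ ∞ l ∧ (∀ t, Complex.exp (l t) = α t) ∧
      ∀ t, l (t + 1) = l t + 2 * Real.pi * k * I := by
  have hd : ContDiff ℝ ∞ (deriv α) := (contDiff_infty_iff_deriv.mp hα).2
  have had : Differentiable ℝ α := (contDiff_infty_iff_deriv.mp hα).1
  have hq : ContDiff ℝ ∞ fun t => deriv α t / α t := by
    simp only [div_eq_mul_inv]
    exact hd.mul (hα.inv h0)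
  let l : ℝ → ℂ := fun t => Complex.log (α 0) + ∫ s in (0 : ℝ)..t, deriv α s / α s
  have hl : ∀ t, HasDerivAt l (deriv α t / α t) t := by
    intro t
    have h1 := intervalIntegral.integral_hasDerivAt_right (hq.continuous.intervalIntegrable 0 t)
      (hq.continuous.stronglyMeasurableAtFilter _ _) hq.continuous.continuousAt
    exact h1.const_add _
  have hlc : ContDiff ℝ ∞ l := by
    rw [contDiff_infty_iff_deriv]
    refine ⟨fun t => (hl t).differentiableAt, ?_⟩
    have : deriv l = fun t => deriv α t / α t := funext fun t => (hl t).deriv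
    rw [this]
    exact hq
  have hexp : ∀ t, Complex.exp (l t) = α t := by
    have h1 : ∀ t, HasDerivAt (fun t => α t * Complex.exp (-l t)) 0 t := by
      intro t
      have h2 := (had t).hasDerivAt.mul ((hl t).neg.cexp)
      refine HasDerivAt.congr_deriv (f := fun t => α t * Complex.exp (-l t)) h2 ?_
      have h3 := h0 t
      have h4 : α t * (deriv α t / α t) = deriv α t := mul_div_cancel₀ _ h3
      simp only [Pi.neg_apply]
      linear_combination (-Complex.exp (-l t)) * h4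
    have h2 := is_const_of_deriv_eq_zero (fun t => (h1 t).differentiableAt)
      (fun t => (h1 t).deriv)
    intro t
    have h3 := h2 t 0
    simp only [l, intervalIntegral.integral_same, add_zero] at h3
    rw [Complex.exp_neg (Complex.log (α 0)), Complex.exp_log (h0 0), mul_inv_cancel₀ (h0 0),
      Complex.exp_neg] at h3
    have h4 : α t = Complex.exp (l t) := by
      have h5 := Complex.exp_ne_zero (l t)
      have h6 : α t * (Complex.exp (l t))⁻¹ = 1 := h3
      field_simp at h6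
      exact h6
    exact h4.symm
  have hper' : ∀ t, deriv α (t + 1) = deriv α t := by
    intro t
    have : (fun s => α (s + 1)) = α := funext hper
    rw [← deriv_comp_add_const, this]
  have hconst : ∀ t, l (t + 1) - l t = l (0 + 1) - l 0 := by
    have h1 : ∀ t, HasDerivAt (fun t => l (t + 1) - l t) 0 t := by
      intro t
      have h2 := ((hl (t + 1)).comp_add_const t 1).sub (hl t)
      refine HasDerivAt.congr_deriv (f := fun t => l (t + 1) - l t) h2 ?_
      rw [hper, hper', sub_self]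
    intro t
    exact is_const_of_deriv_eq_zero (fun t => (h1 t).differentiableAt) (fun t => (h1 t).deriv) t 0
  have h1 : Complex.exp (l (0 + 1) - l 0) = 1 := by
    rw [Complex.exp_sub, hexp, hexp, hper, div_self (h0 0)]
  obtain ⟨k, hk⟩ := Complex.exp_eq_one_iff.mp h1
  refine ⟨l, k, hlc, hexp, fun t => ?_⟩
  have h2 := hconst t
  rw [hk] at h2
  linear_combination h2

theorem LoopD_exists (c : ℝ → ℝ → ℂ) (hne : ∀ t τ, c t τ ≠ 0) :
    ∃ M : ℝ → ℝ → E3 ≃L[ℝ] E3, ∀ t τ z, M t τ z = cmul (c t τ) z := by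
  have hi : ∀ t τ, Function.Injective ((LoopC_cmulL (c t τ) : E3 →L[ℝ] E3) : E3 →ₗ[ℝ] E3) := by
    intro t τ
    rw [← LinearMap.ker_eq_bot, LinearMap.ker_eq_bot']
    intro z hz
    apply LoopC_cmul_inj (hne t τ)
    rw [← LoopC_cmulL_apply]
    exact hz
  exact ⟨fun t τ =>
    (LinearEquiv.ofInjectiveEndo ((LoopC_cmulL (c t τ) : E3 →L[ℝ] E3) : E3 →ₗ[ℝ] E3)
      (hi t τ)).toContinuousLinearEquiv, fun t τ z => LoopC_cmulL_apply _ _⟩

theorem loopD {Q : ℝ → E3 ≃L[ℝ] E3} {α : ℝ → ℂ} (hα : ContDiff ℝ ∞ α)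
    (hper : ∀ t, α (t + 1) = α t) (h0 : ∀ t, α t ≠ 0) (hQ : ∀ t z, Q t z = cmul (α t) z) :
    ∃ (k : ℤ) (Q' : ℝ → E3 ≃L[ℝ] E3), IsLoop Q' ∧ LoopHom Q Q' ∧
      ∀ t z, Q' t z = cmul (gfr k t) z := by
  obtain ⟨l, k, hl, hexp, hlp⟩ := LoopD_log hα hper h0
  let c : ℝ → ℝ → ℂ := fun t τ =>
    Complex.exp ((1 - τ) * l t + τ * ((2 * Real.pi * k * thc (t + 1 / 2) : ℝ) * I))
  have hof : ContDiff ℝ ∞ fun x : ℝ => (x : ℂ) := Complex.ofRealCLM.contDiff
  have hthc : ContDiff ℝ ∞ fun t : ℝ => thc (t + 1 / 2) := thc_smooth.comp (by fun_prop)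
  have hc : ContDiff ℝ ∞ fun q : ℝ × ℝ => c q.1 q.2 := by
    apply ContDiff.cexp
    apply ContDiff.add
    · exact (contDiff_const.sub (hof.comp contDiff_snd)).mul (hl.comp contDiff_fst)
    · refine (hof.comp contDiff_snd).mul ((hof.comp ?_).mul contDiff_const)
      exact contDiff_const.mul (hthc.comp contDiff_fst)
  have hcp : ∀ t τ, c (t + 1) τ = c t τ := by
    intro t τ
    simp only [c]
    rw [hlp]
    have h1 : thc (t + 1 + 1 / 2) = thc (t + 1 / 2) + 1 := by
      have := thc_add_int (t + 1 / 2) 1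
      push_cast at this
      rw [← this]
      congr 1
      ring
    rw [h1]
    have h2 : ((1 - τ : ℂ) * (l t + 2 * Real.pi * k * I) +
        τ * ((2 * Real.pi * k * (thc (t + 1 / 2) + 1) : ℝ) * I)) =
        ((1 - τ) * l t + τ * ((2 * Real.pi * k * thc (t + 1 / 2) : ℝ) * I)) + k * (2 * Real.pi * I) := by
      push_cast
      ring
    rw [h2, Complex.exp_periodic.int_mul k _]
  have hc0 : ∀ t, c t 0 = α t := by
    intro t
    simp only [c]
    rw [← hexp]
    simp
  have hc1 : ∀ t, c t 1 = gfr k t := by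
    intro t
    simp only [c, gfr]
    simp
  have hne : ∀ t τ, c t τ ≠ 0 := fun t τ => Complex.exp_ne_zero _
  obtain ⟨M, hM⟩ := LoopD_exists c hne
  have hMs : ContDiff ℝ ∞ fun q : ℝ × ℝ × E3 => M q.1 q.2.1 q.2.2 := by
    simp only [hM]
    exact LoopC_cmul_smooth (hc.comp
      (by fun_prop : ContDiff ℝ ∞ fun q : ℝ × ℝ × E3 => ((q.1, q.2.1) : ℝ × ℝ))) contDiff_snd.snd
  refine ⟨k, fun t => M t 1, ⟨?_, ?_⟩, ⟨M, hMs, ?_, ?_, ?_⟩, ?_⟩
  · exact hMs.comp (by fun_prop : ContDiff ℝ ∞ fun q : ℝ × E3 => ((q.1, 1, q.2) : ℝ × ℝ × E3))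
  · intro t z
    rw [hM, hM, hcp]
  · intro t τ z
    rw [hM, hM, hcp]
  · intro t z
    rw [hM, hc0, hQ]
  · intro t z
    rfl
  · intro t z
    rw [hM, hc1]

end Pool.Agent.CSG
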