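import Pool.Agent.CSG.Fun

/-! # CSG/LoopDefs: smooth loops of linear isomorphisms and their homotopies -/

open scoped ContDiff
open Complex (I)

namespace Pool.Agent.CSG

/-- smooth loops in `GL_3(R)` -/
structure IsLoop (P : ℝ → E3 ≃L[ℝ] E3) : Prop where
  smooth : ContDiff ℝ ∞ fun q : ℝ × E3 => P q.1 q.2
  per : ∀ t z, P (t + 1) z = P t z

/-- positive determinant -/
def PosDet (P : ℝ → E3 ≃L[ℝ] E3) : Prop :=
  ∀ t, 0 < LinearMap.det ((P t).toLinearEquiv : E3 →ₗ[ℝ] E3)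

/-- one smooth homotopy of loops -/
def LoopHom (P Q : ℝ → E3 ≃L[ℝ] E3) : Prop :=
  ∃ M : ℝ → ℝ → E3 ≃L[ℝ] E3, (ContDiff ℝ ∞ fun q : ℝ × ℝ × E3 => M q.1 q.2.1 q.2.2) ∧
    (∀ t τ z, M (t + 1) τ z = M t τ z) ∧ (∀ t z, M t 0 z = P t z) ∧ (∀ t z, M t 1 z = Q t z)

/-- the first basis vector -/
noncomputable def e₀ : E3 := pt 1 0 0

end Pool.Agent.CSG
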