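import Pool.Agent.CSG.LoopA
import Pool.Agent.CSG.LoopB
import Pool.Agent.CSG.LoopC
import Pool.Agent.CSG.LoopD
import Pool.Agent.CSG.SFrame

/-!
# CSG/Normal: normal form of the framing when the monodromy is the identity near `0`

* `P (t+1) z = P t z` for `-1/8 < t < 1/8` near `z = 0`, hence (linearity) for all `z`
  (`P_mon` and `φ = id` near `0`).
* `P' t = P (fract t)` is a smooth loop which agrees with `P` on `(-1/8, 9/8)`; replace `S.P` by
  `P'` (`surg_reparam` with `Ψ = 1`, `c = 1`).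
* the sign of `det P t` is constant; if negative use `surg_orth` with `R = -1`.
* apply `loopA`, `loopB`, `loopC`, `loopD` and for every elementary homotopy `surg_frame` with
  `M t τ = (P t)⁻¹ ∘ M' t τ`; scalars commute with everything.
* `surg_shrink` to get `ε ≤ 1/4`.
-/

open scoped Manifold ContDiff Topology
open Set Filter

namespace Pool.Agent.CSG

/-- inverse of a smooth family of linear isomorphisms -/
private theorem Normal_symm_smooth {P : ℝ → E3 ≃L[ℝ] E3}
    (hP : ContDiff ℝ ∞ fun q : ℝ × E3 => P q.1 q.2) :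
    ContDiff ℝ ∞ fun q : ℝ × E3 => (P q.1).symm q.2 := by
  have h1 : ContDiff ℝ ∞ fun q : E3 × ℝ => (P q.2).toEquiv q.1 :=
    hP.comp (contDiff_snd.prodMk contDiff_fst)
  have h2 := smooth_symm_of_family (g := fun t => (P t).toLinearEquiv.toEquiv) h1
    (by
      intro x t v hv
      have h3 : fderiv ℝ (fun z => (P t).toLinearEquiv.toEquiv z) x = (P t : E3 →L[ℝ] E3) :=
        (P t).hasFDerivAt.fderiv
      have h4 : fderiv ℝ ((P t).toLinearEquiv.toEquiv : E3 → E3) x v = (P t) v := by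
        rw [show fderiv ℝ ((P t).toLinearEquiv.toEquiv : E3 → E3) x = (P t : E3 →L[ℝ] E3) from h3]
        rfl
      rw [h4] at hv
      exact (P t).map_eq_zero_iff.1 hv) rfl
  exact h2.comp (contDiff_snd.prodMk contDiff_fst)

private theorem Normal_det_continuous {P : ℝ → E3 ≃L[ℝ] E3}
    (hP : ContDiff ℝ ∞ fun q : ℝ × E3 => P q.1 q.2) :
    Continuous fun t => LinearMap.det ((P t).toLinearEquiv : E3 →ₗ[ℝ] E3) := by
  let b := (EuclideanSpace.basisFun (Fin 3) ℝ).toBasis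
  have h1 : ∀ t, LinearMap.det ((P t).toLinearEquiv : E3 →ₗ[ℝ] E3) =
      (LinearMap.toMatrix b b ((P t).toLinearEquiv : E3 →ₗ[ℝ] E3)).det := by
    intro t
    rw [LinearMap.det_toMatrix]
  simp_rw [h1]
  refine Continuous.matrix_det ?_
  refine continuous_matrix ?_
  intro i j
  simp only [LinearMap.toMatrix_apply]
  have h2 : Continuous fun t => P t (b j) :=
    hP.continuous.comp (continuous_id.prodMk continuous_const)
  have h3 : ∀ t, b.repr (((P t).toLinearEquiv : E3 →ₗ[ℝ] E3) (b j)) i = (P t (b j)) i := by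
    intro t
    simp [b]
  simp_rw [h3]
  exact (EuclideanSpace.proj (𝕜 := ℝ) i).continuous.comp h2

private theorem Normal_sign {f : ℝ → ℝ} (hf : Continuous f) (h0 : ∀ t, f t ≠ 0) :
    (∀ t, 0 < f t) ∨ (∀ t, f t < 0) := by
  by_contra hcon
  push Not at hcon
  obtain ⟨⟨a, ha⟩, ⟨b, hb⟩⟩ := hcon
  obtain ⟨c, hc⟩ := mem_range_of_exists_le_of_exists_ge hf ⟨a, ha⟩ ⟨b, hb⟩
  exact h0 c hc

section
variable {X : Type*} [TopologicalSpace X] [ChartedSpace E4 X]

/-- the framing is, up to a scalar, the loop `P` -/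
private def Normal_has (φ : Equiv.Perm E3) (X : Type*) [TopologicalSpace X] [ChartedSpace E4 X]
    (P : ℝ → E3 ≃L[ℝ] E3) : Prop :=
  ∃ S : Surg φ X, ∃ c : ℝ, 0 < c ∧ c ≤ 1 ∧ ∀ t z, S.P t z = c • P t z

private theorem Normal_step {A : Matrix (Fin 3) (Fin 3) ℤ} {φ : Equiv.Perm E3}
    (hφ : Mono A φ) {P Q : ℝ → E3 ≃L[ℝ] E3} (h : LoopHom P Q) (hP : Normal_has φ X P) :
    Normal_has φ X Q := by
  obtain ⟨M', hM', hper, hM0, hM1⟩ := h
  obtain ⟨S, c, hc, hc1, hS⟩ := hP
  have hPs : ContDiff ℝ ∞ fun q : ℝ × E3 => P q.1 q.2 := by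
    have : (fun q : ℝ × E3 => P q.1 q.2) = fun q : ℝ × E3 => M' q.1 0 q.2 := by
      funext q
      exact (hM0 q.1 q.2).symm
    rw [this]
    exact hM'.comp (contDiff_fst.prodMk (contDiff_const.prodMk contDiff_snd))
  have hPper : ∀ t, P (t + 1) = P t := by
    intro t
    refine ContinuousLinearEquiv.ext (funext fun z => ?_)
    rw [← hM0, ← hM0, hper]
  have hsm := Normal_symm_smooth hPs
  let M : ℝ → ℝ → E3 ≃L[ℝ] E3 := fun t τ => (M' t τ).trans (P t).symm
  have hMs : ContDiff ℝ ∞ fun q : ℝ × ℝ × E3 => M q.1 q.2.1 q.2.2 :=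
    hsm.comp (contDiff_fst.prodMk hM')
  obtain ⟨c', hc', hc'1, S₁, hS₁⟩ := surg_frame hφ S M hMs
    (by
      intro t τ z
      show (P (t + 1)).symm (M' (t + 1) τ z) = (P t).symm (M' t τ z)
      rw [hPper, hper])
    (by
      intro t z
      show (P t).symm (M' t 0 z) = z
      rw [hM0, (P t).symm_apply_apply])
  refine ⟨S₁, c' * c, mul_pos hc' hc, mul_le_one₀ hc'1 hc.le hc1, fun t z => ?_⟩
  rw [hS₁, hS]
  show c' • c • P t ((P t).symm (M' t 1 z)) = _
  rw [(P t).apply_symm_apply, hM1, smul_smul]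

private theorem Normal_steps {A : Matrix (Fin 3) (Fin 3) ℤ} {φ : Equiv.Perm E3}
    (hφ : Mono A φ) {P Q : ℝ → E3 ≃L[ℝ] E3} (h : Relation.ReflTransGen LoopHom P Q)
    (hP : Normal_has φ X P) : Normal_has φ X Q := by
  induction h with
  | refl => exact hP
  | tail _ h ih => exact Normal_step hφ h ih

/-- the framing is periodic near the seam -/
private theorem Normal_per {φ : Equiv.Perm E3}
    (hid : ∀ᶠ x in 𝓝 (0 : E3), φ x = x) (S : Surg φ X) {t : ℝ} (h1 : -(1 / 8) < t)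
    (h2 : t < 1 / 8) (z : E3) : S.P (t + 1) z = S.P t z := by
  have ht1 : Tendsto (fun c : ℝ => c • z) (𝓝[>] 0) (𝓝 0) := by
    have : Tendsto (fun c : ℝ => c • z) (𝓝 0) (𝓝 ((0 : ℝ) • z)) :=
      (continuous_id.smul continuous_const).tendsto 0
    rw [zero_smul] at this
    exact this.mono_left nhdsWithin_le_nhds
  have ht2 : Tendsto (fun c : ℝ => c • S.P (t + 1) z) (𝓝[>] 0) (𝓝 0) := by
    have : Tendsto (fun c : ℝ => c • S.P (t + 1) z) (𝓝 0) (𝓝 ((0 : ℝ) • S.P (t + 1) z)) :=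
      (continuous_id.smul continuous_const).tendsto 0
    rw [zero_smul] at this
    exact this.mono_left nhdsWithin_le_nhds
  have e1 : ∀ᶠ c : ℝ in 𝓝[>] 0, ‖c • z‖ < 1 := by
    have h3 : ∀ᶠ x in 𝓝 (0 : E3), ‖x‖ < 1 := by
      have := Metric.ball_mem_nhds (0 : E3) one_pos
      filter_upwards [this] with x hx
      simpa using hx
    exact ht1.eventually h3
  have e2 : ∀ᶠ c : ℝ in 𝓝[>] 0, φ (c • S.P (t + 1) z) = c • S.P (t + 1) z := ht2.eventually hid
  obtain ⟨c, hc1, hc2, hc3⟩ := (e1.and (e2.and self_mem_nhdsWithin)).exists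
  have hc0 : (0 : ℝ) < c := hc3
  have h4 := S.P_mon t (c • z) h1 h2 hc1
  rw [map_smul, hc2, map_smul] at h4
  exact smul_right_injective E3 hc0.ne' h4

theorem surg_normal {A : Matrix (Fin 3) (Fin 3) ℤ} {φ : Equiv.Perm E3}
    (hφ : Mono A φ) (hid : ∀ᶠ x in 𝓝 (0 : E3), φ x = x) (S : Surg φ X) :
    ∃ S₁ : Surg φ X, ∃ ε : ℝ, 0 < ε ∧ ε ≤ 1 / 4 ∧ ∃ k : ℤ,
      ∀ t z, -(1 / 8) < t → t < 9 / 8 → S₁.P t z = ε • cmul (gfr k t) z := by
  -- the periodic framing
  set P' : ℝ → E3 ≃L[ℝ] E3 := fun t => S.P (Int.fract t) with hP'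
  have hPP : ∀ t z, -(1 / 8) < t → t < 9 / 8 → P' t z = S.P t z := by
    intro t z h1 h2
    show S.P (Int.fract t) z = S.P t z
    rcases lt_or_ge t 0 with h0 | h0
    · have hfl : ⌊t⌋ = -1 := by
        rw [Int.floor_eq_iff]
        push_cast
        constructor <;> linarith
      have hfr : Int.fract t = t + 1 := by
        unfold Int.fract
        rw [hfl]
        push_cast
        ring
      rw [hfr]
      exact Normal_per hid S h1 (by linarith) z
    · rcases lt_or_ge t 1 with h3 | h3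
      · have hfr : Int.fract t = t := Int.fract_eq_self.2 ⟨h0, h3⟩
        rw [hfr]
      · have hfl : ⌊t⌋ = 1 := by
          rw [Int.floor_eq_iff]
          push_cast
          constructor <;> linarith
        have hfr : Int.fract t = t - 1 := by
          unfold Int.fract
          rw [hfl]
          push_cast
          ring
        have h4 := Normal_per hid S (t := t - 1) (by linarith) (by linarith) z
        rw [sub_add_cancel] at h4
        rw [hfr, ← h4]
  have hshift : ∀ (k : ℤ) t, P' (t + k) = P' t := by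
    intro k t
    simp only [hP', Int.fract_add_intCast]
  have hper : ∀ t z, P' (t + 1) z = P' t z := by
    intro t z
    have := hshift 1 t
    push_cast at this
    rw [this]
  have hsm : ContDiff ℝ ∞ fun q : ℝ × E3 => P' q.1 q.2 := by
    rw [contDiff_iff_contDiffAt]
    rintro ⟨t₀, z₀⟩
    have hopen : IsOpen {q : ℝ × E3 | -(1 / 8) < q.1 - ⌊t₀⌋ ∧ q.1 - ⌊t₀⌋ < 9 / 8} := by
      apply IsOpen.and
      · exact isOpen_lt continuous_const (continuous_fst.sub continuous_const)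
      · exact isOpen_lt (continuous_fst.sub continuous_const) continuous_const
    have hmem : (t₀, z₀) ∈ {q : ℝ × E3 | -(1 / 8) < q.1 - ⌊t₀⌋ ∧ q.1 - ⌊t₀⌋ < 9 / 8} := by
      have h1 := Int.floor_le t₀
      have h2 := Int.lt_floor_add_one t₀
      constructor
      · show -(1 / 8) < t₀ - ⌊t₀⌋
        linarith
      · show t₀ - ⌊t₀⌋ < 9 / 8
        linarith
    have hs : ContDiff ℝ ∞ fun q : ℝ × E3 => S.P (q.1 - ⌊t₀⌋) q.2 :=
      S.P_smooth.comp ((contDiff_fst.sub contDiff_const).prodMk contDiff_snd)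
    refine hs.contDiffAt.congr_of_eventuallyEq ?_
    filter_upwards [hopen.mem_nhds hmem] with q hq
    have h5 := hPP (q.1 - ⌊t₀⌋) q.2 hq.1 hq.2
    have h6 := hshift ⌊t₀⌋ (q.1 - ⌊t₀⌋)
    rw [sub_add_cancel] at h6
    rw [h6]
    exact h5
  -- replace the framing by the loop
  obtain ⟨S₀, hS₀⟩ := surg_reparam hφ hφ S (fun _ => 1)
    (fun x t _ _ => ld_id (x, t)) (fun _ _ _ _ _ => rfl) (fun _ _ _ => rfl)
    (fun _ _ _ _ => rfl) P' hsm 1 one_pos le_rfl
    (fun t z h1 h2 _ => by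
      rw [one_smul]
      exact hPP t z h1 h2)
  -- orientation
  obtain ⟨P, hPl, hPpos, hPS⟩ : ∃ P : ℝ → E3 ≃L[ℝ] E3, IsLoop P ∧ PosDet P ∧
      Normal_has φ X P := by
    have hcont := Normal_det_continuous hsm
    have hne : ∀ t, LinearMap.det ((P' t).toLinearEquiv : E3 →ₗ[ℝ] E3) ≠ 0 := by
      intro t
      exact (LinearEquiv.isUnit_det' (P' t).toLinearEquiv).ne_zero
    rcases Normal_sign hcont hne with hs | hs
    · exact ⟨P', ⟨hsm, hper⟩, hs, S₀, 1, one_pos, le_rfl, fun t z => by rw [hS₀, one_smul]⟩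
    · obtain ⟨S₁, hS₁⟩ := surg_orth hφ S₀ (LinearIsometryEquiv.neg ℝ)
      refine ⟨fun t => (ContinuousLinearEquiv.neg ℝ).trans (P' t), ⟨?_, ?_⟩, ?_, S₁, 1, one_pos,
        le_rfl, ?_⟩
      · exact hsm.comp (contDiff_fst.prodMk contDiff_snd.neg)
      · intro t z
        exact hper t (-z)
      · intro t
        have h1 : (((ContinuousLinearEquiv.neg ℝ).trans (P' t)).toLinearEquiv : E3 →ₗ[ℝ] E3) =
            (-1 : ℝ) • ((P' t).toLinearEquiv : E3 →ₗ[ℝ] E3) := by
          ext1 z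
          show P' t (-z) = (-1 : ℝ) • P' t z
          rw [map_neg, neg_one_smul]
        rw [h1, LinearMap.det_smul]
        have h2 : Module.finrank ℝ E3 = 3 := by simp
        rw [h2]
        have := hs t
        nlinarith
      · intro t z
        rw [hS₁, hS₀, one_smul]
        rfl
  obtain ⟨Q₁, hQ₁l, hQ₁p, hQ₁h, hQ₁⟩ := loopA hPl hPpos
  obtain ⟨Q₂, hQ₂l, hQ₂p, hQ₂h, hQ₂⟩ := loopB hQ₁l hQ₁p hQ₁
  obtain ⟨Q₃, hQ₃l, hQ₃h, α, hα, hαper, hα0, hQ₃⟩ := loopC hQ₂l hQ₂p hQ₂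
  obtain ⟨k, Q₄, hQ₄l, hQ₄h, hQ₄⟩ := loopD hα hαper hα0 hQ₃
  obtain ⟨S₂, c, hc, hc1, hS₂⟩ := Normal_step hφ hQ₄h
    (Normal_steps hφ hQ₃h (Normal_step hφ hQ₂h (Normal_step hφ hQ₁h hPS)))
  obtain ⟨S₃, hS₃⟩ := surg_shrink hφ S₂ (1 / 4) (by norm_num) (by norm_num)
  refine ⟨S₃, 1 / 4 * c, by positivity, by linarith, k, fun t z _ _ => ?_⟩
  rw [hS₃, hS₂, hQ₄, smul_smul]

end

end Pool.Agent.CSG
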