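import Pool.Agent.CSG.GProp

/-!
# CSG/Step: the move for normalised surgery data

`surg_of_period` with monodromy `φ' = sh (fun y _ => -lam y) * κ`, `G = GG S Γ σ`,
`j' = Γ ∘ j`, `P' = P`, for `σ = min 1 δ / 16`, `Γ` from `exists_isGam`.
* `P_mon`: `φ' (P (t+1) z) = P t z` for `|t| < 1/8`, `‖z‖ < 1`: `P (t+1) z = P t z =: x` (`gfr` is
  1-periodic), `|x i| ≤ ‖x‖ ≤ ε ≤ 1/4`; from `S.P_mon`: `φ x = x`, i.e. `sh lam (κ x) = x`, so
  `κ x = sh (-lam) x = x` as `lam (x 0) = 0`; hence `φ' x = sh (-lam) x = x`.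
* `P_avoid`: the same.
* `G_loc`: `GG_loc`;  `G_per`: `GG` depends only on the class mod `Z^3` (`nearP_per`, `K2_per`, for
  `NN`: `Q1 (u + m) q = Q1 u q`, `H_per`).
* `G_mon` (`-1/8 < t < 0`): both points satisfy `NP`, `GG_eq` and `K2_mon`.
* `G_inj` (`0 ≤ s, t < 1`): if one of the points is at a puncture, so is the other (`GG_T`), and
  then `GG_punct` and `H_inj`; otherwise `K2 S x s = K2 S y t`; use `K2_inj` if `s, t > 0`; for
  `s = 0` replace `K2 S x 0` by `K2 S (φ'⁻¹ x) 1` (`K2_mon`), similarly for `t = 0` (if both are `0`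
  the conclusion `φ'⁻¹ y = φ'⁻¹ x + vec m` gives `y = x + vec (A m)`; if `s = 0 < t` we get
  `1 = t`, a contradiction).
* `j_loc`, `j_inj`: `Γ` is a bijection and a local diffeomorphism off `TT`; `j_notT`.
* `glue`: for `0 < r < 1`, `x = P t (r y)` has `|x 0| ≤ 1/4`, `x` not in the lattice,
  `GG (x, t) = Γ (K2 x t) = Γ (H (x, t))` (`K2_side`).
* `disj`: `Γ (j (y, 0)) = GG (x, t)` is impossible: `GG (x,t) ∈ TT` excluded (`Γ` preserves the
  complement of `TT` and `j_notT`), otherwise `j (y, 0) = K2 S x t`, which is a value of `H`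
  (`K2_eq`, `KK` is a value of `HH`, i.e. of `H` at a non-lattice point).
* `cover`: `q ∈ TT`: `q = H (pt (1/2) u n, 1/2) = GG (pt (1/2) (-u) n, 1/2)`.  `q ∉ TT`:
  `Γ⁻¹ q ∉ TT`, use `K2_cover` (and replace `t = 1` by `t = 0` with `K2_mon`).
-/

open scoped Manifold ContDiff Topology
open Complex (I)
open Set Filter

namespace Pool.Agent.CSG

section
variable {X : Type*} [TopologicalSpace X] [T2Space X] [ChartedSpace E4 X] {φ κ : Equiv.Perm E3}
  {δ ε : ℝ} {k : ℤ}

theorem Step_lat0 {u n : ℝ} : ¬ IsLat (pt (1 / 2) u n) := by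
  rw [isLat_pt]
  rintro ⟨⟨m, hm⟩, -⟩
  have h1 : (1 : ℝ) = 2 * m := by linarith
  have h2 : (1 : ℤ) = 2 * m := by exact_mod_cast h1
  omega

/-- a number with fractional part in `(0,1)` is not an integer -/
theorem Step_lat1 {y u n : ℝ} (h : Int.fract y ≠ 0) : ¬ IsLat (pt y u n) := by
  rw [isLat_pt]
  rintro ⟨⟨m, hm⟩, -⟩
  apply h
  rw [hm, Int.fract_intCast]

theorem Step_abs {y : ℝ} (h : |y| ≤ 1 / 4) : Int.fract y ≤ 3 / 10 ∨ 7 / 10 ≤ Int.fract y := by
  rw [abs_le] at h
  rcases le_or_gt 0 y with h0 | h0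
  · left
    have : Int.fract y = y := Int.fract_eq_self.2 ⟨h0, by linarith⟩
    rw [this]; linarith
  · right
    have : Int.fract y = y + 1 := by
      rw [← Int.fract_add_one y]
      exact Int.fract_eq_self.2 ⟨by linarith, by linarith⟩
    rw [this]; linarith

theorem Step_NP {y t : ℝ} (h : Int.fract y ≤ 3 / 10 ∨ 7 / 10 ≤ Int.fract y) : NP y t := by
  rintro ⟨-, h2⟩
  rw [h2] at h
  rcases h with h | h <;> norm_num at h

theorem Step_NPt {y t : ℝ} (h : t ≠ 1 / 2) : NP y t := fun h' => h h'.1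

theorem Step_P {S : Surg φ X} (N : Nrm S κ δ ε k) {t : ℝ} {z : E3} (h1 : -(1 / 8) < t)
    (h2 : t < 9 / 8) (hz : ‖z‖ ≤ 1) : |S.P t z 0| ≤ 1 / 4 := by
  rw [N.P_eq t z h1 h2]
  have e : (ε • cmul (gfr k t) z) 0 = ε * z 0 := by
    simp [cmul]
  rw [e, abs_mul, abs_of_pos N.εpos]
  have h3 : |z 0| ≤ 1 := by
    have := PiLp.norm_apply_le z 0
    rw [Real.norm_eq_abs] at this
    linarith
  have h4 := N.εle
  have h5 := N.εpos
  nlinarith [abs_nonneg (z 0)]

theorem Step_lam0 : lam 0 = 0 := lam_zero (by norm_num) (by norm_num)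

theorem Step_mono {S : Surg φ X} (N : Nrm S κ δ ε k) :
    ∃ A, Mono A (sh (fun y _ => -lam y) * κ) := by
  obtain ⟨A, hA⟩ := N.mono
  have h1 : Mono !![1, 0, 0; -1, 1, 0; 0, 0, 1] (sh (fun y _ => -lam y)) := by
    apply sh_mono _ (-1) 0
    · intro n y a b
      rw [lam_add_int]
      push_cast
      ring
    · rw [Step_lam0, neg_zero]
    · exact (lam_smooth.comp contDiff_fst).neg
  exact ⟨_, h1.mul hA⟩

theorem Step_Pmon {S : Surg φ X} (N : Nrm S κ δ ε k) {t : ℝ} {z : E3} (h1 : -(1 / 8) < t)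
    (h2 : t < 1 / 8) (hz : ‖z‖ < 1) :
    (sh (fun y _ => -lam y) * κ) (S.P (t + 1) z) = S.P t z := by
  have e1 : S.P (t + 1) z = S.P t z := by
    rw [N.P_eq t z h1 (by linarith), N.P_eq (t + 1) z (by linarith) (by linarith), gfr_add_one]
  have e2 := S.P_mon t z h1 h2 hz
  rw [e1] at e2 ⊢
  set x := S.P t z with hx
  have hx0 : |x 0| ≤ 1 / 4 := Step_P N h1 (by linarith) hz.le
  rw [abs_le] at hx0
  have hl : lam (x 0) = 0 := lam_zero (by linarith) (by linarith)
  rw [N.fac] at e2
  have e3 : κ x = x := by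
    have : (sh (fun y _ => lam y)) (κ x) = (sh (fun y _ => lam y)) x := by
      have e4 : (sh (fun y _ => lam y)) x = x := by
        show pt (x 0) (x 1 + lam (x 0)) (x 2) = x
        rw [hl, add_zero, pt_eta]
      rw [e4]
      exact e2
    exact (sh (fun y _ => lam y)).injective this
  show (sh (fun y _ => -lam y)) (κ x) = x
  rw [e3]
  show pt (x 0) (x 1 + -lam (x 0)) (x 2) = x
  rw [hl, neg_zero, add_zero, pt_eta]

theorem Step_Q1_norm (u : ℝ) (q : ℂ) : ‖Q1 u q‖ = ‖q‖ := by
  unfold Q1
  rw [norm_neg, norm_mul, Complex.norm_exp_ofReal_mul_I, mul_one, RCLike.norm_conj]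

theorem Step_Q1_per (u : ℝ) (m : ℤ) (q : ℂ) : Q1 (u + m) q = Q1 u q := by
  unfold Q1
  congr 2
  have : Complex.exp ((4 * Real.pi * (u + m) : ℝ) * I) =
      Complex.exp ((4 * Real.pi * u : ℝ) * I) * Complex.exp ((2 * m : ℤ) * (2 * Real.pi * I)) := by
    rw [← Complex.exp_add]
    congr 1
    push_cast
    ring
  rw [this, Complex.exp_int_mul_two_pi_mul_I, mul_one]

theorem Step_NN_per (S : Surg φ X) {σ : ℝ} (h0 : 0 < σ) (h1 : σ ≤ 1 / 4) {x : E3} {t : ℝ}
    (h : nearP σ (x 0) t) (m : Fin 3 → ℤ) : NN S (x + vec m) t = NN S x t := by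
  have e0 : (x + vec m) 0 = x 0 + m 0 := by simp [vec]
  have e1 : (x + vec m) 1 = x 1 + m 1 := by simp [vec]
  have e2 : (x + vec m) 2 = x 2 + m 2 := by simp [vec]
  have eq : QQ (x 0 + m 0) t = QQ (x 0) t := by
    unfold QQ Xi
    rw [Int.fract_add_intCast]
  unfold NN
  rw [e0, e1, e2, eq, Step_Q1_per]
  have hs : ‖Wq (Q1 (x 1) (QQ (x 0) t))‖ < 1 / 100 := by
    apply Wq_small
    rw [Step_Q1_norm]
    have := h.2.2
    linarith
  have hre := (Complex.abs_re_le_norm (Wq (Q1 (x 1) (QQ (x 0) t)))).trans_lt hs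
  rw [abs_lt] at hre
  set w := Wq (Q1 (x 1) (QQ (x 0) t)) with hw
  have hnl : ¬ IsLat (pt (1 / 2 + w.re) (-x 1) (x 2)) := by
    apply Step_lat1
    rw [Int.fract_eq_self.2 ⟨by linarith, by linarith⟩]
    linarith
  have hp := S.H_per (pt (1 / 2 + w.re) (-x 1) (x 2)) (1 / 2 + w.im) ![0, -m 1, m 2] hnl
  rw [pt_add_vec] at hp
  rw [← hp]
  congr 3
  · simp
  · simp
    ring

theorem surg_step {S : Surg φ X} (N : Nrm S κ δ ε k) :
    Nonempty (Surg (sh (fun y _ => -lam y) * κ) X) := by
  set σ : ℝ := min 1 δ / 16 with hσ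
  have hm : 0 < min 1 δ := lt_min one_pos N.δpos
  have h0 : 0 < σ := by rw [hσ]; positivity
  have h1 : 16 * σ ≤ 1 := by
    rw [hσ]
    have := min_le_left 1 δ
    linarith
  have h2 : 16 * σ ≤ δ := by
    rw [hσ]
    have := min_le_right 1 δ
    linarith
  have h1' : σ ≤ 1 / 4 := by linarith
  obtain ⟨Γ, hΓ⟩ := exists_isGam N h0 h1 h2
  obtain ⟨A, hA⟩ := Step_mono N
  have hΓT : ∀ z, Γ z ∈ TT S → z ∈ TT S := by
    intro z hz
    have := hΓ.fix _ hz
    have := Γ.injective this
    rwa [this] at hz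
  set φ' := sh (fun y _ => -lam y) * κ with hφ'
  have hinvLat : ∀ x, ¬ IsLat x → ¬ IsLat (φ'.symm x) := by
    intro x hx h
    apply hx
    have := (hA.isLat (φ'.symm x)).2 h
    rwa [Equiv.apply_symm_apply] at this
  obtain ⟨S', -, -, -⟩ := surg_of_period hA (GG S Γ σ) (fun q => Γ (S.j q)) S.P S.P_smooth
    (fun t z ht ht' hz => Step_Pmon N ht ht' hz) S.P_avoid
    (fun x t hx ht ht' => GG_loc N h0 h1' hΓ hx ht ht'.le)
    (by
      intro x t m hx ht ht'
      unfold GG
      have e0 : (x + vec m) 0 = x 0 + m 0 := by simp [vec]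
      by_cases hn : nearP σ (x 0) t
      · have hn' : nearP σ ((x + vec m) 0) t := by rw [e0, nearP_per]; exact hn
        rw [if_pos hn', if_pos hn]
        exact Step_NN_per S h0 h1' hn m
      · have hn' : ¬ nearP σ ((x + vec m) 0) t := by rw [e0, nearP_per]; exact hn
        rw [if_neg hn', if_neg hn]
        show Γ (K2 S (x + vec m) t) = Γ (K2 S x t)
        rw [K2_per S hx])
    (by
      intro x t hx ht ht'
      rw [GG_eq N h0 h1' hΓ (Step_NPt (by linarith)), GG_eq N h0 h1' hΓ
        (Step_NPt (by linarith)), K2_mon N hx (by linarith) (by linarith)])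
    (by
      intro x y s t hx hy hs hs' ht ht' hG
      by_cases hnx : NP (x 0) s
      · have hny : NP (y 0) t := by
          by_contra hny
          have hT := (GG_T N h0 h1' hΓ hy (by linarith) ht'.le).2 hny
          rw [← hG] at hT
          exact (GG_T N h0 h1' hΓ hx (by linarith) hs'.le).1 hT hnx
        rw [GG_eq N h0 h1' hΓ hnx, GG_eq N h0 h1' hΓ hny] at hG
        have hK := Γ.injective hG
        have hshift : ∀ z, ¬ IsLat z → K2 S z 0 = K2 S (φ'.symm z) 1 := by
          intro z hz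
          have := K2_mon N (hinvLat z hz) (t := 0) (by norm_num) (by norm_num)
          rw [← hφ', Equiv.apply_symm_apply, zero_add] at this
          exact this
        rcases hs.eq_or_lt with hs0 | hs0
        · rw [← hs0, hshift x hx] at hK
          rcases ht.eq_or_lt with ht0 | ht0
          · rw [← ht0, hshift y hy] at hK
            obtain ⟨-, m, hm'⟩ := K2_inj N (hinvLat x hx) (hinvLat y hy) one_pos le_rfl one_pos
              le_rfl (Step_NPt (by norm_num)) (Step_NPt (by norm_num)) hK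
            refine ⟨hs0.symm.trans ht0, A.mulVec m, ?_⟩
            have := hA.lat (φ'.symm x) m
            rw [← hm', Equiv.apply_symm_apply, Equiv.apply_symm_apply] at this
            exact this
          · obtain ⟨h, -⟩ := K2_inj N (hinvLat x hx) hy one_pos le_rfl ht0 ht'.le
              (Step_NPt (by norm_num)) hny hK
            linarith
        · rcases ht.eq_or_lt with ht0 | ht0
          · rw [← ht0, hshift y hy] at hK
            obtain ⟨h, -⟩ := K2_inj N hx (hinvLat y hy) hs0 hs'.le one_pos le_rfl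
              hnx (Step_NPt (by norm_num)) hK
            linarith
          · exact K2_inj N hx hy hs0 hs'.le ht0 ht'.le hnx hny hK
      · have hny : ¬ NP (y 0) t := by
          have hT := (GG_T N h0 h1' hΓ hx (by linarith) hs'.le).2 hnx
          rw [hG] at hT
          exact (GG_T N h0 h1' hΓ hy (by linarith) ht'.le).1 hT
        unfold NP at hnx hny
        rw [not_not] at hnx hny
        obtain ⟨rfl, hx0⟩ := hnx
        obtain ⟨rfl, hy0⟩ := hny
        rw [GG_punct h0 hx0, GG_punct h0 hy0] at hG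
        obtain ⟨-, m, hm'⟩ := S.H_inj _ _ _ _ Step_lat0 Step_lat0 hs hs' ht ht' hG
        obtain ⟨-, e1, e2⟩ := pt_inj_vec hm'
        refine ⟨rfl, ![⌊y 0⌋ - ⌊x 0⌋, -m 1, m 2], ?_⟩
        have e3 := Int.floor_add_fract (x 0)
        have e4 := Int.floor_add_fract (y 0)
        rw [hx0] at e3
        rw [hy0] at e4
        calc y = pt (y 0) (y 1) (y 2) := (pt_eta y).symm
          _ = pt (x 0) (x 1) (x 2) + vec ![⌊y 0⌋ - ⌊x 0⌋, -m 1, m 2] := by
              rw [pt_add_vec]
              congr 1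
              · simp only [Matrix.cons_val_zero]
                push_cast
                linarith
              · simp only [Matrix.cons_val_one, Matrix.cons_val_zero]
                push_cast
                linarith
          _ = _ := by rw [pt_eta])
    (by
      intro y v hv
      exact IsLocalDiffeomorphAt.comp (hf := S.j_loc y v hv) (hg := hΓ.ld _ (j_notT N y hv)))
    (fun y y' v v' hv hv' h => S.j_inj y y' v v' hv hv' (Γ.injective h))
    (by
      intro t r y ht ht' hr hr'
      have hny : ‖(y : E3)‖ = 1 := by simp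
      have hn : ‖r • (y : E3)‖ = r := by
        rw [norm_smul, hny, mul_one, Real.norm_of_nonneg hr.le]
      have hne : r • (y : E3) ≠ 0 := by
        intro h
        rw [h, norm_zero] at hn
        linarith
      have hlat := S.P_avoid t (r • (y : E3)) ht (by linarith) hne (by rw [hn]; exact hr')
      have hab := Step_abs (Step_P N ht (by linarith) (hn.le.trans hr'.le))
      rw [GG_eq N h0 h1' hΓ (Step_NP hab), K2_side S hlat hab,
        ← S.glue t r y ht (by linarith) hr hr'])
    (by
      intro y x t hx ht ht' h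
      by_cases hn : NP (x 0) t
      · rw [GG_eq N h0 h1' hΓ hn] at h
        have h' : S.j (y, 0) = K2 S x t := Γ.injective h
        by_cases hf : Int.fract (x 0) ≤ 3 / 10 ∨ 7 / 10 ≤ Int.fract (x 0)
        · rw [K2_side S hx hf] at h'
          exact S.disj y x t hx h'
        · push Not at hf
          have hnl : ∀ u n, ¬ IsLat (pt (x 0) u n) := by
            intro u n
            apply Step_lat1
            intro h3
            rw [h3] at hf
            linarith [hf.1]
          exact S.disj y _ t (hnl _ _) h'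
      · have hT := (GG_T N h0 h1' hΓ hx (by linarith) ht'.le).2 hn
        rw [← h] at hT
        exact j_notT N y (by simp) (hΓT _ hT))
    (by
      intro p
      by_cases hp : p ∈ TT S
      · right
        obtain ⟨u, n, rfl⟩ := hp
        refine ⟨pt (1 / 2) (-u) n, 1 / 2, Step_lat0, by norm_num, by norm_num, ?_⟩
        rw [GG_punct h0 (by
          rw [pt_zero', Int.fract_eq_self.2 ⟨by norm_num, by norm_num⟩])]
        simp
      · have hq : Γ.symm p ∉ TT S := by
          intro h
          have := hΓ.fix _ h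
          rw [Equiv.apply_symm_apply] at this
          rw [← this] at h
          exact hp h
        rcases K2_cover N hq with ⟨y, hy⟩ | ⟨x, t, hx, ht, ht', hn, hK⟩
        · left
          exact ⟨y, by rw [← hy, Equiv.apply_symm_apply]⟩
        · right
          rcases ht'.eq_or_lt with ht1 | ht1
          · refine ⟨φ' x, 0, fun h => hx ((hA.isLat x).1 h), le_rfl, one_pos, ?_⟩
            rw [GG_eq N h0 h1' hΓ (Step_NPt (by norm_num)), hφ',
              K2_mon N hx (by norm_num) (by norm_num), zero_add, ← ht1, ← hK,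
              Equiv.apply_symm_apply]
          · refine ⟨x, t, hx, ht.le, ht1, ?_⟩
            rw [GG_eq N h0 h1' hΓ hn, ← hK, Equiv.apply_symm_apply])
  exact ⟨S'⟩

end

end Pool.Agent.CSG
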