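import Pool.Agent.CSG.Conv
import Pool.Agent.CSG.Normal
import Pool.Agent.CSG.Isots
import Pool.Agent.CSG.Step

/-!
# CSG/Move: the move E1 on Cappell-Shaneson data
-/

open scoped Manifold ContDiff Topology
open Set Filter

namespace Pool.Agent.CSG

theorem Move_eventually {κ : Equiv.Perm E3} {δ : ℝ} (hδ : 0 < δ)
    (h : ∀ x, |x 1| < δ → |x 2| < δ → κ x = x) :
    ∀ᶠ x in 𝓝 (0 : E3), sh (fun y _ => lam y) (κ x) = x := by
  have h1 : ∀ᶠ x : E3 in 𝓝 0, |x 1| < δ := by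
    have : ContinuousAt (fun x : E3 => |x 1|) 0 := by fun_prop
    have := this.eventually (gt_mem_nhds (show |(0 : E3) 1| < δ by simpa using hδ))
    simpa using this
  have h2 : ∀ᶠ x : E3 in 𝓝 0, |x 2| < δ := by
    have : ContinuousAt (fun x : E3 => |x 2|) 0 := by fun_prop
    have := this.eventually (gt_mem_nhds (show |(0 : E3) 2| < δ by simpa using hδ))
    simpa using this
  have h3 : ∀ᶠ x : E3 in 𝓝 0, |x 0| < 9 / 20 := by
    have : ContinuousAt (fun x : E3 => |x 0|) 0 := by fun_prop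
    have := this.eventually (gt_mem_nhds (show |(0 : E3) 0| < 9 / 20 by norm_num))
    simpa using this
  filter_upwards [h1, h2, h3] with x hx1 hx2 hx3
  rw [h x hx1 hx2]
  have := abs_lt.1 hx3
  have hl : lam (x 0) = 0 := lam_zero this.1.le this.2.le
  simp [sh, hl, pt_eta]

theorem cs_move {X : Type*} [TopologicalSpace X] [T2Space X] [ChartedSpace E4 X]
    {C : Matrix (Fin 3) (Fin 3) ℤ} (hC : C.det = 1) (h0 : C 0 0 = 1)
    (h1 : C 1 0 = 0) (h2 : C 2 0 = 0) (D : CSData (Matrix.transvection 1 0 1 * C) X) :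
    Nonempty (CSData (Matrix.transvection 1 0 (-1) * C) X) := by
  obtain ⟨κ₀, δ, hδ, hκ, haxis, hiso⟩ := exists_isots hC h0 h1 h2
  have hdet : ∀ k : ℤ, (Matrix.transvection 1 0 k * C).det = 1 := by
    intro k
    rw [Matrix.det_mul, hC, Matrix.det_transvection_of_ne _ _ (by decide)]
    simp
  -- the linear monodromies
  obtain ⟨B, hB, hBm⟩ := exists_actE (A := Matrix.transvection 1 0 1 * C) (by
    rw [hdet]; exact isUnit_one)
  obtain ⟨B', hB', hBm'⟩ := exists_actE (A := Matrix.transvection 1 0 (-1) * C) (by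
    rw [hdet]; exact isUnit_one)
  obtain ⟨Ψ, hΨ⟩ := hiso 1 B hB
  obtain ⟨Ψ', hΨ'⟩ := hiso (-1) B' hB'
  obtain ⟨S, -⟩ := surg_of_cs hB D
  obtain ⟨S₁⟩ := surg_isot hBm S Ψ
  rw [hΨ] at S₁
  have hfun : (fun (y : ℝ) (_ : ℝ) => ((1 : ℤ) : ℝ) * lam y) = fun y _ => lam y := by
    funext y _; simp
  rw [hfun] at S₁
  have hmono : ∃ A, Mono A (sh (fun y _ => lam y) * κ₀) := by
    refine ⟨_, (sh_mono (f := fun y _ => lam y) (lam_smooth.comp contDiff_fst) 1 0 ?_ ?_).mul hκ⟩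
    · intro n y a b
      simp [lam_add_int]
    · exact lam_zero (by norm_num) (by norm_num)
  obtain ⟨A₁, hA₁⟩ := hmono
  obtain ⟨S₂, ε, hε, hε', k, hP⟩ := surg_normal hA₁ (Move_eventually hδ haxis) S₁
  have N : Nrm S₂ κ₀ δ ε k :=
    ⟨hδ, hε, hε', rfl, haxis, hP, ⟨C, hκ⟩⟩
  obtain ⟨S₃⟩ := surg_step N
  -- back to the linear monodromy
  obtain ⟨Ψ'', hΨ''⟩ := Ψ'.exists_symm
  have hfun' : (fun (y : ℝ) (_ : ℝ) => ((-1 : ℤ) : ℝ) * lam y) = fun y _ => -lam y := by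
    funext y _; simp
  rw [hfun'] at hΨ'
  rw [← hΨ'] at S₃
  have hm3 : Mono ((Matrix.transvection 1 0 (-1) * C) * 1) (B' * Ψ'.ψ 1) :=
    hBm'.mul (Ψ'.mono 1)
  obtain ⟨S₄⟩ := surg_isot hm3 S₃ Ψ''
  rw [hΨ'' 1, mul_assoc, mul_inv_cancel, mul_one] at S₄
  obtain ⟨D', -⟩ := cs_of_surg (A := Matrix.transvection 1 0 (-1) * C) (by
    rw [hdet]; exact isUnit_one) hB' S₄
  exact ⟨D'⟩

end Pool.Agent.CSG
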