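import Pool.Agent.CSG.EDef
import Pool.Agent.CSG.FunBasic

/-!
# CSG/NfP: elementary properties of the profile functions `nf`, `wd`

`nf r = nf0 r` for `r ≤ 1`, where `nf0 r = (1 - s) r + s (1/2 + log r / 2π)`, `s = stp (1/5) (3/10) r`.
For `1/5 ≤ r ≤ 3/10` one has `1/2 + log r / 2π > r` (at `r = 1/5` it is `0.2438`, at `3/10` it is
`0.3083`; both functions are increasing on the interval: check `r ≤ 0.24` with the value at `1/5`
and `r ≥ 0.24` with the value at `0.24`, which is `0.2728`, and then again `r ≤ 0.27`, value at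
`0.27` is `0.2916`, ...; or: `log r ≥ 1 - 1/r`-type bounds), so the derivative
`(1 - s) + s/(2πr) + s' ((1/2 + log r/2π) - r)` is positive.  For `3/10 ≤ r ≤ 10/3` both branches
give `1/2 + log r / 2π`, so `nf` is smooth at `1`.
-/

open scoped ContDiff Topology
open Complex (I)
open Set Filter

namespace Pool.Agent.CSG

/-- `1/2 + log r / 2π > r` on `[1/5, 3/10]` -/
theorem NfP_L {r : ℝ} (h1 : 1 / 5 ≤ r) (h2 : r ≤ 3 / 10) :
    0 < 1 / 2 + Real.log r / (2 * Real.pi) - r := by
  have hr : 0 < r := by linarith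
  have hpi := Real.pi_gt_d2
  have h2pi : 0 < 2 * Real.pi := by positivity
  -- `log (3/10) > - (2/5) π`
  have hA : -(2 / 5 * Real.pi) < Real.log (3 / 10) := by
    have he := Real.exp_one_gt_d9
    have h3 : Real.log (10 / 3) ≤ 10 / (3 * Real.exp 1) := by
      have h4 := Real.log_le_sub_one_of_pos (x := 10 / (3 * Real.exp 1)) (by positivity)
      have h5 : Real.log (10 / (3 * Real.exp 1)) = Real.log (10 / 3) - 1 := by
        rw [show (10 : ℝ) / (3 * Real.exp 1) = (10 / 3) / Real.exp 1 by field_simp,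
          Real.log_div (by norm_num) (Real.exp_pos 1).ne', Real.log_exp]
      linarith
    have h6 : 10 / (3 * Real.exp 1) < 2 / 5 * Real.pi := by
      rw [div_lt_iff₀ (by positivity)]
      nlinarith
    have h7 : Real.log (3 / 10) = -Real.log (10 / 3) := by
      rw [← Real.log_inv]
      norm_num
    linarith
  have hB : Real.log (3 / 10) - Real.log r ≤ 5 * (3 / 10 - r) := by
    have h3 := Real.log_le_sub_one_of_pos (x := 3 / 10 / r) (by positivity)
    rw [Real.log_div (by norm_num) hr.ne'] at h3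
    have h4 : 3 / 10 / r - 1 ≤ 5 * (3 / 10 - r) := by
      rw [sub_le_iff_le_add, div_le_iff₀ hr]
      nlinarith
    linarith
  have hC : r < 1 / 2 + Real.log r / (2 * Real.pi) := by
    have h3 : (r - 1 / 2) * (2 * Real.pi) < Real.log r := by nlinarith
    have h4 : r - 1 / 2 < Real.log r / (2 * Real.pi) := by
      rw [lt_div_iff₀ h2pi]
      exact h3
    linarith
  linarith

theorem NfP_deriv {r : ℝ} (hr : 0 < r) : 0 ≤ deriv (stp (1 / 5) (3 / 10)) r *
    (1 / 2 + Real.log r / (2 * Real.pi) - r) := by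
  rcases lt_or_ge r (1 / 5) with h | h
  · have h1 : stp (1 / 5) (3 / 10) =ᶠ[𝓝 r] fun _ => 0 := by
      filter_upwards [Iio_mem_nhds h] with x hx
      exact stp_zero (by norm_num) (le_of_lt hx)
    rw [h1.deriv_eq]
    simp
  · rcases lt_or_ge (3 / 10) r with h' | h'
    · have h1 : stp (1 / 5) (3 / 10) =ᶠ[𝓝 r] fun _ => 1 := by
        filter_upwards [Ioi_mem_nhds h'] with x hx
        exact stp_one (by norm_num) (le_of_lt hx)
      rw [h1.deriv_eq]
      simp
    · exact mul_nonneg (stp_deriv_nonneg (by norm_num) r) (NfP_L h h').le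

theorem NfP_nf0_deriv {r : ℝ} (hr : 0 < r) : ∃ d, 0 < d ∧ HasDerivAt nf0 d r := by
  have hs : HasDerivAt (stp (1 / 5) (3 / 10)) (deriv (stp (1 / 5) (3 / 10)) r) r :=
    ((stp_smooth (1 / 5) (3 / 10)).differentiable (by simp) r).hasDerivAt
  have hl : HasDerivAt (fun r : ℝ => 1 / 2 + Real.log r / (2 * Real.pi)) (r⁻¹ / (2 * Real.pi)) r :=
    ((Real.hasDerivAt_log hr.ne').div_const _).const_add _
  have h1 := (((hasDerivAt_const r (1 : ℝ)).sub hs).mul (hasDerivAt_id r)).add (hs.mul hl)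
  refine ⟨_, ?_, h1⟩
  have h2 := NfP_deriv hr
  have h3 := stp_nonneg (1 / 5) (3 / 10) r
  have h4 := stp_le_one (1 / 5) (3 / 10) r
  have h5 : 0 < r⁻¹ / (2 * Real.pi) := by positivity
  have h6 : 0 < (1 - stp (1 / 5) (3 / 10) r) + stp (1 / 5) (3 / 10) r * (r⁻¹ / (2 * Real.pi)) := by
    rcases h4.lt_or_eq with h | h
    · have := mul_nonneg h3 h5.le
      linarith
    · rw [h]
      linarith
  simp only [id_eq, Pi.sub_apply]
  nlinarith

theorem NfP_nf0_smooth {r : ℝ} (hr : 0 < r) : ContDiffAt ℝ ∞ nf0 r := by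
  unfold nf0
  have hs : ContDiffAt ℝ ∞ (stp (1 / 5) (3 / 10)) r := (stp_smooth _ _).contDiffAt
  have hl : ContDiffAt ℝ ∞ (fun r : ℝ => 1 / 2 + Real.log r / (2 * Real.pi)) r := by
    apply contDiffAt_const.add
    exact (Real.contDiffAt_log.2 hr.ne').div_const _
  exact ((contDiffAt_const.sub hs).mul contDiffAt_id).add (hs.mul hl)

theorem nf_small {r : ℝ} (h : r ≤ 1 / 5) : nf r = r := by
  unfold nf nf0
  rw [if_pos (by linarith), stp_zero (by norm_num) h]
  ring

theorem NfP_nf0_mid {r : ℝ} (h : 3 / 10 ≤ r) : nf0 r = 1 / 2 + Real.log r / (2 * Real.pi) := by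
  unfold nf0
  rw [stp_one (by norm_num) h]
  ring

theorem nf_mid {r : ℝ} (h : 3 / 10 ≤ r) (h' : r ≤ 10 / 3) :
    nf r = 1 / 2 + Real.log r / (2 * Real.pi) := by
  unfold nf
  split_ifs with h1
  · exact NfP_nf0_mid h
  · rw [NfP_nf0_mid, one_div r, Real.log_inv]
    · ring
    · rw [div_le_div_iff₀ (by norm_num) (by linarith)]
      linarith

theorem nf_large {r : ℝ} (h : 5 ≤ r) : nf r = 1 - 1 / r := by
  unfold nf nf0
  rw [if_neg (by linarith), stp_zero (by norm_num)]
  · ring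
  · rw [div_le_div_iff₀ (by linarith) (by norm_num)]
    linarith

theorem NfP_ev1 {r : ℝ} (h : r < 1) : nf =ᶠ[𝓝 r] nf0 := by
  filter_upwards [Iio_mem_nhds h] with x hx
  unfold nf
  rw [if_pos (le_of_lt hx)]

theorem NfP_ev2 {r : ℝ} (h : 1 < r) : nf =ᶠ[𝓝 r] fun r => 1 - nf0 (1 / r) := by
  filter_upwards [Ioi_mem_nhds h] with x hx
  unfold nf
  rw [if_neg (not_le.2 hx)]

theorem NfP_ev3 : nf =ᶠ[𝓝 1] fun r => 1 / 2 + Real.log r / (2 * Real.pi) := by
  filter_upwards [Icc_mem_nhds (show (3 / 10 : ℝ) < 1 by norm_num) (show (1 : ℝ) < 10 / 3 by norm_num)]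
    with x hx
  exact nf_mid hx.1 hx.2

theorem nf_smooth {r : ℝ} (hr : 0 < r) : ContDiffAt ℝ ∞ nf r := by
  rcases lt_trichotomy r 1 with h | h | h
  · exact (NfP_nf0_smooth hr).congr_of_eventuallyEq (NfP_ev1 h)
  · subst h
    refine ContDiffAt.congr_of_eventuallyEq ?_ NfP_ev3
    apply contDiffAt_const.add
    exact (Real.contDiffAt_log.2 one_ne_zero).div_const _
  · refine ContDiffAt.congr_of_eventuallyEq ?_ (NfP_ev2 h)
    apply contDiffAt_const.sub
    have h1 : ContDiffAt ℝ ∞ (fun r : ℝ => 1 / r) r := by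
      simp only [one_div]
      exact contDiffAt_inv ℝ hr.ne'
    exact ContDiffAt.comp r (g := nf0) (f := fun r : ℝ => 1 / r)
      (NfP_nf0_smooth (by positivity)) h1

theorem nf_deriv_pos {r : ℝ} (hr : 0 < r) : 0 < deriv nf r := by
  rcases lt_trichotomy r 1 with h | h | h
  · obtain ⟨d, hd, h1⟩ := NfP_nf0_deriv hr
    rw [(NfP_ev1 h).deriv_eq, h1.deriv]
    exact hd
  · subst h
    rw [NfP_ev3.deriv_eq]
    have hl : HasDerivAt (fun r : ℝ => 1 / 2 + Real.log r / (2 * Real.pi))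
        ((1 : ℝ)⁻¹ / (2 * Real.pi)) 1 :=
      ((Real.hasDerivAt_log one_ne_zero).div_const _).const_add _
    rw [hl.deriv]
    positivity
  · obtain ⟨d, hd, h1⟩ := NfP_nf0_deriv (r := 1 / r) (by positivity)
    rw [(NfP_ev2 h).deriv_eq]
    have h2 : HasDerivAt (fun r : ℝ => 1 / r) (-(r ^ 2)⁻¹) r := by
      simp only [one_div]
      exact hasDerivAt_inv hr.ne'
    have h3 : HasDerivAt (fun r : ℝ => 1 - nf0 (1 / r)) (-(d * (-(r ^ 2)⁻¹))) r := by
      have := (HasDerivAt.comp r (h₂ := nf0) (h := fun r : ℝ => 1 / r) h1 h2).const_sub 1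
      exact this
    rw [h3.deriv]
    have : 0 < (r ^ 2)⁻¹ := by positivity
    nlinarith

theorem nf_strictMono : StrictMonoOn nf (Ioi 0) := by
  apply strictMonoOn_of_deriv_pos (convex_Ioi 0)
  · intro r hr
    exact (nf_smooth hr).continuousAt.continuousWithinAt
  · intro r hr
    rw [interior_Ioi] at hr
    exact nf_deriv_pos hr

theorem nf_mem {r : ℝ} (hr : 0 < r) : 0 < nf r ∧ nf r < 1 := by
  rcases le_or_gt r (1 / 5) with h | h
  · rw [nf_small h]
    constructor <;> linarith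
  · have h0 : (0 : ℝ) < 1 / 5 := by norm_num
    have h1 := nf_strictMono (show (1 / 5 : ℝ) ∈ Ioi 0 from h0) (show r ∈ Ioi 0 from hr) h
    rw [nf_small le_rfl] at h1
    refine ⟨by linarith, ?_⟩
    rcases le_or_gt 5 r with h' | h'
    · rw [nf_large h']
      have : 0 < 1 / r := by positivity
      linarith
    · have h2 := nf_strictMono (show r ∈ Ioi 0 from hr) (show (5 : ℝ) ∈ Ioi 0 from by norm_num) h'
      rw [nf_large le_rfl] at h2
      linarith

theorem NfP_wd0_pos {n : ℝ} (h : 0 < n) : 0 < wd0 n := by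
  unfold wd0
  have h3 := stp_nonneg (1 / 10) (1 / 5) n
  have h4 := stp_le_one (1 / 10) (1 / 5) n
  rcases h4.lt_or_eq with h5 | h5
  · have h6 : 0 < 1 - stp (1 / 10) (1 / 5) n := by linarith
    have := mul_pos h6 h
    linarith
  · rw [h5]
    norm_num

theorem wd_pos {n : ℝ} (h : 0 < n) (h' : n < 1) : 0 < wd n := by
  unfold wd
  split_ifs with h1
  · exact NfP_wd0_pos h
  · exact NfP_wd0_pos (by linarith)

theorem wd_small {n : ℝ} (h : n ≤ 1 / 10) : wd n = n := by
  unfold wd wd0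
  rw [if_pos (by linarith), stp_zero (by norm_num) h]
  ring

theorem wd_mid {n : ℝ} (h : 1 / 5 ≤ n) (h' : n ≤ 4 / 5) : wd n = 1 / 8 := by
  unfold wd wd0
  split_ifs with h1
  · rw [stp_one (by norm_num) h]
    ring
  · rw [stp_one (by norm_num) (by linarith)]
    ring

theorem wd_large {n : ℝ} (h : 9 / 10 ≤ n) : wd n = 1 - n := by
  unfold wd wd0
  rw [if_neg (by linarith), stp_zero (by norm_num) (by linarith)]
  ring

theorem NfP_wd0_le {n : ℝ} : wd0 n ≤ 1 / 5 := by
  unfold wd0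
  have h3 := stp_nonneg (1 / 10) (1 / 5) n
  have h4 := stp_le_one (1 / 10) (1 / 5) n
  rcases le_or_gt n (1 / 5) with h5 | h5
  · nlinarith
  · rw [stp_one (by norm_num) h5.le]
    norm_num

theorem wd_le {n : ℝ} (h : 0 < n) (h' : n < 1) : wd n ≤ 1 / 5 := by
  unfold wd
  split_ifs with h1
  · exact NfP_wd0_le
  · exact NfP_wd0_le

theorem NfP_wd0_smooth : ContDiff ℝ ∞ wd0 := by
  unfold wd0
  have hs : ContDiff ℝ ∞ (stp (1 / 10) (1 / 5)) := stp_smooth _ _
  exact ((contDiff_const.sub hs).mul contDiff_id).add (hs.div_const _)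

theorem wd_smooth : ContDiff ℝ ∞ wd := by
  rw [contDiff_iff_contDiffAt]
  intro n
  rcases lt_trichotomy n (1 / 2) with h | h | h
  · refine NfP_wd0_smooth.contDiffAt.congr_of_eventuallyEq ?_
    filter_upwards [Iio_mem_nhds h] with x hx
    unfold wd
    rw [if_pos (le_of_lt hx)]
  · refine (contDiffAt_const (c := (1 / 8 : ℝ))).congr_of_eventuallyEq ?_
    subst h
    filter_upwards [Icc_mem_nhds (show (1 / 5 : ℝ) < 1 / 2 by norm_num)
      (show (1 / 2 : ℝ) < 4 / 5 by norm_num)] with x hx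
    exact wd_mid hx.1 hx.2
  · have h2 : ContDiff ℝ ∞ (fun n : ℝ => wd0 (1 - n)) :=
      NfP_wd0_smooth.comp (contDiff_const.sub contDiff_id)
    refine h2.contDiffAt.congr_of_eventuallyEq ?_
    filter_upwards [Ioi_mem_nhds h] with x hx
    unfold wd
    rw [if_neg (not_le.2 hx)]

end Pool.Agent.CSG
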