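import Pool.Agent.CSG.LoopDefs
import Pool.Agent.CSG.FunBasic

/-!
# CSG/PathC: a path of linear maps fixing `e₀`

`C` is an integer matrix with first column `(1, 0, 0)` and determinant `1`:
`C = [[1, w], [0, G]]`, `G ∈ SL_2(Z)`.  We want a smooth path `B τ` (all real `τ`) of linear
isomorphisms fixing `e₀` with `B 0 = 1` and `B 1 = C⁻¹`.
`C⁻¹` is a product of real shears `z ↦ z + a z_j e_i` (`i ≠ j`, `j ≠ 0`); replace each parameter
`a` by `τ a`.
-/

open scoped ContDiff

namespace Pool.Agent.CSG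

/-- the shear `z ↦ z + a z_j e_i` -/
noncomputable def PathC_shr (i j : Fin 3) (hij : i ≠ j) (a : ℝ) : E3 ≃L[ℝ] E3 :=
  ContinuousLinearEquiv.equivOfInverse
    (ContinuousLinearMap.id ℝ E3 +
      a • (EuclideanSpace.proj j : E3 →L[ℝ] ℝ).smulRight (EuclideanSpace.single i (1 : ℝ)))
    (ContinuousLinearMap.id ℝ E3 +
      (-a) • (EuclideanSpace.proj j : E3 →L[ℝ] ℝ).smulRight (EuclideanSpace.single i (1 : ℝ)))
    (by
      intro z
      ext k
      by_cases hk : k = i
      · subst hk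
        simp [hij.symm]
      · simp [hk])
    (by
      intro z
      ext k
      by_cases hk : k = i
      · subst hk
        simp [hij.symm]
      · simp [hk])

theorem PathC_shr_apply (i j : Fin 3) (hij : i ≠ j) (a : ℝ) (z : E3) :
    PathC_shr i j hij a z = z + (a * z j) • EuclideanSpace.single i (1 : ℝ) := by
  simp [PathC_shr, ContinuousLinearEquiv.equivOfInverse_apply, smul_smul]

theorem PathC_shr_smooth (i j : Fin 3) (hij : i ≠ j) (a : ℝ) {f : ℝ × E3 → E3}
    (hf : ContDiff ℝ ∞ f) : ContDiff ℝ ∞ fun q => PathC_shr i j hij (q.1 * a) (f q) := by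
  simp only [PathC_shr_apply]
  have h1 : ContDiff ℝ ∞ fun q => f q j := by
    have h2 : (fun q => f q j) = fun q => (EuclideanSpace.proj j : E3 →L[ℝ] ℝ) (f q) := rfl
    rw [h2]
    exact (ContinuousLinearMap.contDiff _).comp hf
  exact hf.add (((contDiff_fst.mul contDiff_const).mul h1).smul contDiff_const)

theorem PathC_fact (a b c d : ℝ) (h : a * d - b * c = 1) :
    ∃ t x y z : ℝ, ∀ p q : ℝ, (p + z * q) + x * (q + y * (p + z * q)) = a * p + b * q ∧
      (q + y * (p + z * q)) + t * (a * p + b * q) = c * p + d * q := by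
  obtain ⟨t, ht⟩ : ∃ t : ℝ, c + t * a ≠ 0 := by
    by_cases hc : c = 0
    · refine ⟨1, ?_⟩
      intro h0
      rw [hc] at h h0
      have ha : a = 0 := by linarith
      rw [ha] at h
      simp at h
    · exact ⟨0, by simpa using hc⟩
  refine ⟨-t, (a - 1) / (c + t * a), c + t * a, (d + t * b - 1) / (c + t * a), ?_⟩
  intro p q
  set e := c + t * a with he
  have h1 : a * (d + t * b) - 1 = b * e := by rw [he]; linear_combination h
  constructor
  · field_simp
    linear_combination (q) * h1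
  · field_simp
    rw [he]
    ring

theorem exists_path {C : Matrix (Fin 3) (Fin 3) ℤ} (hC : C.det = 1) (h0 : C 0 0 = 1)
    (h1 : C 1 0 = 0) (h2 : C 2 0 = 0) :
    ∃ B : ℝ → E3 ≃L[ℝ] E3, (ContDiff ℝ ∞ fun q : ℝ × E3 => B q.1 q.2) ∧
      (∀ z, B 0 z = z) ∧ (∀ τ, B τ e₀ = e₀) ∧ (∀ z, act C (B 1 z) = z) := by
  have hdet : (C 1 1 : ℝ) * C 2 2 - C 1 2 * C 2 1 = 1 := by
    rw [Matrix.det_fin_three, h0, h1, h2] at hC
    have : C 1 1 * C 2 2 - C 1 2 * C 2 1 = 1 := by linarith
    exact_mod_cast this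
  obtain ⟨t, x, y, z, hf⟩ := PathC_fact (C 2 2) (-(C 1 2)) (-(C 2 1)) (C 1 1)
    (by linear_combination hdet)
  have n12 : (1 : Fin 3) ≠ 2 := by decide
  have n21 : (2 : Fin 3) ≠ 1 := by decide
  have n01 : (0 : Fin 3) ≠ 1 := by decide
  have n02 : (0 : Fin 3) ≠ 2 := by decide
  refine ⟨fun τ => (((((PathC_shr 1 2 n12 (τ * z)).trans (PathC_shr 2 1 n21 (τ * y))).trans
    (PathC_shr 1 2 n12 (τ * x))).trans (PathC_shr 2 1 n21 (τ * t))).trans
    (PathC_shr 0 1 n01 (τ * (-(C 0 1))))).trans (PathC_shr 0 2 n02 (τ * (-(C 0 2)))),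
    ?_, ?_, ?_, ?_⟩
  · simp only [ContinuousLinearEquiv.trans_apply]
    exact PathC_shr_smooth _ _ _ _ (PathC_shr_smooth _ _ _ _ (PathC_shr_smooth _ _ _ _
      (PathC_shr_smooth _ _ _ _ (PathC_shr_smooth _ _ _ _ (PathC_shr_smooth _ _ _ _
        contDiff_snd)))))
  · intro w
    simp [PathC_shr_apply]
  · intro τ
    simp [PathC_shr_apply, e₀, pt]
  · intro w
    obtain ⟨hf1, hf2⟩ := hf (w 1) (w 2)
    have hB : (((((PathC_shr 1 2 n12 (1 * z)).trans (PathC_shr 2 1 n21 (1 * y))).trans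
        (PathC_shr 1 2 n12 (1 * x))).trans (PathC_shr 2 1 n21 (1 * t))).trans
        (PathC_shr 0 1 n01 (1 * (-(C 0 1))))).trans (PathC_shr 0 2 n02 (1 * (-(C 0 2)))) w =
        pt (w 0 - C 0 1 * (C 2 2 * w 1 + -(C 1 2) * w 2) - C 0 2 * (-(C 2 1) * w 1 + C 1 1 * w 2))
          (C 2 2 * w 1 + -(C 1 2) * w 2) (-(C 2 1) * w 1 + C 1 1 * w 2) := by
      ext i
      fin_cases i
      · simp only [ContinuousLinearEquiv.trans_apply, PathC_shr_apply]
        simp only [Fin.zero_eta, Fin.isValue, PiLp.add_apply, PiLp.smul_apply, pt_zero',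
          PiLp.single_apply, smul_eq_mul]
        simp
        linear_combination (-(C 0 1 : ℝ)) * hf1 + (-(C 0 2 : ℝ)) * (hf2 + t * hf1)
      · simp only [ContinuousLinearEquiv.trans_apply, PathC_shr_apply]
        simp
        linear_combination hf1
      · simp only [ContinuousLinearEquiv.trans_apply, PathC_shr_apply]
        simp
        linear_combination hf2 + t * hf1
    rw [hB]
    ext i
    fin_cases i
    · simp [act, Fin.sum_univ_three, h0]
      ring
    · simp [act, Fin.sum_univ_three, h1]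
      linear_combination (w 1) * hdet
    · simp [act, Fin.sum_univ_three, h2]
      linear_combination (w 2) * hdet

end Pool.Agent.CSG
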