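import Pool.Agent.CSG.Ext

/-!
# CSG/Reparam: change of coordinates in the fibres

Given `S : Surg φ X` and a family `Ψ t` of bijections of `R^3` commuting with `Z^3`, fixing `0`,
with `φ (Ψ (t + 1) x) = Ψ t (φ₁ x)` for `-1/8 < t < 1/8`, and `P₁` with
`Ψ t (P₁ t z) = P t (c z)` for `‖z‖ < 1`, we get surgery data with monodromy `φ₁` and framing `P₁`:
apply `surg_of_period` to `G (x, t) = S.H (Ψ t x, t)` and `j₁ (y, v) = S.j (y, c v)`.

* `Ψ t x` is a lattice point iff `x` is (`Ψ t` is a bijection commuting with translations with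
  `Ψ t 0 = 0`).
* `G_mon`: `G (x, t+1) = H (Ψ (t+1) x, t+1) = H (φ (Ψ (t+1) x), t) = H (Ψ t (φ₁ x), t)`.
* `G_inj`: from `H_inj` and injectivity of `Ψ t`.
* `P_mon`: `Ψ t (φ₁ (P₁ (t+1) z)) = φ (Ψ (t+1) (P₁ (t+1) z)) = φ (P (t+1) (c z)) = P t (c z)
  = Ψ t (P₁ t z)`, then `Ψ t` injective.
* `cover`: a point `H (x, t)`, `0 ≤ t < 1`, is `G (Ψ_t⁻¹ x, t)`; a point `j (y, 0)` is `j₁ (y, 0)`.
  (Reduce a general `H (x, t)` to `0 ≤ t < 1` by `H_mon`.)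
-/

open scoped Manifold ContDiff Topology
open Set Filter

namespace Pool.Agent.CSG

section
variable {X : Type*} [TopologicalSpace X] [ChartedSpace E4 X]

theorem surg_reparam {A A₁ : Matrix (Fin 3) (Fin 3) ℤ} {φ φ₁ : Equiv.Perm E3}
    (hφ : Mono A φ) (hφ₁ : Mono A₁ φ₁) (S : Surg φ X)
    (Ψ : ℝ → Equiv.Perm E3)
    (Ψ_loc : ∀ x t, -(1 / 8) < t → t < 9 / 8 →
      IsLocalDiffeomorphAt 𝓘(ℝ, E3 × ℝ) 𝓘(ℝ, E3 × ℝ) ∞
        (fun q : E3 × ℝ => (Ψ q.2 q.1, q.2)) (x, t))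
    (Ψ_lat : ∀ x t m, -(1 / 8) < t → t < 9 / 8 → Ψ t (x + vec m) = Ψ t x + vec m)
    (Ψ_zero : ∀ t, -(1 / 8) < t → t < 9 / 8 → Ψ t 0 = 0)
    (Ψ_mon : ∀ x t, -(1 / 8) < t → t < 1 / 8 → φ (Ψ (t + 1) x) = Ψ t (φ₁ x))
    (P₁ : ℝ → E3 ≃L[ℝ] E3) (P₁_smooth : ContDiff ℝ ∞ fun q : ℝ × E3 => P₁ q.1 q.2)
    (c : ℝ) (hc : 0 < c) (hc1 : c ≤ 1)
    (hP₁ : ∀ t z, -(1 / 8) < t → t < 9 / 8 → ‖z‖ < 1 → Ψ t (P₁ t z) = S.P t (c • z)) :
    ∃ S₁ : Surg φ₁ X, S₁.P = P₁ := by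
  -- lattice points
  have hlat0 : ∀ t m, -(1 / 8) < t → t < 9 / 8 → Ψ t (vec m) = vec m := by
    intro t m h1 h2
    have := Ψ_lat 0 t m h1 h2
    rwa [zero_add, Ψ_zero t h1 h2, zero_add] at this
  have hlat : ∀ x t, -(1 / 8) < t → t < 9 / 8 → (IsLat (Ψ t x) ↔ IsLat x) := by
    intro x t h1 h2
    constructor
    · rintro ⟨m, hm⟩
      refine ⟨m, ?_⟩
      apply (Ψ t).injective
      rw [hm, hlat0 t m h1 h2]
    · rintro ⟨m, rfl⟩
      exact ⟨m, hlat0 t m h1 h2⟩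
  have hcz : ∀ z : E3, ‖z‖ < 1 → ‖c • z‖ < 1 := by
    intro z hz
    rw [norm_smul, Real.norm_eq_abs, abs_of_pos hc]
    nlinarith [norm_nonneg z]
  have hcv : ∀ v : ℂ, ‖v‖ < 1 → ‖(c : ℂ) * v‖ < 1 := by
    intro v hv
    rw [norm_mul, Complex.norm_real, Real.norm_eq_abs, abs_of_pos hc]
    nlinarith [norm_nonneg v]
  have hc0 : (c : ℂ) ≠ 0 := by exact_mod_cast hc.ne'
  suffices hs : ∃ S₁ : Surg φ₁ X, S₁.P = P₁ ∧ S₁.j = (fun q => S.j (q.1, (c : ℂ) * q.2)) ∧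
      ∀ x t, ¬ IsLat x → -(1 / 8) < t → t < 1 →
        S₁.H (x, t) = (fun q : E3 × ℝ => S.H (Ψ q.2 q.1, q.2)) (x, t) by
    obtain ⟨S₁, hS₁, -⟩ := hs
    exact ⟨S₁, hS₁⟩
  refine surg_of_period hφ₁ (fun q => S.H (Ψ q.2 q.1, q.2))
    (fun q => S.j (q.1, (c : ℂ) * q.2)) P₁ P₁_smooth ?_ ?_ ?_ ?_ ?_ ?_ ?_ ?_ ?_ ?_ ?_
  · -- P_mon
    intro t z h1 h2 hz
    apply (Ψ t).injective
    rw [← Ψ_mon _ t h1 h2, hP₁ (t + 1) z (by linarith) (by linarith) hz,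
      hP₁ t z h1 (by linarith) hz]
    exact S.P_mon t _ h1 h2 (hcz z hz)
  · -- P_avoid
    intro t z h1 h2 hz0 hz
    rw [← hlat _ t h1 h2, hP₁ t z h1 h2 hz]
    exact S.P_avoid t _ h1 h2 (smul_ne_zero hc.ne' hz0) (hcz z hz)
  · -- G_loc
    intro x t hx h1 h2
    have e1 := Ψ_loc x t h1 (by linarith)
    have e2 : IsLocalDiffeomorphAt 𝓘(ℝ, E3 × ℝ) (𝓡 4) ∞ S.H (Ψ t x, t) :=
      S.H_loc _ _ (by rwa [hlat x t h1 (by linarith)])
    exact e1.comp (𝓡 4) X e2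
  · -- G_per
    intro x t m hx h1 h2
    show S.H (Ψ t (x + vec m), t) = S.H (Ψ t x, t)
    rw [Ψ_lat x t m h1 (by linarith)]
    exact S.H_per _ _ _ (by rwa [hlat x t h1 (by linarith)])
  · -- G_mon
    intro x t hx h1 h2
    show S.H (Ψ t (φ₁ x), t) = S.H (Ψ (t + 1) x, t + 1)
    rw [← Ψ_mon x t h1 (by linarith)]
    exact S.H_mon _ _ (by rwa [hlat x (t + 1) (by linarith) (by linarith)])
  · -- G_inj
    intro x y s t hx hy hs0 hs1 ht0 ht1 h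
    have h' : S.H (Ψ s x, s) = S.H (Ψ t y, t) := h
    obtain ⟨hst, m, hm⟩ := S.H_inj _ _ s t (by rwa [hlat x s (by linarith) (by linarith)])
      (by rwa [hlat y t (by linarith) (by linarith)]) hs0 hs1 ht0 ht1 h'
    refine ⟨hst, m, ?_⟩
    subst hst
    rw [← Ψ_lat x s m (by linarith) (by linarith)] at hm
    exact (Ψ s).injective hm
  · -- j_loc
    intro y v hv
    have e1 : IsLocalDiffeomorphAt ((𝓡 2).prod 𝓘(ℝ, ℂ)) ((𝓡 2).prod 𝓘(ℝ, ℂ)) ∞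
        (fun q : S2 × ℂ => (q.1, (c : ℂ) * q.2)) (y, v) := by
      let D : Diffeomorph ((𝓡 2).prod 𝓘(ℝ, ℂ)) ((𝓡 2).prod 𝓘(ℝ, ℂ)) (S2 × ℂ) (S2 × ℂ) ∞ :=
        { toFun := fun q => (q.1, (c : ℂ) * q.2)
          invFun := fun q => (q.1, (c : ℂ)⁻¹ * q.2)
          left_inv := fun q => by
            ext
            · rfl
            · show (c : ℂ)⁻¹ * ((c : ℂ) * q.2) = q.2
              field_simp
          right_inv := fun q => by
            ext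
            · rfl
            · show (c : ℂ) * ((c : ℂ)⁻¹ * q.2) = q.2
              field_simp
          contMDiff_toFun := by
            apply ContMDiff.prodMk contMDiff_fst
            have h1 : ContMDiff 𝓘(ℝ, ℂ) 𝓘(ℝ, ℂ) ∞ (fun z : ℂ => (c : ℂ) * z) :=
              (contDiff_const.mul contDiff_id).contMDiff
            exact h1.comp contMDiff_snd
          contMDiff_invFun := by
            apply ContMDiff.prodMk contMDiff_fst
            have h1 : ContMDiff 𝓘(ℝ, ℂ) 𝓘(ℝ, ℂ) ∞ (fun z : ℂ => (c : ℂ)⁻¹ * z) :=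
              (contDiff_const.mul contDiff_id).contMDiff
            exact h1.comp contMDiff_snd }
      exact D.isLocalDiffeomorph (y, v)
    have e2 : IsLocalDiffeomorphAt ((𝓡 2).prod 𝓘(ℝ, ℂ)) (𝓡 4) ∞ S.j (y, (c : ℂ) * v) :=
      S.j_loc _ _ (hcv v hv)
    exact e1.comp (𝓡 4) X e2
  · -- j_inj
    intro y y' v v' hv hv' h
    obtain ⟨h1, h2⟩ := S.j_inj y y' _ _ (hcv v hv) (hcv v' hv') h
    exact ⟨h1, mul_left_cancel₀ hc0 h2⟩
  · -- glue
    intro t r y h1 h2 hr0 hr1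
    have hy1 : ‖(y : E3)‖ = 1 := by
      have := y.2
      rwa [mem_sphere_zero_iff_norm] at this
    have hnorm : ‖r • (y : E3)‖ < 1 := by
      rw [norm_smul, hy1, Real.norm_eq_abs, abs_of_pos hr0]
      linarith
    show S.j (y, (c : ℂ) * (r * Complex.exp (2 * Real.pi * t * Complex.I))) =
      S.H (Ψ t (P₁ t (r • (y : E3))), t)
    rw [hP₁ t _ h1 (by linarith) hnorm, smul_smul]
    have h3 := S.glue t (c * r) y h1 (by linarith) (mul_pos hc hr0) (by nlinarith)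
    rw [← h3]
    congr 2
    push_cast
    ring
  · -- disj
    intro y x t hx ht0 ht1
    show S.j (y, (c : ℂ) * 0) ≠ S.H (Ψ t x, t)
    rw [mul_zero]
    exact S.disj y _ t (by rwa [hlat x t (by linarith) (by linarith)])
  · -- cover
    intro p
    have hlatk : ∀ (k : ℤ) (x : E3), IsLat ((φ ^ k) x) ↔ IsLat x := by
      intro k x
      obtain ⟨B, hB⟩ := hφ.zpow k
      exact hB.isLat x
    -- the monodromy
    have hmonN : ∀ (n : ℕ) (x : E3) (t : ℝ), ¬ IsLat x → S.H ((φ ^ n) x, t) = S.H (x, t + n) := by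
      intro n
      induction n with
      | zero => intro x t _; simp
      | succ n ih =>
        intro x t hx
        have h1 : (φ ^ (n + 1)) x = φ ((φ ^ n) x) := by
          rw [pow_succ', Equiv.Perm.mul_apply]
        have h2 : ¬ IsLat ((φ ^ n) x) := by
          have := hlatk n x
          rw [zpow_natCast] at this
          rwa [this]
        rw [h1, S.H_mon _ _ h2, ih x (t + 1) hx]
        congr 2
        push_cast
        ring
    have hmon : ∀ (k : ℤ) (x : E3) (t : ℝ), ¬ IsLat x → S.H ((φ ^ k) x, t) = S.H (x, t + k) := by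
      intro k x t hx
      obtain ⟨n, rfl | rfl⟩ := Int.eq_nat_or_neg k
      · rw [zpow_natCast, hmonN n x t hx]
        push_cast
        rfl
      · have h2 : ¬ IsLat ((φ ^ (-(n : ℤ))) x) := by rwa [hlatk]
        have h1 := hmonN n ((φ ^ (-(n : ℤ))) x) (t - n) h2
        have h3 : (φ ^ n) ((φ ^ (-(n : ℤ))) x) = x := by
          rw [← Equiv.Perm.mul_apply, ← zpow_natCast, ← zpow_add]
          simp
        rw [h3, sub_add_cancel] at h1
        rw [← h1]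
        congr 2
        push_cast
        ring
    rcases S.cover p with ⟨y, hy⟩ | ⟨x, t, hx, hp⟩
    · left
      refine ⟨y, ?_⟩
      rw [hy]
      show S.j (y, 0) = S.j (y, (c : ℂ) * 0)
      rw [mul_zero]
    · right
      have f1 := Int.floor_le t
      have f2 := Int.lt_floor_add_one t
      have g1 : -(1 / 8) < t - ⌊t⌋ := by linarith
      have g2 : t - ⌊t⌋ < 9 / 8 := by linarith
      refine ⟨(Ψ (t - ⌊t⌋)).symm ((φ ^ ⌊t⌋) x), t - ⌊t⌋, ?_, by linarith, by linarith, ?_⟩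
      · rw [← hlat _ (t - ⌊t⌋) g1 g2, Equiv.apply_symm_apply, hlatk]
        exact hx
      · show p = S.H (Ψ (t - ⌊t⌋) ((Ψ (t - ⌊t⌋)).symm ((φ ^ ⌊t⌋) x)), t - ⌊t⌋)
        rw [Equiv.apply_symm_apply, hmon _ _ _ hx, sub_add_cancel]
        exact hp

end

/-- Isotopies of `T^3` rel `0`, linear near `0`. -/
structure Isot where
  ψ : ℝ → Equiv.Perm E3
  smooth : ContDiff ℝ ∞ fun q : E3 × ℝ => ψ q.2 q.1
  smooth_symm : ContDiff ℝ ∞ fun q : E3 × ℝ => (ψ q.2).symm q.1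
  lat : ∀ t x m, ψ t (x + vec m) = ψ t x + vec m
  start : ∀ t, t ≤ 1 / 4 → ψ t = 1
  stop : ∀ t, 3 / 4 ≤ t → ψ t = ψ 1
  lin : ∃ ε > 0, ∃ L : ℝ → E3 ≃L[ℝ] E3, (ContDiff ℝ ∞ fun q : ℝ × E3 => L q.1 q.2) ∧
    ∀ t x, ‖x‖ < ε → ψ t x = L t x

end Pool.Agent.CSG
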