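import Pool.Agent.CSG.EDef
import Pool.Agent.CSG.FunBasic

/-!
# CSG/RotP: quaternionic rotations

`rot α β (x, z) = ((|α|² - β²) x - 2β Re (α z), α² z - β² z̄ + 2βxα)`.  All identities are polynomial
identities in the real and imaginary parts.  `rot_norm`:
`x'² + |z'|² = (|α|² + β²)² (x² + |z|²)`.  `rot_inv`: `rot ᾱ (-β) (rot α β v) = (|α|² + β²)² v`.
-/

open scoped ContDiff Topology
open Complex (I)
open Set Filter

namespace Pool.Agent.CSG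

theorem rot_norm {α : ℂ} {β : ℝ} (h : ‖α‖ ^ 2 + β ^ 2 = 1) (v : ℝ × ℂ) :
    (rot α β v).1 ^ 2 + ‖(rot α β v).2‖ ^ 2 = v.1 ^ 2 + ‖v.2‖ ^ 2 := by
  obtain ⟨x, z⟩ := v
  obtain ⟨a, b⟩ := α
  obtain ⟨p, q⟩ := z
  have hA : ‖(⟨a, b⟩ : ℂ)‖ ^ 2 = a ^ 2 + b ^ 2 := by
    rw [← Complex.normSq_eq_norm_sq, Complex.normSq_mk]; ring
  rw [hA] at h
  simp only [rot, hA, ← Complex.normSq_eq_norm_sq, Complex.normSq_apply]
  simp only [pow_two, Complex.add_re, Complex.sub_re, Complex.mul_re, Complex.add_im, Complex.sub_im,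
    Complex.mul_im, Complex.conj_re, Complex.conj_im, Complex.ofReal_re, Complex.ofReal_im,
    Complex.re_ofNat, Complex.im_ofNat]
  linear_combination (x ^ 2 + p ^ 2 + q ^ 2) * (a ^ 2 + b ^ 2 + β ^ 2 + 1) * h

theorem rot_inv {α : ℂ} {β : ℝ} (h : ‖α‖ ^ 2 + β ^ 2 = 1) (v : ℝ × ℂ) :
    rot ((starRingEnd ℂ) α) (-β) (rot α β v) = v := by
  obtain ⟨x, z⟩ := v
  obtain ⟨a, b⟩ := α
  obtain ⟨p, q⟩ := z
  have hA : ‖(⟨a, b⟩ : ℂ)‖ ^ 2 = a ^ 2 + b ^ 2 := by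
    rw [← Complex.normSq_eq_norm_sq, Complex.normSq_mk]; ring
  have hB : ‖(starRingEnd ℂ) (⟨a, b⟩ : ℂ)‖ ^ 2 = a ^ 2 + b ^ 2 := by
    rw [RCLike.norm_conj, hA]
  rw [hA] at h
  simp only [rot, hA, hB]
  refine Prod.ext ?_ (Complex.ext ?_ ?_)
  · simp only [pow_two, Complex.add_re, Complex.sub_re, Complex.mul_re, Complex.add_im, Complex.sub_im,
      Complex.mul_im, Complex.conj_re, Complex.conj_im, Complex.ofReal_re, Complex.ofReal_im,
      Complex.re_ofNat, Complex.im_ofNat, Complex.ofReal_neg, Complex.neg_re, Complex.neg_im]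
    linear_combination x * (a ^ 2 + b ^ 2 + β ^ 2 + 1) * h
  · simp only [pow_two, Complex.add_re, Complex.sub_re, Complex.mul_re, Complex.add_im, Complex.sub_im,
      Complex.mul_im, Complex.conj_re, Complex.conj_im, Complex.ofReal_re, Complex.ofReal_im,
      Complex.re_ofNat, Complex.im_ofNat, Complex.ofReal_neg, Complex.neg_re, Complex.neg_im]
    linear_combination p * (a ^ 2 + b ^ 2 + β ^ 2 + 1) * h
  · simp only [pow_two, Complex.add_re, Complex.sub_re, Complex.mul_re, Complex.add_im, Complex.sub_im,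
      Complex.mul_im, Complex.conj_re, Complex.conj_im, Complex.ofReal_re, Complex.ofReal_im,
      Complex.re_ofNat, Complex.im_ofNat, Complex.ofReal_neg, Complex.neg_re, Complex.neg_im]
    linear_combination q * (a ^ 2 + b ^ 2 + β ^ 2 + 1) * h

theorem rot_inv' {α : ℂ} {β : ℝ} (h : ‖α‖ ^ 2 + β ^ 2 = 1) (v : ℝ × ℂ) :
    rot α β (rot ((starRingEnd ℂ) α) (-β) v) = v := by
  have h2 : ‖(starRingEnd ℂ) α‖ ^ 2 + (-β) ^ 2 = 1 := by
    rw [RCLike.norm_conj]; linarith [h, neg_sq β]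
  have := rot_inv h2 v
  rwa [Complex.conj_conj, neg_neg] at this

theorem rot_zero (α : ℂ) (h : ‖α‖ = 1) (v : ℝ × ℂ) : rot α 0 v = (v.1, α ^ 2 * v.2) := by
  simp [rot, h]

theorem rot_one (v : ℝ × ℂ) : rot 1 0 v = v := by
  simp [rot]

theorem rot_smooth : ContDiff ℝ ∞ fun q : ℂ × ℝ × (ℝ × ℂ) => rot q.1 q.2.1 q.2.2 := by
  unfold rot
  have e1 : ContDiff ℝ ∞ fun q : ℂ × ℝ × (ℝ × ℂ) => ‖q.1‖ ^ 2 := contDiff_fst.norm_sq ℝ
  have e2 : ContDiff ℝ ∞ fun q : ℂ × ℝ × (ℝ × ℂ) => q.2.1 := contDiff_fst.comp contDiff_snd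
  have e3 : ContDiff ℝ ∞ fun q : ℂ × ℝ × (ℝ × ℂ) => q.2.2.1 :=
    contDiff_fst.comp (contDiff_snd.comp contDiff_snd)
  have e4 : ContDiff ℝ ∞ fun q : ℂ × ℝ × (ℝ × ℂ) => q.2.2.2 :=
    contDiff_snd.comp (contDiff_snd.comp contDiff_snd)
  have e5 : ContDiff ℝ ∞ fun q : ℂ × ℝ × (ℝ × ℂ) => q.1 := contDiff_fst
  have e6 : ContDiff ℝ ∞ fun q : ℂ × ℝ × (ℝ × ℂ) => (q.1 * q.2.2.2).re :=
    Complex.reCLM.contDiff.comp (e5.mul e4)
  have e7 : ContDiff ℝ ∞ fun q : ℂ × ℝ × (ℝ × ℂ) => (q.2.1 : ℂ) :=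
    Complex.ofRealCLM.contDiff.comp e2
  have e8 : ContDiff ℝ ∞ fun q : ℂ × ℝ × (ℝ × ℂ) => (q.2.2.1 : ℂ) :=
    Complex.ofRealCLM.contDiff.comp e3
  have e9 : ContDiff ℝ ∞ fun q : ℂ × ℝ × (ℝ × ℂ) => (starRingEnd ℂ) q.2.2.2 :=
    Complex.conjCLE.contDiff.comp e4
  refine ContDiff.prodMk ?_ ?_
  · exact ((e1.sub (e2.pow 2)).mul e3).sub ((contDiff_const.mul e2).mul e6)
  · exact (((e5.pow 2).mul e4).sub ((e7.pow 2).mul e9)).add
      (((contDiff_const.mul e7).mul e8).mul e5)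

theorem q_norm (θ τ : ℝ) : ‖qa θ τ‖ ^ 2 + qb θ τ ^ 2 = 1 := by
  have h1 : Real.sin τ ^ 2 = 1 - Real.cos τ ^ 2 := Real.sin_sq τ
  have h2 : Real.sin θ ^ 2 = 1 - Real.cos θ ^ 2 := Real.sin_sq θ
  rw [← Complex.normSq_eq_norm_sq, Complex.normSq_apply]
  simp only [qa, qb]
  simp only [Complex.sub_re, Complex.sub_im, Complex.mul_re, Complex.mul_im, Complex.ofReal_re,
    Complex.ofReal_im, Complex.I_re, Complex.I_im]
  have e : ∀ s c u v : ℝ, s ^ 2 = 1 - c ^ 2 → v ^ 2 = 1 - u ^ 2 →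
      (s ^ 2 + c ^ 2 * u) * (s ^ 2 + c ^ 2 * u) + (c * v) * (c * v) + (s * c * (1 - u)) ^ 2 = 1 := by
    intro s c u v h1 h2
    have e1 : (c * v) * (c * v) = c ^ 2 * (1 - u ^ 2) := by rw [← h2]; ring
    have e2 : (s * c * (1 - u)) ^ 2 = (1 - c ^ 2) * c ^ 2 * (1 - u) ^ 2 := by rw [← h1]; ring
    rw [e1, e2, h1]; ring
  have := e (Real.sin τ) (Real.cos τ) (Real.cos θ) (Real.sin θ) h1 h2
  linarith [this]

theorem qa_smooth : ContDiff ℝ ∞ fun q : ℝ × ℝ => qa q.1 q.2 := by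
  unfold qa
  have e1 : ContDiff ℝ ∞ fun q : ℝ × ℝ => Real.sin q.2 := Real.contDiff_sin.comp contDiff_snd
  have e2 : ContDiff ℝ ∞ fun q : ℝ × ℝ => Real.cos q.2 := Real.contDiff_cos.comp contDiff_snd
  have e3 : ContDiff ℝ ∞ fun q : ℝ × ℝ => Real.sin q.1 := Real.contDiff_sin.comp contDiff_fst
  have e4 : ContDiff ℝ ∞ fun q : ℝ × ℝ => Real.cos q.1 := Real.contDiff_cos.comp contDiff_fst
  refine ContDiff.sub (Complex.ofRealCLM.contDiff.comp ((e1.pow 2).add ((e2.pow 2).mul e4))) ?_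
  exact (Complex.ofRealCLM.contDiff.comp (e2.mul e3)).mul contDiff_const

theorem qb_smooth : ContDiff ℝ ∞ fun q : ℝ × ℝ => qb q.1 q.2 := by
  unfold qb
  have e1 : ContDiff ℝ ∞ fun q : ℝ × ℝ => Real.sin q.2 := Real.contDiff_sin.comp contDiff_snd
  have e2 : ContDiff ℝ ∞ fun q : ℝ × ℝ => Real.cos q.2 := Real.contDiff_cos.comp contDiff_snd
  have e4 : ContDiff ℝ ∞ fun q : ℝ × ℝ => Real.cos q.1 := Real.contDiff_cos.comp contDiff_fst
  exact (e1.mul e2).mul (contDiff_const.sub e4)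

theorem qa_zero (θ : ℝ) : qa θ 0 = Complex.exp (-(θ : ℂ) * I) := by
  have e : Complex.exp (-(θ : ℂ) * I) = ⟨Real.cos θ, -Real.sin θ⟩ := by
    have : (-(θ : ℂ) * I) = ((-θ : ℝ) : ℂ) * I := by push_cast; ring
    rw [this]
    refine Complex.ext ?_ ?_
    · rw [Complex.exp_ofReal_mul_I_re, Real.cos_neg]
    · rw [Complex.exp_ofReal_mul_I_im, Real.sin_neg]
  rw [e]
  refine Complex.ext ?_ ?_ <;>
  · simp only [qa, Real.sin_zero, Real.cos_zero, Complex.sub_re, Complex.sub_im, Complex.mul_re,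
      Complex.mul_im, Complex.ofReal_re, Complex.ofReal_im, Complex.I_re, Complex.I_im]
    ring

theorem qb_zero (θ : ℝ) : qb θ 0 = 0 := by
  simp [qb]

theorem qa_half (θ : ℝ) : qa θ (Real.pi / 2) = 1 := by
  simp [qa]

theorem qb_half (θ : ℝ) : qb θ (Real.pi / 2) = 0 := by
  simp [qb]

theorem qa_per (θ τ : ℝ) (m : ℤ) : qa (θ + 2 * Real.pi * m) τ = qa θ τ := by
  have e1 : Real.cos (θ + 2 * Real.pi * m) = Real.cos θ := by
    rw [show θ + 2 * Real.pi * m = θ + m * (2 * Real.pi) by ring, Real.cos_add_int_mul_two_pi]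
  have e2 : Real.sin (θ + 2 * Real.pi * m) = Real.sin θ := by
    rw [show θ + 2 * Real.pi * m = θ + m * (2 * Real.pi) by ring, Real.sin_add_int_mul_two_pi]
  simp only [qa, e1, e2]

theorem qb_per (θ τ : ℝ) (m : ℤ) : qb (θ + 2 * Real.pi * m) τ = qb θ τ := by
  have e1 : Real.cos (θ + 2 * Real.pi * m) = Real.cos θ := by
    rw [show θ + 2 * Real.pi * m = θ + m * (2 * Real.pi) by ring, Real.cos_add_int_mul_two_pi]
  simp only [qb, e1]

theorem qa_int (τ : ℝ) (m : ℤ) : qa (2 * Real.pi * m) τ = 1 := by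
  have := qa_per 0 τ m
  rw [zero_add] at this
  rw [this]
  simp only [qa, Real.sin_zero, Real.cos_zero, mul_one, mul_zero, Real.sin_sq_add_cos_sq]
  simp

theorem qb_int (τ : ℝ) (m : ℤ) : qb (2 * Real.pi * m) τ = 0 := by
  have := qb_per 0 τ m
  rw [zero_add] at this
  rw [this]
  simp [qb]

end Pool.Agent.CSG
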