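import Pool.Agent.CSG.Defs

/-!
# Surgery data with a general monodromy

`Surg A φ X`: as `CSData`, but the monodromy is a diffeomorphism `φ` of `R^3` with
`φ (x + m) = φ x + A m`, `φ 0 = 0`; the framing is only used for `-1/8 < t < 9/8`.
-/

open scoped Manifold ContDiff

namespace Pool.Agent.CSG

/-- The point with coordinates `n, u, y`. -/
noncomputable def pt (n u y : ℝ) : E3 := WithLp.toLp 2 ![n, u, y]

@[simp] theorem pt_zero' (n u y : ℝ) : pt n u y 0 = n := by simp [pt]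
@[simp] theorem pt_one' (n u y : ℝ) : pt n u y 1 = u := by simp [pt]
@[simp] theorem pt_two' (n u y : ℝ) : pt n u y 2 = y := by simp [pt]

theorem pt_eta (x : E3) : pt (x 0) (x 1) (x 2) = x := by
  ext i; fin_cases i <;> simp [pt]

/-- Admissible monodromies covering the automorphism `A` of `Z^3`. -/
structure Mono (A : Matrix (Fin 3) (Fin 3) ℤ) (φ : Equiv.Perm E3) : Prop where
  smooth : ContDiff ℝ ∞ φ
  smooth_symm : ContDiff ℝ ∞ φ.symm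
  lat : ∀ x m, φ (x + vec m) = φ x + vec (A.mulVec m)
  zero : φ 0 = 0
  unit : IsUnit A.det

/-- Surgery data with monodromy `φ`. -/
structure Surg (φ : Equiv.Perm E3) (X : Type*) [TopologicalSpace X]
    [ChartedSpace E4 X] where
  H : E3 × ℝ → X
  j : S2 × ℂ → X
  P : ℝ → E3 ≃L[ℝ] E3
  P_smooth : ContDiff ℝ ∞ fun q : ℝ × E3 => P q.1 q.2
  P_mon : ∀ t z, -(1 / 8) < t → t < 1 / 8 → ‖z‖ < 1 → φ (P (t + 1) z) = P t z
  P_avoid : ∀ t z, -(1 / 8) < t → t < 9 / 8 → z ≠ 0 → ‖z‖ < 1 → ¬ IsLat (P t z)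
  H_loc : ∀ x t, ¬ IsLat x → IsLocalDiffeomorphAt 𝓘(ℝ, E3 × ℝ) (𝓡 4) ∞ H (x, t)
  H_per : ∀ x t m, ¬ IsLat x → H (x + vec m, t) = H (x, t)
  H_mon : ∀ x t, ¬ IsLat x → H (φ x, t) = H (x, t + 1)
  H_inj : ∀ x y s t, ¬ IsLat x → ¬ IsLat y → 0 ≤ s → s < 1 → 0 ≤ t → t < 1 →
    H (x, s) = H (y, t) → s = t ∧ ∃ m, y = x + vec m
  j_loc : ∀ y v, ‖v‖ < 1 →
    IsLocalDiffeomorphAt ((𝓡 2).prod 𝓘(ℝ, ℂ)) (𝓡 4) ∞ j (y, v)
  j_inj : ∀ y y' v v', ‖v‖ < 1 → ‖v'‖ < 1 → j (y, v) = j (y', v') → y = y' ∧ v = v'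
  glue : ∀ (t r : ℝ) (y : S2), -(1 / 8) < t → t < 9 / 8 → 0 < r → r < 1 →
    j (y, r * Complex.exp (2 * Real.pi * t * Complex.I)) = H (P t (r • (y : E3)), t)
  disj : ∀ y x t, ¬ IsLat x → j (y, 0) ≠ H (x, t)
  cover : ∀ p : X, (∃ y, p = j (y, 0)) ∨ ∃ x t, ¬ IsLat x ∧ p = H (x, t)

end Pool.Agent.CSG
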