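import Pool.Agent.CSG.NfP
import Pool.Agent.CSG.FFp

/-!
# CSG/XiA: the coordinate `ξ` of the disc

`xi p = (p̄ + 1) / (p̄ - 1)` is injective on `p ≠ 1`, nonzero for `p ≠ -1`, and never `1`.
`ξ = |ξ| exp (i arg ξ)`, `arg ξ ∈ (-π, π]`, so `pm p = 1/2 + arg ξ / 2π ∈ (0, 1]`, and `ξ` is
determined by `py p = nf |ξ|` (`nf` is injective on `(0, ∞)`) and `pm p`.

`NP_p`: if `pm p = 1/2` and `fract (py p) = 1/2` then `arg ξ = 0`, `nf |ξ| = 1/2 = nf 1`, `ξ = 1`.

`far`: for `|p| ≥ 9`, `ξ - 1 = 2 / (p̄ - 1)` has absolute value `≤ 1/4`, so `3/4 ≤ |ξ| ≤ 5/4`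
and `nf |ξ| = 1/2 + log |ξ| / 2π`, hence `log ξ = 2π ((py - 1/2) + i (pm - 1/2))`.
`|log ξ| ≤ |ξ-1| / (1 - |ξ-1|) ≤ 1/3`-type bounds are not enough for `1/20` (need `|log ξ| < 0.314`);
use `log ξ = 2 artanh (1/p̄)`: e.g. `|log (1+z)| ≤ |z| (1 + |z|)`-type bound from Mathlib's
`Complex.norm_log_one_add_sub_self_le`: `‖log (1+z) - z‖ ≤ ‖z‖^2 (1-‖z‖)⁻¹ / 2`; with `|z| ≤ 1/4`
this is `1/24`, so `|log ξ| ≤ 1/4 + 1/24 = 0.2917 < 0.3141 = 2π/20`.

`FF`: with `a = 2π (py - 1/2)`, `b = 2π (pm - 1/2)`, `w = a + i b = log ξ`: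
`FF = sin b - i sinh a` (`FF_mid`) and
`1/p̄ = (ξ - 1)/(ξ + 1) = tanh (w/2) = (sinh a + i sin b)/(cosh a + cos b)`,
so `-i p / |p|^2 = -i / p̄ = (sin b - i sinh a)/(cosh a + cos b)`; `cosh a + cos b > 0`.
-/

open scoped ContDiff Topology
open Complex (I)
open Set Filter

namespace Pool.Agent.CSG

theorem XiA_conj_ne {p : ℂ} (h' : p ≠ 1) : (starRingEnd ℂ) p - 1 ≠ 0 := by
  intro h
  apply h'
  have h1 : (starRingEnd ℂ) p = 1 := by linear_combination h
  have h2 := congrArg (starRingEnd ℂ) h1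
  simpa using h2

theorem XiA_conj_ne' {p : ℂ} (h' : p ≠ -1) : (starRingEnd ℂ) p + 1 ≠ 0 := by
  intro h
  apply h'
  have h1 : (starRingEnd ℂ) p = -1 := by linear_combination h
  have h2 := congrArg (starRingEnd ℂ) h1
  simpa using h2

theorem xi_ne_zero {p : ℂ} (h : p ≠ -1) (h' : p ≠ 1) : xi p ≠ 0 :=
  div_ne_zero (XiA_conj_ne' h) (XiA_conj_ne h')

theorem xi_ne_one (p : ℂ) : xi p ≠ 1 := by
  by_cases h : p = 1
  · subst h
    simp [xi]
  · intro h1
    rw [xi, div_eq_one_iff_eq (XiA_conj_ne h)] at h1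
    have h2 : (2 : ℂ) = 0 := by linear_combination h1
    norm_num at h2

theorem xi_inj {p p' : ℂ} (h : p ≠ 1) (h' : p' ≠ 1) (he : xi p = xi p') : p = p' := by
  rw [xi, xi, div_eq_div_iff (XiA_conj_ne h) (XiA_conj_ne h')] at he
  have h1 : (starRingEnd ℂ) p = (starRingEnd ℂ) p' := by linear_combination (-1 / 2) * he
  exact (starRingEnd ℂ).injective h1

/-- `xi` is surjective onto `ξ ≠ 1`, with inverse `p̄ = (ξ + 1) / (ξ - 1)`. -/
theorem xi_inv {w : ℂ} (h : w ≠ 1) :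
    xi ((starRingEnd ℂ) ((w + 1) / (w - 1))) = w := by
  have h1 : w - 1 ≠ 0 := sub_ne_zero.mpr h
  rw [xi, Complex.conj_conj]
  have h2 : (w + 1) / (w - 1) - 1 = 2 / (w - 1) := by
    field_simp
    ring
  have h3 : (w + 1) / (w - 1) + 1 = (2 * w) / (w - 1) := by
    field_simp
    ring
  rw [h2, h3, div_div_div_cancel_right₀ h1]
  field_simp

theorem pm_mem (p : ℂ) : 0 < pm p ∧ pm p ≤ 1 := by
  have h1 := Complex.neg_pi_lt_arg (xi p)
  have h2 := Complex.arg_le_pi (xi p)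
  have hpi := Real.pi_pos
  have h3 : -(1 / 2) < Complex.arg (xi p) / (2 * Real.pi) := by
    rw [lt_div_iff₀ (by positivity)]
    linarith
  have h4 : Complex.arg (xi p) / (2 * Real.pi) ≤ 1 / 2 := by
    rw [div_le_iff₀ (by positivity)]
    linarith
  unfold pm
  constructor <;> linarith

theorem py_mem {p : ℂ} (h : p ≠ -1) (h' : p ≠ 1) : 0 < py p ∧ py p < 1 :=
  nf_mem (norm_pos_iff.mpr (xi_ne_zero h h'))

theorem py_pm_inj {p p' : ℂ} (h1 : p ≠ -1) (h2 : p ≠ 1) (h3 : p' ≠ -1) (h4 : p' ≠ 1)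
    (hy : py p = py p') (hm : pm p = pm p') : p = p' := by
  have e1 : ‖xi p‖ = ‖xi p'‖ :=
    nf_strictMono.injOn (norm_pos_iff.mpr (xi_ne_zero h1 h2))
      (norm_pos_iff.mpr (xi_ne_zero h3 h4)) hy
  have e2 : Complex.arg (xi p) = Complex.arg (xi p') := by
    have hpi := Real.pi_pos
    unfold pm at hm
    have h5 : Complex.arg (xi p) / (2 * Real.pi) = Complex.arg (xi p') / (2 * Real.pi) := by
      linarith
    have h6 : (2 * Real.pi) ≠ 0 := by positivity
    field_simp at h5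
    exact h5
  exact xi_inj h2 h4 (Complex.ext_norm_arg e1 e2)

theorem NP_p {p : ℂ} (h : p ≠ -1) (h' : p ≠ 1) : NP (py p) (pm p) := by
  rintro ⟨h1, h2⟩
  have hpi := Real.pi_pos
  have hm := py_mem h h'
  rw [Int.fract_eq_self.mpr ⟨hm.1.le, hm.2⟩] at h2
  have h3 : nf 1 = 1 / 2 := by
    rw [nf_mid (by norm_num) (by norm_num)]
    simp
  have h4 : ‖xi p‖ = 1 :=
    nf_strictMono.injOn (norm_pos_iff.mpr (xi_ne_zero h h')) (mem_Ioi.mpr one_pos)
      (by rw [h3]; exact h2)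
  have h5 : Complex.arg (xi p) = 0 := by
    unfold pm at h1
    have h6 : Complex.arg (xi p) / (2 * Real.pi) = 0 := by linarith
    rcases div_eq_zero_iff.mp h6 with h7 | h7
    · exact h7
    · exact absurd h7 (by positivity)
  have h6 : xi p = 1 := by
    apply Complex.ext_norm_arg
    · rw [h4]; simp
    · rw [h5]; simp
  exact xi_ne_one p h6

/-- everything about the region `|p| ≥ 9` -/
theorem far {p : ℂ} (h : 9 ≤ ‖p‖) : |py p - 1 / 2| < 1 / 20 ∧ |pm p - 1 / 2| < 1 / 20 ∧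
    xi p = Complex.exp (2 * Real.pi * ((py p - 1 / 2 : ℝ) + (pm p - 1 / 2 : ℝ) * I)) ∧
    ∃ c : ℝ, 0 < c ∧ FF (py p) (pm p) = c * (-I * p) := by
  have hpi := Real.pi_pos
  have hp1 : p ≠ 1 := by
    intro h1
    rw [h1] at h
    norm_num at h
  have hpm1 : p ≠ -1 := by
    intro h1
    rw [h1] at h
    norm_num at h
  set ξ := xi p with hξ
  have hξ0 : ξ ≠ 0 := xi_ne_zero hpm1 hp1
  have hc := XiA_conj_ne hp1
  have hz : ξ = 1 + 2 / ((starRingEnd ℂ) p - 1) := by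
    rw [hξ, xi]
    field_simp
    ring
  have hzn : ‖2 / ((starRingEnd ℂ) p - 1)‖ ≤ 1 / 4 := by
    have h1 : 8 ≤ ‖(starRingEnd ℂ) p - 1‖ := by
      have h2 := norm_sub_norm_le ((starRingEnd ℂ) p) 1
      rw [RCLike.norm_conj, norm_one] at h2
      linarith
    rw [norm_div, div_le_iff₀ (by linarith)]
    simp
    linarith
  set z := 2 / ((starRingEnd ℂ) p - 1) with hzdef
  have hz1 : ‖z‖ < 1 := by linarith
  have hlog : ‖Complex.log ξ‖ ≤ 7 / 24 := by
    have h1 := Complex.norm_log_one_add_sub_self_le hz1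
    rw [← hz] at h1
    have h2 : ‖z‖ ^ 2 * (1 - ‖z‖)⁻¹ / 2 ≤ 1 / 24 := by
      have h3 : (1 - ‖z‖)⁻¹ ≤ 4 / 3 := by
        rw [inv_le_comm₀ (by linarith) (by norm_num)]
        linarith
      have h4 : ‖z‖ ^ 2 ≤ 1 / 16 := by nlinarith [norm_nonneg z]
      have h5 : 0 ≤ (1 - ‖z‖)⁻¹ := by
        apply inv_nonneg.mpr
        linarith
      have h6 : ‖z‖ ^ 2 * (1 - ‖z‖)⁻¹ ≤ (1 / 16) * (4 / 3) :=
        mul_le_mul h4 h3 h5 (by norm_num)
      linarith
    have h3 : ‖Complex.log ξ‖ ≤ ‖Complex.log ξ - z‖ + ‖z‖ := by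
      have := norm_add_le (Complex.log ξ - z) z
      rwa [sub_add_cancel] at this
    linarith
  have hn1 : ‖ξ‖ ≤ 5 / 4 := by
    rw [hz]
    have := norm_add_le 1 z
    rw [norm_one] at this
    linarith
  have hn2 : 3 / 4 ≤ ‖ξ‖ := by
    rw [hz]
    have := norm_sub_norm_le 1 (-z)
    rw [norm_one, norm_neg, sub_neg_eq_add] at this
    linarith
  have hpy : py p - 1 / 2 = (Complex.log ξ).re / (2 * Real.pi) := by
    unfold py
    rw [nf_mid (by linarith) (by linarith), Complex.log_re]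
    ring
  have hpm : pm p - 1 / 2 = (Complex.log ξ).im / (2 * Real.pi) := by
    unfold pm
    rw [Complex.log_im]
    ring
  have hre := (Complex.abs_re_le_norm (Complex.log ξ)).trans hlog
  have him := (Complex.abs_im_le_norm (Complex.log ξ)).trans hlog
  have hpi3 := Real.pi_gt_three
  have b1 : |py p - 1 / 2| < 1 / 20 := by
    rw [hpy, abs_div, abs_of_pos (show (0 : ℝ) < 2 * Real.pi by positivity),
      div_lt_iff₀ (by positivity)]
    linarith
  have b2 : |pm p - 1 / 2| < 1 / 20 := by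
    rw [hpm, abs_div, abs_of_pos (show (0 : ℝ) < 2 * Real.pi by positivity),
      div_lt_iff₀ (by positivity)]
    linarith
  refine ⟨b1, b2, ?_, ?_⟩
  · rw [hpy, hpm]
    have e1 : (2 * (Real.pi : ℂ) * (((Complex.log ξ).re / (2 * Real.pi) : ℝ) +
        ((Complex.log ξ).im / (2 * Real.pi) : ℝ) * I)) = Complex.log ξ := by
      have hpic : (Real.pi : ℂ) ≠ 0 := by exact_mod_cast hpi.ne'
      conv_rhs => rw [← Complex.re_add_im (Complex.log ξ)]
      push_cast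
      field_simp
    rw [e1, Complex.exp_log hξ0]
  · have hnpos : 0 < ‖ξ‖ := norm_pos_iff.mpr hξ0
    have hfr : Int.fract (py p) = py p := by
      have hm := py_mem hpm1 hp1
      exact Int.fract_eq_self.mpr ⟨hm.1.le, hm.2⟩
    have hFF := FF_mid (y := py p) (t := pm p) b2.le (by rw [hfr]; linarith)
    rw [hfr] at hFF
    have ea : 2 * Real.pi * (py p - 1 / 2) = (Complex.log ξ).re := by
      rw [hpy]; field_simp
    have eb : 2 * Real.pi * (pm p - 1 / 2) = (Complex.log ξ).im := by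
      rw [hpm]; field_simp
    rw [ea, eb] at hFF
    have hexp : Real.exp (Complex.log ξ).re = ‖ξ‖ := by
      rw [Complex.log_re, Real.exp_log hnpos]
    have hsin : ‖ξ‖ * Real.sin (Complex.log ξ).im = ξ.im := by
      rw [Complex.log_im, Complex.sin_arg]
      field_simp
    have hsinh : Real.sinh (Complex.log ξ).re = (‖ξ‖ ^ 2 - 1) / (2 * ‖ξ‖) := by
      rw [Real.sinh_eq, Real.exp_neg, hexp]
      field_simp
    have hD : ξ - 1 ≠ 0 := sub_ne_zero.mpr (xi_ne_one p)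
    have hDpos : 0 < ‖ξ - 1‖ := norm_pos_iff.mpr hD
    -- the relation between `p` and `ξ`
    have hrel : (starRingEnd ℂ) p * (ξ - 1) = ξ + 1 := by
      rw [hξ, xi]
      field_simp
      ring
    have hre' := congrArg Complex.re hrel
    have him' := congrArg Complex.im hrel
    simp at hre' him'
    have hnsq : ‖ξ‖ ^ 2 = ξ.re ^ 2 + ξ.im ^ 2 := by
      rw [← Complex.normSq_eq_norm_sq, Complex.normSq_apply]; ring
    have hdsq : ‖ξ - 1‖ ^ 2 = (ξ.re - 1) ^ 2 + ξ.im ^ 2 := by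
      rw [← Complex.normSq_eq_norm_sq, Complex.normSq_apply]
      simp
      ring
    have hpre : p.re * ‖ξ - 1‖ ^ 2 = ‖ξ‖ ^ 2 - 1 := by
      rw [hnsq, hdsq]
      linear_combination (ξ.re - 1) * hre' + ξ.im * him'
    have hpim : p.im * ‖ξ - 1‖ ^ 2 = 2 * ξ.im := by
      rw [hdsq]
      linear_combination ξ.im * hre' - (ξ.re - 1) * him'
    refine ⟨‖ξ - 1‖ ^ 2 / (2 * ‖ξ‖), by positivity, ?_⟩
    rw [hFF]
    apply Complex.ext
    · simp only [Complex.sub_re, Complex.ofReal_re, Complex.mul_re, Complex.I_re, Complex.I_im,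
        Complex.ofReal_im, Complex.neg_re, Complex.neg_im, Complex.mul_im]
      have e1 : ‖ξ - 1‖ ^ 2 / (2 * ‖ξ‖) * p.im = Real.sin (Complex.log ξ).im := by
        rw [div_mul_eq_mul_div, mul_comm (‖ξ - 1‖ ^ 2), hpim, ← hsin]
        field_simp
      linear_combination -e1
    · simp only [Complex.sub_im, Complex.ofReal_re, Complex.mul_re, Complex.I_re, Complex.I_im,
        Complex.ofReal_im, Complex.neg_re, Complex.neg_im, Complex.mul_im]
      have e1 : ‖ξ - 1‖ ^ 2 / (2 * ‖ξ‖) * p.re = Real.sinh (Complex.log ξ).re := by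
        rw [hsinh, div_mul_eq_mul_div, mul_comm (‖ξ - 1‖ ^ 2), hpre]
      linear_combination e1

end Pool.Agent.CSG
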